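import Pool.Agent.BoltzM.HC.Basic

/-! Row A: the gain term in which the partner carries the function. -/

set_option autoImplicit false

open MeasureTheory Set Filter Topology
open scoped ENNReal RealInnerProductSpace

noncomputable section

namespace Pool.Agent.BoltzM.HC

open Coll

namespace RowA

lemma fin_wt {X : Type*} [NormedAddCommGroup X] [NormedSpace ℝ X]
    [FiniteDimensional ℝ X] [MeasurableSpace X] [BorelSpace X]
    (μ : Measure X) [μ.IsAddHaarMeasure] (q : ℕ) (hq : Module.finrank ℝ X < q) :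
    ∃ J : ℝ, 0 ≤ J ∧ ∫⁻ w, ENNReal.ofReal (((1 + ‖w‖) ^ q)⁻¹) ∂μ = ENNReal.ofReal J := by
  have := finite_integral_one_add_norm (μ := μ) (r := q) (by exact_mod_cast hq)
  refine ⟨_, ENNReal.toReal_nonneg, (ENNReal.ofReal_toReal (ne_of_lt ?_)).symm⟩
  refine lt_of_le_of_lt (le_of_eq (lintegral_congr fun w => ?_)) this
  rw [Real.rpow_neg (by positivity), Real.rpow_natCast]

lemma far_pow {A B t : ℝ} (hA : 0 < A) (hB : 1 ≤ B) (ht : 0 < t) (h : A ≤ B * t) (n : ℕ) :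
    A ^ (n + 3) * t ^ (-(101 / 100) : ℝ) ≤ t ^ n * (B ^ (n + 2) * A ^ (199 / 100 : ℝ)) := by
  have h1 : A ^ 3 = A ^ (199 / 100 : ℝ) * A ^ (101 / 100 : ℝ) := by
    rw [← Real.rpow_add hA, ← Real.rpow_natCast]; norm_num
  have h2 : A ^ (101 / 100 : ℝ) ≤ B ^ 2 * t ^ (101 / 100 : ℝ) := by
    calc A ^ (101 / 100 : ℝ) ≤ (B * t) ^ (101 / 100 : ℝ) := by gcongr
      _ = B ^ (101 / 100 : ℝ) * t ^ (101 / 100 : ℝ) := Real.mul_rpow (by linarith) ht.le
      _ ≤ _ := by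
          gcongr
          rw [← Real.rpow_natCast]
          exact Real.rpow_le_rpow_of_exponent_le hB (by norm_num)
  have h3 : t ^ (101 / 100 : ℝ) * t ^ (-(101 / 100) : ℝ) = 1 := by
    rw [← Real.rpow_add ht]; norm_num
  calc A ^ (n + 3) * t ^ (-(101 / 100) : ℝ)
      = A ^ n * (A ^ (199 / 100 : ℝ) * A ^ (101 / 100 : ℝ)) * t ^ (-(101 / 100) : ℝ) := by
        rw [pow_add, h1]
    _ ≤ (B * t) ^ n * (A ^ (199 / 100 : ℝ) * (B ^ 2 * t ^ (101 / 100 : ℝ)))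
        * t ^ (-(101 / 100) : ℝ) := by gcongr
    _ = t ^ n * (B ^ (n + 2) * A ^ (199 / 100 : ℝ))
        * (t ^ (101 / 100 : ℝ) * t ^ (-(101 / 100) : ℝ)) := by ring
    _ = _ := by rw [h3, mul_one]

variable [Dim]

lemma jb_le_far {v v' : E} (h : 1 < ‖v - v'‖) : jb v ≤ 2 * (1 + ‖v'‖) * ‖v - v'‖ := by
  have h1 := jb_add_le v' (v - v')
  rw [add_sub_cancel] at h1
  nlinarith [jb_le v', norm_nonneg v']

/-- the kernel of the row -/
def kA (p : E × E × S2) : ℝ := kf p * iw p.2.1 * min (zr p) 1 ^ (2 * dd + 4)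

/-- the kernel seen from `v_*'` -/
def kB (p : E × E × S2) : ℝ := kf p * iw (v1 p) * min (jb p.1 / jb (w1 p)) 1 ^ (2 * dd + 4)

lemma measurable_kA : Measurable kA := by unfold kA; fun_prop

lemma measurable_kB : Measurable kB := by unfold kB; fun_prop

lemma kA_nonneg (p : E × E × S2) : 0 ≤ kA p :=
  mul_nonneg (mul_nonneg (kf_nonneg p) (iw_pos _).le)
    (pow_nonneg (le_min (zr_pos p).le zero_le_one) _)

lemma kB_nonneg (p : E × E × S2) : 0 ≤ kB p :=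
  mul_nonneg (mul_nonneg (kf_nonneg p) (iw_pos _).le)
    (pow_nonneg (le_min (div_pos (jb_pos _) (jb_pos _)).le zero_le_one) _)

lemma kB_eq (p : E × E × S2) : kB (swp (coll p)) = kA p := by
  rw [kB, kA, kf_swp, kf_coll, v1_swp, w1_swp, v1_coll, w1_coll]
  rfl

lemma kA_le (p : E × E × S2) :
    kA p ≤ 8 * jb p.1 ^ gm * ((1 + ‖p.2.1‖) ^ (dd + 1))⁻¹ := by
  have hA := jb_pos p.1
  rcases le_or_gt |rho p| 1 with h | h
  · rw [kA, kf_neg h, zero_mul, zero_mul]; positivity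
  have ht : 0 < |rho p| := by linarith
  have hz := zr_pos p
  have hB : 1 ≤ 1 + ‖p.2.1‖ := by linarith [norm_nonneg p.2.1]
  have h1 : min (zr p) 1 ^ (2 * dd + 4) ≤ zr p ^ 2 :=
    (pow_le_pow_of_le_one (le_min hz.le zero_le_one) (min_le_right _ _) (by omega)).trans
      (pow_le_pow_left₀ (le_min hz.le zero_le_one) (min_le_left _ _) 2)
  have h2 : zr p ≤ 2 * (1 + ‖p.2.1‖) * |rho p| / jb p.1 := by
    have := jb_le_far (v := w1 p) (v' := p.2.1) (by rw [norm_w1_sub]; exact h)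
    rw [norm_w1_sub] at this
    exact div_le_div_of_nonneg_right this hA.le
  have h3 : ‖p.1 - p.2.1‖ ≤ jb p.1 * (1 + ‖p.2.1‖) := norm_sub_le_jb _ _
  have h4 : |rho p| ^ (-(101 / 100) : ℝ) * |rho p| ^ 2
      ≤ jb p.1 ^ (99 / 100 : ℝ) * (1 + ‖p.2.1‖) := by
    calc |rho p| ^ (-(101 / 100) : ℝ) * |rho p| ^ 2 = |rho p| ^ (99 / 100 : ℝ) := by
          rw [← Real.rpow_natCast, ← Real.rpow_add ht]; norm_num
      _ ≤ (jb p.1 * (1 + ‖p.2.1‖)) ^ (99 / 100 : ℝ) := by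
          gcongr; exact (abs_rho_le p).trans h3
      _ = jb p.1 ^ (99 / 100 : ℝ) * (1 + ‖p.2.1‖) ^ (99 / 100 : ℝ) :=
          Real.mul_rpow hA.le (by linarith)
      _ ≤ _ := by
          gcongr
          conv_rhs => rw [← Real.rpow_one (1 + ‖p.2.1‖)]
          exact Real.rpow_le_rpow_of_exponent_le hB (by norm_num)
  have h5 : jb p.1 ^ gm = jb p.1 * jb p.1 ^ (99 / 100 : ℝ) := by
    rw [gm, ← Real.rpow_one_add' hA.le (by norm_num)]; norm_num
  have h6 := pow_mul_iw_le (n := 6) (m := dd + 1) (by unfold pK; omega) p.2.1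
  have hi := iw_pos p.2.1
  rw [kA, kf_pos h, ker3_eq']
  calc 2 * ‖p.1 - p.2.1‖ ^ 3 * |rho p| ^ (-(101 / 100) : ℝ) * iw p.2.1
        * min (zr p) 1 ^ (2 * dd + 4)
      ≤ 2 * (jb p.1 * (1 + ‖p.2.1‖)) ^ 3 * |rho p| ^ (-(101 / 100) : ℝ) * iw p.2.1
        * (2 * (1 + ‖p.2.1‖) * |rho p| / jb p.1) ^ 2 := by
        gcongr
        exact h1.trans (pow_le_pow_left₀ hz.le h2 2)
    _ = 8 * jb p.1 * (1 + ‖p.2.1‖) ^ 5 * iw p.2.1
        * (|rho p| ^ (-(101 / 100) : ℝ) * |rho p| ^ 2) := by field_simp; ring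
    _ ≤ 8 * jb p.1 * (1 + ‖p.2.1‖) ^ 5 * iw p.2.1
        * (jb p.1 ^ (99 / 100 : ℝ) * (1 + ‖p.2.1‖)) := by gcongr
    _ = 8 * jb p.1 ^ gm * ((1 + ‖p.2.1‖) ^ 6 * iw p.2.1) := by rw [h5]; ring
    _ ≤ _ := by gcongr

lemma margA : ∃ C : ℝ, 0 ≤ C ∧ ∀ v,
    ∫⁻ z, ENNReal.ofReal (kA (v, z)) ∂mu2 ≤ ENNReal.ofReal (C * jb v ^ gm) := by
  obtain ⟨J, hJ, eJ⟩ := fin_wt (volume : Measure E) (dd + 1) (by simp)
  have hT := cT_pos
  refine ⟨8 * J * cT, by positivity, fun v => ?_⟩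
  have hA := jb_pos v
  calc _ ≤ ∫⁻ z : E × S2, ENNReal.ofReal (8 * jb v ^ gm)
        * ENNReal.ofReal (((1 + ‖z.1‖) ^ (dd + 1))⁻¹) ∂mu2 := by
        refine lintegral_mono fun z => ?_
        simp only
        rw [← ENNReal.ofReal_mul (by positivity)]
        exact ENNReal.ofReal_le_ofReal (kA_le (v, z))
    _ = _ := by
        rw [lintegral_mu2 _ (by fun_prop)]
        simp only [lintegral_const]
        rw [lintegral_mul_const _ (by fun_prop), lintegral_const_mul _ (by fun_prop), eJ, sph_univ,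
          ← ENNReal.ofReal_mul (by positivity), ← ENNReal.ofReal_mul (by positivity)]
        congr 1; ring

lemma scale {A : ℝ} (hA : 0 < A) :
    ∫⁻ y : E2, ENNReal.ofReal (((1 + ‖y‖ / A) ^ dd)⁻¹)
      = ENNReal.ofReal (A ^ (dd - 1)) * ∫⁻ y : E2, ENNReal.ofReal (((1 + ‖y‖) ^ dd)⁻¹) := by
  have h := Measure.map_addHaar_smul (volume : Measure E2) (r := A⁻¹) (inv_pos.2 hA).ne'
  have h2 := lintegral_map (μ := (volume : Measure E2))
    (f := fun y : E2 => ENNReal.ofReal (((1 + ‖y‖) ^ dd)⁻¹)) (g := fun y : E2 => A⁻¹ • y)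
    (by fun_prop) (by fun_prop)
  rw [h, lintegral_smul_measure] at h2
  simp only [norm_smul, Real.norm_eq_abs, abs_of_pos (inv_pos.2 hA), ← div_eq_inv_mul] at h2
  rw [← h2, inv_pow, inv_inv, abs_of_pos (pow_pos hA _), smul_eq_mul]
  simp

lemma kB_le (v : E) (o : S2) {ι : E2 →ₗᵢ[ℝ] E} (h0 : ∀ y, ⟪(o : E), ι y⟫ = 0) (r : ℝ) (y : E2) :
    kB (v, v - (r • (o : E) + ι y), o) ≤ (if 1 < |r| then 2 * 8 ^ (dd + 2) * jb v ^ 3
      * |r| ^ (-(101 / 100) : ℝ) * ((1 + ‖v - r • (o : E)‖) ^ (2 * dd + 7) * iw (v - r • (o : E)))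
        else 0) * ((1 + ‖y‖ / jb v) ^ dd)⁻¹ := by
  have e0 : rho (v, v - (r • (o : E) + ι y), o) = r := by
    simp only [rho, sub_sub_cancel]
    rw [real_inner_comm, inner_slice (norm_coe o) h0]
  have e1 : v1 (v, v - (r • (o : E) + ι y), o) = v - r • (o : E) := pv_carleman v o h0 r y
  have e2 : w1 (v, v - (r • (o : E) + ι y), o) = v - ι y := pw_carleman v o h0 r y
  split_ifs with h
  swap
  · rw [kB, kf_neg (by rw [e0]; exact not_lt.1 h)]; simp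
  rw [kB, kf_pos (by rw [e0]; exact h), ker3_eq', e0, e1, e2]
  simp only [sub_sub_cancel]
  set x := v - r • (o : E) with hx
  have hA := jb_pos v
  have hB : 1 ≤ 1 + ‖x‖ := by linarith [norm_nonneg x]
  have hs : 0 ≤ ‖y‖ / jb v := by positivity
  have hy : ‖y‖ = jb v * (‖y‖ / jb v) := by field_simp
  have h1 : ‖r • (o : E) + ι y‖ ≤ jb v * (1 + ‖x‖) * (1 + ‖y‖ / jb v) := by
    have a1 := norm_sub_le_jb v x
    rw [hx, sub_sub_cancel, ← hx] at a1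
    have a2 := norm_add_le (r • (o : E)) (ι y)
    rw [ι.norm_map] at a2
    have a3 : jb v * (‖y‖ / jb v) ≤ jb v * (1 + ‖x‖) * (‖y‖ / jb v) := by
      gcongr; exact le_mul_of_one_le_right hA.le hB
    linarith
  have h2 : min (jb v / jb (v - ι y)) 1 ^ 2 ≤ 8 * (1 + ‖x‖) ^ 2 / (1 + ‖y‖ / jb v) ^ 2 := by
    have hW := jb_pos (v - ι y)
    refine (pow_le_pow_left₀ (le_min (by positivity) zero_le_one) (min_le_left _ _) 2).trans ?_
    rw [div_pow, div_le_div_iff₀ (by positivity) (by positivity)]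
    have a1 : ⟪v, ι y⟫ = ⟪x, ι y⟫ := by
      rw [hx, inner_sub_left, inner_smul_left, h0]; simp
    have a2 : ⟪x, ι y⟫ ≤ ‖x‖ * ‖y‖ := by
      have := real_inner_le_norm x (ι y)
      rwa [ι.norm_map] at this
    have a3 : jb (v - ι y) ^ 2 = jb v ^ 2 - 2 * ⟪x, ι y⟫ + ‖y‖ ^ 2 := by
      rw [jb_sq, jb_sq, norm_sub_sq_real, ι.norm_map, a1]; ring
    have a4 : 1 ≤ jb (v - ι y) ^ 2 := one_le_pow₀ (one_le_jb _)
    have a5 : jb v ^ 2 * (1 + ‖y‖ / jb v) ^ 2 = (jb v + ‖y‖) ^ 2 := by field_simp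
    have a6 : 1 + ‖x‖ ^ 2 ≤ (1 + ‖x‖) ^ 2 := by nlinarith [norm_nonneg x]
    have a7 := mul_le_mul_of_nonneg_right a6 (sq_nonneg (jb (v - ι y)))
    have a8 := mul_nonneg (sq_nonneg ‖x‖) (sub_nonneg.2 a4)
    rw [a5]
    nlinarith [sq_nonneg (‖y‖ - 2 * ‖x‖), sq_nonneg (jb v - ‖y‖), sq_nonneg (jb v)]
  have h3 : min (jb v / jb (v - ι y)) 1 ^ (2 * dd + 4)
      ≤ (8 * (1 + ‖x‖) ^ 2 / (1 + ‖y‖ / jb v) ^ 2) ^ (dd + 2) := by
    rw [show 2 * dd + 4 = 2 * (dd + 2) by ring, pow_mul]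
    exact pow_le_pow_left₀ (sq_nonneg _) h2 _
  have hi := iw_pos x
  have hW := jb_pos (v - ι y)
  generalize ‖y‖ / jb v = s at *
  have h4 : (1 + s) ^ 3 / ((1 + s) ^ 2) ^ (dd + 2) ≤ ((1 + s) ^ dd)⁻¹ := by
    rw [inv_eq_one_div, div_le_div_iff₀ (by positivity) (by positivity), one_mul, ← pow_mul,
      ← pow_add]
    exact pow_le_pow_right₀ (by linarith) (by omega)
  calc 2 * ‖r • (o : E) + ι y‖ ^ 3 * |r| ^ (-(101 / 100) : ℝ) * iw x
        * min (jb v / jb (v - ι y)) 1 ^ (2 * dd + 4)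
      ≤ 2 * (jb v * (1 + ‖x‖) * (1 + s)) ^ 3 * |r| ^ (-(101 / 100) : ℝ) * iw x
        * (8 * (1 + ‖x‖) ^ 2 / (1 + s) ^ 2) ^ (dd + 2) := by gcongr
    _ = 2 * 8 ^ (dd + 2) * jb v ^ 3 * |r| ^ (-(101 / 100) : ℝ) * ((1 + ‖x‖) ^ (2 * dd + 7) * iw x)
        * ((1 + s) ^ 3 / ((1 + s) ^ 2) ^ (dd + 2)) := by
        rw [div_pow, mul_pow 8, ← pow_mul]; ring
    _ ≤ _ := by gcongr

lemma margB : ∃ C : ℝ, 0 ≤ C ∧ ∀ v,
    ∫⁻ z, ENNReal.ofReal (kB (v, z)) ∂mu2 ≤ ENNReal.ofReal (C * jb v ^ gm) := by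
  have hd := two_le_dd
  obtain ⟨J, hJ, eJ⟩ := fin_wt (volume : Measure E) (dd + 1) (by simp)
  obtain ⟨J2, hJ2, eJ2⟩ := fin_wt (volume : Measure E2) dd (by simp; omega)
  refine ⟨2 * (2 * 8 ^ (dd + 2) * J2 * 2 ^ (dd + 1) * J), by positivity, fun v => ?_⟩
  have hA := jb_pos v
  set c : ℝ := 2 * 8 ^ (dd + 2) * J2 * 2 ^ (dd + 1) * jb v ^ gm with hc
  have c0 : 0 ≤ c := by positivity
  have hm : Measurable fun z : E × S2 => ENNReal.ofReal (kB (v, z)) :=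
    (measurable_kB.comp (by fun_prop)).ennreal_ofReal
  have hF : Measurable fun z : E =>
      ENNReal.ofReal c * ENNReal.ofReal (((1 + ‖v - z‖) ^ (dd + 1))⁻¹) := by fun_prop
  rw [lintegral_mu2' _ hm]
  refine le_trans (lintegral_mono fun o => ?_) ((lintegral_polar_line _ hF).le.trans (le_of_eq ?_))
  · obtain ⟨ι, h0, -, hmp⟩ := exists_slice (o : E) (norm_coe o)
    simp only
    rw [lintegral_carleman v o hmp (fun w => ENNReal.ofReal (kB (v, w, o)))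
      (hm.comp (f := fun w : E => (w, o)) (by fun_prop))]
    refine lintegral_mono fun r => ?_
    have hi := iw_pos (v - r • (o : E))
    refine (lintegral_mono fun y => ENNReal.ofReal_le_ofReal (kB_le v o h0 r y)).trans ?_
    split_ifs with h
    swap
    · simp
    have hy : ∀ y : E2, 0 ≤ ((1 + ‖y‖ / jb v) ^ dd)⁻¹ := fun y => by positivity
    simp only [ENNReal.ofReal_mul' (hy _)]
    rw [lintegral_const_mul' _ _ ENNReal.ofReal_ne_top, scale hA, eJ2,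
      ← ENNReal.ofReal_mul (by positivity), ← ENNReal.ofReal_mul (by positivity),
      ← ENNReal.ofReal_mul c0, ← ENNReal.ofReal_mul (by positivity)]
    refine ENNReal.ofReal_le_ofReal ?_
    set x := v - r • (o : E) with hx
    have e1 : ‖v - x‖ = |r| := by rw [hx, sub_sub_cancel, norm_smul, norm_coe]; simp
    have h1 := jb_le_far (v := v) (v' := x) (by rw [e1]; exact h)
    rw [e1] at h1
    have h2 := far_pow hA (B := 2 * (1 + ‖x‖)) (by linarith [norm_nonneg x]) (by linarith) h1 (dd - 1)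
    have h3 := pow_mul_iw_le (n := 2 * dd + 7 + (dd + 1)) (m := dd + 1) (by unfold pK; omega) x
    rw [show dd - 1 + 2 = dd + 1 by omega] at h2
    calc 2 * 8 ^ (dd + 2) * jb v ^ 3 * |r| ^ (-(101 / 100) : ℝ) * ((1 + ‖x‖) ^ (2 * dd + 7) * iw x)
          * (jb v ^ (dd - 1) * J2)
        = 2 * 8 ^ (dd + 2) * J2 * ((1 + ‖x‖) ^ (2 * dd + 7) * iw x)
          * (jb v ^ (dd - 1 + 3) * |r| ^ (-(101 / 100) : ℝ)) := by ring
      _ ≤ 2 * 8 ^ (dd + 2) * J2 * ((1 + ‖x‖) ^ (2 * dd + 7) * iw x)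
          * (|r| ^ (dd - 1) * ((2 * (1 + ‖x‖)) ^ (dd + 1) * jb v ^ (199 / 100 : ℝ))) := by gcongr
      _ = |r| ^ (dd - 1) * (c * ((1 + ‖x‖) ^ (2 * dd + 7 + (dd + 1)) * iw x)) := by
          rw [hc, gm, mul_pow]; ring
      _ ≤ _ := by gcongr
  · rw [lintegral_const_mul _ (by fun_prop),
      lintegral_sub_left_eq_self (fun z : E => ENNReal.ofReal (((1 + ‖z‖) ^ (dd + 1))⁻¹)) v, eJ,
      ← ENNReal.ofReal_mul c0, ← ENNReal.ofReal_ofNat 2, ← ENNReal.ofReal_mul (by norm_num)]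
    congr 1
    rw [hc]; ring

end RowA

variable [Dim]

open RowA in
theorem aS : AStmt := by
  obtain ⟨C1, h1, m1⟩ := margA
  obtain ⟨C2, h2, m2⟩ := margB
  refine ⟨C1 + C2 + 1, by positivity, fun f g hf hg => ?_⟩
  have a1 := I3_fst measurable_kA kA_nonneg h1 m1 hf
  have a2 := I3_fst measurable_kB kB_nonneg h2 m2 hg
  have mB := measurable_kB
  rw [← I3_swp (by fun_prop), ← I3_coll (by fun_prop)] at a2
  simp only [kB_eq] at a2
  have a3 := I3_cs (a := fun p => f p.1) (b := fun p => g (w1 p)) measurable_kA (by fun_prop)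
    (by fun_prop) kA_nonneg
  refine le_trans a3 ?_
  have b1 : ENNReal.ofReal C1 ≤ ENNReal.ofReal (C1 + C2 + 1) :=
    ENNReal.ofReal_le_ofReal (by linarith)
  have b2 : ENNReal.ofReal C2 ≤ ENNReal.ofReal (C1 + C2 + 1) :=
    ENNReal.ofReal_le_ofReal (by linarith)
  calc _ ≤ (ENNReal.ofReal (C1 + C2 + 1) * Wn gm f) ^ (1 / 2 : ℝ)
        * (ENNReal.ofReal (C1 + C2 + 1) * Wn gm g) ^ (1 / 2 : ℝ) :=
        mul_le_mul' (ENNReal.rpow_le_rpow (a1.trans (mul_le_mul_left b1 _)) (by norm_num))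
          (ENNReal.rpow_le_rpow (le_trans a2 (mul_le_mul_left b2 _)) (by norm_num))
    _ = _ := by
        rw [ENNReal.mul_rpow_of_nonneg _ _ (by norm_num), ENNReal.mul_rpow_of_nonneg _ _ (by norm_num),
          mul_mul_mul_comm, ← ENNReal.rpow_add_of_nonneg _ _ (by norm_num) (by norm_num)]
        norm_num

end Pool.Agent.BoltzM.HC
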