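import Pool.Agent.BoltzM.HC.Basic

/-! Row B1: the excess of the weight ratio outside the transfer region. -/

set_option autoImplicit false

open MeasureTheory Set Filter Topology
open scoped ENNReal RealInnerProductSpace

noncomputable section

namespace Pool.Agent.BoltzM.HC

open Coll

variable [Dim]

namespace B1

/-- the partner that is left -/
def hw (w : E) : ℝ := ((1 + ‖w‖) ^ (dd + 3))⁻¹

lemma hw_pos (w : E) : 0 < hw w := by unfold hw; positivity

@[fun_prop] lemma measurable_hw : Measurable hw := by unfold hw; fun_prop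

lemma wt_lt_top : ∫⁻ w : E, ENNReal.ofReal (((1 + ‖w‖) ^ (dd + 1))⁻¹) < ∞ := by
  have := finite_integral_one_add_norm (μ := (volume : Measure E)) (r := ((dd + 1 : ℕ) : ℝ))
    (by simp)
  refine lt_of_le_of_lt (le_of_eq (lintegral_congr fun w => ?_)) this
  rw [Real.rpow_neg (by positivity), Real.rpow_natCast]

/-- the marginal before the collision -/
lemma marg (hA : AngStmt) : ∃ C : ℝ, 0 < C ∧ ∀ f : E → ℝ, Measurable f →
    I3 (fun p => kx p * (hw p.2.1 / jb p.1) * f p.1 ^ 2) ≤ ENNReal.ofReal C * Wn 1 f := by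
  obtain ⟨A, hA, hang⟩ := hA
  set B := ∫⁻ w : E, ENNReal.ofReal (((1 + ‖w‖) ^ (dd + 1))⁻¹) with hB
  have hB' : B = ENNReal.ofReal B.toReal := (ENNReal.ofReal_toReal wt_lt_top.ne).symm
  have hBn : 0 ≤ B.toReal := ENNReal.toReal_nonneg
  refine ⟨A * B.toReal + 1, by positivity, fun f hf => ?_⟩
  refine I3_fst (k := fun p => kx p * (hw p.2.1 / jb p.1)) (by fun_prop)
    (fun p => mul_nonneg (kx_nonneg p) (div_pos (hw_pos _) (jb_pos _)).le) (by positivity)
    (fun v => ?_) hf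
  have hv := jb_pos v
  rw [lintegral_mu2 _ (by fun_prop), Real.rpow_one]
  calc _ ≤ ∫⁻ w : E, ENNReal.ofReal (A * jb v) *
        ENNReal.ofReal (((1 + ‖w‖) ^ (dd + 1))⁻¹) := by
        refine lintegral_mono fun w => ?_
        have hw0 : 0 ≤ hw w / jb v := (div_pos (hw_pos _) hv).le
        have h1 : ∀ o : S2, ENNReal.ofReal (kx (v, w, o) * (hw w / jb v)) =
            ENNReal.ofReal (kx (v, w, o)) * ENNReal.ofReal (hw w / jb v) :=
          fun o => ENNReal.ofReal_mul' hw0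
        simp only [h1]
        rw [lintegral_mul_const _ (by fun_prop), ← ENNReal.ofReal_mul (by positivity)]
        refine (mul_le_mul_left (hang _ _) _).trans ?_
        rw [← ENNReal.ofReal_mul (by positivity)]
        refine ENNReal.ofReal_le_ofReal ?_
        have h2 := norm_sub_le_jb v w
        calc A * ‖v - w‖ ^ 2 * (hw w / jb v)
            ≤ A * (jb v * (1 + ‖w‖)) ^ 2 * (hw w / jb v) := by gcongr
          _ = _ := by unfold hw; field_simp; ring
    _ = ENNReal.ofReal (A * B.toReal * jb v) := by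
        rw [lintegral_const_mul _ (by fun_prop), ← hB, hB', ← ENNReal.ofReal_mul (by positivity),
          ENNReal.toReal_ofReal hBn]
        congr 1; ring
    _ ≤ _ := by gcongr; linarith

omit [Dim] in
lemma pow_sub_one_le {x : ℝ} (h1 : 1 ≤ x) (h2 : x ≤ 2) (q : ℕ) : x ^ q - 1 ≤ 3 ^ q * (x - 1) := by
  induction q with
  | zero => simpa using h1
  | succ n ih =>
    have h3 : (1 : ℝ) ≤ 3 ^ n := one_le_pow₀ (by norm_num)
    have h4 : 1 ≤ x ^ n := one_le_pow₀ h1
    have h5 : x * (x ^ n - 1) ≤ 2 * (x ^ n - 1) := mul_le_mul_of_nonneg_right h2 (by linarith)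
    have h6 : 1 * (x - 1) ≤ 3 ^ n * (x - 1) := mul_le_mul_of_nonneg_right h3 (by linarith)
    rw [pow_succ, pow_succ]
    nlinarith

/-- the pointwise bound of the kernel -/
lemma ker_le (q : ℕ) {p : E × E × S2} (ho : ¬Out p) (hx : 1 < xr p) :
    ker3 p * r2 q p ≤ 3 ^ q * (kx p * ((1 + ‖p.2.1‖) ^ 2 / jb p.1)) := by
  have hv := jb_pos p.1
  have hk := ker3_nonneg p
  have hw0 := norm_nonneg p.2.1
  have key : xr p ≤ 2 ∧ xr p - 1 ≤ min 1 |rho p| * ((1 + ‖p.2.1‖) ^ 2 / jb p.1) := by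
    rcases le_or_gt |rho p| 1 with h | h
    · refine ⟨(le_xr_of_near h).2, ?_⟩
      rw [min_eq_right h, ← mul_div_assoc]
      refine ((le_abs_self _).trans (abs_xr_sub_one p)).trans ?_
      gcongr
      exact le_mul_of_one_le_right (abs_nonneg _) (by nlinarith)
    · have h1 : ‖p.2.1‖ ≤ ‖p.1‖ := not_lt.1 fun h' => ho ⟨h, h'⟩
      have h2 := xr_sq_le p
      have h3 : ‖p.2.1‖ ^ 2 / jb p.1 ^ 2 ≤ 1 := by
        rw [div_le_one (by positivity)]
        gcongr
        exact h1.trans (norm_le_jb _)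
      have h4 : ‖p.2.1‖ ^ 2 / jb p.1 ^ 2 ≤ (1 + ‖p.2.1‖) ^ 2 / jb p.1 := by
        refine div_le_div₀ (by positivity) (by nlinarith) hv ?_
        nlinarith [one_le_jb p.1]
      rw [min_eq_left h.le, one_mul]
      constructor <;> nlinarith
  have h5 : r2 q p ≤ 3 ^ q * (xr p - 1) :=
    max_le (pow_sub_one_le hx.le key.1 q) (mul_nonneg (by positivity) (by linarith))
  calc ker3 p * r2 q p ≤ ker3 p * (3 ^ q * (min 1 |rho p| * ((1 + ‖p.2.1‖) ^ 2 / jb p.1))) := by
        refine mul_le_mul_of_nonneg_left (h5.trans ?_) hk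
        exact mul_le_mul_of_nonneg_left key.2 (by positivity)
    _ = _ := by rw [kx]; ring

lemma r2_eq_zero (q : ℕ) {p : E × E × S2} (hx : xr p ≤ 1) : r2 q p = 0 :=
  max_eq_right (sub_nonpos.2 (pow_le_one₀ (xr_pos p).le hx))

lemma pw_iw {n : ℕ} (hn : n ≤ 3) (w : E) : (1 + ‖w‖) ^ n * iw w ≤ hw w :=
  pow_mul_iw_le (by unfold pK; omega) w

lemma pt (q : ℕ) (p : E × E × S2) :
    kS (fun p => ¬Out p) p * iw p.2.1 * r2 q p
        ≤ 3 ^ (q + (dd + 3)) * (kx p * (hw p.2.1 / jb p.1)) ∧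
      kS (fun p => ¬Out p) p * iw p.2.1 * r2 q p
        ≤ 3 ^ (q + (dd + 3)) * (kx p * (hw (w1 p) / jb (v1 p))) := by
  have hv := jb_pos p.1
  have hv' := jb_pos (v1 p)
  have hk := kx_nonneg p
  have h1 := hw_pos p.2.1
  have h2 := hw_pos (w1 p)
  have hi := iw_pos p.2.1
  have hw0 := norm_nonneg p.2.1
  by_cases ho : Out p
  · rw [kS_neg (not_not.2 ho), zero_mul, zero_mul]
    constructor <;> positivity
  rcases le_or_gt (xr p) 1 with hx | hx
  · rw [r2_eq_zero q hx, mul_zero]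
    constructor <;> positivity
  rw [kS_pos (S := fun p => ¬Out p) ho, mul_right_comm]
  have h3 := mul_le_mul_of_nonneg_right (ker_le q ho hx) hi.le
  have h4 : (1 : ℝ) ≤ 3 ^ (dd + 3) := one_le_pow₀ (by norm_num)
  constructor
  · calc _ ≤ _ := h3
      _ = 3 ^ q * 1 * (kx p * ((1 + ‖p.2.1‖) ^ 2 * iw p.2.1 / jb p.1)) := by ring
      _ ≤ 3 ^ q * 3 ^ (dd + 3) * (kx p * (hw p.2.1 / jb p.1)) := by
        gcongr
        exact pw_iw (by norm_num) _
      _ = _ := by rw [← pow_add]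
  · have h5 : 1 / jb p.1 ≤ (1 + ‖p.2.1‖) / jb (v1 p) := by
      rw [div_le_div_iff₀ hv hv', one_mul, ← xr_mul]
      gcongr
      exact (xr_le p).trans (jb_le _)
    have h6 : hw p.2.1 ≤ 3 ^ (dd + 3) * hw (w1 p) := by
      have h7 := abs_rho_lt_of_one_lt hx
      have h8 := norm_le_norm_add_norm_sub' (w1 p) p.2.1
      rw [norm_w1_sub] at h8
      rw [hw, hw, ← div_eq_mul_inv, le_div_iff₀ (by positivity), inv_mul_le_iff₀ (by positivity),
        ← mul_pow]
      gcongr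
      linarith
    calc _ ≤ _ := h3
      _ = 3 ^ q * (kx p * ((1 + ‖p.2.1‖) ^ 2 * iw p.2.1 * (1 / jb p.1))) := by ring
      _ ≤ 3 ^ q * (kx p * ((1 + ‖p.2.1‖) ^ 2 * iw p.2.1 * ((1 + ‖p.2.1‖) / jb (v1 p)))) := by
        gcongr
      _ = 3 ^ q * (kx p * ((1 + ‖p.2.1‖) ^ 3 * iw p.2.1 / jb (v1 p))) := by ring
      _ ≤ 3 ^ q * (kx p * (3 ^ (dd + 3) * hw (w1 p) / jb (v1 p))) := by
        gcongr 3 ^ q * (kx p * (?_ / jb (v1 p)))
        exact (pw_iw le_rfl _).trans h6
      _ = _ := by rw [pow_add]; ring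

end B1

open B1 in
theorem b1 (hA : AngStmt) (_hP : PostStmt) (_hC : ConvStmt) : B1Stmt := by
  obtain ⟨C, hC, hm⟩ := marg hA
  intro q
  have hc : (0 : ℝ) < 3 ^ (q + (dd + 3)) := by positivity
  refine ⟨3 ^ (q + (dd + 3)) * C, by positivity, fun f g hf hg => ?_⟩
  have hS : Measurable (kS fun p => ¬Out p) := measurable_kS measurableSet_Out.compl
  have h0 := I3_cs (k := fun p => kS (fun p => ¬Out p) p * iw p.2.1 * r2 q p)
    (a := fun p => f p.1) (b := fun p => g (v1 p)) (by fun_prop) (by fun_prop) (by fun_prop)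
    fun p => mul_nonneg (mul_nonneg (kS_nonneg _ p) (iw_pos _).le) (r2_nonneg q p)
  have h1 : I3 (fun p => kS (fun p => ¬Out p) p * iw p.2.1 * r2 q p * f p.1 ^ 2)
      ≤ ENNReal.ofReal (3 ^ (q + (dd + 3)) * C) * Wn 1 f := by
    rw [ENNReal.ofReal_mul hc.le, mul_assoc]
    refine le_trans ?_ (mul_le_mul_right (hm f hf) _)
    rw [← I3_const_mul hc.le]
    refine I3_mono fun p => ?_
    rw [← mul_assoc (3 ^ (q + (dd + 3)) : ℝ)]
    exact mul_le_mul_of_nonneg_right (pt q p).1 (sq_nonneg _)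
  have h2 : I3 (fun p => kS (fun p => ¬Out p) p * iw p.2.1 * r2 q p * g (v1 p) ^ 2)
      ≤ ENNReal.ofReal (3 ^ (q + (dd + 3)) * C) * Wn 1 g := by
    rw [ENNReal.ofReal_mul hc.le, mul_assoc]
    refine le_trans ?_ (mul_le_mul_right (hm g hg) _)
    rw [← I3_coll (F := fun p => kx p * (hw p.2.1 / jb p.1) * g p.1 ^ 2) (by fun_prop),
      ← I3_const_mul hc.le]
    refine I3_mono fun p => ?_
    rw [← mul_assoc (3 ^ (q + (dd + 3)) : ℝ), kx_coll, coll_fst, coll_snd]
    exact mul_le_mul_of_nonneg_right (pt q p).2 (sq_nonneg _)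
  refine h0.trans ((mul_le_mul' (ENNReal.rpow_le_rpow h1 (by norm_num))
    (ENNReal.rpow_le_rpow h2 (by norm_num))).trans (le_of_eq ?_))
  rw [ENNReal.mul_rpow_of_nonneg _ _ (by norm_num), ENNReal.mul_rpow_of_nonneg _ _ (by norm_num),
    mul_mul_mul_comm, ← ENNReal.rpow_add_of_nonneg _ _ (by norm_num) (by norm_num)]
  norm_num

end Pool.Agent.BoltzM.HC
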