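import Pool.Agent.BoltzM.HC.Basic

/-! Row B2: the two bounds for the transfer term. -/

set_option autoImplicit false

open MeasureTheory Set Filter Topology
open scoped ENNReal RealInnerProductSpace

noncomputable section

namespace Pool.Agent.BoltzM.HC

open Coll

variable [Dim]

namespace B2

lemma pow_le_min {p : E × E × S2} (h : Out p) {q : ℕ} (hq : 2 * dd + 4 ≤ q) :
    zr (swp p) ^ q ≤ 2 ^ q * min (zr (swp p)) 1 ^ (2 * dd + 4) := by
  have h0 := zr_pos (swp p)
  rcases le_total (zr (swp p)) 1 with h1 | h1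
  · rw [min_eq_left h1]
    exact (pow_le_pow_of_le_one h0.le h1 hq).trans
      (le_mul_of_one_le_left (by positivity) (one_le_pow₀ one_le_two))
  · rw [min_eq_right h1, one_pow, mul_one]
    refine pow_le_pow_left₀ h0.le ?_ q
    have h2 : zr (swp p) ^ 2 ≤ 1 + ‖p.1‖ ^ 2 / jb p.2.1 ^ 2 := zr_sq_le (swp p)
    have h3 : ‖p.1‖ ^ 2 / jb p.2.1 ^ 2 ≤ 1 := by
      rw [div_le_one (pow_pos (jb_pos _) 2)]
      exact pow_le_pow_left₀ (norm_nonneg _) (h.2.le.trans (norm_le_jb _)) 2
    nlinarith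

lemma norm_le {p : E × E × S2} (h : Out p) : ‖p.1 - p.2.1‖ ≤ 2 * ‖p.2.1‖ := by
  linarith [norm_sub_le p.1 p.2.1, h.2]

omit [Dim] in
lemma rpow_le_one {t : ℝ} (h : 1 < |t|) : |t| ^ (-(101 / 100) : ℝ) ≤ 1 :=
  Real.rpow_le_one_of_one_le_of_nonpos h.le (by norm_num)

lemma pyth (p : E × E × S2) : rho p ^ 2 + ‖v1 p - p.2.1‖ ^ 2 = ‖p.1 - p.2.1‖ ^ 2 := by
  have h : v1 p - p.2.1 = (p.1 - p.2.1) - rho p • (p.2.2 : E) := by rw [v1_eq]; abel
  rw [h, norm_sub_sq_real, inner_smul_right, norm_smul, norm_coe, Real.norm_eq_abs, mul_one, sq_abs]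
  unfold rho
  ring

lemma pt_fst (p : E × E × S2) : kS Out p * iw p.2.1 ≤ 16 * ((1 + ‖p.2.1‖) ^ (dd + 1))⁻¹ := by
  by_cases h : Out p
  · have h1 := pow_mul_iw_le (n := 3) (m := dd + 1) (by unfold pK; omega) p.2.1
    have h2 : ker3 p ≤ 16 * (1 + ‖p.2.1‖) ^ 3 := by
      rw [ker3_eq']
      calc _ ≤ 2 * (2 * (1 + ‖p.2.1‖)) ^ 3 * 1 := by
            gcongr
            · linarith [norm_le h]
            · exact rpow_le_one h.1
        _ = _ := by ring
    rw [kS_pos h]
    calc _ ≤ 16 * (1 + ‖p.2.1‖) ^ 3 * iw p.2.1 := mul_le_mul_of_nonneg_right h2 (iw_pos _).le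
      _ ≤ _ := by rw [mul_assoc]; gcongr
  · rw [kS_neg h, zero_mul]; positivity

lemma fst : ∃ C : ℝ, 0 < C ∧ ∀ f : E → ℝ, Measurable f →
    I3 (fun p => kS Out p * iw p.2.1 * f p.1 ^ 2) ≤ ENNReal.ofReal C * Wn 0 f := by
  have hB : ∫⁻ w : E, ENNReal.ofReal (((1 + ‖w‖) ^ (dd + 1))⁻¹) < ∞ := by
    have := finite_integral_one_add_norm (μ := (volume : Measure E)) (r := (dd + 1 : ℕ))
      (by rw [finrank_Ix]; push_cast; linarith)
    refine lt_of_le_of_lt (le_of_eq (lintegral_congr fun w => ?_)) this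
    rw [Real.rpow_neg (by positivity), Real.rpow_natCast]
  set B := ∫⁻ w : E, ENNReal.ofReal (((1 + ‖w‖) ^ (dd + 1))⁻¹) with hBd
  have hT := cT_pos
  have hk := measurable_kS measurableSet_Out
  refine ⟨16 * cT * B.toReal + 1, by positivity, fun f hf => ?_⟩
  refine I3_fst (k := fun p => kS Out p * iw p.2.1) (by fun_prop)
    (fun p => mul_nonneg (kS_nonneg _ _) (iw_pos _).le) (by positivity) (fun v => ?_) hf
  calc _ ≤ ∫⁻ z : E × S2, ENNReal.ofReal (16 * ((1 + ‖z.1‖) ^ (dd + 1))⁻¹) ∂mu2 :=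
        lintegral_mono fun z => ENNReal.ofReal_le_ofReal (pt_fst (v, z))
    _ = ENNReal.ofReal (16 * cT) * B := by
        rw [lintegral_mu2 _ (by fun_prop), hBd, ← lintegral_const_mul' _ _ ENNReal.ofReal_ne_top]
        refine lintegral_congr fun w => ?_
        dsimp only
        rw [lintegral_const, sph_univ, ← ENNReal.ofReal_mul (by positivity),
          ← ENNReal.ofReal_mul (by positivity)]
        congr 1; ring
    _ ≤ _ := by
        rw [← ENNReal.ofReal_toReal hB.ne, ← ENNReal.ofReal_mul (by positivity),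
          ENNReal.toReal_ofReal ENNReal.toReal_nonneg, Real.rpow_zero]
        exact ENNReal.ofReal_le_ofReal (by linarith)

open Classical in
/-- the region after the collision -/
def Ph (g : E → ℝ) (t : ℝ) (w x : E) : ℝ :=
  if 1 < |t| ∧ t ^ 2 + ‖x - w‖ ^ 2 ≤ (2 * ‖w‖) ^ 2 then iw w * g x ^ 2 else 0

lemma measurable_Ph {g : E → ℝ} (hg : Measurable g) :
    Measurable fun z : ℝ × E × E => Ph g z.1 z.2.1 z.2.2 := by
  unfold Ph
  refine Measurable.ite ?_ (by fun_prop) measurable_const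
  exact (measurableSet_lt (f := fun _ => (1 : ℝ)) (g := fun z : ℝ × E × E => |z.1|)
    measurable_const (by fun_prop)).inter (measurableSet_le
      (f := fun z : ℝ × E × E => z.1 ^ 2 + ‖z.2.2 - z.2.1‖ ^ 2) (g := fun z => (2 * ‖z.2.1‖) ^ 2)
      (by fun_prop) (by fun_prop))

lemma line (g : E → ℝ) (w x : E) : ∫⁻ t : ℝ, ENNReal.ofReal
      (2 * (t ^ 2 + ‖x - w‖ ^ 2) ^ (3 / 2 : ℝ) * |t| ^ (-(101 / 100) : ℝ) * Ph g t w x)
    ≤ ENNReal.ofReal (64 * ((1 + ‖w‖) ^ (dd + 2))⁻¹ * g x ^ 2) := by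
  have hw := norm_nonneg w
  have hi := iw_pos w
  calc _ ≤ ∫⁻ t : ℝ, (Icc (-(2 * ‖w‖)) (2 * ‖w‖)).indicator
        (fun _ => ENNReal.ofReal (16 * ‖w‖ ^ 3 * (iw w * g x ^ 2))) t := by
        refine lintegral_mono fun t => ?_
        unfold Ph
        split_ifs with h
        · have h1 : t ^ 2 ≤ (2 * ‖w‖) ^ 2 := by linarith [h.2, sq_nonneg ‖x - w‖]
          rw [indicator_of_mem (mem_Icc.2 (abs_le_of_sq_le_sq' h1 (by positivity)))]
          refine ENNReal.ofReal_le_ofReal (mul_le_mul_of_nonneg_right ?_ (by positivity))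
          have h2 : (t ^ 2 + ‖x - w‖ ^ 2) ^ (3 / 2 : ℝ) ≤ (2 * ‖w‖) ^ 3 := by
            calc _ ≤ ((2 * ‖w‖) ^ 2) ^ (3 / 2 : ℝ) :=
                  Real.rpow_le_rpow (by positivity) h.2 (by norm_num)
              _ = _ := by
                  rw [← Real.rpow_natCast, ← Real.rpow_mul (by positivity), ← Real.rpow_natCast]
                  norm_num
          calc _ ≤ 2 * (2 * ‖w‖) ^ 3 * 1 := by
                gcongr
                exact rpow_le_one h.1
            _ = _ := by ring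
        · simp
    _ = ENNReal.ofReal (16 * ‖w‖ ^ 3 * (iw w * g x ^ 2) * (2 * ‖w‖ - -(2 * ‖w‖))) := by
        rw [lintegral_indicator measurableSet_Icc, setLIntegral_const, Real.volume_Icc,
          ← ENNReal.ofReal_mul (by positivity)]
    _ ≤ _ := by
        refine ENNReal.ofReal_le_ofReal ?_
        have h1 := pow_mul_iw_le (n := 4) (m := dd + 2) (by unfold pK; omega) w
        calc _ = 64 * (‖w‖ ^ 4 * iw w) * g x ^ 2 := by ring
          _ ≤ 64 * ((1 + ‖w‖) ^ 4 * iw w) * g x ^ 2 := by gcongr; linarith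
          _ ≤ _ := by gcongr

lemma snd (hP : PostStmt) (hC : ConvStmt) : ∃ C : ℝ, 0 < C ∧ ∀ g : E → ℝ, Measurable g →
    I3 (fun p => kS Out p * iw p.2.1 * g (v1 p) ^ 2) ≤ ENNReal.ofReal C * Wn 0 g := by
  obtain ⟨C, hC0, hC⟩ := hC
  have hS := cS_pos
  refine ⟨64 * cS * C, by positivity, fun g hg => ?_⟩
  calc _ ≤ I3 (fun p => ker3 p * Ph g (rho p) p.2.1 (v1 p)) := by
        refine I3_mono fun p => ?_
        by_cases h : Out p
        · rw [kS_pos h, Ph, if_pos ⟨h.1, by
            rw [pyth]; exact pow_le_pow_left₀ (norm_nonneg _) (norm_le h) 2⟩, mul_assoc]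
        · rw [kS_neg h, zero_mul, zero_mul]
          refine mul_nonneg (ker3_nonneg p) ?_
          unfold Ph
          split_ifs
          · exact mul_nonneg (iw_pos _).le (sq_nonneg _)
          · exact le_rfl
    _ = _ := hP _ (measurable_Ph hg)
    _ ≤ _ := by
        rw [Wn, ← lintegral_const_mul' _ _ ENNReal.ofReal_ne_top]
        refine lintegral_mono fun x => ?_
        calc _ ≤ ∫⁻ w : E, ENNReal.ofReal (64 * cS * g x ^ 2)
              * ENNReal.ofReal (((1 + ‖w‖) ^ (dd + 2))⁻¹ / ‖x - w‖) := by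
              refine lintegral_mono fun w => (mul_le_mul_right (line g w x) _).trans (le_of_eq ?_)
              rw [← ENNReal.ofReal_mul (by positivity), ← ENNReal.ofReal_mul (by positivity)]
              congr 1; ring
          _ ≤ ENNReal.ofReal (64 * cS * g x ^ 2) * ENNReal.ofReal (C / jb x) := by
              rw [lintegral_const_mul' _ _ ENNReal.ofReal_ne_top]
              exact mul_le_mul_right (hC x) _
          _ ≤ _ := by
              rw [← ENNReal.ofReal_mul (by positivity), ← ENNReal.ofReal_mul (by positivity),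
                Real.rpow_zero]
              refine ENNReal.ofReal_le_ofReal ?_
              calc _ ≤ 64 * cS * g x ^ 2 * C := by
                    gcongr
                    exact div_le_self hC0.le (one_le_jb x)
                _ = _ := by ring

end B2

theorem bA (h : AStmt) : BaStmt := by
  obtain ⟨C, hC0, hC⟩ := h
  intro q hq
  refine ⟨C * 2 ^ q, by positivity, fun K G f g hG hf hg hK => ?_⟩
  have hK0 : 0 ≤ K := by
    have h1 := (abs_nonneg _).trans (hK 0)
    rw [mul_assoc] at h1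
    exact nonneg_of_mul_nonneg_left h1 (mul_pos (iw_pos _) (pow_pos (jb_pos _) q))
  set F : E × E × S2 → ℝ := fun p => kf p * iw p.2.1 * min (zr p) 1 ^ (2 * dd + 4)
    * (|jb p.1 ^ q * G p.1| * |g (w1 p)|) with hF
  have hm : Measurable F := by rw [hF]; fun_prop
  calc Ot q G f g ≤ I3 (fun p => (2 ^ q * K) * F (swp p)) := by
        refine I3_mono fun p => ?_
        have e : F (swp p) = kf p * iw p.1 * min (zr (swp p)) 1 ^ (2 * dd + 4)
            * (|jb p.2.1 ^ q * G p.2.1| * |g (v1 p)|) := by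
          rw [hF]; simp only [kf_swp, w1_swp]; rfl
        have h1 := iw_pos p.1
        have h2 := jb_pos p.2.1
        have h3 := lt_min (zr_pos (swp p)) one_pos
        have h4 := xr_pos p
        rw [e]
        by_cases ho : Out p
        · have h5 := ker3_nonneg p
          have h6 : xr p ^ q * jb p.1 ^ q = zr (swp p) ^ q * jb p.2.1 ^ q := by
            rw [← mul_pow, ← mul_pow, xr_mul, ← w1_swp]
            exact congrArg (· ^ q) (zr_mul (swp p)).symm
          rw [kS_pos ho, kf_pos ho.1, abs_mul, abs_of_pos (pow_pos h2 q)]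
          calc _ ≤ ker3 p * |G p.2.1| * xr p ^ q * (K * iw p.1 * jb p.1 ^ q * |g (v1 p)|) := by
                gcongr; exact hK _
            _ = ker3 p * |G p.2.1| * K * iw p.1 * |g (v1 p)| * (xr p ^ q * jb p.1 ^ q) := by ring
            _ ≤ ker3 p * |G p.2.1| * K * iw p.1 * |g (v1 p)|
                * (2 ^ q * min (zr (swp p)) 1 ^ (2 * dd + 4) * jb p.2.1 ^ q) := by
                rw [h6]; gcongr; exact B2.pow_le_min ho hq
            _ = _ := by ring
        · have h5 := kf_nonneg p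
          rw [kS_neg ho, zero_mul, zero_mul, zero_mul]
          positivity
    _ = ENNReal.ofReal (2 ^ q * K) * I3 F := by
        rw [I3_const_mul (by positivity), I3_swp hm]
    _ ≤ ENNReal.ofReal (2 ^ q * K) * (ENNReal.ofReal C
        * (Wn gm (fun w => jb w ^ q * G w) ^ (1 / 2 : ℝ) * Wn gm g ^ (1 / 2 : ℝ))) :=
        mul_le_mul_right (hC (fun w => jb w ^ q * G w) g (by fun_prop) hg) _
    _ = _ := by
        rw [← mul_assoc, ← ENNReal.ofReal_mul (by positivity)]
        congr 2; ring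

theorem bB (hP : PostStmt) (hC : ConvStmt) : BbStmt := by
  obtain ⟨C1, h10, h1⟩ := B2.fst
  obtain ⟨C2, h20, h2⟩ := B2.snd hP hC
  refine ⟨C1 + C2, by positivity, fun q K G f g hG hf hg hK => ?_⟩
  have hK0 : 0 ≤ K := nonneg_of_mul_nonneg_left
    ((mul_nonneg (pow_pos (jb_pos _) q).le (abs_nonneg _)).trans (hK 0)) (iw_pos _)
  have hk := measurable_kS measurableSet_Out
  have hr : ENNReal.ofReal (C1 + C2) ^ (1 / 2 : ℝ) * ENNReal.ofReal (C1 + C2) ^ (1 / 2 : ℝ)
      = ENNReal.ofReal (C1 + C2) := by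
    rw [← ENNReal.rpow_add_of_nonneg _ _ (by norm_num) (by norm_num)]
    norm_num
  calc Ot q G f g ≤ I3 (fun p => K * (kS Out p * iw p.2.1 * (|f p.1| * |g (v1 p)|))) := by
        refine I3_mono fun p => ?_
        have h3 := kS_nonneg Out p
        have h4 := xr_pos p
        calc _ = kS Out p * (xr p ^ q * |G p.2.1|) * (|f p.1| * |g (v1 p)|) := by ring
          _ ≤ kS Out p * (K * iw p.2.1) * (|f p.1| * |g (v1 p)|) := by
              refine mul_le_mul_of_nonneg_right (mul_le_mul_of_nonneg_left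
                (le_trans ?_ (hK _)) h3) (by positivity)
              gcongr
              exact xr_le p
          _ = _ := by ring
    _ = ENNReal.ofReal K * I3 (fun p => kS Out p * iw p.2.1 * (|f p.1| * |g (v1 p)|)) :=
        I3_const_mul hK0 _
    _ ≤ ENNReal.ofReal K * ((ENNReal.ofReal (C1 + C2) * Wn 0 f) ^ (1 / 2 : ℝ)
        * (ENNReal.ofReal (C1 + C2) * Wn 0 g) ^ (1 / 2 : ℝ)) := by
        refine mul_le_mul_right ((I3_cs (k := fun p => kS Out p * iw p.2.1) (a := fun p => f p.1)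
          (b := fun p => g (v1 p)) (by fun_prop) (by fun_prop) (by fun_prop)
          (fun p => mul_nonneg (kS_nonneg _ _) (iw_pos _).le)).trans ?_) _
        gcongr
        · exact (h1 f hf).trans (mul_le_mul_left (ENNReal.ofReal_le_ofReal (by linarith)) _)
        · exact (h2 g hg).trans (mul_le_mul_left (ENNReal.ofReal_le_ofReal (by linarith)) _)
    _ = _ := by
        rw [ENNReal.mul_rpow_of_nonneg _ _ (by norm_num), ENNReal.mul_rpow_of_nonneg _ _
          (by norm_num), mul_mul_mul_comm, hr, ENNReal.ofReal_mul (by positivity), ← mul_assoc,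
          mul_comm (ENNReal.ofReal K)]

end Pool.Agent.BoltzM.HC
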