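import Pool.Agent.BoltzM.HC.Basic

/-! Long jumps, and the jump form with the polynomial partner. -/

set_option autoImplicit false

open MeasureTheory Set Filter Topology
open scoped ENNReal RealInnerProductSpace

noncomputable section

namespace Pool.Agent.BoltzM.HC

open Coll

namespace Far

lemma lint_cauchy {l : ℝ} (hl : 0 < l) :
    ∫⁻ t : ℝ, ENNReal.ofReal ((1 + (l * t) ^ 2)⁻¹) = ENNReal.ofReal (Real.pi / l) := by
  rw [← ofReal_integral_eq_lintegral_ofReal (integrable_inv_one_add_sq.comp_mul_left' hl.ne')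
    (ae_of_all _ fun t => by positivity),
    Measure.integral_comp_mul_left (fun x : ℝ => (1 + x ^ 2)⁻¹), integral_univ_inv_one_add_sq,
    abs_of_pos (inv_pos.2 hl), smul_eq_mul, div_eq_inv_mul]

lemma rpow_gm_le {s : ℝ} (hs : 0 ≤ s) : s ^ gm ≤ 1 + s ^ 2 := by
  rcases le_total s 1 with h | h
  · have := Real.rpow_le_one hs h (show (0 : ℝ) ≤ gm by norm_num [gm])
    nlinarith [sq_nonneg s]
  · have := Real.rpow_le_rpow_of_exponent_le h (show gm ≤ 2 by norm_num [gm])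
    rw [Real.rpow_two] at this
    linarith

lemma cube_mul_le {A t : ℝ} (hA : 0 < A) :
    |t| ^ 3 * |t| ^ (-(101 / 100) : ℝ) ≤ A ^ gm * (1 + (A⁻¹ * t) ^ 2) := by
  rcases eq_or_ne t 0 with rfl | ht
  · rw [abs_zero, zero_pow (by norm_num), zero_mul]; positivity
  have h0 : 0 < |t| := abs_pos.2 ht
  have h1 : |t| ^ 3 * |t| ^ (-(101 / 100) : ℝ) = |t| ^ gm := by
    rw [← Real.rpow_natCast, ← Real.rpow_add h0]; norm_num [gm]
  have h2 : |t| = A * (A⁻¹ * |t|) := by field_simp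
  have h3 := rpow_gm_le (s := A⁻¹ * |t|) (by positivity)
  have h4 : (A⁻¹ * |t|) ^ 2 = (A⁻¹ * t) ^ 2 := by rw [mul_pow, mul_pow, sq_abs]
  rw [h1, h2, Real.mul_rpow hA.le (by positivity), ← h4]
  exact mul_le_mul_of_nonneg_left h3 (by positivity)

lemma prof {A t : ℝ} (hA : 0 < A) :
    |t| ^ 3 * |t| ^ (-(101 / 100) : ℝ) * (A ^ 2 / (A ^ 2 + t ^ 2 / 2)) ^ 2
      ≤ 4 * A ^ gm * (1 + (A⁻¹ * t) ^ 2)⁻¹ := by
  have h1 := cube_mul_le (t := t) hA
  have h0 : 0 < 1 + (A⁻¹ * t) ^ 2 := by positivity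
  have h2 : A ^ 2 / (A ^ 2 + t ^ 2 / 2) ≤ 2 * (1 + (A⁻¹ * t) ^ 2)⁻¹ := by
    rw [← div_eq_mul_inv, div_le_div_iff₀ (by positivity) h0]
    have : A ^ 2 * (1 + (A⁻¹ * t) ^ 2) = A ^ 2 + t ^ 2 := by field_simp
    rw [this]
    nlinarith [sq_nonneg A]
  calc _ ≤ A ^ gm * (1 + (A⁻¹ * t) ^ 2) * (2 * (1 + (A⁻¹ * t) ^ 2)⁻¹) ^ 2 := by gcongr
    _ = _ := by field_simp; ring

lemma pow_three_half {s b : ℝ} (hs : 0 ≤ s) (hb : 0 ≤ b) (h : s ≤ b ^ 2) :
    s ^ (3 / 2 : ℝ) ≤ b ^ 3 := by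
  calc _ ≤ (b ^ 2) ^ (3 / 2 : ℝ) := Real.rpow_le_rpow hs h (by norm_num)
    _ = _ := by
      rw [← Real.rpow_natCast, ← Real.rpow_mul hb, ← Real.rpow_natCast]; norm_num

lemma rest_real {J y t a n : ℝ} (hy : 0 ≤ y) (hJ : J ^ 2 = y ^ 2 + (t + a) ^ 2)
    (han : |a| ≤ n) (h1 : 1 / 16 ≤ |t| * (1 + |a|)) (h2 : y < |t + a| ∨ y < |a|) :
    J ≤ 25 * (1 + n) ^ 2 * |t| := by
  have ht := abs_nonneg t
  have ha := abs_nonneg a
  have h3 : |t + a| ≤ |t| + |a| := abs_add_le t a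
  have h4 : (t + a) ^ 2 ≤ (|t| + |a|) ^ 2 := by
    rw [← sq_abs]; gcongr
  have h5 : y ^ 2 ≤ (|t| + |a|) ^ 2 := by
    have : y ≤ |t| + |a| := by rcases h2 with h | h <;> linarith
    gcongr
  have h6 : J ≤ 3 / 2 * (|t| + |a|) :=
    (abs_le_of_sq_le_sq' (by nlinarith [sq_nonneg (|t| + |a|)]) (by positivity)).2
  have h7 : |a| ≤ 16 * (|t| * (1 + |a|)) * |a| := le_mul_of_one_le_left ha (by linarith)
  have h8 : |t| + |a| ≤ 16 * (1 + |a|) ^ 2 * |t| := by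
    nlinarith [mul_nonneg ht ha]
  have h9 : (1 + |a|) ^ 2 * |t| ≤ (1 + n) ^ 2 * |t| := by gcongr
  nlinarith [mul_nonneg (sq_nonneg (1 + n)) ht]

variable [Dim]

open Classical in
/-- the majorant written in the variables after the collision -/
def Ph (f : E → ℝ) (t : ℝ) (w x : E) : ℝ :=
  if jb x ≤ 25 * (1 + ‖w‖) ^ 3 * |t| then
    iw w * (4 * (1 + ‖w‖) ^ 4 * (jb x ^ 2 / (jb x ^ 2 + t ^ 2 / 2)) ^ 2) * f x ^ 2 else 0

lemma measurable_Ph {f : E → ℝ} (hf : Measurable f) :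
    Measurable fun z : ℝ × E × E => Ph f z.1 z.2.1 z.2.2 := by
  unfold Ph
  exact Measurable.ite (measurableSet_le (by fun_prop) (by fun_prop)) (by fun_prop)
    measurable_const

lemma le_Ph (f : E → ℝ) (p : E × E × S2) :
    kS (fun p => jb (v1 p) ≤ 25 * (1 + ‖p.2.1‖) ^ 3 * |rho p|) p * iw p.2.1
      * min (xr p) 1 ^ 4 * f (v1 p) ^ 2 ≤ ker3 p * Ph f (rho p) p.2.1 (v1 p) := by
  by_cases h : jb (v1 p) ≤ 25 * (1 + ‖p.2.1‖) ^ 3 * |rho p|
  · rw [kS_pos (S := fun p => jb (v1 p) ≤ 25 * (1 + ‖p.2.1‖) ^ 3 * |rho p|) h, Ph, if_pos h]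
    have hk := ker3_nonneg p
    have hi := iw_pos p.2.1
    have hx := xr_pos p
    have hA := jb_pos (v1 p)
    have hw := jb_pos p.2.1
    have h1 : min (xr p) 1 ^ 4 ≤ (xr p ^ 2) ^ 2 := by
      rw [← pow_mul]
      exact pow_le_pow_left₀ (lt_min hx one_pos).le (min_le_left _ _) 4
    have h2 : xr p ^ 2
        ≤ 2 * (1 + ‖p.2.1‖) ^ 2 * (jb (v1 p) ^ 2 / (jb (v1 p) ^ 2 + rho p ^ 2 / 2)) := by
      refine (xr_sq_le' p).trans ?_
      gcongr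
      exact jb_le _
    have h3 : min (xr p) 1 ^ 4
        ≤ 4 * (1 + ‖p.2.1‖) ^ 4 * (jb (v1 p) ^ 2 / (jb (v1 p) ^ 2 + rho p ^ 2 / 2)) ^ 2 := by
      refine h1.trans ((pow_le_pow_left₀ (sq_nonneg _) h2 2).trans (le_of_eq (by ring)))
    calc _ ≤ ker3 p * iw p.2.1 * (4 * (1 + ‖p.2.1‖) ^ 4
          * (jb (v1 p) ^ 2 / (jb (v1 p) ^ 2 + rho p ^ 2 / 2)) ^ 2) * f (v1 p) ^ 2 := by gcongr
      _ = _ := by ring
  · rw [kS_neg (S := fun p => jb (v1 p) ≤ 25 * (1 + ‖p.2.1‖) ^ 3 * |rho p|) h, Ph, if_neg h]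
    simp

lemma Ph_le (f : E → ℝ) (t : ℝ) (w x : E) :
    2 * (t ^ 2 + ‖x - w‖ ^ 2) ^ (3 / 2 : ℝ) * |t| ^ (-(101 / 100) : ℝ) * Ph f t w x
      ≤ (32 * 26 ^ 3 * ((1 + ‖w‖) ^ (dd + 2))⁻¹ * (jb x ^ gm * f x ^ 2))
        * (1 + ((jb x)⁻¹ * t) ^ 2)⁻¹ := by
  have hA := jb_pos x
  by_cases h : jb x ≤ 25 * (1 + ‖w‖) ^ 3 * |t|
  · rw [Ph, if_pos h]
    have hi := iw_pos w
    have hw : (1 : ℝ) ≤ 1 + ‖w‖ := by linarith [norm_nonneg w]
    have ht := abs_nonneg t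
    have h1 : ‖x - w‖ ≤ 25 * ((1 + ‖w‖) ^ 4 * |t|) := by
      calc _ ≤ jb x * (1 + ‖w‖) := norm_sub_le_jb x w
        _ ≤ 25 * (1 + ‖w‖) ^ 3 * |t| * (1 + ‖w‖) := by gcongr
        _ = _ := by ring
    have h2 : |t| ≤ (1 + ‖w‖) ^ 4 * |t| := le_mul_of_one_le_left ht (one_le_pow₀ hw)
    have h3 : t ^ 2 + ‖x - w‖ ^ 2 ≤ (26 * ((1 + ‖w‖) ^ 4 * |t|)) ^ 2 := by
      have a1 : ‖x - w‖ ^ 2 ≤ (25 * ((1 + ‖w‖) ^ 4 * |t|)) ^ 2 := by gcongr
      have a2 : |t| ^ 2 ≤ ((1 + ‖w‖) ^ 4 * |t|) ^ 2 := by gcongr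
      rw [sq_abs] at a2
      nlinarith [sq_nonneg ((1 + ‖w‖) ^ 4 * |t|)]
    have h4 := pow_three_half (by positivity) (by positivity) h3
    have h5 := prof (t := t) hA
    have h6 := pow_mul_iw_le (n := 16) (m := dd + 2) (by unfold pK; omega) w
    calc _ ≤ 2 * (26 * ((1 + ‖w‖) ^ 4 * |t|)) ^ 3 * |t| ^ (-(101 / 100) : ℝ)
          * (iw w * (4 * (1 + ‖w‖) ^ 4 * (jb x ^ 2 / (jb x ^ 2 + t ^ 2 / 2)) ^ 2) * f x ^ 2) := by
          gcongr
      _ = 8 * 26 ^ 3 * ((1 + ‖w‖) ^ 16 * iw w) * f x ^ 2 * (|t| ^ 3 * |t| ^ (-(101 / 100) : ℝ)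
          * (jb x ^ 2 / (jb x ^ 2 + t ^ 2 / 2)) ^ 2) := by ring
      _ ≤ 8 * 26 ^ 3 * ((1 + ‖w‖) ^ (dd + 2))⁻¹ * f x ^ 2
          * (4 * jb x ^ gm * (1 + ((jb x)⁻¹ * t) ^ 2)⁻¹) := by gcongr
      _ = _ := by ring
  · rw [Ph, if_neg h, mul_zero]
    positivity

/-- outside the short and the chained jumps the jump is long -/
lemma rest_le {p : E × E × S2} (h1 : ¬RS p) (h2 : ¬RL p) :
    jb p.1 ≤ 25 * (1 + ‖p.2.1‖) ^ 2 * |rho p| := by
  refine rest_real (y := jb (Geo.perp p.2.2 p.1)) (a := ⟪p.2.1, (p.2.2 : E)⟫) (jb_pos _).le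
    (by rw [jb_sq_perp p.2.2 p.1, inner_fst]) (abs_inner_le _ _) (not_lt.1 h1) ?_
  rw [← inner_fst]
  by_contra hc
  rw [not_or, not_lt, not_lt] at hc
  exact h2 ⟨h1, hc.1, hc.2⟩

lemma rest_far {p : E × E × S2} (h1 : ¬RS p) (h2 : ¬RL p) :
    jb (v1 p) ≤ 25 * (1 + ‖p.2.1‖) ^ 3 * |rho p| := by
  have h3 := rest_le h1 h2
  have h4 := (xr_le p).trans (jb_le _)
  have h5 := jb_pos p.1
  calc _ = xr p * jb p.1 := (xr_mul p).symm
    _ ≤ (1 + ‖p.2.1‖) * (25 * (1 + ‖p.2.1‖) ^ 2 * |rho p|) := by gcongr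
    _ = _ := by ring

lemma rest_ker {p : E × E × S2} (h1 : ¬RS p) (h2 : ¬RL p) :
    ker3 p * iw p.2.1 ≤ 1250 * jb p.1 ^ gm * ((1 + ‖p.2.1‖) ^ (dd + 1))⁻¹ := by
  have h3 := rest_le h1 h2
  have hJ := jb_pos p.1
  have hi := iw_pos p.2.1
  have hw : (1 : ℝ) ≤ 1 + ‖p.2.1‖ := by linarith [norm_nonneg p.2.1]
  set B : ℝ := 25 * (1 + ‖p.2.1‖) ^ 2 with hB
  have hB1 : 1 ≤ B := by nlinarith [one_le_pow₀ (n := 2) hw]
  have h4 : jb p.1 / B ≤ |rho p| := by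
    rw [div_le_iff₀ (by positivity)]; linarith
  have h5 : |rho p| ^ (-(101 / 100) : ℝ) ≤ (jb p.1 / B) ^ (-(101 / 100) : ℝ) :=
    Real.rpow_le_rpow_of_nonpos (by positivity) h4 (by norm_num)
  have h6 : (jb p.1 / B) ^ (-(101 / 100) : ℝ) ≤ jb p.1 ^ (-(101 / 100) : ℝ) * B ^ 2 := by
    rw [Real.div_rpow hJ.le (by positivity), Real.rpow_neg (x := B) (by positivity), div_inv_eq_mul]
    refine mul_le_mul_of_nonneg_left ?_ (by positivity)
    rw [← Real.rpow_two]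
    exact Real.rpow_le_rpow_of_exponent_le hB1 (by norm_num)
  have h7 : jb p.1 ^ 3 * jb p.1 ^ (-(101 / 100) : ℝ) = jb p.1 ^ gm := by
    rw [← Real.rpow_natCast, ← Real.rpow_add hJ]; norm_num [gm]
  have h8 := pow_mul_iw_le (n := 7) (m := dd + 1) (by unfold pK; omega) p.2.1
  have h9 := norm_sub_le_jb p.1 p.2.1
  have h10 := h5.trans h6
  rw [ker3_eq']
  calc _ ≤ 2 * (jb p.1 * (1 + ‖p.2.1‖)) ^ 3 * (jb p.1 ^ (-(101 / 100) : ℝ) * B ^ 2)
        * iw p.2.1 := by gcongr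
    _ = 1250 * (jb p.1 ^ 3 * jb p.1 ^ (-(101 / 100) : ℝ)) * ((1 + ‖p.2.1‖) ^ 7 * iw p.2.1) := by
        rw [hB]; ring
    _ ≤ _ := by rw [h7]; gcongr

lemma measurableSet_rest : MeasurableSet {p : E × E × S2 | ¬RS p ∧ ¬RL p} :=
  measurableSet_RS.compl.inter measurableSet_RL.compl

/-- the long jumps, marginal before the collision -/
lemma rest_fst : ∃ C : ℝ, 0 < C ∧ ∀ f : E → ℝ, Measurable f →
    I3 (fun p => kS (fun p => ¬RS p ∧ ¬RL p) p * iw p.2.1 * f p.1 ^ 2)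
      ≤ ENNReal.ofReal C * Wn gm f := by
  have hint : Integrable fun z : E => ((1 + ‖z‖) ^ (dd + 1))⁻¹ := by
    have := integrable_one_add_norm (E := E) (μ := volume) (r := ((dd + 1 : ℕ) : ℝ)) (by simp)
    refine this.congr (ae_of_all _ fun z => ?_)
    simp only
    rw [Real.rpow_neg (by positivity), Real.rpow_natCast]
  set M : ℝ≥0∞ := (∫⁻ z : E, ENNReal.ofReal ((1 + ‖z‖) ^ (dd + 1))⁻¹) * sph univ with hM
  have hMt : M ≠ ⊤ := ENNReal.mul_ne_top hint.lintegral_lt_top.ne (measure_ne_top _ _)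
  refine ⟨1250 * (M.toReal + 1), by positivity, fun f hf => ?_⟩
  have hk : Measurable fun p : E × E × S2 => kS (fun p => ¬RS p ∧ ¬RL p) p * iw p.2.1 :=
    (measurable_kS measurableSet_rest).mul (by fun_prop)
  refine I3_fst hk (fun p => mul_nonneg (kS_nonneg _ p) (iw_pos _).le) (by positivity)
    (fun v => ?_) hf
  have hJ := jb_pos v
  calc _ ≤ ∫⁻ z : E × S2, ENNReal.ofReal (1250 * jb v ^ gm)
        * ENNReal.ofReal ((1 + ‖z.1‖) ^ (dd + 1))⁻¹ ∂mu2 := by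
        refine lintegral_mono fun z => ?_
        rw [← ENNReal.ofReal_mul (by positivity)]
        refine ENNReal.ofReal_le_ofReal ?_
        by_cases h : ¬RS (v, z) ∧ ¬RL (v, z)
        · rw [kS_pos (S := fun p => ¬RS p ∧ ¬RL p) h]
          exact rest_ker h.1 h.2
        · rw [kS_neg (S := fun p => ¬RS p ∧ ¬RL p) h, zero_mul]
          positivity
    _ = ENNReal.ofReal (1250 * jb v ^ gm) * M := by
        rw [lintegral_const_mul' _ _ ENNReal.ofReal_ne_top, lintegral_mu2 _ (by fun_prop), hM,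
          ← lintegral_mul_const' _ _ (measure_ne_top _ _)]
        simp only [lintegral_const]
    _ ≤ _ := by
        rw [← ENNReal.ofReal_toReal hMt, ← ENNReal.ofReal_mul (by positivity)]
        refine ENNReal.ofReal_le_ofReal ?_
        rw [ENNReal.toReal_ofReal ENNReal.toReal_nonneg]
        have : 0 < jb v ^ gm := by positivity
        nlinarith

end Far

variable [Dim]

theorem far (hP : PostStmt) (hC : ConvStmt) : FarStmt := by
  obtain ⟨C, hC0, hC⟩ := hC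
  have hS := cS_pos
  have hpi := Real.pi_pos
  refine ⟨32 * 26 ^ 3 * Real.pi * cS * C, by positivity, fun f hf => ?_⟩
  refine (I3_mono (Far.le_Ph f)).trans ?_
  rw [hP _ (Far.measurable_Ph hf), Wn, ← lintegral_const_mul' _ _ ENNReal.ofReal_ne_top]
  refine lintegral_mono fun x => ?_
  have hA := jb_pos x
  calc _ ≤ ∫⁻ w : E, ENNReal.ofReal (32 * 26 ^ 3 * Real.pi * cS * (jb x ^ gm * f x ^ 2) * jb x)
        * ENNReal.ofReal (((1 + ‖w‖) ^ (dd + 2))⁻¹ / ‖x - w‖) := by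
        refine lintegral_mono fun w => ?_
        calc _ ≤ ENNReal.ofReal (cS / ‖x - w‖) * ∫⁻ t : ℝ,
              ENNReal.ofReal (32 * 26 ^ 3 * ((1 + ‖w‖) ^ (dd + 2))⁻¹ * (jb x ^ gm * f x ^ 2))
                * ENNReal.ofReal ((1 + ((jb x)⁻¹ * t) ^ 2)⁻¹) := by
              refine mul_le_mul_right (lintegral_mono fun t => ?_) _
              rw [← ENNReal.ofReal_mul (by positivity)]
              exact ENNReal.ofReal_le_ofReal (Far.Ph_le f t w x)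
          _ = _ := by
              rw [lintegral_const_mul' _ _ ENNReal.ofReal_ne_top, Far.lint_cauchy (inv_pos.2 hA),
                ← ENNReal.ofReal_mul (by positivity), ← ENNReal.ofReal_mul (by positivity),
                ← ENNReal.ofReal_mul (by positivity)]
              congr 1
              rw [div_inv_eq_mul]
              ring
    _ ≤ ENNReal.ofReal (32 * 26 ^ 3 * Real.pi * cS * (jb x ^ gm * f x ^ 2) * jb x)
        * ENNReal.ofReal (C / jb x) := by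
        rw [lintegral_const_mul' _ _ ENNReal.ofReal_ne_top]
        exact mul_le_mul_right (hC x) _
    _ = _ := by
        rw [← ENNReal.ofReal_mul (by positivity), ← ENNReal.ofReal_mul (by positivity)]
        congr 1
        field_simp

theorem k2 (hS : K2SStmt) (hL : K2LStmt) (hF : FarStmt) : K2Stmt := by
  obtain ⟨C1, h1, hS⟩ := hS
  obtain ⟨C2, h2, hL⟩ := hL
  obtain ⟨C3, h3, hF⟩ := hF
  obtain ⟨C4, h4, hR⟩ := Far.rest_fst
  refine ⟨C1 + C2 + 2 * C3 + 2 * C4, by positivity, fun f hf => ?_⟩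
  have mL := measurable_kS measurableSet_RL
  have mR := measurable_kS Far.measurableSet_rest
  have mF : Measurable (kS fun p => jb (v1 p) ≤ 25 * (1 + ‖p.2.1‖) ^ 3 * |rho p|) :=
    measurable_kS (measurableSet_le (by fun_prop) (by fun_prop))
  have key : ∀ p : E × E × S2, ker3 p * iw p.2.1 * min (xr p) 1 ^ 4 * (f (v1 p) - f p.1) ^ 2
      ≤ kS RS p * iw p.2.1 * (f (v1 p) - f p.1) ^ 2 + kS RL p * iw p.2.1 * (f (v1 p) - f p.1) ^ 2
        + 2 * (kS (fun p => jb (v1 p) ≤ 25 * (1 + ‖p.2.1‖) ^ 3 * |rho p|) p * iw p.2.1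
          * min (xr p) 1 ^ 4 * f (v1 p) ^ 2)
        + 2 * (kS (fun p => ¬RS p ∧ ¬RL p) p * iw p.2.1 * f p.1 ^ 2) := by
    intro p
    have hk := ker3_nonneg p
    have hi := iw_pos p.2.1
    have hm0 : 0 ≤ min (xr p) 1 := (lt_min (xr_pos p) one_pos).le
    have hm : min (xr p) 1 ^ 4 ≤ 1 := pow_le_one₀ hm0 (min_le_right _ _)
    have a1 := kS_nonneg RS p
    have a2 := kS_nonneg RL p
    have a3 := kS_nonneg (fun p => jb (v1 p) ≤ 25 * (1 + ‖p.2.1‖) ^ 3 * |rho p|) p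
    have a4 := kS_nonneg (fun p => ¬RS p ∧ ¬RL p) p
    have b1 : 0 ≤ kS RS p * iw p.2.1 * (f (v1 p) - f p.1) ^ 2 := by positivity
    have b2 : 0 ≤ kS RL p * iw p.2.1 * (f (v1 p) - f p.1) ^ 2 := by positivity
    have b3 : 0 ≤ kS (fun p => jb (v1 p) ≤ 25 * (1 + ‖p.2.1‖) ^ 3 * |rho p|) p * iw p.2.1
        * min (xr p) 1 ^ 4 * f (v1 p) ^ 2 := by positivity
    have b4 : 0 ≤ kS (fun p => ¬RS p ∧ ¬RL p) p * iw p.2.1 * f p.1 ^ 2 := by positivity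
    have c0 : ker3 p * iw p.2.1 * min (xr p) 1 ^ 4 * (f (v1 p) - f p.1) ^ 2
        ≤ ker3 p * iw p.2.1 * (f (v1 p) - f p.1) ^ 2 := by
      calc _ ≤ ker3 p * iw p.2.1 * 1 * (f (v1 p) - f p.1) ^ 2 := by gcongr
        _ = _ := by ring
    by_cases c1 : RS p
    · rw [kS_pos c1]; linarith
    by_cases c2 : RL p
    · rw [kS_pos c2]; linarith
    rw [kS_pos (S := fun p => jb (v1 p) ≤ 25 * (1 + ‖p.2.1‖) ^ 3 * |rho p|) (Far.rest_far c1 c2),
      kS_pos (S := fun p => ¬RS p ∧ ¬RL p) ⟨c1, c2⟩]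
    have d1 : (f (v1 p) - f p.1) ^ 2 ≤ 2 * f (v1 p) ^ 2 + 2 * f p.1 ^ 2 := by
      nlinarith [sq_nonneg (f (v1 p) + f p.1)]
    have d2 : ker3 p * iw p.2.1 * min (xr p) 1 ^ 4 * (f (v1 p) - f p.1) ^ 2
        ≤ ker3 p * iw p.2.1 * min (xr p) 1 ^ 4 * (2 * f (v1 p) ^ 2 + 2 * f p.1 ^ 2) := by gcongr
    have d3 : ker3 p * iw p.2.1 * min (xr p) 1 ^ 4 * f p.1 ^ 2
        ≤ ker3 p * iw p.2.1 * 1 * f p.1 ^ 2 := by gcongr
    linarith
  have hJ : J0 f ≤ NN f := le_self_add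
  have hW : Wn gm f ≤ NN f := le_add_self
  calc Jp f ≤ _ := I3_mono key
    _ ≤ I3 (fun p => kS RS p * iw p.2.1 * (f (v1 p) - f p.1) ^ 2)
        + I3 (fun p => kS RL p * iw p.2.1 * (f (v1 p) - f p.1) ^ 2)
        + I3 (fun p => 2 * (kS (fun p => jb (v1 p) ≤ 25 * (1 + ‖p.2.1‖) ^ 3 * |rho p|) p * iw p.2.1
          * min (xr p) 1 ^ 4 * f (v1 p) ^ 2))
        + I3 (fun p => 2 * (kS (fun p => ¬RS p ∧ ¬RL p) p * iw p.2.1 * f p.1 ^ 2)) := by
        refine (I3_add_le (by fun_prop)).trans (add_le_add_left ?_ _)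
        refine (I3_add_le (by fun_prop)).trans (add_le_add_left ?_ _)
        exact I3_add_le (by fun_prop)
    _ ≤ ENNReal.ofReal C1 * NN f + ENNReal.ofReal C2 * NN f
        + ENNReal.ofReal 2 * (ENNReal.ofReal C3 * NN f)
        + ENNReal.ofReal 2 * (ENNReal.ofReal C4 * NN f) := by
        rw [I3_const_mul (by norm_num), I3_const_mul (by norm_num)]
        gcongr
        · exact (hS f hf).trans (mul_le_mul_right hJ _)
        · exact (hL f hf).trans (mul_le_mul_right hJ _)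
        · exact (hF f hf).trans (mul_le_mul_right hW _)
        · exact (hR f hf).trans (mul_le_mul_right hW _)
    _ = _ := by
        rw [ENNReal.ofReal_add (by positivity) (by positivity),
          ENNReal.ofReal_add (by positivity) (by positivity),
          ENNReal.ofReal_add (by positivity) (by positivity),
          ENNReal.ofReal_mul (by norm_num), ENNReal.ofReal_mul (by norm_num)]
        ring

end Pool.Agent.BoltzM.HC
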