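import Pool.Agent.BoltzM.HC.Basic

/-! Closure properties of the rapidly decaying class, finiteness and integrability. -/

set_option autoImplicit false

open MeasureTheory Set Filter Topology
open scoped ENNReal RealInnerProductSpace

noncomputable section

namespace Pool.Agent.BoltzM.HC

open Coll

variable [Dim]

namespace FinR

/-- value and unit-scale increments are bounded by `a` -/
def Bd (f a : E → ℝ) : Prop :=
  (∀ v, |f v| ≤ a v) ∧ ∀ v z, ‖z‖ ≤ 1 → |f (v + z) - f v| ≤ a v * ‖z‖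

lemma Bd.mul {f g a b : E → ℝ} (hf : Bd f a) (hg : Bd g b) :
    Bd (fun v => f v * g v) (fun v => 3 * (a v * b v)) := by
  have ha : ∀ v, 0 ≤ a v := fun v => (abs_nonneg _).trans (hf.1 v)
  have hb : ∀ v, 0 ≤ b v := fun v => (abs_nonneg _).trans (hg.1 v)
  refine ⟨fun v => ?_, fun v z hz => ?_⟩
  · have h1 : |f v| * |g v| ≤ a v * b v :=
      mul_le_mul (hf.1 v) (hg.1 v) (abs_nonneg _) (ha v)
    have h2 := mul_nonneg (ha v) (hb v)
    show |f v * g v| ≤ 3 * (a v * b v)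
    rw [abs_mul]
    linarith
  · have h1 : |g (v + z)| ≤ 2 * b v := by
      have h2 := abs_sub_abs_le_abs_sub (g (v + z)) (g v)
      have h3 := mul_le_mul_of_nonneg_left hz (hb v)
      linarith [hg.1 v, hg.2 v z hz]
    have h2 : |f (v + z) - f v| * |g (v + z)| ≤ a v * ‖z‖ * (2 * b v) :=
      mul_le_mul (hf.2 v z hz) h1 (abs_nonneg _) (mul_nonneg (ha v) (norm_nonneg _))
    have h3 : |f v| * |g (v + z) - g v| ≤ a v * (b v * ‖z‖) :=
      mul_le_mul (hf.1 v) (hg.2 v z hz) (abs_nonneg _) (ha v)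
    have h4 := abs_add_le ((f (v + z) - f v) * g (v + z)) (f v * (g (v + z) - g v))
    rw [abs_mul, abs_mul] at h4
    show |f (v + z) * g (v + z) - f v * g v| ≤ 3 * (a v * b v) * ‖z‖
    rw [show f (v + z) * g (v + z) - f v * g v
      = (f (v + z) - f v) * g (v + z) + f v * (g (v + z) - g v) by ring]
    linarith

lemma bd_of_nice {P : ℕ} {K : ℝ} {f : E → ℝ} (h : Nice P K f) :
    Bd f fun v => K / (1 + ‖v‖) ^ P := by
  refine ⟨fun v => ?_, fun v z hz => ?_⟩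
  · rw [le_div_iff₀ (wt_pos v P), mul_comm]; exact h.1 v
  · show _ ≤ K / (1 + ‖v‖) ^ P * ‖z‖
    rw [div_mul_eq_mul_div, le_div_iff₀ (wt_pos v P), mul_comm]; exact h.2 v z hz

lemma nice_of_bd {P : ℕ} {K : ℝ} {f a : E → ℝ} (h : Bd f a) (ha : ∀ v, (1 + ‖v‖) ^ P * a v ≤ K) :
    Nice P K f := by
  refine ⟨fun v => le_trans ?_ (ha v), fun v z hz => ?_⟩
  · exact mul_le_mul_of_nonneg_left (h.1 v) (wt_pos v P).le
  · refine (mul_le_mul_of_nonneg_left (h.2 v z hz) (wt_pos v P).le).trans ?_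
    rw [← mul_assoc]
    exact mul_le_mul_of_nonneg_right (ha v) (norm_nonneg _)

/-- functions of polynomial growth -/
def Mod (f : E → ℝ) : Prop := ∃ (n : ℕ) (C : ℝ), Bd f fun v => C * (1 + ‖v‖) ^ n

lemma Mod.mul {f g : E → ℝ} (hf : Mod f) (hg : Mod g) : Mod fun v => f v * g v := by
  obtain ⟨n, C, h1⟩ := hf
  obtain ⟨m, D, h2⟩ := hg
  refine ⟨n + m, 3 * (C * D), ?_⟩
  have h3 := h1.mul h2
  have h4 : (fun v : E => 3 * (C * (1 + ‖v‖) ^ n * (D * (1 + ‖v‖) ^ m)))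
      = fun v => 3 * (C * D) * (1 + ‖v‖) ^ (n + m) := by
    funext v; ring
  rwa [h4] at h3

lemma Mod.pow {f : E → ℝ} (hf : Mod f) (q : ℕ) : Mod fun v => f v ^ q := by
  induction q with
  | zero => exact ⟨0, 1, fun v => by simp, fun v z _ => by simp⟩
  | succ q ih => simpa only [pow_succ] using ih.mul hf

lemma Mod.rap {f g : E → ℝ} (hf : Mod f) (hg : Rap g) : Rap fun v => f v * g v := by
  obtain ⟨n, C, h1⟩ := hf
  intro P
  obtain ⟨K, h2⟩ := hg (P + n)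
  refine ⟨3 * (C * K), nice_of_bd (h1.mul (bd_of_nice h2)) fun v => le_of_eq ?_⟩
  have := wt_pos v 1
  rw [pow_one] at this
  rw [pow_add]
  field_simp

lemma mod_of_rap {f : E → ℝ} (hf : Rap f) : Mod f := by
  obtain ⟨K, h⟩ := hf 0
  exact ⟨0, K, by simpa using bd_of_nice h⟩

lemma mod_jb : Mod jb := by
  refine ⟨1, 1, fun v => ?_, fun v z _ => ?_⟩
  · rw [abs_of_pos (jb_pos v)]; simpa using jb_le v
  · have h := abs_jb_sub_le v (v + z)
    rw [add_sub_cancel_left] at h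
    refine h.trans (le_mul_of_one_le_left (norm_nonneg _) ?_)
    simp

lemma mod_inv_jb : Mod fun v => (jb v)⁻¹ := by
  refine ⟨0, 1, fun v => ?_, fun v z _ => ?_⟩
  · rw [abs_of_pos (inv_pos.2 (jb_pos v))]
    simpa using inv_le_one_of_one_le₀ (one_le_jb v)
  · have h := abs_jb_sub_le v (v + z)
    rw [add_sub_cancel_left] at h
    have h1 := jb_pos v
    have h2 := jb_pos (v + z)
    have h3 : 1 ≤ jb (v + z) * jb v := one_le_mul_of_one_le_of_one_le (one_le_jb _) (one_le_jb _)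
    show |(jb (v + z))⁻¹ - (jb v)⁻¹| ≤ 1 * (1 + ‖v‖) ^ 0 * ‖z‖
    rw [inv_sub_inv h2.ne' h1.ne', abs_div, abs_sub_comm, abs_of_pos (mul_pos h2 h1), pow_zero,
      one_mul, one_mul]
    exact (div_le_self (abs_nonneg _) h3).trans h

/-- an integrable weight with two spare powers -/
def W (v : E) : ℝ := ((1 + ‖v‖) ^ (dd + 3))⁻¹

lemma W_pos (v : E) : 0 < W v := inv_pos.2 (wt_pos v _)

lemma measurable_W : Measurable W := by unfold W; fun_prop

lemma wt_fin : ∫⁻ v : E, ENNReal.ofReal (((1 + ‖v‖) ^ (dd + 1))⁻¹) ≠ ⊤ := by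
  have := finite_integral_one_add_norm (μ := (volume : Measure E)) (r := (dd + 1 : ℕ))
    (by rw [finrank_Ix]; push_cast; linarith)
  refine (lt_of_le_of_lt (le_of_eq (lintegral_congr fun w => ?_)) this).ne
  rw [Real.rpow_neg (by positivity), Real.rpow_natCast]

lemma le_W {x C : ℝ} {v : E} (h : (1 + ‖v‖) ^ (dd + 3) * x ≤ C) : x ≤ C * W v := by
  rw [W, ← div_eq_mul_inv, le_div_iff₀ (wt_pos v _), mul_comm]; exact h

lemma master (hA : AngStmt) : I3 (fun p => kx p * (W p.1 * W p.2.1)) ≠ ⊤ := by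
  obtain ⟨A, hA0, hA⟩ := hA
  have hW := measurable_W
  have key : ∀ v w : E, ∫⁻ o, ENNReal.ofReal (kx (v, w, o) * (W v * W w)) ∂sph
      ≤ ENNReal.ofReal A * ENNReal.ofReal (((1 + ‖v‖) ^ (dd + 1))⁻¹)
        * ENNReal.ofReal (((1 + ‖w‖) ^ (dd + 1))⁻¹) := by
    intro v w
    simp only [ENNReal.ofReal_mul (kx_nonneg _)]
    rw [lintegral_mul_const' _ _ ENNReal.ofReal_ne_top]
    refine (mul_le_mul_left (hA v w) _).trans ?_
    rw [← ENNReal.ofReal_mul (by positivity), ← ENNReal.ofReal_mul hA0.le,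
      ← ENNReal.ofReal_mul (by positivity)]
    refine ENNReal.ofReal_le_ofReal ?_
    have h1 : ‖v - w‖ ≤ (1 + ‖v‖) * (1 + ‖w‖) := by linarith [wt_le_mul v w]
    have h2 := W_pos v
    have h3 := W_pos w
    calc A * ‖v - w‖ ^ 2 * (W v * W w) ≤ A * ((1 + ‖v‖) * (1 + ‖w‖)) ^ 2 * (W v * W w) := by
          gcongr
      _ = _ := by
          unfold W
          field_simp
          ring
  rw [I3, lintegral_mu3 _ (by fun_prop)]
  refine ne_top_of_le_ne_top ?_ (lintegral_mono fun v => lintegral_mono fun w => key v w)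
  simp only [lintegral_const_mul' _ _
    (ENNReal.mul_ne_top ENNReal.ofReal_ne_top ENNReal.ofReal_ne_top)]
  rw [lintegral_mul_const' _ _ wt_fin, lintegral_const_mul' _ _ ENNReal.ofReal_ne_top]
  exact ENNReal.mul_ne_top (ENNReal.mul_ne_top ENNReal.ofReal_ne_top wt_fin) wt_fin

lemma fin_of_le (hA : AngStmt) {F : E × E × S2 → ℝ} {a b c : ℝ} (ha : 0 ≤ a) (hb : 0 ≤ b)
    (hc : 0 ≤ c) (h : ∀ p, F p ≤ kx p * c * ((a * W p.1) * (b * W p.2.1))) : I3 F ≠ ⊤ := by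
  have h1 : I3 F ≤ I3 fun p => (c * (a * b)) * (kx p * (W p.1 * W p.2.1)) :=
    I3_mono fun p => (h p).trans (le_of_eq (by ring))
  rw [I3_const_mul (by positivity)] at h1
  exact ne_top_of_le_ne_top (ENNReal.mul_ne_top ENNReal.ofReal_ne_top (master hA)) h1

lemma wn_fin (r : ℝ) {f : E → ℝ} (hf : Rap f) : Wn r f ≠ ⊤ := by
  obtain ⟨K, h⟩ := hf (⌈r⌉₊ + (dd + 1))
  have hK := h.nonneg
  have key : ∀ v : E, jb v ^ r * f v ^ 2 ≤ K * K * ((1 + ‖v‖) ^ (dd + 1))⁻¹ := by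
    intro v
    have h1 : jb v ^ r ≤ (1 + ‖v‖) ^ ⌈r⌉₊ := by
      refine (Real.rpow_le_rpow_of_exponent_le (one_le_jb v) (Nat.le_ceil r)).trans ?_
      rw [Real.rpow_natCast]
      exact pow_le_pow_left₀ (jb_pos v).le (jb_le v) _
    rw [← div_eq_mul_inv, le_div_iff₀ (wt_pos v _), ← sq_abs]
    calc jb v ^ r * |f v| ^ 2 * (1 + ‖v‖) ^ (dd + 1)
        ≤ (1 + ‖v‖) ^ ⌈r⌉₊ * |f v| ^ 2 * (1 + ‖v‖) ^ (dd + 1) := by gcongr
      _ = ((1 + ‖v‖) ^ (⌈r⌉₊ + (dd + 1)) * |f v|) * |f v| := by ring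
      _ ≤ K * K := mul_le_mul (h.1 v) (h.abs_le v) (abs_nonneg _) hK
  refine ne_top_of_le_ne_top ?_ (lintegral_mono fun v => ENNReal.ofReal_le_ofReal (key v))
  simp only [ENNReal.ofReal_mul (mul_nonneg hK hK)]
  rw [lintegral_const_mul' _ _ ENNReal.ofReal_ne_top]
  exact ENNReal.mul_ne_top ENNReal.ofReal_ne_top wt_fin

lemma inc_win {P : ℕ} {K : ℝ} {f : E → ℝ} (h : Nice P K f) {p : E × E × S2} (hp : Win p) :
    (1 + ‖p.1‖) ^ P * |f (v1 p) - f p.1| ≤ (8 ^ P + 1) * K * min 1 |rho p| := by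
  have hK := h.nonneg
  have h8 : (0 : ℝ) < 8 ^ P := by positivity
  rcases le_total |rho p| 1 with hr | hr
  · rw [min_eq_right hr]
    have h1 := h.lip' p.1 (v1 p) ((norm_v1_sub p).le.trans hr)
    rw [norm_v1_sub] at h1
    refine h1.trans ?_
    have h2 := mul_nonneg h8.le (mul_nonneg hK (abs_nonneg (rho p)))
    linarith
  · rw [min_eq_left hr, mul_one]
    have h1 : 1 / 4 ≤ xr p := by
      have h2 := le_rh_of_Win 1 hp
      rw [rh, pow_one, pow_one] at h2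
      exact h2.trans (min_le_left _ _)
    have h2 : 1 + ‖p.1‖ ≤ 8 * (1 + ‖v1 p‖) := by
      have h3 := mul_le_mul_of_nonneg_right h1 (jb_pos p.1).le
      rw [xr_mul] at h3
      linarith [le_two_jb p.1, jb_le (v1 p)]
    have h3 : (1 + ‖p.1‖) ^ P * |f (v1 p)| ≤ 8 ^ P * K := by
      calc (1 + ‖p.1‖) ^ P * |f (v1 p)| ≤ (8 * (1 + ‖v1 p‖)) ^ P * |f (v1 p)| := by gcongr
        _ = 8 ^ P * ((1 + ‖v1 p‖) ^ P * |f (v1 p)|) := by rw [mul_pow]; ring
        _ ≤ _ := mul_le_mul_of_nonneg_left (h.1 _) h8.le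
    have h4 := mul_le_mul_of_nonneg_left (abs_sub (f (v1 p)) (f p.1)) (wt_pos p.1 P).le
    linarith [h.1 p.1]

lemma j0_fin (hA : AngStmt) {f : E → ℝ} (hf : Rap f) : J0 f ≠ ⊤ := by
  obtain ⟨K, h⟩ := hf (dd + 3)
  have hK := h.nonneg
  refine fin_of_le hA (a := (8 ^ (dd + 3) + 1) * K) (b := Real.exp ((dd + 3 : ℕ) ^ 2))
    (c := 2 * K) (by positivity) (by positivity) (by positivity) fun p => ?_
  have hW := W_pos p.1
  have hW' := W_pos p.2.1
  have hk := kx_nonneg p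
  by_cases hp : Win p
  · have h1 : MM p.2.1 ≤ Real.exp ((dd + 3 : ℕ) ^ 2) * W p.2.1 := by
      refine le_trans ?_ (le_W (pow_mul_sM_le (dd + 3) p.2.1))
      rw [MM, sq]; exact mul_le_of_le_one_right (sM_pos _).le (sM_le_one _)
    have h2 := le_W (inc_win h hp)
    have h3 : |f (v1 p) - f p.1| ≤ 2 * K := by
      linarith [abs_sub (f (v1 p)) (f p.1), h.abs_le (v1 p), h.abs_le p.1]
    have h4 := ker3_nonneg p
    have h5 := (MM_pos p.2.1).le
    have h6 : 0 ≤ min 1 |rho p| := le_min zero_le_one (abs_nonneg _)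
    rw [kS_pos hp, ← sq_abs, sq, kx]
    calc ker3 p * MM p.2.1 * (|f (v1 p) - f p.1| * |f (v1 p) - f p.1|)
        ≤ ker3 p * (Real.exp ((dd + 3 : ℕ) ^ 2) * W p.2.1)
          * ((8 ^ (dd + 3) + 1) * K * min 1 |rho p| * W p.1 * (2 * K)) := by gcongr
      _ = _ := by ring
  · rw [kS_neg hp, zero_mul, zero_mul]
    positivity

lemma xr_pow_le (q : ℕ) (p : E × E × S2) : xr p ^ q ≤ (1 + ‖p.2.1‖) ^ q :=
  pow_le_pow_left₀ (xr_pos p).le ((xr_le p).trans (jb_le _)) q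

lemma gain_le (q : ℕ) {K : ℝ} {g : E → ℝ} (h : Nice 0 K g) (p : E × E × S2) :
    |xr p ^ q * g (v1 p) - g p.1|
      ≤ (q * 2 ^ (q - 1) + 2) * K * min 1 |rho p| * (1 + ‖p.2.1‖) ^ q := by
  have hK := h.nonneg
  have hw := one_le_wt p.2.1 q
  have hx := xr_pos p
  have hq : (0 : ℝ) ≤ q * 2 ^ (q - 1) := by positivity
  have hr0 := abs_nonneg (rho p)
  rcases le_total |rho p| 1 with hr | hr
  · rw [min_eq_right hr]
    refine le_trans ?_ (le_mul_of_one_le_right (by positivity) hw)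
    have h1 : |xr p - 1| ≤ |rho p| :=
      (abs_xr_sub_one p).trans (div_le_self hr0 (one_le_jb _))
    have h2 : |xr p ^ q - 1| ≤ |rho p| * q * 2 ^ (q - 1) := by
      have h3 := abs_pow_sub_pow_le (xr p) 1 q
      rw [one_pow] at h3
      refine h3.trans ?_
      have h4 : max |xr p| |(1 : ℝ)| ≤ 2 := by
        rw [abs_of_pos hx, abs_one]
        exact max_le (le_xr_of_near hr).2 one_le_two
      have h5 : 0 ≤ max |xr p| |(1 : ℝ)| := le_max_of_le_left (abs_nonneg _)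
      gcongr
    have h3 := h.lip' p.1 (v1 p) ((norm_v1_sub p).le.trans hr)
    rw [norm_v1_sub, pow_zero, one_mul] at h3
    have h4 := abs_add_le ((xr p ^ q - 1) * g (v1 p)) (g (v1 p) - g p.1)
    rw [abs_mul] at h4
    have h5 : |xr p ^ q - 1| * |g (v1 p)| ≤ |rho p| * q * 2 ^ (q - 1) * K :=
      mul_le_mul h2 (h.abs_le _) (abs_nonneg _) (by positivity)
    rw [show xr p ^ q * g (v1 p) - g p.1 = (xr p ^ q - 1) * g (v1 p) + (g (v1 p) - g p.1) by ring]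
    have h6 := mul_nonneg hK hr0
    linarith
  · rw [min_eq_left hr, mul_one]
    have h1 := abs_sub (xr p ^ q * g (v1 p)) (g p.1)
    rw [abs_mul, abs_of_pos (pow_pos hx q)] at h1
    have h2 : xr p ^ q * |g (v1 p)| ≤ (1 + ‖p.2.1‖) ^ q * K :=
      mul_le_mul (xr_pow_le q p) (h.abs_le _) (abs_nonneg _) (by positivity)
    have h3 : |g p.1| ≤ K * (1 + ‖p.2.1‖) ^ q := (h.abs_le _).trans (le_mul_of_one_le_right hK hw)
    have h4 := mul_nonneg (mul_nonneg hq hK) (wt_pos p.2.1 q).le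
    linarith

lemma wt_W {q : ℕ} {K : ℝ} {G : E → ℝ} (h : Nice (dd + 3 + q) K G) (w : E) :
    (1 + ‖w‖) ^ q * |G w| ≤ K * W w :=
  le_W (by rw [← mul_assoc, ← pow_add]; exact h.1 w)

lemma wI_int (hA : AngStmt) (q : ℕ) {G f g : E → ℝ} (hG : Rap G) (hf : Rap f) (hg : Rap g) :
    Integrable (wI q G f g) mu3 := by
  have m1 := hG.measurable
  have m2 := hf.measurable
  have m3 := hg.measurable
  obtain ⟨K1, h1⟩ := hG (dd + 3 + q)
  obtain ⟨K2, h2⟩ := hf (dd + 3)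
  obtain ⟨K3, h3⟩ := hg 0
  have hK1 := h1.nonneg
  have hK2 := h2.nonneg
  have hK3 := h3.nonneg
  refine integrable_of_I3 (by unfold wI wJ; fun_prop) ?_
  refine fin_of_le hA hK2 hK1 (c := (q * 2 ^ (q - 1) + 2) * K3) (by positivity) fun p => ?_
  have a1 := wt_W h1 p.2.1
  have a2 := le_W (h2.1 p.1)
  have a3 := gain_le q h3 p
  have a4 := ker3_nonneg p
  have a5 : 0 ≤ min 1 |rho p| := le_min zero_le_one (abs_nonneg _)
  have hW := W_pos p.1
  rw [wI, wJ, abs_mul, abs_mul, abs_mul, abs_of_nonneg a4, kx]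
  calc ker3 p * (|G p.2.1| * (|f p.1| * |xr p ^ q * g (v1 p) - g p.1|))
      ≤ ker3 p * (|G p.2.1| * ((K2 * W p.1)
        * ((q * 2 ^ (q - 1) + 2) * K3 * min 1 |rho p| * (1 + ‖p.2.1‖) ^ q))) := by gcongr
    _ = ker3 p * min 1 |rho p| * ((q * 2 ^ (q - 1) + 2) * K3)
        * ((K2 * W p.1) * ((1 + ‖p.2.1‖) ^ q * |G p.2.1|)) := by ring
    _ ≤ _ := by gcongr

lemma ot_fin (hA : AngStmt) (q : ℕ) {G f g : E → ℝ} (hG : Rap G) (hf : Rap f) (hg : Rap g) :
    Ot q G f g ≠ ⊤ := by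
  obtain ⟨K1, h1⟩ := hG (dd + 3 + q)
  obtain ⟨K2, h2⟩ := hf (dd + 3)
  obtain ⟨K3, h3⟩ := hg 0
  have hK1 := h1.nonneg
  have hK2 := h2.nonneg
  have hK3 := h3.nonneg
  refine fin_of_le hA hK2 hK1 hK3 fun p => ?_
  have a0 : kS Out p ≤ kx p := by
    by_cases hp : Out p
    · rw [kS_pos hp, ← kf_pos hp.1]; exact kf_le_kx p
    · rw [kS_neg hp]; exact kx_nonneg p
  have a1 := wt_W h1 p.2.1
  have a2 := le_W (h2.1 p.1)
  have a3 := xr_pow_le q p
  have a4 := h3.abs_le (v1 p)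
  have a5 := kx_nonneg p
  have a6 := xr_pos p
  have hW := W_pos p.1
  calc kS Out p * |G p.2.1| * xr p ^ q * (|f p.1| * |g (v1 p)|)
      ≤ kx p * |G p.2.1| * (1 + ‖p.2.1‖) ^ q * ((K2 * W p.1) * K3) := by gcongr
    _ = kx p * K3 * ((K2 * W p.1) * ((1 + ‖p.2.1‖) ^ q * |G p.2.1|)) := by ring
    _ ≤ _ := by gcongr

end FinR

theorem rap : RapStmt := by
  have h0 : Rap sM := fun P => ⟨_, nice_sM P⟩
  refine ⟨h0, ?_, fun f g hf hg => (FinR.mod_of_rap hf).rap hg,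
    fun q f hf => (FinR.mod_jb.pow q).rap hf, fun q f hf => ?_⟩
  · have h1 : MM = fun v => sM v * sM v := by funext v; rw [MM, sq]
    rw [h1]
    exact (FinR.mod_of_rap h0).rap h0
  · have h1 : (fun v => f v / jb v ^ q) = fun v => (jb v)⁻¹ ^ q * f v := by
      funext v; rw [inv_pow, div_eq_inv_mul]
    rw [h1]
    exact (FinR.mod_inv_jb.pow q).rap hf

theorem fin (hA : AngStmt) : FinStmt :=
  ⟨fun _ hf => ENNReal.add_ne_top.2 ⟨FinR.j0_fin hA hf, FinR.wn_fin _ hf⟩,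
    fun r _ hf => FinR.wn_fin r hf,
    fun q _ _ _ hG hf hg => ⟨FinR.wI_int hA q hG hf hg, FinR.ot_fin hA q hG hf hg⟩⟩

end Pool.Agent.BoltzM.HC
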