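import Pool.Agent.BoltzM.HC.Basic

/-! Coercivity and the diagonal estimate in polynomially weighted `L^2`. -/

set_option autoImplicit false

open MeasureTheory Set Filter Topology
open scoped ENNReal RealInnerProductSpace

noncomputable section

namespace Pool.Agent.BoltzM.HC

open Coll

variable [Dim]

namespace K1

/-- the jump piece -/
def P1 (q : ℕ) (G f : E → ℝ) (p : E × E × S2) : ℝ :=
  ker3 p * G p.2.1 * rh q p * (f (v1 p) - f p.1) ^ 2

/-- the multiplier piece -/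
def P3 (q : ℕ) (G f : E → ℝ) (p : E × E × S2) : ℝ :=
  ker3 p * G p.2.1 * (1 - rh q p) * f p.1 ^ 2

/-- the excess piece -/
def P4 (q : ℕ) (G f : E → ℝ) (p : E × E × S2) : ℝ :=
  ker3 p * G p.2.1 * r2 q p * (f p.1 * f (v1 p))

lemma wI_eq (q : ℕ) (G f : E → ℝ) (p : E × E × S2) :
    wI q G f f p = -(1 / 2) * P1 q G f p + 1 / 2 * cI q G f p - 1 / 2 * P3 q G f p
      + P4 q G f p := by
  simp only [wI, wJ, P1, P3, P4, cI, ← rh_add_r2]; ring

lemma measurable_P1 (q : ℕ) {G f : E → ℝ} (hG : Measurable G) (hf : Measurable f) :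
    Measurable (P1 q G f) := by unfold P1; fun_prop

lemma measurable_P3 (q : ℕ) {G f : E → ℝ} (hG : Measurable G) (hf : Measurable f) :
    Measurable (P3 q G f) := by unfold P3; fun_prop

lemma measurable_P4 (q : ℕ) {G f : E → ℝ} (hG : Measurable G) (hf : Measurable f) :
    Measurable (P4 q G f) := by unfold P4; fun_prop

lemma K_nonneg {K : ℝ} {G : E → ℝ} (h : ∀ w, |G w| ≤ K * iw w) : 0 ≤ K :=
  (mul_nonneg_iff_of_pos_right (iw_pos 0)).1 ((abs_nonneg _).trans (h 0))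

lemma I3_P1 {q : ℕ} (hq : 4 ≤ q) {K : ℝ} {G : E → ℝ} (h : ∀ w, |G w| ≤ K * iw w) (f : E → ℝ) :
    I3 (fun p => |P1 q G f p|) ≤ ENNReal.ofReal K * Jp f := by
  rw [Jp, ← I3_const_mul (K_nonneg h)]
  refine I3_mono fun p => ?_
  have h0 := ker3_nonneg p
  have h1 := rh_pos q p
  have h2 := rh_le_four hq p
  have h3 := h p.2.1
  have h4 : 0 ≤ K * iw p.2.1 := (abs_nonneg _).trans h3
  rw [P1, abs_mul, abs_mul, abs_mul, abs_of_nonneg h0, abs_of_pos h1, abs_sq]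
  calc _ ≤ ker3 p * (K * iw p.2.1) * min (xr p) 1 ^ 4 * (f (v1 p) - f p.1) ^ 2 := by gcongr
    _ = _ := by ring

lemma I3_P3 (q : ℕ) {K : ℝ} {G : E → ℝ} (h : ∀ w, |G w| ≤ K * iw w) (f : E → ℝ) :
    I3 (fun p => |P3 q G f p|)
      ≤ ENNReal.ofReal K * I3 (fun p => ker3 p * iw p.2.1 * (1 - rh q p) * f p.1 ^ 2) := by
  rw [← I3_const_mul (K_nonneg h)]
  refine I3_mono fun p => ?_
  have h0 := ker3_nonneg p
  have h1 := sub_nonneg.2 (rh_le_one q p)
  have h3 := h p.2.1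
  rw [P3, abs_mul, abs_mul, abs_mul, abs_of_nonneg h0, abs_of_nonneg h1, abs_sq]
  calc _ ≤ ker3 p * (K * iw p.2.1) * (1 - rh q p) * f p.1 ^ 2 := by gcongr
    _ = _ := by ring

lemma I3_P4 (q : ℕ) {K : ℝ} {G f : E → ℝ} (hG : Measurable G) (hf : Measurable f)
    (h : ∀ w, |G w| ≤ K * iw w) :
    I3 (fun p => |P4 q G f p|) ≤ ENNReal.ofReal K * I3 (fun p => kS (fun p => ¬Out p) p * iw p.2.1
      * r2 q p * (|f p.1| * |f (v1 p)|)) + Ot q G f f := by
  have hk := measurable_kS measurableSet_Out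
  rw [← I3_const_mul (K_nonneg h), Ot]
  refine le_trans (I3_mono fun p => ?_) (I3_add_le (by fun_prop))
  have h0 := ker3_nonneg p
  have h1 := r2_nonneg q p
  have h2 := r2_le q p
  have h3 := h p.2.1
  rw [P4, abs_mul, abs_mul, abs_mul, abs_mul, abs_of_nonneg h0, abs_of_nonneg h1]
  by_cases ho : Out p
  · rw [kS_pos ho, kS_neg (S := fun p => ¬Out p) (not_not.2 ho)]
    calc _ ≤ ker3 p * |G p.2.1| * xr p ^ q * (|f p.1| * |f (v1 p)|) := by gcongr
      _ = _ := by ring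
  · rw [kS_neg ho, kS_pos (S := fun p => ¬Out p) ho]
    calc _ ≤ ker3 p * (K * iw p.2.1) * r2 q p * (|f p.1| * |f (v1 p)|) := by gcongr
      _ = _ := by ring

omit [Dim] in
lemma half_mul_half (a : ℝ≥0∞) : a ^ (1 / 2 : ℝ) * a ^ (1 / 2 : ℝ) = a := by
  rw [← ENNReal.rpow_add_of_nonneg _ _ (by norm_num) (by norm_num)]
  norm_num

lemma wk_eq {q : ℕ} {G f : E → ℝ} (i1 : Integrable (P1 q G f) mu3)
    (i2 : Integrable (cI q G f) mu3) (i3 : Integrable (P3 q G f) mu3)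
    (i4 : Integrable (P4 q G f) mu3) :
    wk q G f f = -(1 / 2) * ∫ p, P1 q G f p ∂mu3 + 1 / 2 * ∫ p, cI q G f p ∂mu3
      - 1 / 2 * ∫ p, P3 q G f p ∂mu3 + ∫ p, P4 q G f p ∂mu3 := by
  have j1 : Integrable (fun p => -(1 / 2) * P1 q G f p) mu3 := i1.const_mul _
  have j2 : Integrable (fun p => 1 / 2 * cI q G f p) mu3 := i2.const_mul _
  have j3 : Integrable (fun p => 1 / 2 * P3 q G f p) mu3 := i3.const_mul _
  have j4 : Integrable (fun p => -(1 / 2) * P1 q G f p + 1 / 2 * cI q G f p) mu3 := j1.add j2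
  have j5 : Integrable (fun p => -(1 / 2) * P1 q G f p + 1 / 2 * cI q G f p
      - 1 / 2 * P3 q G f p) mu3 := j4.sub j3
  simp only [wk, wI_eq]
  rw [integral_add j5 i4, integral_sub j4 j3, integral_add j1 j2, integral_const_mul,
    integral_const_mul, integral_const_mul]

lemma both {F : E × E × S2 → ℝ} (hF : Measurable F) {B : ℝ≥0∞} (hB : B ≠ ⊤)
    (h : I3 (fun p => |F p|) ≤ B) : Integrable F mu3 ∧ |∫ p, F p ∂mu3| ≤ B.toReal :=
  ⟨integrable_of_I3 hF (ne_top_of_le_ne_top hB h), abs_integral_le_I3 F hB h⟩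

lemma wn_nonneg (r : ℝ) (f : E → ℝ) : 0 ≤ wn r f := ENNReal.toReal_nonneg

lemma nn_eq {f : E → ℝ} (h : NN f ≠ ⊤) : nn f = (J0 f).toReal + wn gm f :=
  ENNReal.toReal_add (ENNReal.add_ne_top.1 h).1 (ENNReal.add_ne_top.1 h).2

lemma wn_mono {r r' : ℝ} (h : r ≤ r') {f : E → ℝ} (hf : Wn r' f ≠ ⊤) : wn r f ≤ wn r' f :=
  ENNReal.toReal_mono hf (Wn_mono h f)

/-- the jump piece is integrable and bounded by the norm -/
lemma est1 {C : ℝ} (hC : 0 < C) (hK : ∀ f : E → ℝ, Measurable f → Jp f ≤ ENNReal.ofReal C * NN f)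
    {q : ℕ} (hq : 4 ≤ q) {K : ℝ} {G f : E → ℝ} (hG : Measurable G) (hf : Measurable f)
    (h : ∀ w, |G w| ≤ K * iw w) (hN : NN f ≠ ⊤) :
    Integrable (P1 q G f) mu3 ∧ |∫ p, P1 q G f p ∂mu3| ≤ C * K * nn f := by
  have h1 := both (measurable_P1 q hG hf) (B := ENNReal.ofReal K * (ENNReal.ofReal C * NN f))
    (by finiteness) ((I3_P1 hq h f).trans (mul_le_mul_right (hK f hf) _))
  refine ⟨h1.1, h1.2.trans (le_of_eq ?_)⟩
  rw [ENNReal.toReal_mul, ENNReal.toReal_mul, ENNReal.toReal_ofReal (K_nonneg h),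
    ENNReal.toReal_ofReal hC.le, nn]
  ring

/-- the multiplier piece is integrable and bounded by the weighted norm -/
lemma est3 {C : ℝ} (hC : 0 < C) (hU : ∀ (q : ℕ) (f : E → ℝ), Measurable f →
      I3 (fun p => ker3 p * iw p.2.1 * (1 - rh q p) * f p.1 ^ 2)
        ≤ ENNReal.ofReal (C * q) * Wn gm f)
    (q : ℕ) {K : ℝ} {G f : E → ℝ} (hG : Measurable G) (hf : Measurable f)
    (h : ∀ w, |G w| ≤ K * iw w) (hN : Wn gm f ≠ ⊤) :
    Integrable (P3 q G f) mu3 ∧ |∫ p, P3 q G f p ∂mu3| ≤ C * q * K * wn gm f := by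
  have h1 := both (measurable_P3 q hG hf)
    (B := ENNReal.ofReal K * (ENNReal.ofReal (C * q) * Wn gm f))
    (by finiteness) ((I3_P3 q h f).trans (mul_le_mul_right (hU q f hf) _))
  refine ⟨h1.1, h1.2.trans (le_of_eq ?_)⟩
  rw [ENNReal.toReal_mul, ENNReal.toReal_mul, ENNReal.toReal_ofReal (K_nonneg h),
    ENNReal.toReal_ofReal (by positivity), wn]
  ring

/-- the excess piece is integrable and bounded up to the transfer term -/
lemma est4 {q : ℕ} {C : ℝ} (hC : 0 < C) (hB : ∀ f g : E → ℝ, Measurable f → Measurable g →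
      I3 (fun p => kS (fun p => ¬Out p) p * iw p.2.1 * r2 q p * (|f p.1| * |g (v1 p)|))
        ≤ ENNReal.ofReal C * (Wn 1 f ^ (1 / 2 : ℝ) * Wn 1 g ^ (1 / 2 : ℝ)))
    {K : ℝ} {G f : E → ℝ} (hG : Measurable G) (hf : Measurable f)
    (h : ∀ w, |G w| ≤ K * iw w) (hN : Wn 1 f ≠ ⊤) (hO : Ot q G f f ≠ ⊤) :
    Integrable (P4 q G f) mu3 ∧
      |∫ p, P4 q G f p ∂mu3| ≤ C * K * wn 1 f + (Ot q G f f).toReal := by
  have h0 := hB f f hf hf
  rw [half_mul_half] at h0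
  have h1 := both (measurable_P4 q hG hf)
    (B := ENNReal.ofReal K * (ENNReal.ofReal C * Wn 1 f) + Ot q G f f)
    (by finiteness) ((I3_P4 q hG hf h).trans (add_le_add_left (mul_le_mul_right h0 _) _))
  refine ⟨h1.1, h1.2.trans (le_of_eq ?_)⟩
  rw [ENNReal.toReal_add (by finiteness) hO, ENNReal.toReal_mul, ENNReal.toReal_mul,
    ENNReal.toReal_ofReal (K_nonneg h), ENNReal.toReal_ofReal hC.le, wn]
  ring

lemma integral_eq_I3 {F : E × E × S2 → ℝ} (hF : Measurable F) (h0 : ∀ p, 0 ≤ F p) :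
    ∫ p, F p ∂mu3 = (I3 F).toReal :=
  integral_eq_lintegral_of_nonneg_ae (Eventually.of_forall h0) hF.aestronglyMeasurable

lemma I3_ne_top {F : E × E × S2 → ℝ} (h : Integrable F mu3) : I3 F ≠ ⊤ :=
  h.lintegral_lt_top.ne

lemma P1_nonneg (q : ℕ) (f : E → ℝ) (p : E × E × S2) : 0 ≤ P1 q MM f p := by
  have := ker3_nonneg p
  have := MM_pos p.2.1
  have := rh_pos q p
  unfold P1; positivity

lemma P3_nonneg (q : ℕ) (f : E → ℝ) (p : E × E × S2) : 0 ≤ P3 q MM f p := by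
  have := ker3_nonneg p
  have := MM_pos p.2.1
  have := sub_nonneg.2 (rh_le_one q p)
  unfold P3; positivity

/-- the jump piece dominates the jump part of the norm -/
lemma low1 (q : ℕ) {f : E → ℝ} (hf : Measurable f) (i1 : Integrable (P1 q MM f) mu3) :
    (1 / 4) ^ q * (J0 f).toReal ≤ ∫ p, P1 q MM f p ∂mu3 := by
  have hc : (0 : ℝ) ≤ (1 / 4) ^ q := by positivity
  rw [integral_eq_I3 (measurable_P1 q measurable_MM hf) (P1_nonneg q f),
    ← ENNReal.toReal_ofReal hc, ← ENNReal.toReal_mul]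
  refine ENNReal.toReal_mono (I3_ne_top i1) ?_
  rw [J0, ← I3_const_mul hc]
  refine I3_mono fun p => ?_
  by_cases hw : Win p
  · have h0 := ker3_nonneg p
    have h1 := MM_pos p.2.1
    have h2 := le_rh_of_Win q hw
    rw [kS_pos hw, P1]
    calc _ = ker3 p * MM p.2.1 * (1 / 4) ^ q * (f (v1 p) - f p.1) ^ 2 := by ring
      _ ≤ _ := by gcongr
  · rw [kS_neg hw, zero_mul, zero_mul, mul_zero]
    exact P1_nonneg q f p

/-- the multiplier piece dominates the weighted norm outside a ball -/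
lemma low3' {L R : ℝ} (hL : 0 ≤ L) {q : ℕ} (h : ∀ v : E, R ≤ ‖v‖ → ENNReal.ofReal (L * jb v ^ gm)
      ≤ ∫⁻ z, ENNReal.ofReal (ker3 (v, z) * MM z.1 * (1 - rh q (v, z))) ∂mu2)
    {f : E → ℝ} (hf : Measurable f) :
    ENNReal.ofReal L * Wn gm f
      ≤ I3 (P3 q MM f) + ENNReal.ofReal (L * (1 + |R|) ^ 2) * Wn 0 f := by
  have hm : Measurable fun p : E × E × S2 => ENNReal.ofReal (P3 q MM f p) :=
    (measurable_P3 q measurable_MM hf).ennreal_ofReal
  rw [I3, mu3, lintegral_prod _ hm.aemeasurable, Wn, Wn,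
    ← lintegral_const_mul' _ _ ENNReal.ofReal_ne_top,
    ← lintegral_const_mul' _ _ ENNReal.ofReal_ne_top, ← lintegral_add_right _ (by fun_prop)]
  refine lintegral_mono fun v => ?_
  have hj := jb_pos v
  rcases le_or_gt R ‖v‖ with hv | hv
  · refine le_trans ?_ le_self_add
    have e : ∀ z : E × S2, ENNReal.ofReal (P3 q MM f (v, z))
        = ENNReal.ofReal (ker3 (v, z) * MM z.1 * (1 - rh q (v, z))) * ENNReal.ofReal (f v ^ 2) :=
      fun z => ENNReal.ofReal_mul' (sq_nonneg _)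
    simp only [e]
    rw [lintegral_mul_const _ (by fun_prop), ← ENNReal.ofReal_mul hL, ← mul_assoc,
      ENNReal.ofReal_mul' (sq_nonneg _)]
    exact mul_le_mul_left (h v hv) _
  · refine le_trans ?_ le_add_self
    rw [← ENNReal.ofReal_mul hL, ← ENNReal.ofReal_mul (by positivity), Real.rpow_zero, one_mul,
      ← mul_assoc]
    refine ENNReal.ofReal_le_ofReal ?_
    have h1 : jb v ^ gm ≤ jb v ^ (2 : ℝ) :=
      Real.rpow_le_rpow_of_exponent_le (one_le_jb v) (by norm_num [gm])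
    have h2 : jb v ≤ 1 + |R| := by linarith [jb_le v, le_abs_self R]
    have h3 : jb v ^ gm ≤ (1 + |R|) ^ 2 := by
      rw [Real.rpow_two] at h1
      exact h1.trans (by gcongr)
    gcongr

lemma low3 {L R : ℝ} (hL : 0 ≤ L) {q : ℕ} (h : ∀ v : E, R ≤ ‖v‖ → ENNReal.ofReal (L * jb v ^ gm)
      ≤ ∫⁻ z, ENNReal.ofReal (ker3 (v, z) * MM z.1 * (1 - rh q (v, z))) ∂mu2)
    {f : E → ℝ} (hf : Measurable f) (i3 : Integrable (P3 q MM f) mu3) (h0 : Wn 0 f ≠ ⊤) :
    L * wn gm f ≤ ∫ p, P3 q MM f p ∂mu3 + L * (1 + |R|) ^ 2 * wn 0 f := by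
  have h1 := I3_ne_top i3
  have h2 := ENNReal.toReal_mono (by finiteness) (low3' hL h hf)
  rwa [ENNReal.toReal_add h1 (by finiteness), ENNReal.toReal_mul, ENNReal.toReal_mul,
    ENNReal.toReal_ofReal hL, ENNReal.toReal_ofReal (by positivity),
    ← integral_eq_I3 (measurable_P3 q measurable_MM hf) (P3_nonneg q f)] at h2

omit [Dim] in
lemma interp_real {x T : ℝ} (hx : 1 ≤ x) (hT : 0 < T) :
    T * x ^ (1 : ℝ) ≤ x ^ gm + T ^ 3 * x ^ (0 : ℝ) := by
  have h0 : 0 < x := by linarith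
  have h1 : 0 < x ^ (99 / 100 : ℝ) := by positivity
  have e1 : x ^ gm = x ^ (1 : ℝ) * x ^ (99 / 100 : ℝ) := by
    rw [← Real.rpow_add h0]; norm_num [gm]
  have e2 : x ^ (1 : ℝ) ≤ x ^ (99 / 100 : ℝ) * x ^ (99 / 100 : ℝ) := by
    rw [← Real.rpow_add h0]
    exact Real.rpow_le_rpow_of_exponent_le hx (by norm_num)
  rw [e1, Real.rpow_zero, mul_one]
  rw [Real.rpow_one] at e2 ⊢
  rcases le_total T (x ^ (99 / 100 : ℝ)) with h | h
  · nlinarith [mul_le_mul_of_nonneg_left h h0.le, pow_pos hT 3]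
  · have h2 : x ≤ T * T := e2.trans (mul_le_mul h h h1.le hT.le)
    nlinarith [mul_le_mul_of_nonneg_left h2 hT.le, mul_pos h0 h1]

/-- interpolation of the weight one -/
lemma interp {T : ℝ} (hT : 0 < T) {f : E → ℝ} (hf : Measurable f) (h0 : Wn 0 f ≠ ⊤)
    (h1 : Wn gm f ≠ ⊤) : T * wn 1 f ≤ wn gm f + T ^ 3 * wn 0 f := by
  have h2 : ENNReal.ofReal T * Wn 1 f ≤ Wn gm f + ENNReal.ofReal (T ^ 3) * Wn 0 f := by
    rw [Wn, Wn, Wn, ← lintegral_const_mul' _ _ ENNReal.ofReal_ne_top,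
      ← lintegral_const_mul' _ _ ENNReal.ofReal_ne_top, ← lintegral_add_right _ (by fun_prop)]
    refine lintegral_mono fun v => ?_
    have hj := jb_pos v
    rw [← ENNReal.ofReal_mul hT.le, ← ENNReal.ofReal_mul (by positivity),
      ← ENNReal.ofReal_add (by positivity) (by positivity)]
    refine ENNReal.ofReal_le_ofReal ?_
    nlinarith [mul_le_mul_of_nonneg_right (interp_real (one_le_jb v) hT) (sq_nonneg (f v))]
  have h3 := ENNReal.toReal_mono (by finiteness) h2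
  rwa [ENNReal.toReal_add h1 (by finiteness), ENNReal.toReal_mul, ENNReal.toReal_mul,
    ENNReal.toReal_ofReal hT.le, ENNReal.toReal_ofReal (by positivity)] at h3

lemma cI_eq (q : ℕ) (G f : E → ℝ) (p : E × E × S2) :
    cI q G f p = cI q (fun w => max (G w) 0) f p - cI q (fun w => max (-G w) 0) f p := by
  simp only [cI]
  rw [← sub_mul, ← mul_sub, max_zero_sub_max_neg_zero_eq_self]

end K1

open K1

/-- row K1: coercivity -/
theorem k1 (hR : RapStmt) (hFin : FinStmt) (h1 : M1LStmt) (hU : M1UStmt) (h2 : M2RStmt)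
    (hB : B1Stmt) (hb : BbStmt) (hK : K2Stmt) : K1Stmt := by
  intro L
  obtain ⟨CU, hCU, hU⟩ := hU
  obtain ⟨C0, hC0, h2⟩ := h2
  obtain ⟨Cb, hCb, hb⟩ := hb
  obtain ⟨CK, hCK, hK⟩ := hK
  obtain ⟨hF1, hF2, hF3⟩ := hFin
  obtain ⟨K0, hK0, hM⟩ : ∃ K0 : ℝ, 0 < K0 ∧ ∀ w, MM w ≤ K0 * iw w :=
    ⟨_, Real.exp_pos _, MM_le_iw⟩
  have hM' : ∀ w, |MM w| ≤ K0 * iw w := fun w => by rw [abs_of_pos (MM_pos w)]; exact hM w
  have hL : 0 ≤ C0 * K0 + 2 * |L| + 4 := by positivity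
  obtain ⟨q0, R, h1⟩ := h1 (C0 * K0 + 2 * |L| + 4)
  refine ⟨max q0 4, fun q hq => ?_⟩
  have hq4 : 4 ≤ q := le_trans (le_max_right _ _) hq
  obtain ⟨C2, hC2, h2⟩ := h2 q hq4
  obtain ⟨CB, hCB, hB⟩ := hB q
  obtain ⟨Kq, hKq, hMq⟩ : ∃ Kq : ℝ, 0 < Kq ∧ ∀ w, jb w ^ q * |MM w| ≤ Kq * iw w := by
    refine ⟨_, Real.exp_pos _, fun w => le_trans ?_ (pow_mul_MM_le q w)⟩
    have := jb_pos w
    have := MM_pos w
    rw [abs_of_pos (MM_pos w)]
    gcongr
    exact jb_le w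
  refine ⟨(1 / 4) ^ q / 2, (C0 * K0 + 2 * |L| + 4) * (1 + |R|) ^ 2 / 2 + (CB * K0) ^ 3 + Cb * Kq,
    by positivity, by positivity, fun f hf => ?_⟩
  have mf := hf.measurable
  have hN := hF1 f hf
  have hO := (hF3 q MM f f hR.2.1 hf hf).2
  obtain ⟨i1, -⟩ := est1 hCK hK hq4 measurable_MM mf hM' hN
  obtain ⟨i2, e2, -⟩ := h2 K0 MM f measurable_MM hf (fun w => (MM_pos w).le) hM
  obtain ⟨i3, -⟩ := est3 hCU hU q measurable_MM mf hM' (hF2 gm f hf)
  obtain ⟨i4, e4⟩ := est4 hCB hB measurable_MM mf hM' (hF2 1 f hf) hO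
  have e1 := low1 q mf i1
  have e3 := low3 hL (h1 q (le_trans (le_max_left _ _) hq)) mf i3 (hF2 0 f hf)
  have e5 := interp (mul_pos hCB hK0) mf (hF2 0 f hf) (hF2 gm f hf)
  have e6 : (Ot q MM f f).toReal ≤ Cb * Kq * wn 0 f := by
    have h3 := hb q Kq MM f f measurable_MM mf mf hMq
    have h4 := hF2 0 f hf
    rw [half_mul_half] at h3
    have h5 := ENNReal.toReal_mono (by finiteness) h3
    rwa [ENNReal.toReal_mul, ENNReal.toReal_ofReal (by positivity)] at h5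
  have e7 := le_of_abs_le e4
  have e8 : (1 / 4 : ℝ) ^ q * wn gm f ≤ 1 * wn gm f :=
    mul_le_mul_of_nonneg_right (pow_le_one₀ (by norm_num) (by norm_num)) (wn_nonneg gm f)
  have e9 : L * wn gm f ≤ |L| * wn gm f :=
    mul_le_mul_of_nonneg_right (le_abs_self L) (wn_nonneg gm f)
  have e10 := wn_nonneg gm f
  rw [wk_eq i1 i2 i3 i4, nn_eq hN]
  nlinarith

/-- row T1D: the diagonal estimate -/
theorem t1d (hFin : FinStmt) (hU : M1UStmt) (h2 : M2RStmt) (hB : B1Stmt) (hK : K2Stmt) :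
    T1DStmt := by
  intro q hq
  obtain ⟨CU, hCU, hU⟩ := hU
  obtain ⟨C0, hC0, h2⟩ := h2
  obtain ⟨CK, hCK, hK⟩ := hK
  obtain ⟨hF1, hF2, hF3⟩ := hFin
  obtain ⟨C2, hC2, h2⟩ := h2 q hq
  obtain ⟨CB, hCB, hB⟩ := hB q
  refine ⟨CK + (C0 + C2) + CU * q + CB, by positivity, fun K G f hG hf h => ?_⟩
  have mf := hf.measurable
  have mG := hG.measurable
  have hK0 := K_nonneg h
  have hN := hF1 f hf
  have hO := (hF3 q G f f hG hf hf).2
  have hz : ∀ w, 0 ≤ K * iw w := fun w => (abs_nonneg _).trans (h w)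
  obtain ⟨i1, e1⟩ := est1 hCK hK hq mG mf h hN
  obtain ⟨ia, ea, ea'⟩ := h2 K (fun w => max (G w) 0) f (by fun_prop) hf
    (fun w => le_max_right _ _) fun w => max_le (le_of_abs_le (h w)) (hz w)
  obtain ⟨ib, eb, eb'⟩ := h2 K (fun w => max (-G w) 0) f (by fun_prop) hf
    (fun w => le_max_right _ _) fun w => max_le ((neg_le_abs _).trans (h w)) (hz w)
  obtain ⟨i3, e3⟩ := est3 hCU hU q mG mf h (hF2 gm f hf)
  obtain ⟨i4, e4⟩ := est4 hCB hB mG mf h (hF2 1 f hf) hO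
  have i2 : Integrable (cI q G f) mu3 :=
    (ia.sub ib).congr (Eventually.of_forall fun p => (cI_eq q G f p).symm)
  have e2 : ∫ p, cI q G f p ∂mu3 = ∫ p, cI q (fun w => max (G w) 0) f p ∂mu3
      - ∫ p, cI q (fun w => max (-G w) 0) f p ∂mu3 := by
    rw [← integral_sub ia ib]
    exact integral_congr_ae (Eventually.of_forall fun p => cI_eq q G f p)
  have n1 : wn gm f ≤ nn f := by
    rw [nn_eq hN]; exact le_add_of_nonneg_left ENNReal.toReal_nonneg
  have n2 : wn 1 f ≤ nn f := (wn_mono (by norm_num [gm]) (hF2 gm f hf)).trans n1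
  have n0 : 0 ≤ nn f := (wn_nonneg gm f).trans n1
  have m0 : C0 * K * wn gm f ≤ C0 * K * nn f := by gcongr
  have m2 : C2 * K * wn gm f ≤ C2 * K * nn f := by gcongr
  have m3 : CU * q * K * wn gm f ≤ CU * q * K * nn f := by gcongr
  have m4 : CB * K * wn 1 f ≤ CB * K * nn f := by gcongr
  have z1 : 0 ≤ CK * K * nn f := by positivity
  have z2 : 0 ≤ C0 * K * nn f := by positivity
  have z3 : 0 ≤ C2 * K * nn f := by positivity
  have z4 : 0 ≤ CU * q * K * nn f := by positivity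
  rw [wk_eq i1 i2 i3 i4, e2]
  rw [abs_le] at e1 e3 e4 ⊢
  constructor <;> nlinarith [e1.1, e1.2, e3.1, e3.2, e4.1, e4.2]

end Pool.Agent.BoltzM.HC
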