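import Pool.Agent.BoltzM.HC.Marg

/-! The chain on a line. -/

set_option autoImplicit false

open MeasureTheory Set Filter Topology
open scoped ENNReal RealInnerProductSpace

noncomputable section

namespace Pool.Agent.BoltzM.HC

open Coll

namespace K2L

/-- upper kernel on the line -/
def U (Y τ a : ℝ) : ℝ :=
  if 1 / 16 ≤ |τ - a| * (1 + |a|) ∧ |τ| ≤ Y ∧ |a| ≤ Y then
    ((1 + |a|) ^ 6)⁻¹ * |τ - a| ^ (-(101 / 100) : ℝ) else 0

/-- lower kernel on the line -/
def L (Y τ b : ℝ) : ℝ := if |τ| ≤ Y ∧ |b| ≤ 1 then |τ - b| ^ (-(101 / 100) : ℝ) else 0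

/-- the profile -/
def ph (t : ℝ) : ℝ := |t| ^ (-(101 / 100) : ℝ) * min 1 |t|

lemma U_nonneg (Y τ a : ℝ) : 0 ≤ U Y τ a := by unfold U; split_ifs <;> positivity

lemma L_nonneg (Y τ a : ℝ) : 0 ≤ L Y τ a := by unfold L; split_ifs <;> positivity

lemma ph_nonneg (t : ℝ) : 0 ≤ ph t := by unfold ph; positivity

@[fun_prop] lemma measurable_ph : Measurable ph :=
  (Measurable.pow_const (by fun_prop) _).mul (by fun_prop)

@[fun_prop] lemma measurable_U {α : Type*} [MeasurableSpace α] {Y a b : α → ℝ}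
    (hY : Measurable Y) (ha : Measurable a) (hb : Measurable b) :
    Measurable fun x => U (Y x) (a x) (b x) := by
  unfold U
  refine Measurable.ite ?_ (Measurable.mul (by fun_prop) (Measurable.pow_const (by fun_prop) _))
    measurable_const
  exact (measurableSet_le (f := fun _ => (1 / 16 : ℝ)) (g := fun x => |a x - b x| * (1 + |b x|))
    measurable_const (by fun_prop)).inter
    ((measurableSet_le (f := fun x => |a x|) (by fun_prop) hY).inter
      (measurableSet_le (f := fun x => |b x|) (by fun_prop) hY))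

@[fun_prop] lemma measurable_L {α : Type*} [MeasurableSpace α] {Y a b : α → ℝ}
    (hY : Measurable Y) (ha : Measurable a) (hb : Measurable b) :
    Measurable fun x => L (Y x) (a x) (b x) := by
  unfold L
  refine Measurable.ite ?_ (Measurable.pow_const (by fun_prop) _) measurable_const
  exact (measurableSet_le (f := fun x => |a x|) (by fun_prop) hY).inter
    (measurableSet_le (f := fun x => |b x|) (g := fun _ => (1 : ℝ)) (by fun_prop) measurable_const)

lemma rpow_le_of_le {x y c : ℝ} (hx : 0 < x) (hy : 0 < y) (hc : 1 ≤ c) (h : y ≤ c * x) :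
    x ^ (-(101 / 100) : ℝ) ≤ c ^ 2 * y ^ (-(101 / 100) : ℝ) := by
  have h1 : (c * x) ^ (-(101 / 100) : ℝ) ≤ y ^ (-(101 / 100) : ℝ) :=
    Real.rpow_le_rpow_of_nonpos hy h (by norm_num)
  have h2 : 1 ≤ c ^ 2 * c ^ (-(101 / 100) : ℝ) := by
    rw [← Real.rpow_natCast, ← Real.rpow_add (by linarith)]
    exact Real.one_le_rpow hc (by norm_num)
  rw [Real.mul_rpow (by linarith) hx.le] at h1
  calc _ ≤ (c ^ 2 * c ^ (-(101 / 100) : ℝ)) * x ^ (-(101 / 100) : ℝ) :=
        le_mul_of_one_le_left (by positivity) h2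
    _ = c ^ 2 * (c ^ (-(101 / 100) : ℝ) * x ^ (-(101 / 100) : ℝ)) := by ring
    _ ≤ _ := by gcongr

lemma first (F : ℝ → ℝ) (Y τ a : ℝ) {b : ℝ} (hb : |b| ≤ 1) : U Y τ a * (F b - F τ) ^ 2
    ≤ 289 * ((1 + |a|) ^ 2)⁻¹ * (L Y τ b * (F b - F τ) ^ 2) := by
  have h0 := L_nonneg Y τ b
  rcases eq_or_ne τ b with rfl | hne
  · simp
  unfold U
  split_ifs with h
  · have ha := abs_nonneg a
    have ht : 0 < |τ - a| := by
      by_contra hc
      rw [le_antisymm (not_lt.1 hc) (abs_nonneg _)] at h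
      linarith [h.1]
    have h1 : |τ - b| ≤ 17 * (1 + |a|) ^ 2 * |τ - a| := by
      have h2 : |τ - b| ≤ |τ - a| + (|a| + |b|) :=
        (abs_sub_le τ a b).trans (add_le_add le_rfl (abs_sub a b))
      have h3 := mul_le_mul_of_nonneg_left h.1 (show 0 ≤ 1 + |a| by positivity)
      nlinarith [mul_nonneg ht.le ha, mul_nonneg ht.le (sq_nonneg |a|)]
    have h4 := rpow_le_of_le ht (abs_pos.2 (sub_ne_zero.2 hne)) (by nlinarith) h1
    rw [L, if_pos ⟨h.2.1, hb⟩, ← mul_assoc]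
    refine mul_le_mul_of_nonneg_right ?_ (sq_nonneg _)
    calc _ ≤ ((1 + |a|) ^ 6)⁻¹ * ((17 * (1 + |a|) ^ 2) ^ 2 * |τ - b| ^ (-(101 / 100) : ℝ)) := by
          gcongr
      _ = _ := by field_simp; ring
  · rw [zero_mul]; positivity

lemma second (F : ℝ → ℝ) (Y τ a : ℝ) {b : ℝ} (hb : |b| ≤ 1) : U Y τ a * (F b - F a) ^ 2
    ≤ 16 * ph (τ - a) * (L Y a b * (F b - F a) ^ 2) := by
  have h0 := L_nonneg Y a b
  have h00 := ph_nonneg (τ - a)
  rcases eq_or_ne a b with rfl | hne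
  · simp
  unfold U
  split_ifs with h
  · have ha := abs_nonneg a
    have h1 : |a - b| ≤ (1 + |a|) * 1 := by linarith [abs_sub a b]
    have h2 := rpow_le_of_le one_pos (abs_pos.2 (sub_ne_zero.2 hne)) (by linarith) h1
    rw [Real.one_rpow] at h2
    have h3 : 1 ≤ 16 * (1 + |a|) * min 1 |τ - a| := by
      rcases le_total 1 |τ - a| with h4 | h4
      · rw [min_eq_left h4]; linarith
      · rw [min_eq_right h4]; linarith [h.1]
    rw [L, if_pos ⟨h.2.2, hb⟩, ← mul_assoc, ph]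
    refine mul_le_mul_of_nonneg_right ?_ (sq_nonneg _)
    have h5 : ((1 + |a|) ^ 6)⁻¹ * (1 + |a|) ^ 3 ≤ 1 := by
      rw [inv_mul_le_iff₀ (by positivity), mul_one]
      exact pow_le_pow_right₀ (by linarith) (by norm_num)
    have h6 : 0 ≤ min 1 |τ - a| := by positivity
    calc _ = ((1 + |a|) ^ 6)⁻¹ * |τ - a| ^ (-(101 / 100) : ℝ) * 1 * 1 := by ring
      _ ≤ ((1 + |a|) ^ 6)⁻¹ * |τ - a| ^ (-(101 / 100) : ℝ) * (16 * (1 + |a|) * min 1 |τ - a|)
          * ((1 + |a|) ^ 2 * |a - b| ^ (-(101 / 100) : ℝ)) := by gcongr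
      _ = (((1 + |a|) ^ 6)⁻¹ * (1 + |a|) ^ 3) * (16 * (|τ - a| ^ (-(101 / 100) : ℝ)
          * min 1 |τ - a|) * |a - b| ^ (-(101 / 100) : ℝ)) := by ring
      _ ≤ _ := mul_le_of_le_one_left (by positivity) h5
  · rw [zero_mul]; positivity

lemma lint_sq : ∫⁻ a : ℝ, ENNReal.ofReal (289 * ((1 + |a|) ^ 2)⁻¹) ≠ ⊤ := by
  have := finite_integral_one_add_norm (μ := (volume : Measure ℝ)) (r := (2 : ℕ)) (by simp)
  simp only [ENNReal.ofReal_mul (show (0 : ℝ) ≤ 289 by norm_num)]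
  rw [lintegral_const_mul' _ _ ENNReal.ofReal_ne_top]
  refine ENNReal.mul_ne_top ENNReal.ofReal_ne_top
    (lt_of_le_of_lt (le_of_eq (lintegral_congr fun w => ?_)) this).ne
  rw [Real.rpow_neg (by positivity), Real.rpow_natCast, Real.norm_eq_abs]

lemma lint_ph : ∫⁻ t : ℝ, ENNReal.ofReal (16 * ph t) ≠ ⊤ := by
  simp only [ENNReal.ofReal_mul (show (0 : ℝ) ≤ 16 by norm_num)]
  rw [lintegral_const_mul' _ _ ENNReal.ofReal_ne_top]
  exact ENNReal.mul_ne_top ENNReal.ofReal_ne_top Marg.profile_lt_top.ne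

lemma line : ∃ C : ℝ≥0∞, C ≠ ⊤ ∧ ∀ (Y : ℝ) (F : ℝ → ℝ), Measurable F →
    ∫⁻ τ, ∫⁻ a, ENNReal.ofReal (U Y τ a * (F a - F τ) ^ 2)
      ≤ C * ∫⁻ τ, ∫⁻ b, ENNReal.ofReal (L Y τ b * (F b - F τ) ^ 2) := by
  refine ⟨(∫⁻ a : ℝ, ENNReal.ofReal (289 * ((1 + |a|) ^ 2)⁻¹))
    + ∫⁻ t : ℝ, ENNReal.ofReal (16 * ph t), ENNReal.add_ne_top.2 ⟨lint_sq, lint_ph⟩,
    fun Y F hF => ?_⟩
  set T : ℝ → ℝ≥0∞ := fun τ => ∫⁻ b, ENNReal.ofReal (L Y τ b * (F b - F τ) ^ 2) with hT
  have mT : Measurable T := Measurable.lintegral_prod_right'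
    (f := fun z : ℝ × ℝ => ENNReal.ofReal (L Y z.1 z.2 * (F z.2 - F z.1) ^ 2)) (by fun_prop)
  have key : ∀ τ a, ENNReal.ofReal (U Y τ a * (F a - F τ) ^ 2)
      ≤ ENNReal.ofReal (289 * ((1 + |a|) ^ 2)⁻¹) * T τ + ENNReal.ofReal (16 * ph (τ - a)) * T a := by
    intro τ a
    have h0 := U_nonneg Y τ a
    have h00 := ph_nonneg (τ - a)
    rw [hT, ← lintegral_const_mul' _ _ ENNReal.ofReal_ne_top,
      ← lintegral_const_mul' _ _ ENNReal.ofReal_ne_top, ← lintegral_add_left (by fun_prop)]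
    calc _ = ∫⁻ _ in Icc (-1 : ℝ) 1, ENNReal.ofReal (U Y τ a * (F a - F τ) ^ 2 / 2) := by
          rw [setLIntegral_const, Real.volume_Icc, ← ENNReal.ofReal_mul (by positivity)]
          congr 1; ring
      _ ≤ _ := by
          refine le_trans (setLIntegral_mono' measurableSet_Icc fun b hb => ?_)
            (setLIntegral_le_lintegral _ _)
          have h1 := first F Y τ a (abs_le.2 hb)
          have h2 := second F Y τ a (abs_le.2 hb)
          have h3 := L_nonneg Y τ b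
          have h4 := L_nonneg Y a b
          rw [← ENNReal.ofReal_mul (by positivity), ← ENNReal.ofReal_mul (by positivity),
            ← ENNReal.ofReal_add (by positivity) (by positivity)]
          refine ENNReal.ofReal_le_ofReal ?_
          have h5 : (F a - F τ) ^ 2 / 2 ≤ (F b - F τ) ^ 2 + (F b - F a) ^ 2 := by
            nlinarith [sq_nonneg (F b - F τ + (F b - F a))]
          have h6 := mul_le_mul_of_nonneg_left h5 h0
          rw [mul_div_assoc]
          linarith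
  calc _ ≤ ∫⁻ τ, ∫⁻ a, (ENNReal.ofReal (289 * ((1 + |a|) ^ 2)⁻¹) * T τ
        + ENNReal.ofReal (16 * ph (τ - a)) * T a) :=
        lintegral_mono fun τ => lintegral_mono fun a => key τ a
    _ = (∫⁻ τ, (∫⁻ a : ℝ, ENNReal.ofReal (289 * ((1 + |a|) ^ 2)⁻¹)) * T τ)
        + ∫⁻ τ, ∫⁻ a, ENNReal.ofReal (16 * ph (τ - a)) * T a := by
        rw [← lintegral_add_left (by fun_prop)]
        refine lintegral_congr fun τ => ?_
        rw [lintegral_add_left (by fun_prop), lintegral_mul_const _ (by fun_prop)]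
    _ = _ := by
        rw [lintegral_const_mul _ mT, add_mul, lintegral_lintegral_swap
            (f := fun τ a => ENNReal.ofReal (16 * ph (τ - a)) * T a) (by fun_prop),
          ← lintegral_const_mul (∫⁻ t : ℝ, ENNReal.ofReal (16 * ph t)) mT]
        congr 1
        refine lintegral_congr fun a => ?_
        rw [lintegral_mul_const _ (by fun_prop),
          lintegral_sub_right_eq_self (fun t => ENNReal.ofReal (16 * ph t)) a]

variable [Dim]

lemma I3_rot {F : E × E × S2 → ℝ} (hF : Measurable F) :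
    I3 F = ∫⁻ o, (∫⁻ v, ∫⁻ w, ENNReal.ofReal (F (v, w, o))) ∂sph := by
  have hm : Measurable fun p : S2 × E × E => ENNReal.ofReal (F (rot p)) :=
    hF.ennreal_ofReal.comp measurePreserving_rot.measurable
  rw [I3, ← measurePreserving_rot.lintegral_comp hF.ennreal_ofReal,
    lintegral_prod _ hm.aemeasurable]
  refine lintegral_congr fun o => ?_
  exact lintegral_prod _ (hm.comp (f := fun z : E × E => (o, z)) (by fun_prop)).aemeasurable

lemma four {e : E} {ι : E2 →ₗᵢ[ℝ] E} (h : MeasurePreserving fun p : ℝ × E2 => p.1 • e + ι p.2)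
    {G : E × E → ℝ≥0∞} (hG : Measurable G) : ∫⁻ v, ∫⁻ w, G (v, w)
      = ∫⁻ y : E2, ∫⁻ τ : ℝ, ∫⁻ a : ℝ, ∫⁻ z : E2, G (τ • e + ι y, a • e + ι z) := by
  have m1 : Measurable fun v => ∫⁻ w, G (v, w) := hG.lintegral_prod_right'
  rw [lintegral_slice h _ m1,
    lintegral_lintegral_swap (f := fun (r : ℝ) (y : E2) => ∫⁻ w, G (r • e + ι y, w))
      (m1.comp h.measurable).aemeasurable]
  refine lintegral_congr fun y => lintegral_congr fun τ => ?_
  exact lintegral_slice h (fun w => G (τ • e + ι y, w)) (by fun_prop)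

section Coord

variable {o : S2} {ι : E2 →ₗᵢ[ℝ] E} (h0 : ∀ y, ⟪(o : E), ι y⟫ = 0) (τ a : ℝ) (y z : E2)

include h0

lemma rho_co : rho (τ • (o : E) + ι y, a • (o : E) + ι z, o) = τ - a := by
  rw [rho, inner_sub_left, Geo.inner_coords (norm_coe o) h0, Geo.inner_coords (norm_coe o) h0]

lemma v1_co : v1 (τ • (o : E) + ι y, a • (o : E) + ι z, o) = a • (o : E) + ι y := by
  rw [v1_eq, rho_co h0, sub_smul]; simp only; abel

lemma norm_co : ‖(τ • (o : E) + ι y) - (a • (o : E) + ι z)‖ ^ 2 = (τ - a) ^ 2 + ‖y - z‖ ^ 2 := by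
  rw [← norm_sq_slice (norm_coe o) h0, sub_smul, map_sub]
  congr 2; abel

lemma upper (f : E → ℝ) :
    kS RL (τ • (o : E) + ι y, a • (o : E) + ι z, o) * iw (a • (o : E) + ι z)
        * (f (a • (o : E) + ι y) - f (τ • (o : E) + ι y)) ^ 2
      ≤ 54 * jb (ι y) ^ 3 * (U (jb (ι y)) τ a
        * (f (a • (o : E) + ι y) - f (τ • (o : E) + ι y)) ^ 2) * ((1 + ‖z‖) ^ dd)⁻¹ := by
  have hY := jb_pos (ι y)
  have hU := U_nonneg (jb (ι y)) τ a
  by_cases h : RL (τ • (o : E) + ι y, a • (o : E) + ι z, o)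
  swap
  · rw [kS_neg h, zero_mul, zero_mul]; positivity
  rw [kS_pos h, ker3_eq', rho_co h0]
  simp only [RL, RS, rho_co h0, Geo.inner_coords (norm_coe o) h0,
    Geo.perp_coords (norm_coe o) h0, not_lt] at h
  rw [U, if_pos h]
  have h1 : ‖(τ • (o : E) + ι y) - (a • (o : E) + ι z)‖ ≤ 3 * jb (ι y) * (1 + ‖z‖) := by
    have h2 : |τ - a| ≤ 2 * jb (ι y) := by linarith [abs_sub τ a, h.2.1, h.2.2]
    have h3 : ‖y - z‖ ≤ jb (ι y) + ‖z‖ := by
      have := norm_le_jb (ι y)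
      rw [ι.norm_map] at this
      linarith [norm_sub_le y z]
    have h4 : ‖(τ • (o : E) + ι y) - (a • (o : E) + ι z)‖ ≤ |τ - a| + ‖y - z‖ := by
      refine abs_le_of_sq_le_sq' ?_ (by positivity) |>.2
      rw [norm_co h0, ← sq_abs (τ - a)]
      nlinarith [mul_nonneg (abs_nonneg (τ - a)) (norm_nonneg (y - z))]
    nlinarith [one_le_jb (ι y), norm_nonneg z, mul_nonneg (sub_nonneg.2 (one_le_jb (ι y)))
      (norm_nonneg z)]
  have h5 := norm_sq_slice (norm_coe o) h0 a z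
  have h6 : |a| ≤ ‖a • (o : E) + ι z‖ :=
    abs_le_of_sq_le_sq (by rw [h5]; nlinarith [sq_nonneg ‖z‖]) (norm_nonneg _)
  have h7 : ‖z‖ ≤ ‖a • (o : E) + ι z‖ :=
    abs_le_of_sq_le_sq' (by rw [h5]; nlinarith [sq_nonneg a]) (norm_nonneg _) |>.2
  have h8 : iw (a • (o : E) + ι z) ≤ ((1 + |a|) ^ 6 * ((1 + ‖z‖) ^ dd * (1 + ‖z‖) ^ 3))⁻¹ := by
    refine inv_anti₀ (by positivity) ?_
    calc _ ≤ (1 + ‖a • (o : E) + ι z‖) ^ 6 * ((1 + ‖a • (o : E) + ι z‖) ^ dd
          * (1 + ‖a • (o : E) + ι z‖) ^ 3) := by gcongr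
      _ ≤ _ := by
          rw [← pow_add, ← pow_add]
          exact pow_le_pow_right₀ (by linarith [norm_nonneg (a • (o : E) + ι z)])
            (by unfold pK; omega)
  have h9 := iw_pos (a • (o : E) + ι z)
  calc _ ≤ 2 * (3 * jb (ι y) * (1 + ‖z‖)) ^ 3 * |τ - a| ^ (-(101 / 100) : ℝ)
        * ((1 + |a|) ^ 6 * ((1 + ‖z‖) ^ dd * (1 + ‖z‖) ^ 3))⁻¹
        * (f (a • (o : E) + ι y) - f (τ • (o : E) + ι y)) ^ 2 := by gcongr
    _ = _ := by field_simp; ring

lemma lower (f : E → ℝ) (h1 : (1 + ‖y‖) / 3 ≤ ‖y - z‖) (h2 : ‖z‖ ≤ 5) :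
    2 / 27 * Real.exp (-13) * jb (ι y) ^ 3 * (L (jb (ι y)) τ a
        * (f (a • (o : E) + ι y) - f (τ • (o : E) + ι y)) ^ 2)
      ≤ kS Win (τ • (o : E) + ι y, a • (o : E) + ι z, o) * MM (a • (o : E) + ι z)
        * (f (a • (o : E) + ι y) - f (τ • (o : E) + ι y)) ^ 2 := by
  have hY := jb_pos (ι y)
  have hM := MM_pos (a • (o : E) + ι z)
  unfold L
  split_ifs with h
  swap
  · have := kS_nonneg Win (τ • (o : E) + ι y, a • (o : E) + ι z, o)
    rw [zero_mul, mul_zero]; positivity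
  have hW : Win (τ • (o : E) + ι y, a • (o : E) + ι z, o) := by
    simp only [Win, Geo.inner_coords (norm_coe o) h0, Geo.perp_coords (norm_coe o) h0]
    linarith [h.1]
  rw [kS_pos hW, ker3_eq', rho_co h0]
  have h3 : jb (ι y) / 3 ≤ ‖(τ • (o : E) + ι y) - (a • (o : E) + ι z)‖ := by
    have h4 := jb_le (ι y)
    rw [ι.norm_map] at h4
    have h5 : ‖y - z‖ ≤ ‖(τ • (o : E) + ι y) - (a • (o : E) + ι z)‖ :=
      abs_le_of_sq_le_sq' (by rw [norm_co h0]; nlinarith [sq_nonneg (τ - a)]) (norm_nonneg _) |>.2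
    linarith
  have h6 : Real.exp (-13) ≤ MM (a • (o : E) + ι z) := by
    rw [MM, sM, ← Real.exp_nat_mul, Real.exp_le_exp, norm_sq_slice (norm_coe o) h0]
    have : a ^ 2 ≤ 1 := by nlinarith [sq_abs a, abs_nonneg a, h.2]
    push_cast
    nlinarith [norm_nonneg z]
  calc _ = 2 * (jb (ι y) / 3) ^ 3 * |τ - a| ^ (-(101 / 100) : ℝ) * Real.exp (-13)
        * (f (a • (o : E) + ι y) - f (τ • (o : E) + ι y)) ^ 2 := by ring
    _ ≤ _ := by gcongr

end Coord

lemma exists_centre (y : E2) : ∃ c : E2, ∀ z ∈ Metric.ball c 1,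
    (1 + ‖y‖) / 3 ≤ ‖y - z‖ ∧ ‖z‖ ≤ 5 := by
  by_cases hy : 2 ≤ ‖y‖
  · refine ⟨0, fun z hz => ?_⟩
    have := mem_ball_zero_iff.1 hz
    exact ⟨by linarith [norm_sub_norm_le y z], by linarith⟩
  · have hd := two_le_dd
    refine ⟨EuclideanSpace.single ⟨0, by omega⟩ 4, fun z hz => ?_⟩
    have h1 := mem_ball_iff_norm.1 hz
    have h2 := abs_le.1 ((abs_norm_sub_norm_le z _).trans h1.le)
    simp only [PiLp.norm_single, Real.norm_ofNat] at h2
    exact ⟨by linarith [norm_sub_norm_le z y, norm_sub_rev z y, h2.1], by linarith [h2.2]⟩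

lemma lint_E2 : ∫⁻ z : E2, ENNReal.ofReal (((1 + ‖z‖) ^ dd)⁻¹) ≠ ⊤ := by
  have hd := two_le_dd
  have := finite_integral_one_add_norm (μ := (volume : Measure E2)) (r := (dd : ℕ))
    (by simp; omega)
  refine (lt_of_le_of_lt (le_of_eq (lintegral_congr fun w => ?_)) this).ne
  rw [Real.rpow_neg (by positivity), Real.rpow_natCast]

end K2L

open K2L

variable [Dim]

theorem k2L : K2LStmt := by
  obtain ⟨C, hC, hl⟩ := line
  set B : ℝ≥0∞ := volume (Metric.ball (0 : E2) 1) with hB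
  have hB0 : B ≠ 0 := (Metric.measure_ball_pos _ _ one_pos).ne'
  have hB1 : B ≠ ⊤ := measure_ball_lt_top.ne
  set Z := ∫⁻ z : E2, ENNReal.ofReal (((1 + ‖z‖) ^ dd)⁻¹) with hZ
  set D : ℝ≥0∞ := ENNReal.ofReal (729 * Real.exp 13) * Z * C * B⁻¹ with hD
  have hD1 : D ≠ ⊤ := ENNReal.mul_ne_top (ENNReal.mul_ne_top (ENNReal.mul_ne_top
    ENNReal.ofReal_ne_top lint_E2) hC) (ENNReal.inv_ne_top.2 hB0)
  refine ⟨D.toReal + 1, by positivity, fun f hf => ?_⟩
  refine le_trans ?_ (mul_le_mul_left (show D ≤ _ from ?_) _)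
  swap
  · rw [ENNReal.ofReal_add ENNReal.toReal_nonneg zero_le_one, ENNReal.ofReal_toReal hD1]
    exact le_self_add
  have m1 := measurable_kS measurableSet_RL
  have m2 := measurable_kS measurableSet_Win
  have M1 : Measurable fun p : E × E × S2 => kS RL p * iw p.2.1 * (f (v1 p) - f p.1) ^ 2 := by
    fun_prop
  have M2 : Measurable fun p : E × E × S2 => kS Win p * MM p.2.1 * (f (v1 p) - f p.1) ^ 2 := by
    fun_prop
  rw [J0, I3_rot M1, I3_rot M2, ← lintegral_const_mul' _ _ hD1]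
  refine lintegral_mono fun o => ?_
  obtain ⟨ι, h0, -, hmp⟩ := exists_slice (o : E) (norm_coe o)
  have g1 := four hmp (M1.ennreal_ofReal.comp (f := fun z : E × E => (z.1, z.2, o)) (by fun_prop))
  have g2 := four hmp (M2.ennreal_ofReal.comp (f := fun z : E × E => (z.1, z.2, o)) (by fun_prop))
  simp only [Function.comp_def] at g1 g2
  simp only
  rw [g1, g2, ← lintegral_const_mul' _ _ hD1]
  refine lintegral_mono fun y => ?_
  simp only [v1_co h0]
  have hY := jb_pos (ι y)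
  obtain ⟨c, hc⟩ := exists_centre y
  have hF : Measurable fun s : ℝ => f (s • (o : E) + ι y) := by fun_prop
  have up : ∀ τ a : ℝ, ∫⁻ z : E2, ENNReal.ofReal
      (kS RL (τ • (o : E) + ι y, a • (o : E) + ι z, o) * iw (a • (o : E) + ι z)
        * (f (a • (o : E) + ι y) - f (τ • (o : E) + ι y)) ^ 2)
      ≤ ENNReal.ofReal (54 * jb (ι y) ^ 3) * Z * ENNReal.ofReal (U (jb (ι y)) τ a
        * (f (a • (o : E) + ι y) - f (τ • (o : E) + ι y)) ^ 2) := by
    intro τ a
    have hU := U_nonneg (jb (ι y)) τ a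
    rw [mul_right_comm, ← ENNReal.ofReal_mul (by positivity), hZ,
      ← lintegral_const_mul' _ _ ENNReal.ofReal_ne_top]
    refine lintegral_mono fun z => ?_
    simp only
    rw [← ENNReal.ofReal_mul (by positivity)]
    exact ENNReal.ofReal_le_ofReal (upper h0 τ a y z f)
  have lo : ∀ τ a : ℝ, ENNReal.ofReal (2 / 27 * Real.exp (-13) * jb (ι y) ^ 3) * B
      * ENNReal.ofReal (L (jb (ι y)) τ a * (f (a • (o : E) + ι y) - f (τ • (o : E) + ι y)) ^ 2)
      ≤ ∫⁻ z : E2, ENNReal.ofReal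
        (kS Win (τ • (o : E) + ι y, a • (o : E) + ι z, o) * MM (a • (o : E) + ι z)
          * (f (a • (o : E) + ι y) - f (τ • (o : E) + ι y)) ^ 2) := by
    intro τ a
    rw [mul_right_comm, ← ENNReal.ofReal_mul (by positivity), hB,
      ← Measure.addHaar_ball_center volume c, ← setLIntegral_const]
    refine le_trans (setLIntegral_mono' Metric.isOpen_ball.measurableSet fun z hz => ?_)
      (setLIntegral_le_lintegral _ _)
    exact ENNReal.ofReal_le_ofReal (lower h0 τ a y z f (hc z hz).1 (hc z hz).2)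
  have e1 : ENNReal.ofReal (54 * jb (ι y) ^ 3) * Z * C
      = D * (ENNReal.ofReal (2 / 27 * Real.exp (-13) * jb (ι y) ^ 3) * B) := by
    have e2 : ENNReal.ofReal (54 * jb (ι y) ^ 3) = ENNReal.ofReal (729 * Real.exp 13)
        * ENNReal.ofReal (2 / 27 * Real.exp (-13) * jb (ι y) ^ 3) := by
      rw [← ENNReal.ofReal_mul (by positivity), Real.exp_neg]
      congr 1; field_simp; norm_num
    calc _ = ENNReal.ofReal (54 * jb (ι y) ^ 3) * Z * C * (B⁻¹ * B) := by
          rw [ENNReal.inv_mul_cancel hB0 hB1, mul_one]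
      _ = _ := by rw [e2, hD]; ring
  have f1 : ENNReal.ofReal (54 * jb (ι y) ^ 3) * Z ≠ ⊤ :=
    ENNReal.mul_ne_top ENNReal.ofReal_ne_top lint_E2
  have f2 : ENNReal.ofReal (2 / 27 * Real.exp (-13) * jb (ι y) ^ 3) * B ≠ ⊤ :=
    ENNReal.mul_ne_top ENNReal.ofReal_ne_top hB1
  refine (lintegral_mono fun τ => lintegral_mono fun a => up τ a).trans ?_
  refine le_trans ?_ (mul_le_mul_right (lintegral_mono fun τ => lintegral_mono fun a => lo τ a) _)
  simp only [lintegral_const_mul' _ _ f1, lintegral_const_mul' _ _ f2]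
  rw [← mul_assoc, ← e1, mul_assoc _ C]
  exact mul_le_mul_right (hl _ _ hF) _

end Pool.Agent.BoltzM.HC
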