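import Pool.Agent.BoltzM.HC.Basic

/-! Short jumps with the polynomial partner are bounded by the jump part of the norm. -/

set_option autoImplicit false

open MeasureTheory Real Set
open scoped ENNReal RealInnerProductSpace

noncomputable section

namespace Pool.Agent.BoltzM.HC

open Coll

variable [Dim]

namespace K2S

open Pool.Agent.BoltzM.Geo (perp cyl norm_sq_eq_perp)

/-- truncated singular factor -/
def ph (t : ℝ) : ℝ := if |t| ≤ 1 then |t| ^ (-(101 / 100) : ℝ) else 0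

omit [Dim] in
lemma ph_nonneg (t : ℝ) : 0 ≤ ph t := by unfold ph; split_ifs <;> positivity

omit [Dim] in
@[fun_prop] lemma measurable_ph : Measurable ph :=
  Measurable.ite (measurableSet_le (by fun_prop) measurable_const)
    (Measurable.pow_const (by fun_prop) _) measurable_const

lemma shell {b c : ℝ} (hb : 0 ≤ b) (X : ℝ≥0∞) :
    ENNReal.ofReal (cS * b ^ (dd - 2) * (c - b)) * X
      ≤ ∫⁻ r in Ioi (0 : ℝ), ENNReal.ofReal (cS * r ^ (dd - 2))
        * (Ioo b c).indicator (fun _ => X) r := by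
  have := cS_pos
  calc _ = ∫⁻ r in Ioi (0 : ℝ),
        (Ioo b c).indicator (fun _ => ENNReal.ofReal (cS * b ^ (dd - 2)) * X) r := by
        rw [lintegral_indicator_const measurableSet_Ioo, Measure.restrict_apply measurableSet_Ioo,
          inter_eq_left.2 (show Ioo b c ⊆ Ioi 0 from fun r hr => hb.trans_lt hr.1), Real.volume_Ioo,
          ENNReal.ofReal_mul (by positivity)]
        ring
    _ ≤ _ := lintegral_mono fun r => by
        by_cases hr : r ∈ Ioo b c
        · simp only [indicator_of_mem hr]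
          gcongr
          exact hr.1.le
        · simp [indicator_of_notMem hr]

lemma norm_le_perp {e : E} (he : ‖e‖ = 1) (u : E) : ‖u‖ ≤ |⟪u, e⟫| + ‖perp e u‖ := by
  calc ‖u‖ = ‖⟪u, e⟫ • e + perp e u‖ := by simp [perp]
    _ ≤ _ := (norm_add_le _ _).trans (by rw [norm_smul, he, mul_one, Real.norm_eq_abs])

lemma perp_le_norm {e : E} (he : ‖e‖ = 1) (u : E) : ‖perp e u‖ ≤ ‖u‖ :=
  abs_le_of_sq_le_sq' (by rw [norm_sq_eq_perp he u]; nlinarith [sq_nonneg ⟪u, e⟫])
    (norm_nonneg _) |>.2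

lemma perp_sub (e u w : E) : perp e (u - w) = perp e u - perp e w := by
  simp only [perp, inner_sub_left]; module

lemma sM_lower {x : E} (h : ‖x‖ ≤ 11) : exp (-31) ≤ sM x := by
  rw [sM, exp_le_exp]
  nlinarith [norm_nonneg x]

/-- the constant of the cone bound -/
def c0 : ℝ := 2 * (1 / 8) ^ (3 : ℝ) * exp (-31) ^ 2

omit [Dim] in
lemma c0_pos : 0 < c0 := by unfold c0; positivity

lemma cone_inner {g : E → ℝ} (hg : Measurable g) (v : E) (o : S2) (ha : |⟪v, (o : E)⟫| ≤ 3) :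
    ENNReal.ofReal cS * ∫⁻ r : ℝ, ENNReal.ofReal (c0 * ((1 + ‖v‖) ^ (3 : ℝ) * ph r
      * (g (v + r • (o : E)) - g v) ^ 2))
      ≤ ∫⁻ w, ENNReal.ofReal (kS Win (v, w, o) * MM w * (g (v1 (v, w, o)) - g v) ^ 2) := by
  have ho := norm_coe o
  obtain ⟨s, hs1, hs5, hs⟩ : ∃ s : ℝ, 1 ≤ s ∧ s ≤ 5 ∧ ∀ w : E, ‖perp o w‖ ∈ Ioo s (s + 1) →
      1 / 8 * (1 + ‖v‖) ≤ ‖v - w‖ := by
    have h1 := norm_le_perp ho v
    have h2 : ∀ w : E, ‖perp o v - perp o w‖ ≤ ‖v - w‖ := fun w => by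
      rw [← perp_sub]; exact perp_le_norm ho _
    by_cases hv : 4 ≤ ‖perp o v‖
    · refine ⟨1, le_rfl, by norm_num, fun w hw => ?_⟩
      linarith [h2 w, norm_sub_norm_le (perp o v) (perp o w), hw.2]
    · refine ⟨5, by norm_num, le_rfl, fun w hw => ?_⟩
      linarith [h2 w, norm_sub_norm_le (perp o w) (perp o v), hw.1,
        norm_sub_rev (perp o w) (perp o v)]
  have hW : ∀ w : E, Win (v, w, o) := fun w =>
    ha.trans (by linarith [one_le_jb (perp (o : E) v)])
  set a := ⟪v, (o : E)⟫ with haa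
  set Ψ : ℝ → ℝ≥0∞ := fun r => ENNReal.ofReal (c0 * ((1 + ‖v‖) ^ (3 : ℝ) * ph r
      * (g (v + r • (o : E)) - g v) ^ 2)) with hΨ
  have mΨ : Measurable Ψ := by rw [hΨ]; fun_prop
  have mΦ : Measurable (Function.uncurry fun t r : ℝ =>
      (Ioo s (s + 1)).indicator (fun _ => Ψ (t - a)) r) :=
    Measurable.indicator (s := {q : ℝ × ℝ | q.2 ∈ Ioo s (s + 1)})
      (f := fun q : ℝ × ℝ => Ψ (q.1 - a)) (by fun_prop) (measurable_snd measurableSet_Ioo)
  calc ENNReal.ofReal cS * ∫⁻ r, Ψ r = ∫⁻ t, ENNReal.ofReal cS * Ψ (t - a) := by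
        rw [lintegral_const_mul' _ _ ENNReal.ofReal_ne_top, lintegral_sub_right_eq_self Ψ a]
    _ ≤ ∫⁻ t, ∫⁻ r in Ioi (0 : ℝ), ENNReal.ofReal (cS * r ^ (dd - 2))
        * (Ioo s (s + 1)).indicator (fun _ => Ψ (t - a)) r := by
        refine lintegral_mono fun t => le_trans ?_ (shell (by linarith) _)
        refine mul_le_mul_left (ENNReal.ofReal_le_ofReal ?_) _
        rw [add_sub_cancel_left, mul_one]
        exact le_mul_of_one_le_right cS_pos.le (one_le_pow₀ hs1)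
    _ = ∫⁻ w : E, (Ioo s (s + 1)).indicator (fun _ => Ψ (⟪w, (o : E)⟫ - a)) ‖perp o w‖ :=
        (cyl ho _ mΦ).symm
    _ ≤ _ := lintegral_mono fun w => by
        by_cases hw : ‖perp o w‖ ∈ Ioo s (s + 1)
        · simp only [indicator_of_mem hw, hΨ]
          have hr : rho (v, w, o) = -(⟪w, (o : E)⟫ - a) := by
            simp only [rho, inner_sub_left, haa]; ring
          have hp : v1 (v, w, o) = v + (⟪w, (o : E)⟫ - a) • (o : E) := by
            rw [v1_eq, hr]; module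
          rw [kS_pos (hW w), ker3_eq, hr, abs_neg, hp]
          refine ENNReal.ofReal_le_ofReal ?_
          have hM := MM_pos w
          by_cases h1 : |⟪w, (o : E)⟫ - a| ≤ 1
          swap
          · rw [ph, if_neg h1, mul_zero, zero_mul, mul_zero]; positivity
          have h2 : ‖w‖ ≤ 10 := by
            have := abs_add_le (⟪w, (o : E)⟫ - a) a
            rw [sub_add_cancel] at this
            linarith [norm_le_perp ho w, hw.2]
          have h4 : exp (-31) ^ 2 ≤ MM w :=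
            pow_le_pow_left₀ (exp_pos _).le (sM_lower (x := w) (by linarith)) 2
          have h6 : (1 / 8 : ℝ) ^ (3 : ℝ) * (1 + ‖v‖) ^ (3 : ℝ)
              ≤ ‖v - w‖ ^ (3 : ℝ) := by
            rw [← mul_rpow (by norm_num) (by positivity)]
            exact rpow_le_rpow (by positivity) (hs w hw) (by norm_num)
          rw [ph, if_pos h1]
          calc _ = 2 * ((1 / 8 : ℝ) ^ (3 : ℝ) * (1 + ‖v‖) ^ (3 : ℝ))
                * |⟪w, (o : E)⟫ - a| ^ (-(101 / 100) : ℝ) * exp (-31) ^ 2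
                * (g (v + (⟪w, (o : E)⟫ - a) • (o : E)) - g v) ^ 2 := by rw [c0]; ring
            _ ≤ _ := by gcongr
        · simp [indicator_of_notMem hw]

/-- cone kernel -/
def ck (v z : E) : ℝ :=
  if ‖z‖ ≤ 1 ∧ |⟪v, z⟫| ≤ 3 * ‖z‖ then (1 + ‖v‖) ^ (3 : ℝ) * ‖z‖ ^ (-((dd : ℝ) + 1 / 100)) else 0

lemma ck_nonneg (v z : E) : 0 ≤ ck v z := by unfold ck; split_ifs <;> positivity

@[fun_prop] lemma Measurable.ck {α : Type*} [MeasurableSpace α] {a b : α → E}
    (ha : Measurable a) (hb : Measurable b) : Measurable fun x => ck (a x) (b x) := by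
  unfold K2S.ck
  have h1 : MeasurableSet {x | ‖b x‖ ≤ 1} := measurableSet_le (by fun_prop) measurable_const
  have h2 : MeasurableSet {x | |⟪a x, b x⟫| ≤ 3 * ‖b x‖} :=
    measurableSet_le (by fun_prop) (by fun_prop)
  refine Measurable.ite (h1.inter h2) ?_ measurable_const
  exact (Measurable.pow_const (by fun_prop) _).mul (Measurable.pow_const (by fun_prop) _)

/-- cone jump functional -/
def GC (g : E → ℝ) : ℝ≥0∞ := ∫⁻ v, ∫⁻ z, ENNReal.ofReal (ck v z * (g (v + z) - g v) ^ 2)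

lemma sq_ck (v : E) (o : S2) (r : ℝ) :
    |r| ^ (dd - 1) * ck v (r • (o : E))
      ≤ if |⟪v, (o : E)⟫| ≤ 3 then (1 + ‖v‖) ^ (3 : ℝ) * ph r else 0 := by
  have h2 := two_le_dd
  by_cases hr : r = 0
  · have := ph_nonneg r
    rw [show |r| ^ (dd - 1) = 0 by rw [hr, abs_zero, zero_pow (by omega)], zero_mul]
    split_ifs <;> positivity
  have h0 : 0 < |r| := abs_pos.2 hr
  have hn : ‖r • (o : E)‖ = |r| := by rw [norm_smul, norm_coe, mul_one, Real.norm_eq_abs]
  rw [ck, hn, inner_smul_right, abs_mul]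
  by_cases h : |r| ≤ 1 ∧ |r| * |⟪v, (o : E)⟫| ≤ 3 * |r|
  · rw [if_pos h, if_pos (by nlinarith [h.2]), ph, if_pos h.1,
      ← rpow_natCast, mul_left_comm, ← rpow_add h0, Nat.cast_sub (by omega)]
    refine le_of_eq ?_
    congr 2
    push_cast
    ring
  · have := ph_nonneg r
    rw [if_neg h, mul_zero]; split_ifs <;> positivity

lemma GC_le {g : E → ℝ} (hg : Measurable g) : GC g ≤ ENNReal.ofReal (c0⁻¹ * cS⁻¹) * J0 g := by
  have hcS := cS_pos
  have hc0 := c0_pos
  have hk := measurable_kS measurableSet_Win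
  have hm : Measurable fun p : E × E × S2 =>
      ENNReal.ofReal (kS Win p * MM p.2.1 * (g (v1 p) - g p.1) ^ 2) := by fun_prop
  rw [J0, I3, lintegral_mu3 _ hm, ← lintegral_const_mul' _ _ ENNReal.ofReal_ne_top]
  refine lintegral_mono fun v => ?_
  simp only
  rw [lintegral_lintegral_swap (by exact (hm.comp measurable_prodMk_left).aemeasurable)]
  refine (le_mul_of_one_le_left' one_le_two).trans ?_
  rw [← lintegral_polar_line _ (by fun_prop), ← lintegral_const_mul' _ _ ENNReal.ofReal_ne_top]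
  refine lintegral_mono fun o => ?_
  simp only
  by_cases ha : |⟪v, (o : E)⟫| ≤ 3
  · refine le_trans ?_ (mul_le_mul_right (cone_inner hg v o ha) _)
    rw [← mul_assoc, ← ENNReal.ofReal_mul (by positivity), inv_mul_cancel_right₀ hcS.ne',
      ← lintegral_const_mul' _ _ ENNReal.ofReal_ne_top]
    refine lintegral_mono fun r => ?_
    simp only
    rw [← ENNReal.ofReal_mul (by positivity), ← ENNReal.ofReal_mul (inv_pos.2 c0_pos).le,
      inv_mul_cancel_left₀ c0_pos.ne', ← mul_assoc]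
    have := sq_ck v o r
    rw [if_pos ha] at this
    exact ENNReal.ofReal_le_ofReal (mul_le_mul_of_nonneg_right this (sq_nonneg _))
  · refine le_trans (le_of_eq ?_) zero_le
    refine (lintegral_congr fun r => ?_).trans lintegral_zero
    have := sq_ck v o r
    rw [if_neg ha] at this
    rw [← ENNReal.ofReal_mul (by positivity), ← mul_assoc]
    exact ENNReal.ofReal_of_nonpos (mul_nonpos_of_nonpos_of_nonneg this (sq_nonneg _))

lemma exists_dir (v : E) : ∃ e : E, ‖e‖ = 1 ∧ ∀ z : E, ⟪v, z⟫ = ‖v‖ * ⟪z, e⟫ := by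
  by_cases hv : v = 0
  · exact ⟨EuclideanSpace.single (⟨0, by have := two_le_dd; omega⟩ : Ix) 1, by simp,
      fun z => by simp [hv]⟩
  · have hn : ‖v‖ ≠ 0 := norm_ne_zero_iff.2 hv
    refine ⟨‖v‖⁻¹ • v, by simp [norm_smul, hn], fun z => ?_⟩
    rw [inner_smul_right, mul_inv_cancel_left₀ hn, real_inner_comm]

lemma abs_inner_unit {e : E} (he : ‖e‖ = 1) (z : E) : |⟪z, e⟫| ≤ ‖z‖ := by
  simpa [he] using abs_real_inner_le_norm z e

lemma cyl_lower {e : E} (he : ‖e‖ = 1) {a d : ℝ} (ha : 0 ≤ a) (hd : 0 ≤ d) {F : E → ℝ≥0∞}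
    {Y : ℝ≥0∞} (h : ∀ k, |⟪k, e⟫| ≤ a → ‖perp e k‖ ∈ Ioo (2 * d) (3 * d) → Y ≤ F k) :
    ENNReal.ofReal (2 * cS * d ^ (dd - 1) * a) * Y ≤ ∫⁻ k, F k := by
  have hcS := cS_pos
  have m1 : Measurable ((Icc (-a) a).indicator fun _ => Y) :=
    measurable_const.indicator measurableSet_Icc
  have mΦ : Measurable (Function.uncurry fun t r : ℝ =>
      (Ioo (2 * d) (3 * d)).indicator (fun _ => (Icc (-a) a).indicator (fun _ => Y) t) r) :=
    Measurable.indicator (s := {q : ℝ × ℝ | q.2 ∈ Ioo (2 * d) (3 * d)})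
      (f := fun q : ℝ × ℝ => (Icc (-a) a).indicator (fun _ => Y) q.1) (m1.comp measurable_fst)
      (measurable_snd measurableSet_Ioo)
  calc _ ≤ ∫⁻ t, ENNReal.ofReal (cS * (2 * d) ^ (dd - 2) * (3 * d - 2 * d))
        * (Icc (-a) a).indicator (fun _ => Y) t := by
        rw [lintegral_const_mul _ m1, lintegral_indicator_const measurableSet_Icc, Real.volume_Icc,
          mul_comm Y, ← mul_assoc, show 3 * d - 2 * d = d by ring,
          ← ENNReal.ofReal_mul (by positivity)]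
        refine mul_le_mul_left (ENNReal.ofReal_le_ofReal ?_) _
        have h1 : d ^ (dd - 1) = d ^ (dd - 2) * d := by
          rw [← pow_succ]; congr 1; have := two_le_dd; omega
        have h2 : d ^ (dd - 2) ≤ (2 * d) ^ (dd - 2) := by gcongr; linarith
        calc 2 * cS * d ^ (dd - 1) * a = cS * d ^ (dd - 2) * d * (2 * a) := by rw [h1]; ring
          _ ≤ cS * (2 * d) ^ (dd - 2) * d * (2 * a) := by gcongr
          _ = _ := by congr 1; ring
    _ ≤ _ := lintegral_mono fun t => shell (by linarith) _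
    _ = _ := (cyl he _ mΦ).symm
    _ ≤ _ := lintegral_mono fun k => by
        by_cases h1 : ‖perp e k‖ ∈ Ioo (2 * d) (3 * d)
        · by_cases h2 : ⟪k, e⟫ ∈ Icc (-a) a
          · simp only [indicator_of_mem h1, indicator_of_mem h2]
            exact h k (abs_le.2 h2) h1
          · simp [indicator_of_mem h1, indicator_of_notMem h2]
        · simp [indicator_of_notMem h1]

lemma cyl_upper {e : E} (he : ‖e‖ = 1) {s : ℝ} (hs : 0 ≤ s) {φ : ℝ → ℝ≥0∞} (hφ : Measurable φ)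
    {F : E → ℝ≥0∞} (h : ∀ z, ‖z‖ ≤ s → F z ≤ φ ⟪z, e⟫) (h0 : ∀ z, s < ‖z‖ → F z = 0) :
    ∫⁻ z, F z ≤ ENNReal.ofReal (cS * s ^ (dd - 1)) * ∫⁻ t, φ t := by
  have hcS := cS_pos
  have mΦ : Measurable (Function.uncurry fun t r : ℝ => (Iic s).indicator (fun _ => φ t) r) :=
    Measurable.indicator (s := {q : ℝ × ℝ | q.2 ∈ Iic s})
      (f := fun q : ℝ × ℝ => φ q.1) (hφ.comp measurable_fst) (measurable_snd measurableSet_Iic)
  calc _ ≤ ∫⁻ z : E, (Iic s).indicator (fun _ => φ ⟪z, e⟫) ‖perp e z‖ := by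
        refine lintegral_mono fun z => ?_
        by_cases h1 : ‖z‖ ≤ s
        · simp only [indicator_of_mem (show ‖perp e z‖ ∈ Iic s from (perp_le_norm he z).trans h1)]
          exact h z h1
        · simp [h0 z (not_le.1 h1)]
    _ = _ := cyl he _ mΦ
    _ ≤ ∫⁻ t, ENNReal.ofReal (cS * s ^ (dd - 1)) * φ t := by
        refine lintegral_mono fun t => ?_
        calc _ ≤ ∫⁻ r in Ioi (0 : ℝ),
              (Iic s).indicator (fun _ => ENNReal.ofReal (cS * s ^ (dd - 2)) * φ t) r := by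
              refine setLIntegral_mono' measurableSet_Ioi fun r hr0 => ?_
              by_cases hr : r ∈ Iic s
              · simp only [indicator_of_mem hr]
                have : 0 ≤ r := le_of_lt hr0
                gcongr
                exact hr
              · simp [indicator_of_notMem hr]
          _ = _ := by
              rw [lintegral_indicator_const measurableSet_Iic,
                Measure.restrict_apply measurableSet_Iic, inter_comm, Ioi_inter_Iic,
                Real.volume_Ioc, mul_right_comm, ← ENNReal.ofReal_mul (by positivity), sub_zero,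
                mul_assoc, ← pow_succ]
              congr 4; have := two_le_dd; omega
    _ = _ := lintegral_const_mul _ hφ

/-- normalised box kernel -/
def bk (v z k : E) : ℝ :=
  if ‖z‖ ≤ 2 * ‖k‖ ∧ |⟪v, z⟫| ≤ 2 * ‖k‖ then (1 + ‖v‖) / ‖k‖ ^ dd else 0

lemma bk_nonneg (v z k : E) : 0 ≤ bk v z k := by unfold bk; split_ifs <;> positivity

@[fun_prop] lemma Measurable.bk {α : Type*} [MeasurableSpace α] {a b c : α → E}
    (ha : Measurable a) (hb : Measurable b) (hc : Measurable c) :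
    Measurable fun x => bk (a x) (b x) (c x) := by
  unfold K2S.bk
  have h1 : MeasurableSet {x | ‖b x‖ ≤ 2 * ‖c x‖} := measurableSet_le (by fun_prop) (by fun_prop)
  have h2 : MeasurableSet {x | |⟪a x, b x⟫| ≤ 2 * ‖c x‖} :=
    measurableSet_le (by fun_prop) (by fun_prop)
  exact Measurable.ite (h1.inter h2) (by fun_prop) measurable_const

lemma lint_bk (v k : E) : ∫⁻ z, ENNReal.ofReal (bk v z k) ≤ ENNReal.ofReal (8 * 2 ^ (dd - 1) * cS) := by
  have hcS := cS_pos
  have h2 := two_le_dd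
  by_cases hk : k = 0
  · simp [bk, hk, show dd ≠ 0 by omega]
  have hn : 0 < ‖k‖ := norm_pos_iff.2 hk
  have hl : 0 < 1 + ‖v‖ := by positivity
  obtain ⟨e, he, hv⟩ := exists_dir v
  set a := 4 * ‖k‖ / (1 + ‖v‖) with ha
  refine (cyl_upper he (s := 2 * ‖k‖) (by positivity)
    (φ := (Icc (-a) a).indicator fun _ => ENNReal.ofReal ((1 + ‖v‖) / ‖k‖ ^ dd))
    (measurable_const.indicator measurableSet_Icc) (fun z hz => ?_) (fun z hz => ?_)).trans ?_
  · rw [bk]
    split_ifs with h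
    · rw [indicator_of_mem]
      refine abs_le.1 ?_
      rw [ha, le_div_iff₀ hl]
      have h2 := h.2
      rw [hv, abs_mul, abs_norm] at h2
      nlinarith [abs_inner_unit he z]
    · simp
  · rw [bk, if_neg (fun h => absurd h.1 (not_le.2 hz)), ENNReal.ofReal_zero]
  · rw [lintegral_indicator_const measurableSet_Icc, Real.volume_Icc,
      ← ENNReal.ofReal_mul (by positivity), ← ENNReal.ofReal_mul (by positivity), ha]
    refine le_of_eq ?_
    congr 1
    have h1 : ‖k‖ ^ dd = ‖k‖ ^ (dd - 1) * ‖k‖ := by rw [← pow_succ]; congr 1; omega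
    rw [h1, mul_pow]
    field_simp
    ring

/-- constant for the short jumps -/
def c1 : ℝ := 2 * 5 ^ dd * (2 ^ (3 : ℝ) * (1 / 5) ^ (-((dd : ℝ) + 1 / 100)))

lemma c1_pos : 0 < c1 := by unfold c1; positivity

lemma short_le {l d : ℝ} (hl : 0 ≤ l) (hd : 0 < d) {v z k : E} (h1 : l ≤ 2 * (1 + ‖v‖))
    (h2 : d ≤ ‖k‖) (h3 : ‖k‖ ≤ 5 * d) (h4 : ‖k‖ ≤ 1) (h5 : |⟪v, k⟫| ≤ 3 * ‖k‖)
    (h6 : ‖z‖ ≤ 2 * ‖k‖) (h7 : |⟪v, z⟫| ≤ 2 * ‖k‖) :
    l / d ^ dd * (l ^ (3 : ℝ) * d ^ (-((dd : ℝ) + 1 / 100))) ≤ c1 * (bk v z k * ck v k) := by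
  have hk : 0 < ‖k‖ := hd.trans_le h2
  rw [bk, ck, if_pos ⟨h6, h7⟩, if_pos ⟨h4, h5⟩]
  have a1 : l / d ^ dd ≤ 2 * 5 ^ dd * ((1 + ‖v‖) / ‖k‖ ^ dd) := by
    calc l / d ^ dd ≤ 2 * (1 + ‖v‖) / (‖k‖ / 5) ^ dd := by gcongr; linarith
      _ = _ := by rw [div_pow]; field_simp
  have a2 : l ^ (3 : ℝ) ≤ 2 ^ (3 : ℝ) * (1 + ‖v‖) ^ (3 : ℝ) := by
    rw [← mul_rpow (by norm_num) (by positivity)]
    exact rpow_le_rpow hl h1 (by norm_num)
  have a3 : d ^ (-((dd : ℝ) + 1 / 100)) ≤ (1 / 5) ^ (-((dd : ℝ) + 1 / 100)) * ‖k‖ ^ (-((dd : ℝ) + 1 / 100)) := by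
    rw [← mul_rpow (by norm_num) hk.le]
    exact rpow_le_rpow_of_nonpos (by positivity) (by linarith) (neg_nonpos.2 (by positivity))
  calc _ ≤ 2 * 5 ^ dd * ((1 + ‖v‖) / ‖k‖ ^ dd) * (2 ^ (3 : ℝ) * (1 + ‖v‖) ^ (3 : ℝ)
        * ((1 / 5) ^ (-((dd : ℝ) + 1 / 100)) * ‖k‖ ^ (-((dd : ℝ) + 1 / 100)))) := by gcongr
    _ = _ := by rw [c1]; ring

/-- chaining integrand -/
def HK (g : E → ℝ) (v z k : E) : ℝ≥0∞ :=
  ENNReal.ofReal (bk v z k * (ck v k * (g (v + k) - g v) ^ 2))

@[fun_prop] lemma Measurable.jk {α : Type*} [MeasurableSpace α] {a c : α → E}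
    (ha : Measurable a) (hc : Measurable c) : Measurable fun x => jk (a x) (c x) := by
  unfold Coll.jk
  exact Measurable.mul (Measurable.pow_const (by fun_prop) _) (Measurable.pow_const (by fun_prop) _)

lemma point_short {g : E → ℝ} (hg : Measurable g) {v z : E} (hz : z ≠ 0)
    (hD : ‖z‖ ^ 2 + ⟪v, z⟫ ^ 2 < 1 / 64) :
    ENNReal.ofReal (jk v z * (g (v + z) - g v) ^ 2)
      ≤ ENNReal.ofReal (2 * (cS⁻¹ * c1))
        * ((∫⁻ k, HK g v z k) + ∫⁻ k, HK g (v + z) z k) := by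
  have hcS := cS_pos
  have hc1 := c1_pos
  have hl : 0 < 1 + ‖v‖ := by positivity
  have hn : 0 < ‖z‖ := norm_pos_iff.2 hz
  obtain ⟨d, hd, hdd⟩ : ∃ d : ℝ, 0 < d ∧ d ^ 2 = ‖z‖ ^ 2 + ⟪v, z⟫ ^ 2 :=
    ⟨√(‖z‖ ^ 2 + ⟪v, z⟫ ^ 2), by positivity, sq_sqrt (by positivity)⟩
  have d1 : d ≤ 1 / 8 := by nlinarith
  have d2 : ‖z‖ ≤ d := by nlinarith [sq_nonneg ⟪v, z⟫]
  have d3 : |⟪v, z⟫| ≤ d := abs_le_of_sq_le_sq (by nlinarith) hd.le
  have hj : jk v z = (1 + ‖v‖) ^ (3 : ℝ) * d ^ (-((dd : ℝ) + 1 / 100)) := by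
    rw [jk, ← hdd, ← rpow_natCast, ← rpow_mul hd.le]
    congr 2
    push_cast
    ring
  have b0 : 0 ≤ jk v z := by unfold jk; positivity
  obtain ⟨e, he, hv⟩ := exists_dir v
  have mH : ∀ x : E, Measurable fun k => HK g x z k := fun x => by unfold HK; fun_prop
  rw [← lintegral_sub_right_eq_self (fun k => HK g (v + z) z k) z, ← lintegral_add_left (mH v),
    ← lintegral_const_mul' _ _ ENNReal.ofReal_ne_top]
  refine le_trans ?_ (cyl_lower he (a := d / (1 + ‖v‖)) (by positivity) hd.le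
    (Y := ENNReal.ofReal (cS⁻¹ * ((1 + ‖v‖) / d ^ dd * jk v z * (g (v + z) - g v) ^ 2)))
    fun k k1 k2 => ?_)
  · rw [← ENNReal.ofReal_mul (by positivity)]
    refine ENNReal.ofReal_le_ofReal ?_
    have h1 : d ^ dd = d ^ (dd - 1) * d := by
      rw [← pow_succ]; congr 1; have := two_le_dd; omega
    calc _ ≤ 2 * (jk v z * (g (v + z) - g v) ^ 2) :=
          le_mul_of_one_le_left (by positivity) one_le_two
      _ = _ := by rw [h1]; field_simp
  · rw [le_div_iff₀ hl] at k1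
    have k3 : |⟪v, k⟫| ≤ d := by
      rw [hv, abs_mul, abs_norm]; nlinarith [abs_nonneg ⟪k, e⟫]
    have k4 : 2 * d ≤ ‖k‖ := k2.1.le.trans (perp_le_norm he k)
    have k5 : ‖k‖ ≤ 4 * d := by
      nlinarith [norm_le_perp he k, k2.2, abs_nonneg ⟪k, e⟫, norm_nonneg v]
    have k6 : d ≤ ‖k - z‖ := by linarith [norm_sub_norm_le k z]
    have k7 : ‖k - z‖ ≤ 5 * d := by linarith [norm_sub_le k z]
    have b1 := short_le (v := v) (z := z) (k := k) hl.le hd (by linarith) (by linarith)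
      (by linarith) (by linarith) (by linarith) (by linarith) (by linarith)
    have b2 := short_le (v := v + z) (z := z) (k := k - z) hl.le hd
      (by
        have := norm_sub_le (v + z) z
        rw [add_sub_cancel_right] at this
        linarith [norm_nonneg (v + z)]) k6 k7 (by linarith)
      (by
        rw [inner_add_left, inner_sub_right]
        have h1 := abs_add_le (⟪v, k⟫ - ⟪v, z⟫) ⟪z, k - z⟫
        have h2 := abs_sub ⟪v, k⟫ ⟪v, z⟫
        have h3 := abs_real_inner_le_norm z (k - z)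
        nlinarith [norm_nonneg (k - z)]) (by linarith)
      (by
        rw [inner_add_left, real_inner_self_eq_norm_sq]
        have h1 := abs_add_le ⟪v, z⟫ (‖z‖ ^ 2)
        rw [abs_of_nonneg (sq_nonneg ‖z‖)] at h1
        nlinarith)
    rw [← hj] at b1 b2
    have p1 := mul_nonneg (bk_nonneg v z k) (ck_nonneg v k)
    have p2 := mul_nonneg (bk_nonneg (v + z) z (k - z)) (ck_nonneg (v + z) (k - z))
    simp only [HK, ← mul_assoc (bk _ _ _)]
    rw [← ENNReal.ofReal_add (by positivity) (by positivity),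
      ← ENNReal.ofReal_mul (by positivity), show v + z + (k - z) = v + k by abel,
      mul_left_comm 2, mul_assoc cS⁻¹]
    refine ENNReal.ofReal_le_ofReal (mul_le_mul_of_nonneg_left ?_ (by positivity))
    set κ := (1 + ‖v‖) / d ^ dd * jk v z
    have hκ : 0 ≤ κ := by positivity
    calc _ ≤ κ * (2 * (g (v + k) - g v) ^ 2 + 2 * (g (v + k) - g (v + z)) ^ 2) := by
          gcongr; nlinarith [sq_nonneg (g (v + k) - g v + (g (v + k) - g (v + z)))]
      _ = 2 * (κ * (g (v + k) - g v) ^ 2 + κ * (g (v + k) - g (v + z)) ^ 2) := by ring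
      _ ≤ 2 * (c1 * (bk v z k * ck v k) * (g (v + k) - g v) ^ 2
          + c1 * (bk (v + z) z (k - z) * ck (v + z) (k - z)) * (g (v + k) - g (v + z)) ^ 2) := by
          gcongr
      _ = _ := by ring

/-- integrand of the short anisotropic jumps -/
def SJ (g : E → ℝ) (v z : E) : ℝ≥0∞ :=
  if ‖z‖ ^ 2 + ⟪v, z⟫ ^ 2 < 1 / 64 then ENNReal.ofReal (jk v z * (g (v + z) - g v) ^ 2) else 0

lemma measurable_SJ {g : E → ℝ} (hg : Measurable g) :
    Measurable fun q : E × E => SJ g q.1 q.2 :=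
  Measurable.ite (measurableSet_lt (by fun_prop) measurable_const) (by fun_prop) measurable_const

lemma measurable_HK {g : E → ℝ} (hg : Measurable g) :
    Measurable fun q : E × E => ∫⁻ k, HK g q.1 q.2 k :=
  Measurable.lintegral_prod_right' (f := fun x : (E × E) × E => HK g x.1.1 x.1.2 x.2)
    (by unfold HK; fun_prop)

lemma lint_HK {g : E → ℝ} (hg : Measurable g) :
    ∫⁻ v, ∫⁻ z, ∫⁻ k, HK g v z k ≤ ENNReal.ofReal (8 * 2 ^ (dd - 1) * cS) * GC g := by
  rw [GC, ← lintegral_const_mul' _ _ ENNReal.ofReal_ne_top]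
  refine lintegral_mono fun v => ?_
  simp only
  rw [lintegral_lintegral_swap (by unfold HK; fun_prop),
    ← lintegral_const_mul' _ _ ENNReal.ofReal_ne_top]
  refine lintegral_mono fun k => ?_
  simp only [HK, ENNReal.ofReal_mul (bk_nonneg _ _ _)]
  rw [lintegral_mul_const _ (by fun_prop)]
  exact mul_le_mul_left (lint_bk v k) _

lemma lint_SJ {g : E → ℝ} (hg : Measurable g) : ∫⁻ v, ∫⁻ z, SJ g v z
    ≤ ENNReal.ofReal (2 * (cS⁻¹ * c1)) * (2 * (ENNReal.ofReal (8 * 2 ^ (dd - 1) * cS) * GC g)) := by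
  have m1 := measurable_HK hg
  have m2 : Measurable fun q : E × E => ∫⁻ k, HK g (q.1 + q.2) q.2 k :=
    m1.comp (f := fun q : E × E => (q.1 + q.2, q.2)) (by fun_prop)
  have hs : ∫⁻ v, ∫⁻ z, ∫⁻ k, HK g (v + z) z k = ∫⁻ v, ∫⁻ z, ∫⁻ k, HK g v z k := by
    rw [lintegral_lintegral_swap (by exact m2.aemeasurable),
      lintegral_lintegral_swap (f := fun v z => ∫⁻ k, HK g v z k) (by exact m1.aemeasurable)]
    exact lintegral_congr fun z => lintegral_add_right_eq_self (fun v => ∫⁻ k, HK g v z k) z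
  calc _ ≤ ∫⁻ v, ENNReal.ofReal (2 * (cS⁻¹ * c1))
        * ((∫⁻ z, ∫⁻ k, HK g v z k) + ∫⁻ z, ∫⁻ k, HK g (v + z) z k) := by
        refine lintegral_mono fun v => ?_
        simp only
        rw [← lintegral_add_left (f := fun z => ∫⁻ k, HK g v z k)
            (m1.comp (f := fun z : E => (v, z)) (by fun_prop)),
          ← lintegral_const_mul' _ _ ENNReal.ofReal_ne_top]
        refine lintegral_mono fun z => ?_
        simp only [SJ]
        split_ifs with hD
        · by_cases h0 : z = 0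
          · simp [h0]
          · exact point_short hg h0 hD
        · exact zero_le
    _ = ENNReal.ofReal (2 * (cS⁻¹ * c1)) * (2 * ∫⁻ v, ∫⁻ z, ∫⁻ k, HK g v z k) := by
        rw [lintegral_const_mul' _ _ ENNReal.ofReal_ne_top,
          lintegral_add_left (f := fun v => ∫⁻ z, ∫⁻ k, HK g v z k) m1.lintegral_prod_right', hs,
          ← two_mul]
    _ ≤ _ := by gcongr; exact lint_HK hg

lemma carleman_weight (v : E) (o : S2) {ι : E2 →ₗᵢ[ℝ] E} (h0 : ∀ y, ⟪(o : E), ι y⟫ = 0)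
    {y0 : E2} (hy0 : v = ⟪(o : E), v⟫ • (o : E) + ι y0) {r : ℝ} (hr : |r| < 1) (y : E2) :
    ‖r • (o : E) + ι y‖ ^ (3 : ℝ) * iw (v - (r • (o : E) + ι y)) ≤
      2 ^ (dd + 1) * (1 + ‖v‖) ^ (3 : ℝ) *
        (1 + ⟪v, (o : E)⟫ ^ 2) ^ (-(dd / 2 + 1 / 200) : ℝ) * ((1 + ‖y0 - y‖) ^ dd)⁻¹ := by
  set w := v - (r • (o : E) + ι y) with hw
  set t := ⟪v, (o : E)⟫ with ht
  have e1 : w = (t - r) • (o : E) + ι (y0 - y) := by
    rw [hw, ht, real_inner_comm]
    nth_rewrite 1 [hy0]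
    rw [map_sub]; module
  have e2 := norm_sq_slice (norm_coe o) h0 (t - r) (y0 - y)
  rw [← e1] at e2
  have a1 : |t - r| ≤ ‖w‖ := abs_le_of_sq_le_sq' (by nlinarith [sq_nonneg ‖y0 - y‖]) (norm_nonneg _)
    |> abs_le.2
  have a2 : ‖y0 - y‖ ≤ ‖w‖ :=
    (abs_le_of_sq_le_sq' (by nlinarith [sq_nonneg (t - r)]) (norm_nonneg _)).2
  have a3 : ‖r • (o : E) + ι y‖ ^ (3 : ℝ) ≤ (1 + ‖v‖) ^ (3 : ℝ) * (1 + ‖w‖) ^ 30 := by
    have : r • (o : E) + ι y = v - w := by rw [hw, sub_sub_cancel]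
    rw [this]
    calc ‖v - w‖ ^ (3 : ℝ) ≤ ((1 + ‖v‖) * (1 + ‖w‖)) ^ (3 : ℝ) := by
          gcongr; linarith [wt_le_mul v w]
      _ = (1 + ‖v‖) ^ (3 : ℝ) * (1 + ‖w‖) ^ (3 : ℝ) :=
          Real.mul_rpow (by positivity) (by positivity)
      _ ≤ _ := by
          gcongr
          rw [← Real.rpow_natCast]
          exact Real.rpow_le_rpow_of_exponent_le (by linarith [norm_nonneg w]) (by norm_num)
  have a4 : (1 + t ^ 2) ^ (dd / 2 + 1 / 200 : ℝ) ≤ 2 ^ (dd + 1) * (1 + ‖w‖) ^ (dd + 1) := by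
    have b2 : 1 + |t| ≤ 2 * (1 + ‖w‖) := by
      have := abs_add_le (t - r) r
      rw [sub_add_cancel] at this
      linarith [norm_nonneg w]
    have b3 : 1 + t ^ 2 ≤ (1 + |t|) ^ 2 := by nlinarith [sq_abs t, abs_nonneg t]
    calc _ ≤ ((1 + |t|) ^ 2) ^ (dd / 2 + 1 / 200 : ℝ) := by gcongr
      _ = (1 + |t|) ^ (dd + 1 / 100 : ℝ) := by
          rw [← Real.rpow_natCast, ← Real.rpow_mul (by positivity)]
          congr 1; push_cast; ring
      _ ≤ (1 + |t|) ^ ((dd + 1 : ℕ) : ℝ) :=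
          Real.rpow_le_rpow_of_exponent_le (by linarith [abs_nonneg t]) (by push_cast; linarith)
      _ ≤ (2 * (1 + ‖w‖)) ^ (dd + 1) := by rw [Real.rpow_natCast]; gcongr
      _ = _ := mul_pow _ _ _
  have hp : 0 < (1 + t ^ 2) ^ (dd / 2 + 1 / 200 : ℝ) := by positivity
  have hw1 : 0 < 1 + ‖w‖ := by positivity
  have hb : iw w ≤ ((1 + ‖w‖) ^ (30 + (dd + 1) + dd))⁻¹ :=
    inv_anti₀ (by positivity)
      (pow_le_pow_right₀ (by linarith [norm_nonneg w]) (by unfold pK; omega))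
  rw [Real.rpow_neg (by positivity)]
  calc _ ≤ (1 + ‖v‖) ^ (3 : ℝ) * (1 + ‖w‖) ^ 30 * ((1 + ‖w‖) ^ (30 + (dd + 1) + dd))⁻¹ := by
        have := iw_pos w
        gcongr
    _ = 2 ^ (dd + 1) * (1 + ‖v‖) ^ (3 : ℝ) * (2 ^ (dd + 1) * (1 + ‖w‖) ^ (dd + 1))⁻¹ *
        ((1 + ‖w‖) ^ dd)⁻¹ := by
        field_simp; ring
    _ ≤ _ := by gcongr

lemma jk_line (v : E) (o : S2) {r : ℝ} (hr : r ≠ 0) :
    |r| ^ (dd - 1) * jk v (-(r • (o : E))) = (1 + ‖v‖) ^ (3 : ℝ) *
      (1 + ⟪v, (o : E)⟫ ^ 2) ^ (-(dd / 2 + 1 / 200) : ℝ) * |r| ^ (-(101 / 100) : ℝ) := by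
  have hd := two_le_dd
  have h1 : 0 < |r| := abs_pos.2 hr
  have h2 : ‖-(r • (o : E))‖ ^ 2 + ⟪v, -(r • (o : E))⟫ ^ 2 = |r| ^ 2 * (1 + ⟪v, (o : E)⟫ ^ 2) := by
    rw [norm_neg, norm_smul, norm_coe, inner_neg_right, inner_smul_right, Real.norm_eq_abs,
      sq_abs, mul_one, sq_abs]; ring
  rw [jk, h2, Real.mul_rpow (by positivity) (by positivity), ← Real.rpow_natCast |r| 2,
    ← Real.rpow_mul h1.le, ← Real.rpow_natCast |r|,
    show (-(101 / 100) : ℝ) = (dd - 1 : ℕ) + (2 : ℕ) * (-(dd / 2 + 1 / 200)) by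
      rw [Nat.cast_sub (by omega)]; push_cast; ring, Real.rpow_add h1]
  ring

lemma short_of_RS {p : E × E × S2} (h : RS p) : |rho p| < 1 ∧
    ‖-(rho p • (p.2.2 : E))‖ ^ 2 + ⟪p.1, -(rho p • (p.2.2 : E))⟫ ^ 2 < 1 / 64 := by
  have h1 : |rho p| * (1 + |⟪p.2.1, (p.2.2 : E)⟫|) < 1 / 16 := h
  have h2 := abs_nonneg (rho p)
  have h3 := abs_nonneg ⟪p.2.1, (p.2.2 : E)⟫
  have h4 : |rho p| < 1 / 16 := by nlinarith
  refine ⟨by linarith, ?_⟩
  rw [norm_neg, norm_smul, norm_coe, inner_neg_right, inner_smul_right, Real.norm_eq_abs, mul_one,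
    neg_sq, ← sq_abs (rho p * _), abs_mul, inner_fst]
  have h5 : |rho p| * |rho p + ⟪p.2.1, (p.2.2 : E)⟫| ≤ 1 / 16 := by
    have := mul_le_mul_of_nonneg_left (abs_add_le (rho p) ⟪p.2.1, (p.2.2 : E)⟫) h2
    nlinarith
  have h6 : 0 ≤ |rho p| * |rho p + ⟪p.2.1, (p.2.2 : E)⟫| := by positivity
  nlinarith

lemma RS_le : ∃ c : ℝ, 0 < c ∧ ∀ g : E → ℝ, Measurable g →
    I3 (fun p => kS RS p * iw p.2.1 * (g (v1 p) - g p.1) ^ 2)
      ≤ ENNReal.ofReal c * ∫⁻ v, ∫⁻ z, SJ g v z := by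
  set B := ∫⁻ y : E2, ENNReal.ofReal (((1 + ‖y‖) ^ dd)⁻¹) with hB
  have hB0 : B ≠ ⊤ := by
    have := finite_integral_one_add_norm (μ := (volume : Measure E2)) (r := dd)
      (by have := two_le_dd; simp; omega)
    simp only [Real.rpow_neg (add_nonneg zero_le_one (norm_nonneg _)), Real.rpow_natCast] at this
    exact this.ne
  have hB' : B = ENNReal.ofReal B.toReal := (ENNReal.ofReal_toReal hB0).symm
  refine ⟨4 * 2 ^ (dd + 1) * B.toReal + 1, by positivity, fun g hg => ?_⟩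
  have hk := measurable_kS measurableSet_RS
  have hm : Measurable fun p : E × E × S2 =>
      ENNReal.ofReal (kS RS p * iw p.2.1 * (g (v1 p) - g p.1) ^ 2) := by fun_prop
  have hJ := measurable_SJ hg
  rw [I3, mu3, lintegral_prod _ hm.aemeasurable, ← lintegral_const_mul _ hJ.lintegral_prod_right']
  refine lintegral_mono fun v => ?_
  have hFm : Measurable (SJ g v) := hJ.comp (f := fun z => (v, z)) (by fun_prop)
  have hFm' : Measurable fun z => SJ g v (-z) := hFm.comp measurable_neg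
  have hm' : Measurable fun q : E × S2 =>
      ENNReal.ofReal (kS RS (v, q) * iw q.1 * (g (v1 (v, q)) - g v) ^ 2) :=
    hm.comp measurable_prodMk_left
  simp only
  rw [lintegral_mu2' _ hm']
  calc _ ≤ ∫⁻ o : S2, ENNReal.ofReal (2 * 2 ^ (dd + 1) * B.toReal) *
        (∫⁻ r : ℝ, ENNReal.ofReal (|r| ^ (dd - 1)) * SJ g v (-(r • (o : E)))) ∂sph := by
        refine lintegral_mono fun o => ?_
        obtain ⟨ι, h0, hs, hmp⟩ := exists_slice o (norm_coe o)
        obtain ⟨y0, hy0⟩ := hs v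
        have hm4 : Measurable fun r : ℝ =>
            ENNReal.ofReal (|r| ^ (dd - 1)) * SJ g v (-(r • (o : E))) :=
          Measurable.mul (by fun_prop) (hFm'.comp (by fun_prop))
        simp only
        rw [lintegral_carleman v o hmp (fun w =>
            ENNReal.ofReal (kS RS (v, w, o) * iw w * (g (v1 (v, w, o)) - g v) ^ 2))
          (hm'.comp (f := fun w => (w, o)) (by fun_prop)), ← lintegral_const_mul _ hm4]
        refine lintegral_mono fun r => ?_
        have e0 : ∀ y, rho (v, v - (r • (o : E) + ι y), o) = r := fun y => by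
          rw [rho, sub_sub_cancel, real_inner_comm, inner_slice (norm_coe o) h0]
        by_cases hr : |r| < 1 ∧ ‖-(r • (o : E))‖ ^ 2 + ⟪v, -(r • (o : E))⟫ ^ 2 < 1 / 64
        · have e1 : ENNReal.ofReal (|r| ^ (dd - 1)) * SJ g v (-(r • (o : E))) = ENNReal.ofReal
              ((1 + ‖v‖) ^ (3 : ℝ) * (1 + ⟪v, (o : E)⟫ ^ 2) ^ (-(dd / 2 + 1 / 200) : ℝ) *
                |r| ^ (-(101 / 100) : ℝ) * (g (v - r • (o : E)) - g v) ^ 2) := by
            rcases eq_or_ne r 0 with rfl | hr0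
            · simp [SJ]
            rw [SJ, if_pos hr.2,
              ← ENNReal.ofReal_mul (by positivity), ← mul_assoc, jk_line v o hr0, sub_eq_add_neg v]
          simp only
          rw [e1]
          set X := (1 + ‖v‖) ^ (3 : ℝ) * (1 + ⟪v, (o : E)⟫ ^ 2) ^ (-(dd / 2 + 1 / 200) : ℝ) *
                |r| ^ (-(101 / 100) : ℝ) * (g (v - r • (o : E)) - g v) ^ 2 with hX
          have hX0 : 0 ≤ X := by positivity
          calc _ ≤ ∫⁻ y : E2, ENNReal.ofReal (2 * 2 ^ (dd + 1) * X) *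
                ENNReal.ofReal (((1 + ‖y0 - y‖) ^ dd)⁻¹) := by
                refine lintegral_mono fun y => ?_
                simp only
                rw [← ENNReal.ofReal_mul (by positivity)]
                refine ENNReal.ofReal_le_ofReal ?_
                have h1 := carleman_weight v o h0 hy0 hr.1 y
                have h2 := kS_le RS (v, v - (r • (o : E) + ι y), o)
                have h3 := iw_pos (v - (r • (o : E) + ι y))
                rw [ker3_eq, e0, sub_sub_cancel] at h2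
                rw [v1_eq, e0]
                calc _ ≤ 2 * ‖r • (o : E) + ι y‖ ^ (3 : ℝ) * |r| ^ (-(101 / 100) : ℝ)
                      * iw (v - (r • (o : E) + ι y)) * (g (v - r • (o : E)) - g v) ^ 2 := by gcongr
                  _ = 2 * (‖r • (o : E) + ι y‖ ^ (3 : ℝ) * iw (v - (r • (o : E) + ι y))) *
                      (|r| ^ (-(101 / 100) : ℝ) * (g (v - r • (o : E)) - g v) ^ 2) := by ring
                  _ ≤ 2 * (2 ^ (dd + 1) * (1 + ‖v‖) ^ (3 : ℝ) *
                      (1 + ⟪v, (o : E)⟫ ^ 2) ^ (-(dd / 2 + 1 / 200) : ℝ) *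
                      ((1 + ‖y0 - y‖) ^ dd)⁻¹) *
                      (|r| ^ (-(101 / 100) : ℝ) * (g (v - r • (o : E)) - g v) ^ 2) := by gcongr
                  _ = _ := by rw [hX]; ring
            _ = _ := by
                rw [lintegral_const_mul _ (by fun_prop), lintegral_sub_left_eq_self
                  (fun y : E2 => ENNReal.ofReal (((1 + ‖y‖) ^ dd)⁻¹)) y0, ← hB, hB',
                  ← ENNReal.ofReal_mul (by positivity), ← ENNReal.ofReal_mul (by positivity),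
                  ENNReal.toReal_ofReal ENNReal.toReal_nonneg]
                congr 1; ring
        · have e2 : ∀ y, kS RS (v, v - (r • (o : E) + ι y), o) = 0 := fun y =>
            kS_neg fun h => hr (by simpa only [e0] using short_of_RS h)
          simp [e2]
    _ = ENNReal.ofReal (2 * 2 ^ (dd + 1) * B.toReal) * (2 * ∫⁻ z, SJ g v z) := by
        have hm3 : Measurable fun p : S2 × ℝ =>
            ENNReal.ofReal (|p.2| ^ (dd - 1)) * SJ g v (-(p.2 • (p.1 : E))) :=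
          Measurable.mul (by fun_prop) (hFm'.comp (by fun_prop))
        rw [lintegral_const_mul _ hm3.lintegral_prod_right',
          lintegral_polar_line (fun z => SJ g v (-z)) hFm', lintegral_neg_eq_self]
    _ ≤ _ := by
        rw [← mul_assoc]
        gcongr
        rw [show (2 : ℝ≥0∞) = ENNReal.ofReal 2 by simp, ← ENNReal.ofReal_mul (by positivity)]
        exact ENNReal.ofReal_le_ofReal (by linarith)

end K2S

open K2S in
theorem k2S : K2SStmt := by
  obtain ⟨c, hc, h⟩ := RS_le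
  have hcS := cS_pos
  have h0 := c0_pos
  have h1 := c1_pos
  refine ⟨c * (2 * (cS⁻¹ * c1) * (2 * (8 * 2 ^ (dd - 1) * cS * (c0⁻¹ * cS⁻¹)))), by positivity,
    fun f hf => (h f hf).trans ?_⟩
  have e : ∀ {a b : ℝ} (X : ℝ≥0∞), 0 ≤ a →
      ENNReal.ofReal (a * b) * X = ENNReal.ofReal a * (ENNReal.ofReal b * X) := fun X ha => by
    rw [ENNReal.ofReal_mul ha, mul_assoc]
  rw [e _ hc.le, e (a := 2 * (cS⁻¹ * c1)) _ (by positivity), e (a := 2) (b := _ * (c0⁻¹ * cS⁻¹)) _
    zero_le_two, ENNReal.ofReal_ofNat, e (a := 8 * 2 ^ (dd - 1) * cS) _ (by positivity)]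
  refine mul_le_mul_right ((lint_SJ hf).trans ?_) _
  exact mul_le_mul_right (mul_le_mul_right (mul_le_mul_right (GC_le hf) _) _) _

end Pool.Agent.BoltzM.HC
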