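import Pool.Agent.BoltzM.HC.Basic

/-! Row M1L: the loss of weight is large for large velocities. -/

set_option autoImplicit false

open MeasureTheory Set Filter Topology
open scoped ENNReal RealInnerProductSpace

noncomputable section

namespace Pool.Agent.BoltzM.HC

open Coll

namespace M1L

lemma lint_inv {a b c : ℝ} (ha : 0 < a) (hab : a ≤ b) (hc : 0 ≤ c) :
    ∫⁻ t, (Icc a b).indicator (fun t => ENNReal.ofReal (c * (1 / t))) t
      = ENNReal.ofReal (c * Real.log (b / a)) := by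
  have hi : IntegrableOn (fun t : ℝ => c * (1 / t)) (Icc a b) :=
    ContinuousOn.integrableOn_Icc (continuousOn_const.mul
      (continuousOn_const.div continuousOn_id fun t ht => (ha.trans_le ht.1).ne'))
  rw [lintegral_indicator measurableSet_Icc, ← ofReal_integral_eq_lintegral_ofReal hi
    ((ae_restrict_iff' measurableSet_Icc).2 (ae_of_all _ fun t ht => by
      have := ha.trans_le ht.1
      show (0 : ℝ) ≤ c * (1 / t)
      positivity)),
    integral_Icc_eq_integral_Ioc, ← intervalIntegral.integral_of_le hab,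
    intervalIntegral.integral_const_mul, integral_one_div_of_pos ha (ha.trans_le hab)]

variable [Dim]

lemma le_MM {w : E} (h : ‖w‖ ≤ 1) : Real.exp (-1) ≤ MM w := by
  rw [MM, sM, ← Real.exp_nat_mul, Real.exp_le_exp]
  have : ‖w‖ ^ 2 ≤ 1 := pow_le_one₀ (norm_nonneg w) h
  push_cast
  linarith

lemma rh_le_half {δ : ℝ} {n q : ℕ} (hδ : 0 < δ) (hn : (1 - δ ^ 2 / 8) ^ n < 1 / 2) (hq : 2 * n ≤ q)
    {p : E × E × S2} (hw : ‖p.2.1‖ ≤ 1) (h4 : 4 ≤ δ * ‖p.1 - p.2.1‖)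
    (ht : δ * ‖p.1 - p.2.1‖ ≤ rho p) (hj : jb p.1 ≤ 2 * ‖p.1 - p.2.1‖) : rh q p ≤ 1 / 2 := by
  have h0 := jb_pos p.1
  have hx := xr_pos p
  have h1 := jb_sq_sub p
  rw [← xr_mul, mul_pow] at h1
  have h2 := (abs_le.1 ((abs_inner_le p.2.1 p.2.2).trans hw)).1
  have h3 : (δ * jb p.1) ^ 2 ≤ (2 * rho p) ^ 2 :=
    pow_le_pow_left₀ (by positivity) (by nlinarith) 2
  have h5 : xr p ^ 2 ≤ 1 - δ ^ 2 / 8 := by
    refine le_of_mul_le_mul_right ?_ (pow_pos h0 2)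
    nlinarith [mul_nonneg (show 0 ≤ rho p by linarith) (show 0 ≤ ⟪p.2.1, (p.2.2 : E)⟫ + 1 by linarith),
      mul_nonneg (show 0 ≤ rho p by linarith) (show 0 ≤ rho p - 4 by linarith)]
  have h6 : xr p ≤ 1 := by nlinarith [sq_nonneg δ]
  calc rh q p ≤ xr p ^ q := min_le_left _ _
    _ ≤ xr p ^ (2 * n) := pow_le_pow_of_le_one hx.le h6 hq
    _ ≤ (1 - δ ^ 2 / 8) ^ n := by rw [pow_mul]; exact pow_le_pow_left₀ (by positivity) h5 n
    _ ≤ 1 / 2 := hn.le

lemma le_ker {p : E × E × S2} (h0 : 0 < rho p) :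
    2 * ‖p.1 - p.2.1‖ * ‖p.1 - p.2.1‖ ^ gm * (1 / rho p) ≤ ker3 p := by
  have h1 : rho p ≤ ‖p.1 - p.2.1‖ := (le_abs_self _).trans (abs_rho_le p)
  have hr : 0 < ‖p.1 - p.2.1‖ := h0.trans_le h1
  have h2 : ‖p.1 - p.2.1‖ ^ (-(1 / 100) : ℝ) ≤ rho p ^ (-(1 / 100) : ℝ) :=
    Real.rpow_le_rpow_of_nonpos h0 h1 (by norm_num)
  have e1 : rho p ^ (-(101 / 100) : ℝ) = rho p ^ (-(1 / 100) : ℝ) * (1 / rho p) := by
    rw [one_div (rho p), ← Real.rpow_neg_one, ← Real.rpow_add h0]; norm_num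
  have e2 : ‖p.1 - p.2.1‖ * ‖p.1 - p.2.1‖ ^ gm
      = ‖p.1 - p.2.1‖ ^ (3 : ℝ) * ‖p.1 - p.2.1‖ ^ (-(1 / 100) : ℝ) := by
    rw [← Real.rpow_one_add' hr.le (by norm_num [gm]), ← Real.rpow_add hr]; norm_num [gm]
  rw [ker3_eq, abs_of_pos h0, e1, mul_assoc 2, e2, ← mul_assoc, ← mul_assoc]
  gcongr

end M1L

variable [Dim]

theorem m1L : M1LStmt := by
  intro L
  have hS := cS_pos
  have hb0 : volume (Metric.ball (0 : E) 1) ≠ 0 := (Metric.measure_ball_pos _ _ one_pos).ne'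
  have hb1 : volume (Metric.ball (0 : E) 1) ≠ ⊤ := measure_ball_lt_top.ne
  obtain ⟨b, hb, eb⟩ : ∃ b : ℝ, 0 < b ∧ volume (Metric.ball (0 : E) 1) = ENNReal.ofReal b :=
    ⟨_, ENNReal.toReal_pos hb0 hb1, (ENNReal.ofReal_toReal hb1).symm⟩
  obtain ⟨c, hc, ec⟩ : ∃ c : ℝ, 0 < c ∧ c = (1 / 2) ^ dd * cS * Real.exp (-1) :=
    ⟨_, by positivity, rfl⟩
  obtain ⟨M, hM, eM⟩ : ∃ M : ℝ, 0 ≤ M ∧ c * b * M = 4 * |L| :=
    ⟨4 * |L| / (c * b), by positivity, by field_simp⟩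
  obtain ⟨δ, hδ, hδ1, eδ⟩ : ∃ δ : ℝ, 0 < δ ∧ δ ≤ 1 / 2 ∧ Real.log (1 / (2 * δ)) = M :=
    ⟨Real.exp (-M) / 2, by positivity, by
      linarith [Real.exp_le_one_iff.2 (neg_nonpos.2 hM)], by
      rw [mul_div_cancel₀ _ two_ne_zero, one_div, ← Real.exp_neg, neg_neg, Real.log_exp]⟩
  obtain ⟨n, hn⟩ := exists_pow_lt_of_lt_one (show (0 : ℝ) < 1 / 2 by norm_num)
    (show 1 - δ ^ 2 / 8 < 1 by have := pow_pos hδ 2; linarith)
  refine ⟨2 * n, 4 / δ + 1, fun q hq v hv => ?_⟩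
  have hj := jb_pos v
  have key : ∀ w ∈ Metric.ball (0 : E) 1, ENNReal.ofReal (c * M / 4 * jb v ^ gm) ≤
      ∫⁻ o, ENNReal.ofReal (ker3 (v, w, o) * MM w * (1 - rh q (v, w, o))) ∂sph := fun w hw => by
    have hw1 : ‖w‖ ≤ 1 := (mem_ball_zero_iff.1 hw).le
    have h1 := norm_sub_norm_le v w
    have h4 : 4 ≤ δ * ‖v - w‖ := by
      have : 4 / δ ≤ ‖v - w‖ := by linarith
      rwa [div_le_iff₀' hδ] at this
    have hr : 8 ≤ ‖v - w‖ := by nlinarith [norm_nonneg (v - w)]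
    have hr0 : 0 < ‖v - w‖ := by linarith
    have hj2 : jb v ≤ 2 * ‖v - w‖ := by linarith [jb_le v]
    have hA := le_arch (v - w) (norm_pos_iff.1 hr0) ((Icc (δ * ‖v - w‖) (‖v - w‖ / 2)).indicator
      fun t => ENNReal.ofReal (Real.exp (-1) * (‖v - w‖ * ‖v - w‖ ^ gm) * (1 / t)))
      (Measurable.indicator (by fun_prop) measurableSet_Icc)
      fun t ht => indicator_of_notMem (fun h => by nlinarith [h.1, h.2]) _
    rw [M1L.lint_inv (by positivity) (by nlinarith) (by positivity),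
      show ‖v - w‖ / 2 / (δ * ‖v - w‖) = 1 / (2 * δ) by field_simp, eδ,
      ← ENNReal.ofReal_mul (by positivity)] at hA
    refine le_trans (ENNReal.ofReal_le_ofReal ?_) (hA.trans (lintegral_mono fun o => ?_))
    · have h5 : jb v ^ gm ≤ 4 * ‖v - w‖ ^ gm := by
        calc jb v ^ gm ≤ (2 * ‖v - w‖) ^ gm := Real.rpow_le_rpow hj.le hj2 (by norm_num [gm])
          _ = 2 ^ gm * ‖v - w‖ ^ gm := Real.mul_rpow (by norm_num) hr0.le
          _ ≤ 2 ^ (2 : ℝ) * ‖v - w‖ ^ gm := by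
            gcongr
            · norm_num
            · norm_num [gm]
          _ = _ := by norm_num
      calc c * M / 4 * jb v ^ gm ≤ c * M / 4 * (4 * ‖v - w‖ ^ gm) := by gcongr
        _ = _ := by rw [ec]; field_simp
    · by_cases h : ⟪v - w, (o : E)⟫ ∈ Icc (δ * ‖v - w‖) (‖v - w‖ / 2)
      · simp only [indicator_of_mem h]
        refine ENNReal.ofReal_le_ofReal ?_
        have h0 : 0 < rho (v, w, o) := lt_of_lt_of_le (by linarith) h.1
        have h6 := M1L.le_ker h0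
        have h7 := M1L.rh_le_half (p := (v, w, o)) hδ hn hq hw1 h4 h.1 hj2
        have h8 := M1L.le_MM hw1
        calc _ = 2 * ‖v - w‖ * ‖v - w‖ ^ gm * (1 / rho (v, w, o)) * Real.exp (-1) * (1 / 2) := by
              rw [rho]; ring
          _ ≤ _ := mul_le_mul (mul_le_mul h6 h8 (Real.exp_pos _).le (ker3_nonneg _)) (by linarith)
              (by norm_num) (mul_nonneg (ker3_nonneg _) (MM_pos w).le)
      · simp only [indicator_of_notMem h]
        exact zero_le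
  rw [lintegral_mu2 _ (by fun_prop)]
  refine le_trans ?_ ((setLIntegral_mono' Metric.isOpen_ball.measurableSet key).trans
    (setLIntegral_le_lintegral _ _))
  rw [setLIntegral_const, eb, ← ENNReal.ofReal_mul (by positivity)]
  refine ENNReal.ofReal_le_ofReal ?_
  calc L * jb v ^ gm ≤ |L| * jb v ^ gm := by gcongr; exact le_abs_self L
    _ = _ := by linear_combination (-(jb v ^ gm) / 4) * eM

end Pool.Agent.BoltzM.HC
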