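import Pool.Agent.BoltzM.HC.Basic

/-! The loss of weight from above, and lowering the weight. -/

set_option autoImplicit false

open MeasureTheory Set Filter Topology
open scoped ENNReal RealInnerProductSpace

noncomputable section

namespace Pool.Agent.BoltzM.HC

open Coll

variable [Dim]

namespace M1U

/-- an integrable weight -/
def i1 (w : E) : ℝ := ((1 + ‖w‖) ^ (dd + 1))⁻¹

/-- a weight with two more powers -/
def i3 (w : E) : ℝ := ((1 + ‖w‖) ^ (dd + 3))⁻¹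

lemma i1_pos (w : E) : 0 < i1 w := by unfold i1; positivity

lemma i3_pos (w : E) : 0 < i3 w := by unfold i3; positivity

@[fun_prop] lemma measurable_i1 : Measurable i1 := by unfold i1; fun_prop

@[fun_prop] lemma measurable_i3 : Measurable i3 := by unfold i3; fun_prop

lemma i3_mul (w : E) : i3 w * (1 + ‖w‖) ^ 2 = i1 w := by
  unfold i1 i3
  rw [show dd + 3 = dd + 1 + 2 by omega, pow_add _ (dd + 1) 2]
  field_simp

lemma lint_i1 : ∫⁻ w : E, ENNReal.ofReal (i1 w) ≠ ⊤ := by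
  have h := finite_integral_one_add_norm (E := E) (μ := volume) (r := ((dd + 1 : ℕ) : ℝ))
    (by rw [finrank_Ix]; exact_mod_cast Nat.lt_succ_self dd)
  refine ne_of_lt (lt_of_eq_of_lt (lintegral_congr fun w => ?_) h)
  rw [Real.rpow_neg (by positivity), Real.rpow_natCast, i1]

/-- the marginal of a constant plus the truncated kernel -/
lemma marg (hA : AngStmt) : ∃ C : ℝ, 0 < C ∧ ∀ (c : ℝ) (v : E), 0 ≤ c →
    ∫⁻ z, ENNReal.ofReal (c * (i1 z.1 + i3 z.1 * kx (v, z) / jb v ^ 2)) ∂mu2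
      ≤ ENNReal.ofReal (C * c) := by
  obtain ⟨A, hA0, hA⟩ := hA
  have hT := cT_pos
  set I := (∫⁻ w : E, ENNReal.ofReal (i1 w)).toReal with hI
  have hI0 : 0 ≤ I := ENNReal.toReal_nonneg
  refine ⟨(cT + A) * (I + 1), by positivity, fun c v hc => ?_⟩
  have hj := jb_pos v
  rw [lintegral_mu2 _ (by fun_prop)]
  have key : ∀ w : E, ∫⁻ o, ENNReal.ofReal (c * (i1 w + i3 w * kx (v, w, o) / jb v ^ 2)) ∂sph
      ≤ ENNReal.ofReal (c * (cT + A)) * ENNReal.ofReal (i1 w) := by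
    intro w
    have h1 := i1_pos w
    have h3 := i3_pos w
    have e : ∀ o : S2, ENNReal.ofReal (c * (i1 w + i3 w * kx (v, w, o) / jb v ^ 2))
        = ENNReal.ofReal (c * i1 w)
          + ENNReal.ofReal (c * i3 w / jb v ^ 2) * ENNReal.ofReal (kx (v, w, o)) := by
      intro o
      have := kx_nonneg (v, w, o)
      rw [← ENNReal.ofReal_mul (by positivity), ← ENNReal.ofReal_add (by positivity) (by positivity)]
      congr 1; ring
    simp only [e]
    rw [lintegral_add_left measurable_const, lintegral_const, sph_univ,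
      lintegral_const_mul' _ _ ENNReal.ofReal_ne_top]
    refine (add_le_add le_rfl (mul_le_mul_right (hA v w) _)).trans ?_
    rw [← ENNReal.ofReal_mul (by positivity), ← ENNReal.ofReal_mul (by positivity),
      ← ENNReal.ofReal_mul (by positivity), ← ENNReal.ofReal_add (by positivity) (by positivity)]
    refine ENNReal.ofReal_le_ofReal ?_
    have h4 : ‖v - w‖ ^ 2 ≤ (jb v * (1 + ‖w‖)) ^ 2 := by gcongr; exact norm_sub_le_jb v w
    have h5 : c * i3 w / jb v ^ 2 * (A * ‖v - w‖ ^ 2) ≤ c * A * i1 w := by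
      rw [← i3_mul]
      calc _ ≤ c * i3 w / jb v ^ 2 * (A * (jb v * (1 + ‖w‖)) ^ 2) := by gcongr
        _ = _ := by field_simp
    nlinarith
  refine (lintegral_mono key).trans ?_
  rw [lintegral_const_mul' _ _ ENNReal.ofReal_ne_top, ← ENNReal.ofReal_toReal lint_i1, ← hI,
    ← ENNReal.ofReal_mul (by positivity)]
  refine ENNReal.ofReal_le_ofReal ?_
  have : 0 ≤ c * (cT + A) := by positivity
  nlinarith

/-- the marginal at `v` -/
lemma fst (hA : AngStmt) : ∃ C : ℝ, 0 < C ∧ ∀ (c r : ℝ) (k : E × E × S2 → ℝ) (f : E → ℝ), 0 ≤ c →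
    Measurable f →
    (∀ p, k p ≤ c * jb p.1 ^ r * (i1 p.2.1 + i3 p.2.1 * kx p / jb p.1 ^ 2)) →
    I3 (fun p => k p * f p.1 ^ 2) ≤ ENNReal.ofReal (C * c) * Wn r f := by
  obtain ⟨C, hC, h⟩ := marg hA
  refine ⟨C, hC, fun c r k f hc hf hk => ?_⟩
  refine (I3_mono fun p => mul_le_mul_of_nonneg_right (hk p) (sq_nonneg _)).trans ?_
  refine I3_fst (k := fun p => c * jb p.1 ^ r * (i1 p.2.1 + i3 p.2.1 * kx p / jb p.1 ^ 2))
    (by fun_prop) (fun p => ?_) (by positivity) (fun v => ?_) hf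
  · have := jb_pos p.1
    have := i1_pos p.2.1
    have := i3_pos p.2.1
    have := kx_nonneg p
    positivity
  · have := jb_pos v
    rw [mul_assoc]
    exact h (c * jb v ^ r) v (by positivity)

/-- the second moment of the kernel, pointwise -/
lemma ker_sq_le (p : E × E × S2) :
    ker3 p * rho p ^ 2 ≤ 2 * (jb p.1 ^ gm * jb p.1 ^ 2) * (1 + ‖p.2.1‖) ^ 4 := by
  have hj := jb_pos p.1
  have hw : (1 : ℝ) ≤ 1 + ‖p.2.1‖ := by linarith [norm_nonneg p.2.1]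
  rcases eq_or_ne (rho p) 0 with h0 | h0
  · rw [h0]; simp only [ne_eq, OfNat.ofNat_ne_zero, not_false_eq_true, zero_pow, mul_zero]
    positivity
  have ht : 0 < |rho p| := abs_pos.2 h0
  have hr := norm_sub_le_jb p.1 p.2.1
  have e1 : |rho p| ^ (-(101 / 100) : ℝ) * rho p ^ 2 = |rho p| ^ (99 / 100 : ℝ) := by
    rw [← sq_abs, ← Real.rpow_natCast, ← Real.rpow_add ht]; norm_num
  have h2 : |rho p| ^ (99 / 100 : ℝ) ≤ jb p.1 ^ (99 / 100 : ℝ) * (1 + ‖p.2.1‖) := by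
    calc _ ≤ (jb p.1 * (1 + ‖p.2.1‖)) ^ (99 / 100 : ℝ) :=
          Real.rpow_le_rpow ht.le ((abs_rho_le p).trans hr) (by norm_num)
      _ = jb p.1 ^ (99 / 100 : ℝ) * (1 + ‖p.2.1‖) ^ (99 / 100 : ℝ) :=
          Real.mul_rpow hj.le (by positivity)
      _ ≤ _ := by
          gcongr
          exact Real.rpow_le_self_of_one_le hw (by norm_num)
  have e2 : jb p.1 ^ gm = jb p.1 ^ (99 / 100 : ℝ) * jb p.1 := by
    rw [← Real.rpow_add_one hj.ne', gm]; norm_num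
  rw [ker3_eq', mul_assoc, e1, e2]
  calc _ ≤ 2 * (jb p.1 * (1 + ‖p.2.1‖)) ^ 3 * (jb p.1 ^ (99 / 100 : ℝ) * (1 + ‖p.2.1‖)) := by
        gcongr
    _ = _ := by ring

/-- the first moment of the kernel, pointwise -/
lemma ker_abs_le (p : E × E × S2) : ker3 p * |rho p| ≤ kx p + ker3 p * rho p ^ 2 := by
  have hk := ker3_nonneg p
  rw [kx, ← mul_add]
  refine mul_le_mul_of_nonneg_left ?_ hk
  rcases le_total |rho p| 1 with h | h
  · rw [min_eq_right h]; linarith [sq_nonneg (rho p)]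
  · rw [min_eq_left h, ← sq_abs]; nlinarith

lemma loss_le (q : ℕ) (p : E × E × S2) : ker3 p * iw p.2.1 * (1 - rh q p)
    ≤ 4 * q * jb p.1 ^ gm * (i1 p.2.1 + i3 p.2.1 * kx p / jb p.1 ^ 2) := by
  have hj := jb_pos p.1
  have hk := ker3_nonneg p
  have hx := kx_nonneg p
  have hi := iw_pos p.2.1
  have hw := norm_nonneg p.2.1
  have hg : 1 ≤ jb p.1 ^ gm := Real.one_le_rpow (one_le_jb _) (by rw [gm]; norm_num)
  have h1 : (1 + ‖p.2.1‖) ^ 5 * iw p.2.1 ≤ i1 p.2.1 := pow_mul_iw_le (by unfold pK; omega) _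
  have h3 : (1 + ‖p.2.1‖) ^ 1 * iw p.2.1 ≤ i3 p.2.1 := pow_mul_iw_le (by unfold pK; omega) _
  have h4 := ker_sq_le p
  have h5 := ker_abs_le p
  have h6 : ker3 p * (rho p ^ 2 + 2 * |rho p| * ‖p.2.1‖)
      ≤ 4 * jb p.1 ^ gm * (jb p.1 ^ 2 * (1 + ‖p.2.1‖) ^ 5 + (1 + ‖p.2.1‖) * kx p) := by
    have a1 : ker3 p * |rho p| * (2 * ‖p.2.1‖) ≤ (kx p + ker3 p * rho p ^ 2) * (2 * ‖p.2.1‖) := by
      gcongr
    have a2 : ker3 p * rho p ^ 2 * (1 + 2 * ‖p.2.1‖)
        ≤ 2 * (jb p.1 ^ gm * jb p.1 ^ 2) * (1 + ‖p.2.1‖) ^ 4 * (2 * (1 + ‖p.2.1‖)) := by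
      gcongr; linarith
    have a3 : kx p * (2 * ‖p.2.1‖) * 1 ≤ kx p * (4 * (1 + ‖p.2.1‖)) * jb p.1 ^ gm := by
      have a4 : 2 * ‖p.2.1‖ ≤ 4 * (1 + ‖p.2.1‖) := by linarith
      gcongr
    nlinarith
  calc _ ≤ ker3 p * iw p.2.1 * (q * ((rho p ^ 2 + 2 * |rho p| * ‖p.2.1‖) / jb p.1 ^ 2)) := by
        gcongr; exact one_sub_rh_le q p
    _ = q * iw p.2.1 / jb p.1 ^ 2 * (ker3 p * (rho p ^ 2 + 2 * |rho p| * ‖p.2.1‖)) := by ring
    _ ≤ q * iw p.2.1 / jb p.1 ^ 2 * (4 * jb p.1 ^ gm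
          * (jb p.1 ^ 2 * (1 + ‖p.2.1‖) ^ 5 + (1 + ‖p.2.1‖) * kx p)) := by gcongr
    _ = 4 * q * jb p.1 ^ gm * ((1 + ‖p.2.1‖) ^ 5 * iw p.2.1
          + (1 + ‖p.2.1‖) ^ 1 * iw p.2.1 * kx p / jb p.1 ^ 2) := by field_simp
    _ ≤ _ := by gcongr

/-- the increment of the inverse bracket in the window -/
lemma inv_sub_sq_le {p : E × E × S2} (h : Win p) :
    (1 / jb (v1 p) - 1 / jb p.1) ^ 2 ≤ 16 * min 1 |rho p| / jb p.1 ^ 2 := by
  have hj := jb_pos p.1
  have hA := jb_pos (v1 p)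
  have hA1 := one_le_jb (v1 p)
  have h1 : |jb (v1 p) - jb p.1| ≤ |rho p| := (abs_jb_sub_le _ _).trans (norm_v1_sub p).le
  have h2 : jb p.1 ≤ 4 * jb (v1 p) := by
    have h3 := (le_rh_of_Win 1 h).trans (min_le_left _ _)
    rw [pow_one, pow_one, xr, le_div_iff₀ hj] at h3
    linarith
  have e : (1 / jb (v1 p) - 1 / jb p.1) ^ 2
      = (jb (v1 p) - jb p.1) ^ 2 / jb (v1 p) ^ 2 / jb p.1 ^ 2 := by field_simp; ring
  rw [e]
  refine div_le_div_of_nonneg_right ?_ (by positivity)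
  rw [div_le_iff₀ (by positivity)]
  rcases le_total |rho p| 1 with h3 | h3
  · rw [min_eq_right h3]
    have h4 : (jb (v1 p) - jb p.1) ^ 2 ≤ |rho p| ^ 2 := by
      rw [← sq_abs]; gcongr
    have h5 : 1 ≤ jb (v1 p) ^ 2 := one_le_pow₀ hA1
    have h6 := abs_nonneg (rho p)
    nlinarith [mul_le_mul_of_nonneg_left h5 h6, mul_le_mul_of_nonneg_left h3 h6]
  · rw [min_eq_left h3]
    nlinarith

lemma win_le (p : E × E × S2) : kS Win p * MM p.2.1 * (1 / jb (v1 p) - 1 / jb p.1) ^ 2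
    ≤ 16 * Real.exp ((pK : ℕ) ^ 2) * jb p.1 ^ gm
      * (i1 p.2.1 + i3 p.2.1 * kx p / jb p.1 ^ 2) := by
  have hj := jb_pos p.1
  have hk := ker3_nonneg p
  have hx := kx_nonneg p
  have h1 := i1_pos p.2.1
  have h3 := i3_pos p.2.1
  have hM := MM_pos p.2.1
  have hg : 1 ≤ jb p.1 ^ gm := Real.one_le_rpow (one_le_jb _) (by rw [gm]; norm_num)
  by_cases h : Win p
  · have h4 : iw p.2.1 ≤ i3 p.2.1 := by
      have := pow_mul_iw_le (n := 0) (m := dd + 3) (by unfold pK; omega) p.2.1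
      rwa [pow_zero, one_mul] at this
    have h5 : MM p.2.1 ≤ Real.exp ((pK : ℕ) ^ 2) * i3 p.2.1 :=
      (MM_le_iw _).trans (by gcongr)
    rw [kS_pos h]
    calc _ ≤ ker3 p * (Real.exp ((pK : ℕ) ^ 2) * i3 p.2.1)
          * (16 * min 1 |rho p| / jb p.1 ^ 2) := by gcongr; exact inv_sub_sq_le h
      _ = 16 * Real.exp ((pK : ℕ) ^ 2) * 1 * (0 + i3 p.2.1 * kx p / jb p.1 ^ 2) := by
          rw [kx]; ring
      _ ≤ _ := by gcongr
  · rw [kS_neg h, zero_mul, zero_mul]; positivity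

lemma inc_div_le (f : E → ℝ) (p : E × E × S2) : (f (v1 p) / jb (v1 p) - f p.1 / jb p.1) ^ 2
    ≤ 2 * (f (v1 p) - f p.1) ^ 2 + 2 * ((1 / jb (v1 p) - 1 / jb p.1) ^ 2 * f p.1 ^ 2) := by
  have hA := jb_pos (v1 p)
  have h1 : ((f (v1 p) - f p.1) / jb (v1 p)) ^ 2 ≤ (f (v1 p) - f p.1) ^ 2 := by
    rw [div_pow]; exact div_le_self (sq_nonneg _) (one_le_pow₀ (one_le_jb _))
  have e : f (v1 p) / jb (v1 p) - f p.1 / jb p.1
      = (f (v1 p) - f p.1) / jb (v1 p) + (1 / jb (v1 p) - 1 / jb p.1) * f p.1 := by ring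
  rw [e, ← mul_pow]
  nlinarith [sq_nonneg ((f (v1 p) - f p.1) / jb (v1 p) - (1 / jb (v1 p) - 1 / jb p.1) * f p.1)]

lemma Wn_div_le (r : ℝ) (f : E → ℝ) : Wn r (fun v => f v / jb v) ≤ Wn r f := by
  refine lintegral_mono fun v => ENNReal.ofReal_le_ofReal ?_
  have := jb_pos v
  refine mul_le_mul_of_nonneg_left ?_ (by positivity)
  rw [div_pow]; exact div_le_self (sq_nonneg _) (one_le_pow₀ (one_le_jb _))

end M1U

open M1U

theorem m1U (hA : AngStmt) : M1UStmt := by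
  obtain ⟨C, hC, h⟩ := fst hA
  refine ⟨C * 4, by positivity, fun q f hf => ?_⟩
  rw [mul_assoc]
  exact h (4 * q) gm (fun p => ker3 p * iw p.2.1 * (1 - rh q p)) f (by positivity) hf (loss_le q)

theorem t3 (hA : AngStmt) : T3Stmt := by
  obtain ⟨C, hC, h⟩ := fst hA
  set D := C * (16 * Real.exp ((pK : ℕ) ^ 2)) with hD
  have hD0 : 0 < D := by positivity
  refine ⟨2 * D + 2, by positivity, fun f hf => ?_⟩
  have hW := measurable_kS measurableSet_Win
  have h1 := h (16 * Real.exp ((pK : ℕ) ^ 2)) gm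
    (fun p => kS Win p * MM p.2.1 * (1 / jb (v1 p) - 1 / jb p.1) ^ 2) f (by positivity) hf win_le
  have h2 : J0 (fun v => f v / jb v)
      ≤ ENNReal.ofReal 2 * J0 f + ENNReal.ofReal 2 * (ENNReal.ofReal D * Wn gm f) := by
    calc _ ≤ I3 (fun p => 2 * (kS Win p * MM p.2.1 * (f (v1 p) - f p.1) ^ 2)
          + 2 * (kS Win p * MM p.2.1 * (1 / jb (v1 p) - 1 / jb p.1) ^ 2 * f p.1 ^ 2)) := by
          refine I3_mono fun p => ?_
          have a := mul_le_mul_of_nonneg_left (inc_div_le f p)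
            (mul_nonneg (kS_nonneg Win p) (MM_pos p.2.1).le)
          linarith
      _ ≤ _ := by
          refine (I3_add_le (by fun_prop)).trans ?_
          rw [I3_const_mul (by norm_num), I3_const_mul (by norm_num)]
          exact add_le_add le_rfl (mul_le_mul_right h1 _)
  rw [NN, NN, mul_add]
  refine (add_le_add h2 (Wn_div_le gm f)).trans ?_
  rw [add_assoc]
  refine add_le_add (mul_le_mul_left (ENNReal.ofReal_le_ofReal (by linarith)) _) ?_
  rw [← mul_assoc, ← ENNReal.ofReal_mul (by norm_num), ← add_one_mul, ← ENNReal.ofReal_one,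
    ← ENNReal.ofReal_add (by positivity) (by norm_num)]
  exact mul_le_mul_left (ENNReal.ofReal_le_ofReal (by linarith)) _

end Pool.Agent.BoltzM.HC
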