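import Pool.Agent.BoltzM.HC.Basic

/-! Row M2L: the lower side of the cancellation estimate. -/

set_option autoImplicit false

open MeasureTheory Set Filter Topology
open scoped ENNReal RealInnerProductSpace

noncomputable section

namespace Pool.Agent.BoltzM.HC

open Coll

namespace M2L

/-- the jumps that are kept -/
def ind (ε r t : ℝ) : ℝ := if ε ≤ |t| ∧ |t| < r / 2 then 1 else 0

/-- truncated singular factor -/
def ph (ε t : ℝ) : ℝ := if ε ≤ |t| then |t| ^ (-(101 / 100) : ℝ) else 0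

lemma ind_nonneg (ε r t : ℝ) : 0 ≤ ind ε r t := by unfold ind; split_ifs <;> norm_num

lemma ph_nonneg (ε t : ℝ) : 0 ≤ ph ε t := by unfold ph; split_ifs <;> positivity

lemma ph_le (ε t : ℝ) : ph ε t ≤ |t| ^ (-(101 / 100) : ℝ) := by
  unfold ph; split_ifs
  · exact le_rfl
  · positivity

lemma measurable_ind2 (ε : ℝ) : Measurable fun z : ℝ × ℝ => ind ε z.1 z.2 := by
  unfold ind
  exact Measurable.ite ((measurableSet_le (f := fun _ => ε) (g := fun z : ℝ × ℝ => |z.2|)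
    measurable_const (by fun_prop)).inter (measurableSet_lt (f := fun z : ℝ × ℝ => |z.2|)
      (g := fun z : ℝ × ℝ => z.1 / 2) (by fun_prop) (by fun_prop))) measurable_const
        measurable_const

@[fun_prop] lemma measurable_ind {X : Type} [MeasurableSpace X] (ε : ℝ) {r t : X → ℝ}
    (hr : Measurable r) (ht : Measurable t) : Measurable fun x => ind ε (r x) (t x) :=
  (measurable_ind2 ε).comp (hr.prodMk ht)

@[fun_prop] lemma measurable_ph (ε : ℝ) : Measurable (ph ε) := by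
  unfold ph
  exact Measurable.ite (measurableSet_le measurable_const (by fun_prop))
    (Measurable.pow_const (by fun_prop) _) measurable_const

lemma abs_mul_sing (t : ℝ) : |t| * |t| ^ (-(101 / 100) : ℝ) = |t| ^ (-(1 / 100) : ℝ) := by
  rw [← Real.rpow_one_add' (abs_nonneg t) (by norm_num)]; norm_num

lemma lint_half {R : ℝ} (hR : 0 ≤ R) :
    ∫⁻ t in Ioo (0 : ℝ) R, ENNReal.ofReal (t ^ (-(1 / 100) : ℝ))
      ≤ ENNReal.ofReal (3 / 2 * R ^ (99 / 100 : ℝ)) := by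
  have hi : IntegrableOn (fun t : ℝ => t ^ (-(1 / 100) : ℝ)) (Ioo 0 R) :=
    (intervalIntegrable_iff_integrableOn_Ioo_of_le hR).1
      (intervalIntegral.intervalIntegrable_rpow' (by norm_num))
  rw [← ofReal_integral_eq_lintegral_ofReal hi
    ((ae_restrict_mem measurableSet_Ioo).mono fun t ht => Real.rpow_nonneg ht.1.le _),
    ← integral_Ioc_eq_integral_Ioo, ← intervalIntegral.integral_of_le hR,
    integral_rpow (Or.inl (by norm_num)), Real.zero_rpow (by norm_num),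
    show (-(1 / 100) + 1 : ℝ) = 99 / 100 by norm_num]
  refine ENNReal.ofReal_le_ofReal ?_
  have : 0 ≤ R ^ (99 / 100 : ℝ) := by positivity
  linarith

lemma lint_sing {R : ℝ} (hR : 0 ≤ R) :
    ∫⁻ t, (Ioo (-R) R).indicator (fun t => ENNReal.ofReal (|t| ^ (-(1 / 100) : ℝ))) t
      ≤ ENNReal.ofReal (3 * R ^ (99 / 100 : ℝ)) := by
  set g : ℝ → ℝ≥0∞ := (Ioo (0 : ℝ) R).indicator fun t => ENNReal.ofReal (t ^ (-(1 / 100) : ℝ))
    with hg
  have hm : Measurable g :=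
    Measurable.indicator (Measurable.pow_const measurable_id _).ennreal_ofReal measurableSet_Ioo
  have h1 : ∫⁻ t, g t ≤ ENNReal.ofReal (3 / 2 * R ^ (99 / 100 : ℝ)) := by
    rw [hg, lintegral_indicator measurableSet_Ioo]; exact lint_half hR
  have h2 : 0 ≤ 3 / 2 * R ^ (99 / 100 : ℝ) := by positivity
  calc _ ≤ ∫⁻ t, (g t + g (-t)) := by
        refine lintegral_mono fun t => ?_
        by_cases ht : t ∈ Ioo (-R) R
        · simp only [indicator_of_mem ht]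
          rcases lt_trichotomy t 0 with h | h | h
          · refine le_add_left (le_of_eq ?_)
            rw [hg, indicator_of_mem (show -t ∈ Ioo 0 R from ⟨by linarith, by linarith [ht.1]⟩),
              abs_of_neg h]
          · rw [h, abs_zero, Real.zero_rpow (by norm_num), ENNReal.ofReal_zero]; exact zero_le
          · refine le_add_right (le_of_eq ?_)
            rw [hg, indicator_of_mem (show t ∈ Ioo 0 R from ⟨h, ht.2⟩), abs_of_pos h]
        · simp only [indicator_of_notMem ht]; exact zero_le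
    _ = (∫⁻ t, g t) + ∫⁻ t, g t := by rw [lintegral_add_left hm, lintegral_neg_eq_self g]
    _ ≤ _ := by
        refine (add_le_add h1 h1).trans (le_of_eq ?_)
        rw [← ENNReal.ofReal_add h2 h2]; congr 1; ring

lemma sq_rpow {r : ℝ} (hr : 0 ≤ r) : (r ^ 2) ^ (3 / 2 : ℝ) = r ^ 3 := by
  rw [← Real.rpow_natCast, ← Real.rpow_mul hr, ← Real.rpow_natCast]; norm_num

lemma gm_split {r : ℝ} (hr : 0 ≤ r) : r ^ gm = r * r ^ (99 / 100 : ℝ) := by
  rw [gm, ← Real.rpow_one_add' hr (by norm_num)]; norm_num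

lemma far_bound (ε : ℝ) {r t : ℝ} (hr : 0 < r) (ht : r / 2 ≤ |t|) :
    2 * r ^ 3 * ph ε t ≤ 8 * r ^ gm := by
  have h2 : ph ε t ≤ (r / 2) ^ (-(101 / 100) : ℝ) :=
    (ph_le ε t).trans (Real.rpow_le_rpow_of_nonpos (by linarith) ht (by norm_num))
  have h3 : r ^ 3 * r ^ (-(101 / 100) : ℝ) = r ^ gm := by
    rw [← Real.rpow_natCast, ← Real.rpow_add hr, gm]; norm_num
  have h4 : (2 : ℝ) ^ (101 / 100 : ℝ) ≤ 4 := by
    calc (2 : ℝ) ^ (101 / 100 : ℝ) ≤ 2 ^ ((2 : ℕ) : ℝ) :=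
          Real.rpow_le_rpow_of_exponent_le (by norm_num) (by norm_num)
      _ = 4 := by rw [Real.rpow_natCast]; norm_num
  have h5 : (r / 2) ^ (-(101 / 100) : ℝ) = r ^ (-(101 / 100) : ℝ) * 2 ^ (101 / 100 : ℝ) := by
    rw [Real.div_rpow hr.le (by norm_num), Real.rpow_neg (by norm_num : (0 : ℝ) ≤ 2),
      div_inv_eq_mul]
  calc 2 * r ^ 3 * ph ε t ≤ 2 * r ^ 3 * (r ^ (-(101 / 100) : ℝ) * 2 ^ (101 / 100 : ℝ)) := by
        rw [← h5]; gcongr
    _ = 2 * r ^ gm * 2 ^ (101 / 100 : ℝ) := by rw [← h3]; ring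
    _ ≤ 2 * r ^ gm * 4 := by gcongr
    _ = _ := by ring

variable [Dim]

lemma box {r D : ℝ} (hr : 0 ≤ r) (hD : 0 ≤ D) : ENNReal.ofReal (cS / r) *
      ∫⁻ t, (Ioo (-(r / 2)) (r / 2)).indicator
        (fun t => ENNReal.ofReal (D * |t| ^ (-(1 / 100) : ℝ))) t
    ≤ ENNReal.ofReal (3 * cS * D * r ^ (99 / 100 : ℝ) / r) := by
  have hc := cS_pos
  have h1 : ∀ t : ℝ, (Ioo (-(r / 2)) (r / 2)).indicator
      (fun t => ENNReal.ofReal (D * |t| ^ (-(1 / 100) : ℝ))) t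
      = ENNReal.ofReal D * (Ioo (-(r / 2)) (r / 2)).indicator
        (fun t => ENNReal.ofReal (|t| ^ (-(1 / 100) : ℝ))) t := by
    intro t
    by_cases ht : t ∈ Ioo (-(r / 2)) (r / 2)
    · rw [indicator_of_mem ht, indicator_of_mem ht, ENNReal.ofReal_mul hD]
    · rw [indicator_of_notMem ht, indicator_of_notMem ht, mul_zero]
  simp only [h1]
  rw [lintegral_const_mul' _ _ ENNReal.ofReal_ne_top]
  refine (mul_le_mul_right (mul_le_mul_right (lint_sing (by linarith)) _) _).trans ?_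
  rw [← ENNReal.ofReal_mul hD, ← ENNReal.ofReal_mul (by positivity)]
  refine ENNReal.ofReal_le_ofReal ?_
  have h2 : (r / 2) ^ (99 / 100 : ℝ) ≤ r ^ (99 / 100 : ℝ) := by gcongr; linarith
  calc cS / r * (D * (3 * (r / 2) ^ (99 / 100 : ℝ)))
      ≤ cS / r * (D * (3 * r ^ (99 / 100 : ℝ))) := by gcongr
    _ = _ := by ring

/-- the main part of the marginal kernels -/
def km (ε r : ℝ) : ℝ≥0∞ :=
  ENNReal.ofReal (cS / r) * ∫⁻ t : ℝ, ENNReal.ofReal
    (2 * (t ^ 2 + r ^ 2) ^ (3 / 2 : ℝ) * |t| ^ (-(101 / 100) : ℝ) * ind ε r t)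

lemma dens_le_near {x : ℝ} (h : x ^ 2 ≤ 1 / 2) : dens x ≤ 1 + 2 * x ^ 2 := by
  have hp : 0 < 1 - x ^ 2 := by linarith
  have h2 : (2 : ℝ) ≤ dd := two_le_dr
  calc dens x ≤ (1 - x ^ 2) ^ (-1 : ℝ) :=
        Real.rpow_le_rpow_of_exponent_ge hp (by nlinarith [sq_nonneg x]) (by linarith)
    _ ≤ 1 + 2 * x ^ 2 := by
        rw [Real.rpow_neg_one, inv_le_iff_one_le_mul₀ hp]
        nlinarith [sq_nonneg x]

lemma near_bound (ε : ℝ) {r t : ℝ} (hr : 0 < r) (ht : |t| < r / 2) :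
    dens (t / r) * (2 * r ^ 3 * ph ε t)
      ≤ 2 * (t ^ 2 + r ^ 2) ^ (3 / 2 : ℝ) * |t| ^ (-(101 / 100) : ℝ) * ind ε r t
        + 2 * r ^ 2 * |t| ^ (-(1 / 100) : ℝ) := by
  have h0 := abs_nonneg t
  have h1 : (t / r) ^ 2 ≤ 1 / 2 := by
    rw [div_pow, div_le_iff₀ (by positivity), ← sq_abs]
    nlinarith
  have h2 := dens_le_near h1
  by_cases he : ε ≤ |t|
  · rw [ph, if_pos he, ind, if_pos ⟨he, ht⟩, mul_one, ← abs_mul_sing]
    have h3 : r ^ 3 ≤ (t ^ 2 + r ^ 2) ^ (3 / 2 : ℝ) := by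
      rw [← sq_rpow hr.le]; gcongr; nlinarith [sq_nonneg t]
    have h4 : 0 ≤ |t| ^ (-(101 / 100) : ℝ) := by positivity
    generalize |t| ^ (-(101 / 100) : ℝ) = S at *
    have h5 : (1 + 2 * (t / r) ^ 2) * (2 * r ^ 3 * S) = 2 * r ^ 3 * S + 4 * r * |t| * (|t| * S) := by
      rw [div_pow, ← sq_abs t]; field_simp; ring
    have h6 : 4 * r * |t| * (|t| * S) ≤ 4 * r * (r / 2) * (|t| * S) := by gcongr
    have h7 := mul_le_mul_of_nonneg_right h2 (show 0 ≤ 2 * r ^ 3 * S by positivity)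
    have h8 := mul_le_mul_of_nonneg_right h3 h4
    nlinarith
  · rw [ph, if_neg he, mul_zero, mul_zero]
    have := ind_nonneg ε r t
    positivity

lemma k0_le (ε : ℝ) (u : E) :
    ∫⁻ o : S2, ENNReal.ofReal (2 * ‖u‖ ^ 3 * ph ε ⟪u, (o : E)⟫) ∂sph
      ≤ km ε ‖u‖ + ENNReal.ofReal ((6 * cS + 8 * cT) * ‖u‖ ^ gm) := by
  by_cases hu : u = 0
  · subst hu; simp
  have hr : 0 < ‖u‖ := norm_pos_iff.2 hu
  have hc := cS_pos
  have hT := cT_pos
  set f : ℝ → ℝ≥0∞ := (Ioo (-(‖u‖ / 2)) (‖u‖ / 2)).indicator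
    fun t => ENNReal.ofReal (2 * ‖u‖ ^ 3 * ph ε t) with hf
  have hfm : Measurable f := Measurable.indicator (by fun_prop) measurableSet_Ioo
  have h1 : ∫⁻ o : S2, ENNReal.ofReal (2 * ‖u‖ ^ 3 * ph ε ⟪u, (o : E)⟫) ∂sph
      ≤ ∫⁻ o : S2, (f ⟪u, (o : E)⟫ + ENNReal.ofReal (8 * ‖u‖ ^ gm)) ∂sph := by
    refine lintegral_mono fun o => ?_
    by_cases ht : ⟪u, (o : E)⟫ ∈ Ioo (-(‖u‖ / 2)) (‖u‖ / 2)
    · simp only [hf, indicator_of_mem ht]; exact le_self_add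
    · refine le_add_left (ENNReal.ofReal_le_ofReal (far_bound ε hr ?_))
      by_contra hc
      exact ht (abs_lt.1 (not_le.1 hc))
  refine h1.trans ?_
  have hg : 0 ≤ ‖u‖ ^ gm := by positivity
  rw [lintegral_add_right _ measurable_const, lintegral_const, sph_univ,
    ← ENNReal.ofReal_mul (by positivity), archimedes_vec u hu f hfm, add_mul,
    ENNReal.ofReal_add (by positivity) (by positivity), ← add_assoc]
  refine add_le_add ?_ (le_of_eq (by congr 1; ring))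
  have h2 := box (D := 2 * ‖u‖ ^ 2) hr.le (by positivity)
  rw [show 3 * cS * (2 * ‖u‖ ^ 2) * ‖u‖ ^ (99 / 100 : ℝ) / ‖u‖ = 6 * cS * ‖u‖ ^ gm by
    rw [gm_split hr.le]; field_simp; ring] at h2
  refine le_trans ?_ (add_le_add_right h2 _)
  have hm : Measurable fun t : ℝ => ENNReal.ofReal (2 * ‖u‖ ^ 2 * |t| ^ (-(1 / 100) : ℝ)) :=
    ((Measurable.pow_const (by fun_prop) _).const_mul _).ennreal_ofReal
  rw [km, ← mul_add, ← lintegral_indicator measurableSet_Ioo,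
    ← lintegral_add_right _ (hm.indicator measurableSet_Ioo)]
  refine mul_le_mul_right (lintegral_mono fun t => ?_) _
  refine (indicator_le_self _ _ t).trans ?_
  by_cases ht : t ∈ Ioo (-(‖u‖ / 2)) (‖u‖ / 2)
  · have h3 := near_bound ε hr (abs_lt.2 ht)
    have h4 := ind_nonneg ε ‖u‖ t
    have hd : 0 ≤ dens (t / ‖u‖) := dens_nonneg (by
      rw [div_pow, div_le_iff₀ (by positivity)]; nlinarith [ht.1, ht.2])
    simp only [hf]
    rw [indicator_of_mem ht, indicator_of_mem ht, ← ENNReal.ofReal_mul hd,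
      ← ENNReal.ofReal_add (by positivity) (by positivity)]
    exact ENNReal.ofReal_le_ofReal h3
  · simp only [hf]
    rw [indicator_of_notMem ht, mul_zero]; exact zero_le

lemma ke_eq (ε : ℝ) (p : E × E × S2) : ke ε p = 2 * ‖p.1 - p.2.1‖ ^ 3 * ph ε (rho p) := by
  by_cases h : ε ≤ |rho p|
  · rw [ke_pos h, ker3_eq', ph, if_pos h]
  · rw [ke_neg (not_le.1 h), ph, if_neg h, mul_zero]

lemma tail : ∃ c : ℝ, 0 < c ∧ ∀ (D : ℝ) (f : E → ℝ), 0 ≤ D →
    ∫⁻ x : E, ∫⁻ w : E, ENNReal.ofReal (D * ((1 + ‖w‖) ^ 6 * iw w) * (jb x ^ gm * f x ^ 2))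
      ≤ ENNReal.ofReal (D * c) * Wn gm f := by
  have hfin : ∫⁻ w : E, ENNReal.ofReal ((1 + ‖w‖) ^ (-((dd + 1 : ℕ) : ℝ))) < ⊤ :=
    finite_integral_one_add_norm (by rw [finrank_Ix]; push_cast; linarith)
  have h1 : ∫⁻ w : E, ENNReal.ofReal ((1 + ‖w‖) ^ 6 * iw w) ≠ ⊤ := by
    refine (lt_of_le_of_lt (lintegral_mono fun w => ENNReal.ofReal_le_ofReal ?_) hfin).ne
    rw [Real.rpow_neg (by positivity), Real.rpow_natCast]
    exact pow_mul_iw_le (by unfold pK; omega) w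
  refine ⟨(∫⁻ w : E, ENNReal.ofReal ((1 + ‖w‖) ^ 6 * iw w)).toReal + 1, by positivity,
    fun D f hD => ?_⟩
  rw [Wn, ← lintegral_const_mul' _ _ ENNReal.ofReal_ne_top]
  refine lintegral_mono fun x => ?_
  have h2 : ∀ w : E, ENNReal.ofReal (D * ((1 + ‖w‖) ^ 6 * iw w) * (jb x ^ gm * f x ^ 2))
      = ENNReal.ofReal D * ENNReal.ofReal ((1 + ‖w‖) ^ 6 * iw w)
        * ENNReal.ofReal (jb x ^ gm * f x ^ 2) := by
    intro w
    have := iw_pos w
    rw [ENNReal.ofReal_mul (by positivity), ENNReal.ofReal_mul hD]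
  simp only [h2]
  rw [lintegral_mul_const' _ _ ENNReal.ofReal_ne_top,
    lintegral_const_mul' _ _ ENNReal.ofReal_ne_top, ENNReal.ofReal_mul hD]
  refine mul_le_mul_left (mul_le_mul_right ?_ _) _
  refine (ENNReal.ofReal_toReal h1).symm.le.trans (ENNReal.ofReal_le_ofReal (by linarith))

lemma rpow_norm_le (x w : E) {s : ℝ} {n : ℕ} (h0 : 0 ≤ s) (h : s ≤ n) :
    ‖x - w‖ ^ s ≤ jb x ^ s * (1 + ‖w‖) ^ n := by
  have h1 : (1 : ℝ) ≤ 1 + ‖w‖ := by linarith [norm_nonneg w]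
  have h2 := jb_pos x
  calc ‖x - w‖ ^ s ≤ (jb x * (1 + ‖w‖)) ^ s := by gcongr; exact norm_sub_le_jb x w
    _ = jb x ^ s * (1 + ‖w‖) ^ s := Real.mul_rpow h2.le (by linarith)
    _ ≤ jb x ^ s * (1 + ‖w‖) ^ (n : ℝ) := by gcongr
    _ = _ := by rw [Real.rpow_natCast]

/-- the loss of weight, as a function of the jump, the partner and the outgoing velocity -/
def Ph2 (ε B : ℝ) (f : E → ℝ) (t : ℝ) (w x : E) : ℝ :=
  ind ε ‖x - w‖ t * (B * iw w * jb w ^ 2 / jb x ^ 2 * f x ^ 2 * (t ^ 2 + 2 * |t| * ‖w‖))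

lemma err2 (ε : ℝ) {B : ℝ} (hB : 0 ≤ B) (f : E → ℝ) (x w : E) :
    ENNReal.ofReal (cS / ‖x - w‖) * ∫⁻ t : ℝ, ENNReal.ofReal
      (2 * (t ^ 2 + ‖x - w‖ ^ 2) ^ (3 / 2 : ℝ) * |t| ^ (-(101 / 100) : ℝ) * Ph2 ε B f t w x)
      ≤ ENNReal.ofReal (144 * cS * B * ((1 + ‖w‖) ^ 6 * iw w) * (jb x ^ gm * f x ^ 2)) := by
  have hc := cS_pos
  have hi := iw_pos w
  have hA := jb_pos x
  have hA1 := one_le_jb x
  have hw := norm_nonneg w
  have hrA := norm_sub_le_jb x w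
  have hrp := rpow_norm_le x w (s := 99 / 100) (n := 1) (by norm_num) (by norm_num)
  rcases (norm_nonneg (x - w)).eq_or_lt with hr | hr
  · rw [← hr, div_zero, ENNReal.ofReal_zero, zero_mul]; exact zero_le
  unfold Ph2
  generalize ‖x - w‖ = r at *
  have hG : 0 ≤ B * iw w * jb w ^ 2 / jb x ^ 2 * f x ^ 2 := by positivity
  have hG2 : B * iw w * jb w ^ 2 / jb x ^ 2 * f x ^ 2 * jb x ^ 2
      ≤ B * iw w * (1 + ‖w‖) ^ 2 * f x ^ 2 := by
    have := jb_pos w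
    calc _ = B * iw w * jb w ^ 2 * f x ^ 2 := by field_simp
      _ ≤ _ := by gcongr; exact jb_le w
  generalize B * iw w * jb w ^ 2 / jb x ^ 2 * f x ^ 2 = G at *
  refine le_trans ?_ ((box (D := 16 * r ^ 3 * (r + 2 * ‖w‖) * G) hr.le (by positivity)).trans
    (ENNReal.ofReal_le_ofReal ?_))
  · refine mul_le_mul_right (lintegral_mono fun t => ?_) _
    by_cases ht : ε ≤ |t| ∧ |t| < r / 2
    · simp only
      rw [indicator_of_mem (show t ∈ Ioo (-(r / 2)) (r / 2) from abs_lt.1 ht.2), ind, if_pos ht,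
        one_mul, ← abs_mul_sing]
      refine ENNReal.ofReal_le_ofReal ?_
      have h0 := abs_nonneg t
      have h3 : (t ^ 2 + r ^ 2) ^ (3 / 2 : ℝ) ≤ 8 * r ^ 3 := by
        calc _ ≤ ((2 * r) ^ 2) ^ (3 / 2 : ℝ) := by
              gcongr; rw [← sq_abs t]; nlinarith [ht.2]
          _ = _ := by rw [sq_rpow (by linarith)]; ring
      have h4 : 0 ≤ |t| ^ (-(101 / 100) : ℝ) := by positivity
      generalize |t| ^ (-(101 / 100) : ℝ) = S at *
      have h5 : |t| ≤ r := by linarith [ht.2]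
      calc 2 * (t ^ 2 + r ^ 2) ^ (3 / 2 : ℝ) * S * (G * (t ^ 2 + 2 * |t| * ‖w‖))
          ≤ 2 * (8 * r ^ 3) * S * (G * (t ^ 2 + 2 * |t| * ‖w‖)) := by gcongr
        _ = 16 * r ^ 3 * (|t| + 2 * ‖w‖) * G * (|t| * S) := by rw [← sq_abs t]; ring
        _ ≤ _ := by gcongr
    · simp only
      rw [ind, if_neg ht, zero_mul, mul_zero, ENNReal.ofReal_zero]; exact zero_le
  · have h6 : r + 2 * ‖w‖ ≤ 3 * (jb x * (1 + ‖w‖)) := by nlinarith
    have h7 : 0 ≤ jb x ^ (99 / 100 : ℝ) := by positivity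
    rw [gm_split hA.le]
    calc 3 * cS * (16 * r ^ 3 * (r + 2 * ‖w‖) * G) * r ^ (99 / 100 : ℝ) / r
        = 48 * cS * r ^ 2 * (r + 2 * ‖w‖) * G * r ^ (99 / 100 : ℝ) := by field_simp; ring
      _ ≤ 48 * cS * (jb x * (1 + ‖w‖)) ^ 2 * (3 * (jb x * (1 + ‖w‖))) * G
          * (jb x ^ (99 / 100 : ℝ) * (1 + ‖w‖) ^ 1) := by gcongr
      _ = 144 * cS * (1 + ‖w‖) ^ 4 * (jb x * jb x ^ (99 / 100 : ℝ)) * (G * jb x ^ 2) := by ring
      _ ≤ 144 * cS * (1 + ‖w‖) ^ 4 * (jb x * jb x ^ (99 / 100 : ℝ))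
          * (B * iw w * (1 + ‖w‖) ^ 2 * f x ^ 2) := by gcongr
      _ = _ := by ring

lemma point (q : ℕ) (ε : ℝ) {K : ℝ} {a : E → ℝ} (f : E → ℝ) (h0 : ∀ w, 0 ≤ a w)
    (h1 : ∀ w, a w ≤ K * iw w) (hK : 0 ≤ K) (p : E × E × S2) :
    ker3 p * (ind ε ‖v1 p - p.2.1‖ (rho p) * (a p.2.1 * f (v1 p) ^ 2))
      ≤ ke ε p * a p.2.1 * rh q p * f (v1 p) ^ 2
        + ker3 p * Ph2 ε (q * K) f (rho p) p.2.1 (v1 p) := by
  have hk := ker3_nonneg p
  have ha := h0 p.2.1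
  have hi := iw_pos p.2.1
  unfold Ph2
  by_cases ht : ε ≤ |rho p| ∧ |rho p| < ‖v1 p - p.2.1‖ / 2
  · rw [ind, if_pos ht, one_mul, one_mul, ke_pos ht.1]
    have hv := jb_pos p.1
    have hA := jb_pos (v1 p)
    have h2 := one_sub_rh_le q p
    have h3 : jb (v1 p) ≤ jb p.2.1 * jb p.1 := by
      rw [← xr_mul]; exact mul_le_mul_of_nonneg_right (xr_le p) hv.le
    have hT : 0 ≤ rho p ^ 2 + 2 * |rho p| * ‖p.2.1‖ := by positivity
    generalize rho p ^ 2 + 2 * |rho p| * ‖p.2.1‖ = T at *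
    have h4 : T / jb p.1 ^ 2 ≤ jb p.2.1 ^ 2 / jb (v1 p) ^ 2 * T := by
      rw [div_mul_eq_mul_div, div_le_div_iff₀ (by positivity) (by positivity)]
      calc T * jb (v1 p) ^ 2 ≤ T * (jb p.2.1 * jb p.1) ^ 2 := by gcongr
        _ = _ := by ring
    have h5 : 1 - rh q p ≤ q * (jb p.2.1 ^ 2 / jb (v1 p) ^ 2 * T) := h2.trans (by gcongr)
    have h6 : a p.2.1 * (1 - rh q p) ≤ K * iw p.2.1 * (q * (jb p.2.1 ^ 2 / jb (v1 p) ^ 2 * T)) :=
      mul_le_mul (h1 _) h5 (sub_nonneg.2 (rh_le_one q p)) (by positivity)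
    have h7 := mul_le_mul_of_nonneg_left h6 (show 0 ≤ ker3 p * f (v1 p) ^ 2 by positivity)
    calc _ = ker3 p * a p.2.1 * rh q p * f (v1 p) ^ 2
          + ker3 p * f (v1 p) ^ 2 * (a p.2.1 * (1 - rh q p)) := by ring
      _ ≤ _ := add_le_add_right (h7.trans (le_of_eq (by ring))) _
  · rw [ind, if_neg ht, zero_mul, zero_mul, mul_zero, add_zero]
    have := ke_nonneg ε p
    have := rh_pos q p
    positivity

end M2L

open M2L

variable [Dim]

/-- row M2L -/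
theorem m2L (hP : PostStmt) : M2LStmt := by
  intro q
  obtain ⟨c, hc0, hc⟩ := tail
  have hS := cS_pos
  have hT := cT_pos
  refine ⟨(6 * cS + 8 * cT + 144 * cS * q) * c, by positivity, ?_⟩
  intro ε K a f _ ha hf h0 h1
  have hK : 0 ≤ K := nonneg_of_mul_nonneg_left ((h0 0).trans (h1 0)) (iw_pos 0)
  have hm1 : Measurable fun z : ℝ × E × E =>
      ind ε ‖z.2.2 - z.2.1‖ z.1 * (a z.2.1 * f z.2.2 ^ 2) := by fun_prop
  have hm2 : Measurable fun z : ℝ × E × E => Ph2 ε (q * K) f z.1 z.2.1 z.2.2 := by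
    unfold Ph2; fun_prop
  have P1 := hP (fun t w x => ind ε ‖x - w‖ t * (a w * f x ^ 2)) hm1
  have P2 := hP (Ph2 ε (q * K) f) hm2
  have E2' : I3 (fun p => ker3 p * Ph2 ε (q * K) f (rho p) p.2.1 (v1 p))
      ≤ ENNReal.ofReal (144 * cS * (q * K) * c) * Wn gm f := by
    rw [P2]
    exact (lintegral_mono fun x => lintegral_mono fun w => err2 ε (by positivity) f x w).trans
      (hc _ f (by positivity))
  have hm3 : Measurable fun p : E × E × S2 => ker3 p * Ph2 ε (q * K) f (rho p) p.2.1 (v1 p) :=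
    measurable_ker3.mul (hm2.comp (f := fun p : E × E × S2 => (rho p, p.2.1, v1 p)) (by fun_prop))
  have M : I3 (fun p => ker3 p * (ind ε ‖v1 p - p.2.1‖ (rho p) * (a p.2.1 * f (v1 p) ^ 2)))
      ≤ I3 (fun p => ke ε p * a p.2.1 * rh q p * f (v1 p) ^ 2)
        + ENNReal.ofReal (144 * cS * (q * K) * c) * Wn gm f :=
    (I3_mono (point q ε f h0 h1 hK)).trans ((I3_add_le hm3).trans (add_le_add_right E2' _))
  have hm4 : Measurable fun z : E × E => ENNReal.ofReal ((6 * cS + 8 * cT) * K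
      * ((1 + ‖z.2‖) ^ 6 * iw z.2) * (jb z.1 ^ gm * f z.1 ^ 2)) := by
    refine Measurable.ennreal_ofReal (Measurable.mul (by fun_prop)
      (Measurable.mul (Measurable.pow_const (by fun_prop) _) (by fun_prop)))
  have L : I3 (fun p => ke ε p * a p.2.1 * f p.1 ^ 2)
      ≤ I3 (fun p => ker3 p * (ind ε ‖v1 p - p.2.1‖ (rho p) * (a p.2.1 * f (v1 p) ^ 2)))
        + ENNReal.ofReal ((6 * cS + 8 * cT) * K * c) * Wn gm f := by
    refine le_trans ?_ (add_le_add_right (hc _ f (by positivity)) _)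
    rw [P1, I3, lintegral_mu3 _ (by fun_prop), ← lintegral_add_right _ hm4.lintegral_prod_right']
    refine lintegral_mono fun x => ?_
    have hm5 : Measurable fun w : E => ENNReal.ofReal ((6 * cS + 8 * cT) * K
        * ((1 + ‖w‖) ^ 6 * iw w) * (jb x ^ gm * f x ^ 2)) :=
      hm4.comp (f := fun w : E => (x, w)) (by fun_prop)
    simp only
    rw [← lintegral_add_right _ hm5]
    refine lintegral_mono fun w => ?_
    have haw := h0 w
    have hb : 0 ≤ a w * f x ^ 2 := by positivity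
    have e1 : ∀ o : S2, ENNReal.ofReal (ke ε (x, w, o) * a w * f x ^ 2)
        = ENNReal.ofReal (2 * ‖x - w‖ ^ 3 * ph ε ⟪x - w, (o : E)⟫)
          * ENNReal.ofReal (a w * f x ^ 2) := by
      intro o
      rw [mul_assoc, ENNReal.ofReal_mul (ke_nonneg _ _), ke_eq]; rfl
    have e2 : ∀ t : ℝ, ENNReal.ofReal (2 * (t ^ 2 + ‖x - w‖ ^ 2) ^ (3 / 2 : ℝ)
        * |t| ^ (-(101 / 100) : ℝ) * (ind ε ‖x - w‖ t * (a w * f x ^ 2)))
        = ENNReal.ofReal (2 * (t ^ 2 + ‖x - w‖ ^ 2) ^ (3 / 2 : ℝ)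
        * |t| ^ (-(101 / 100) : ℝ) * ind ε ‖x - w‖ t) * ENNReal.ofReal (a w * f x ^ 2) := by
      intro t
      rw [← mul_assoc, ENNReal.ofReal_mul' hb]
    simp only [e1, e2]
    rw [lintegral_mul_const' _ _ ENNReal.ofReal_ne_top,
      lintegral_mul_const' _ _ ENNReal.ofReal_ne_top, ← mul_assoc]
    refine (mul_le_mul_left (k0_le ε (x - w)) _).trans ?_
    rw [add_mul, km, ← ENNReal.ofReal_mul' hb]
    refine add_le_add_right (ENNReal.ofReal_le_ofReal ?_) _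
    have h2 := rpow_norm_le x w (s := gm) (n := 6) (by norm_num [gm]) (by norm_num [gm])
    have h3 := h1 w
    have h4 := jb_pos x
    calc (6 * cS + 8 * cT) * ‖x - w‖ ^ gm * (a w * f x ^ 2)
        ≤ (6 * cS + 8 * cT) * (jb x ^ gm * (1 + ‖w‖) ^ 6) * (K * iw w * f x ^ 2) := by gcongr
      _ = _ := by ring
  refine L.trans ((add_le_add_left M _).trans (le_of_eq ?_))
  rw [add_assoc, ← add_mul, ← ENNReal.ofReal_add (by positivity) (by positivity)]
  congr 3; ring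

end Pool.Agent.BoltzM.HC
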