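import Pool.Agent.BoltzM.HC.Basic
import Mathlib.Analysis.SpecialFunctions.JapaneseBracket

/-! Row M2R: the cancellation estimate without truncation. -/

set_option autoImplicit false

open MeasureTheory Set Filter Topology
open scoped ENNReal RealInnerProductSpace

noncomputable section

namespace Pool.Agent.BoltzM.HC

open Coll

variable [Dim]

namespace M2R

lemma dec_fin : ∫⁻ w : E, ENNReal.ofReal (((1 + ‖w‖) ^ (dd + 1))⁻¹) ≠ ⊤ := by
  have h := finite_integral_one_add_norm (E := E) (μ := volume) (r := ((dd + 1 : ℕ) : ℝ))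
    (by rw [finrank_Ix]; push_cast; linarith)
  refine ne_of_lt (lt_of_eq_of_lt (lintegral_congr fun w => ?_) h)
  rw [Real.rpow_neg (by positivity), Real.rpow_natCast]

lemma sq_iw_le (w : E) : (1 + ‖w‖) ^ 2 * iw w ≤ ((1 + ‖w‖) ^ (dd + 1))⁻¹ :=
  pow_mul_iw_le (by unfold pK; omega) w

lemma iw_le_one (w : E) : iw w ≤ 1 := inv_le_one_of_one_le₀ (one_le_wt w pK)

lemma Wn_iw : Wn 2 iw ≠ ⊤ := by
  refine ne_top_of_le_ne_top dec_fin (lintegral_mono fun v => ENNReal.ofReal_le_ofReal ?_)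
  have h0 := iw_pos v
  have h1 := jb_pos v
  rw [Real.rpow_two]
  calc jb v ^ 2 * iw v ^ 2 = jb v ^ 2 * iw v * iw v := by ring
    _ ≤ (1 + ‖v‖) ^ 2 * iw v * 1 := by gcongr; exacts [jb_le v, iw_le_one v]
    _ ≤ _ := by rw [mul_one]; exact sq_iw_le v

/-- the mass of the truncated kernel against the partner -/
lemma mass (hA : AngStmt) {g : E → ℝ} (hg : Measurable g) (hW : Wn 2 g ≠ ⊤) :
    I3 (fun p => kx p * iw p.2.1 * g p.1 ^ 2) ≠ ⊤ := by
  obtain ⟨A, hA0, hA⟩ := hA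
  set D := (∫⁻ w : E, ENNReal.ofReal (((1 + ‖w‖) ^ (dd + 1))⁻¹)).toReal with hD
  have hD0 : 0 ≤ D := ENNReal.toReal_nonneg
  refine ne_top_of_le_ne_top (ENNReal.mul_ne_top ENNReal.ofReal_ne_top hW)
    (I3_fst (k := fun p => kx p * iw p.2.1) (C := A * D) (by fun_prop)
      (fun p => mul_nonneg (kx_nonneg p) (iw_pos _).le) (by positivity) (fun v => ?_) hg)
  have hj := jb_pos v
  rw [lintegral_mu2 _ (by fun_prop)]
  calc ∫⁻ w, ∫⁻ o, ENNReal.ofReal (kx (v, w, o) * iw w) ∂sph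
      ≤ ∫⁻ w : E, ENNReal.ofReal (A * jb v ^ 2) * ENNReal.ofReal (((1 + ‖w‖) ^ (dd + 1))⁻¹) := by
        refine lintegral_mono fun w => ?_
        have hw := iw_pos w
        simp only [ENNReal.ofReal_mul (kx_nonneg _)]
        rw [lintegral_mul_const _ (by fun_prop)]
        refine (mul_le_mul_left (hA v w) _).trans ?_
        rw [← ENNReal.ofReal_mul (by positivity), ← ENNReal.ofReal_mul (by positivity)]
        refine ENNReal.ofReal_le_ofReal ?_
        calc A * ‖v - w‖ ^ 2 * iw w ≤ A * (jb v * (1 + ‖w‖)) ^ 2 * iw w := by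
              gcongr; exact norm_sub_le_jb v w
          _ = A * jb v ^ 2 * ((1 + ‖w‖) ^ 2 * iw w) := by ring
          _ ≤ _ := by gcongr; exact sq_iw_le w
    _ = ENNReal.ofReal (A * jb v ^ 2) * ENNReal.ofReal D := by
        rw [lintegral_const_mul' _ _ ENNReal.ofReal_ne_top, hD, ENNReal.ofReal_toReal dec_fin]
    _ = _ := by
        rw [← ENNReal.ofReal_mul (by positivity), Real.rpow_two]; congr 1; ring

lemma one_sub_rh (q : ℕ) (p : E × E × S2) : 1 - rh q p ≤ q * |rho p| := by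
  have hx := xr_pos p
  rcases le_total 1 (xr p) with h1 | h1
  · rw [rh, min_eq_right (one_le_pow₀ h1), sub_self]; positivity
  · rw [rh, min_eq_left (pow_le_one₀ hx.le h1)]
    have h2 := one_add_mul_le_pow (a := xr p - 1) (by linarith) q
    rw [add_sub_cancel] at h2
    have h3 : 1 - xr p ≤ |rho p| := by
      have h4 := (neg_le_abs _).trans (abs_xr_sub_one p)
      have h5 : |rho p| / jb p.1 ≤ |rho p| := div_le_self (abs_nonneg _) (one_le_jb _)
      linarith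
    have h7 := mul_le_mul_of_nonneg_left h3 (Nat.cast_nonneg (α := ℝ) q)
    linarith

/-- the increment for short jumps -/
lemma near {K : ℝ} {f : E → ℝ} (hf : Nice pK K f) (q : ℕ) {p : E × E × S2} (h : |rho p| ≤ 1) :
    |rh q p * f (v1 p) ^ 2 - f p.1 ^ 2| ≤ (3 + q) * K ^ 2 * |rho p| * iw p.1 ^ 2 := by
  have hK := hf.nonneg
  have hi := iw_pos p.1
  have ht := abs_nonneg (rho p)
  have h1 := abs_le_iw hf p.1
  have h2 : |f (v1 p) - f p.1| ≤ K * |rho p| * iw p.1 := by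
    have := hf.lip' p.1 (v1 p) ((norm_v1_sub p).le.trans h)
    rw [norm_v1_sub] at this
    rw [iw, ← div_eq_mul_inv, le_div_iff₀ (wt_pos _ _), mul_comm]
    exact this
  have h3 : |f (v1 p) + f p.1| ≤ 3 * (K * iw p.1) := by
    have e : f (v1 p) + f p.1 = (f (v1 p) - f p.1) + 2 * f p.1 := by ring
    have h4 := abs_add_le (f (v1 p) - f p.1) (2 * f p.1)
    rw [abs_mul, abs_two] at h4
    have h5 : K * |rho p| * iw p.1 ≤ K * 1 * iw p.1 := by gcongr
    rw [e]; linarith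
  have h6 : f p.1 ^ 2 ≤ (K * iw p.1) ^ 2 := by
    rw [← sq_abs]; gcongr
  have hr0 := (rh_pos q p).le
  have hr1 := sub_nonneg.2 (rh_le_one q p)
  have e : rh q p * f (v1 p) ^ 2 - f p.1 ^ 2
      = rh q p * ((f (v1 p) - f p.1) * (f (v1 p) + f p.1)) - (1 - rh q p) * f p.1 ^ 2 := by ring
  rw [e]
  refine (abs_sub _ _).trans ?_
  rw [abs_mul, abs_mul, abs_mul, abs_of_nonneg hr0, abs_of_nonneg hr1,
    abs_of_nonneg (sq_nonneg (f p.1))]
  calc rh q p * (|f (v1 p) - f p.1| * |f (v1 p) + f p.1|) + (1 - rh q p) * f p.1 ^ 2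
      ≤ 1 * (K * |rho p| * iw p.1 * (3 * (K * iw p.1))) + q * |rho p| * (K * iw p.1) ^ 2 := by
        gcongr
        exacts [rh_le_one q p, one_sub_rh q p]
    _ = _ := by ring

lemma int_I3 {F : E × E × S2 → ℝ} (hF : Measurable F) (h0 : ∀ p, 0 ≤ F p) (h : I3 F ≠ ⊤) :
    Integrable F mu3 ∧ ∫ p, F p ∂mu3 = (I3 F).toReal :=
  ⟨integrable_of_I3 hF (by simpa only [abs_of_nonneg (h0 _)] using h),
    integral_eq_lintegral_of_nonneg_ae (Eventually.of_forall h0) hF.aestronglyMeasurable⟩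

omit [Dim] in
lemma real_le {X Y W : ℝ≥0∞} {c : ℝ} (hc : 0 ≤ c) (hX : X ≠ ⊤) (hW : W ≠ ⊤)
    (h : Y ≤ X + ENNReal.ofReal c * W) : Y ≠ ⊤ ∧ Y.toReal ≤ X.toReal + c * W.toReal := by
  have h1 : ENNReal.ofReal c * W ≠ ⊤ := ENNReal.mul_ne_top ENNReal.ofReal_ne_top hW
  have h2 : X + ENNReal.ofReal c * W ≠ ⊤ := ENNReal.add_ne_top.2 ⟨hX, h1⟩
  refine ⟨ne_top_of_le_ne_top h2 h, (ENNReal.toReal_mono h2 h).trans ?_⟩
  rw [ENNReal.toReal_add hX h1, ENNReal.toReal_mul, ENNReal.toReal_ofReal hc]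

lemma ke_tendsto (p : E × E × S2) :
    Tendsto (fun n : ℕ => ke (1 / ((n : ℝ) + 1)) p) atTop (𝓝 (ker3 p)) := by
  refine tendsto_const_nhds.congr' ?_
  rcases eq_or_lt_of_le (abs_nonneg (rho p)) with h | h
  · have h0 : ker3 p = 0 := by
      rw [ker3_eq, ← h, Real.zero_rpow (by norm_num), mul_zero]
    exact Eventually.of_forall fun n =>
      le_antisymm (h0.le.trans (ke_nonneg _ p)) (kS_le _ p)
  · filter_upwards [(tendsto_one_div_add_atTop_nhds_zero_nat (𝕜 := ℝ)).eventually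
      (ge_mem_nhds h)] with n hn
    exact (ke_pos hn).symm

end M2R

open M2R in
theorem m2R (hA : AngStmt) (hFin : FinStmt) (hU : M2UStmt) (hL : M2LStmt) : M2RStmt := by
  obtain ⟨C0, hC0, hU⟩ := hU
  refine ⟨C0, hC0, fun q hq => ?_⟩
  obtain ⟨C, hC, hL⟩ := hL q
  refine ⟨C, hC, fun K a f ha hf ha0 haK => ?_⟩
  have hfm := hf.measurable
  have hK : 0 ≤ K := nonneg_of_mul_nonneg_left ((ha0 0).trans (haK 0)) (iw_pos 0)
  have hWg := hFin.2.1 gm f hf
  have hX0 : ∀ ε p, 0 ≤ ke ε p * a p.2.1 * f p.1 ^ 2 := fun ε p =>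
    mul_nonneg (mul_nonneg (ke_nonneg ε p) (ha0 _)) (sq_nonneg _)
  have hY0 : ∀ ε p, 0 ≤ ke ε p * a p.2.1 * rh q p * f (v1 p) ^ 2 := fun ε p =>
    mul_nonneg (mul_nonneg (mul_nonneg (ke_nonneg ε p) (ha0 _)) (rh_pos q p).le) (sq_nonneg _)
  have hXm : ∀ ε, Measurable fun p : E × E × S2 => ke ε p * a p.2.1 * f p.1 ^ 2 := fun ε => by
    fun_prop
  have hYm : ∀ ε, Measurable fun p : E × E × S2 => ke ε p * a p.2.1 * rh q p * f (v1 p) ^ 2 :=
    fun ε => by fun_prop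
  have hX : ∀ ε, 0 < ε → ε ≤ 1 → I3 (fun p => ke ε p * a p.2.1 * f p.1 ^ 2) ≠ ⊤ := by
    intro ε h0 h1
    have h2 := mass hA hfm (hFin.2.1 2 f hf)
    have h3 : 0 ≤ ε⁻¹ * K := by positivity
    refine ne_top_of_le_ne_top (ENNReal.mul_ne_top (ENNReal.ofReal_ne_top (r := ε⁻¹ * K)) h2) ?_
    rw [← I3_const_mul h3]
    refine I3_mono fun p => ?_
    have h4 := kx_nonneg p
    calc ke ε p * a p.2.1 * f p.1 ^ 2 ≤ ε⁻¹ * kx p * (K * iw p.2.1) * f p.1 ^ 2 := by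
          gcongr
          exacts [ha0 _, ke_le_kx h0 h1 p, haK _]
      _ = _ := by ring
  have hY := fun ε (h0 : 0 < ε) (h1 : ε ≤ 1) =>
    real_le (mul_nonneg hC0.le hK) (hX ε h0 h1) hWg (hU q ε K a f hq h0 ha hfm ha0 haK)
  have hZ := fun ε (h0 : 0 < ε) (h1 : ε ≤ 1) =>
    real_le (mul_nonneg hC.le hK) (hY ε h0 h1).1 hWg (hL ε K a f h0 ha hfm ha0 haK)
  have hcm : Measurable (cI q a f) := by unfold cI; fun_prop
  have hint : Integrable (cI q a f) mu3 := by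
    obtain ⟨K1, hK1⟩ := hf pK
    have hc : 0 ≤ K * ((3 + q) * K1 ^ 2) := by positivity
    have i1 := (int_I3 (F := fun p => kx p * iw p.2.1 * iw p.1 ^ 2) (by fun_prop)
      (fun p => mul_nonneg (mul_nonneg (kx_nonneg p) (iw_pos _).le) (sq_nonneg _))
      (mass hA measurable_iw Wn_iw)).1.const_mul (K * ((3 + q) * K1 ^ 2))
    have i2 := (int_I3 (hXm 1) (hX0 1) (hX 1 one_pos le_rfl)).1
    have i3 := (int_I3 (hYm 1) (hY0 1) (hY 1 one_pos le_rfl).1).1
    refine (i1.add (i3.add i2)).mono' hcm.aestronglyMeasurable (Eventually.of_forall fun p => ?_)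
    have hk := ker3_nonneg p
    have hap := ha0 p.2.1
    have hi := iw_pos p.2.1
    rw [Real.norm_eq_abs, cI, abs_mul, abs_of_nonneg (mul_nonneg hk hap)]
    simp only [Pi.add_apply]
    rcases le_total |rho p| 1 with h | h
    · have h1 : ker3 p * a p.2.1 * |rh q p * f (v1 p) ^ 2 - f p.1 ^ 2|
          ≤ ker3 p * (K * iw p.2.1) * ((3 + q) * K1 ^ 2 * |rho p| * iw p.1 ^ 2) := by
        gcongr
        exacts [haK _, near hK1 q h]
      rw [kx, min_eq_right h]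
      nlinarith [hX0 1 p, hY0 1 p]
    · have h1 : 0 ≤ K * ((3 + q) * K1 ^ 2) * (kx p * iw p.2.1 * iw p.1 ^ 2) :=
        mul_nonneg hc (mul_nonneg (mul_nonneg (kx_nonneg p) hi.le) (sq_nonneg _))
      have h2 := abs_sub (rh q p * f (v1 p) ^ 2) (f p.1 ^ 2)
      rw [abs_of_nonneg (mul_nonneg (rh_pos q p).le (sq_nonneg _)),
        abs_of_nonneg (sq_nonneg (f p.1))] at h2
      have h3 := mul_le_mul_of_nonneg_left h2 (mul_nonneg hk hap)
      rw [ke_pos h]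
      nlinarith
  have hε0 : ∀ n : ℕ, (0 : ℝ) < 1 / ((n : ℝ) + 1) := fun n => by positivity
  have hε1 : ∀ n : ℕ, 1 / ((n : ℝ) + 1) ≤ 1 := fun n => by
    rw [div_le_one (by positivity)]; linarith [Nat.cast_nonneg (α := ℝ) n]
  have hlim : Tendsto (fun n : ℕ => ∫ p, ke (1 / ((n : ℝ) + 1)) p * a p.2.1
      * (rh q p * f (v1 p) ^ 2 - f p.1 ^ 2) ∂mu3) atTop (𝓝 (∫ p, cI q a f p ∂mu3)) := by
    refine tendsto_integral_of_dominated_convergence (fun p => ‖cI q a f p‖)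
      (fun n => Measurable.aestronglyMeasurable (by fun_prop)) hint.norm
      (fun n => Eventually.of_forall fun p => ?_) (Eventually.of_forall fun p => ?_)
    · have hap := ha0 p.2.1
      rw [cI, Real.norm_eq_abs, Real.norm_eq_abs, abs_mul, abs_mul (ker3 p * a p.2.1),
        abs_of_nonneg (mul_nonneg (ke_nonneg _ p) hap),
        abs_of_nonneg (mul_nonneg (ker3_nonneg p) hap)]
      gcongr
      exact kS_le _ p
    · exact ((ke_tendsto p).mul_const _).mul_const _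
  have hval : ∀ n : ℕ, ∫ p, ke (1 / ((n : ℝ) + 1)) p * a p.2.1
      * (rh q p * f (v1 p) ^ 2 - f p.1 ^ 2) ∂mu3
      = (I3 fun p => ke (1 / ((n : ℝ) + 1)) p * a p.2.1 * rh q p * f (v1 p) ^ 2).toReal
        - (I3 fun p => ke (1 / ((n : ℝ) + 1)) p * a p.2.1 * f p.1 ^ 2).toReal := by
    intro n
    obtain ⟨i2, e2⟩ := int_I3 (hXm _) (hX0 _) (hX _ (hε0 n) (hε1 n))
    obtain ⟨i3, e3⟩ := int_I3 (hYm _) (hY0 _) (hY _ (hε0 n) (hε1 n)).1
    rw [← e2, ← e3, ← integral_sub i3 i2]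
    exact integral_congr_ae (Eventually.of_forall fun p => by ring)
  refine ⟨hint, le_of_tendsto' hlim fun n => ?_, ge_of_tendsto' hlim fun n => ?_⟩
  · rw [hval, wn]; linarith [(hY _ (hε0 n) (hε1 n)).2]
  · rw [hval, wn]; linarith [(hZ _ (hε0 n) (hε1 n)).2]

end Pool.Agent.BoltzM.HC
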