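import Pool.Agent.BoltzM.HC.Basic

/-! Row M2U: the upper side of the cancellation estimate, with a constant free of the weight. -/

set_option autoImplicit false

open MeasureTheory Set Filter Topology
open scoped ENNReal RealInnerProductSpace

noncomputable section

namespace Pool.Agent.BoltzM.HC

open Coll

variable [Dim]

namespace M2U

lemma le_dens_near {x : ℝ} (h : x ^ 2 ≤ 1 / 2) : 1 ≤ dens x + dd * x ^ 2 := by
  have hp : 0 < 1 - x ^ 2 := by linarith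
  have h2 : (0 : ℝ) ≤ dd := Nat.cast_nonneg _
  have h3 := one_add_mul_le_pow (a := -x ^ 2) (by linarith) dd
  have h4 : (1 - x ^ 2) ^ ((dd : ℕ) : ℝ) ≤ dens x :=
    Real.rpow_le_rpow_of_exponent_ge hp (by nlinarith [sq_nonneg x]) (by linarith)
  rw [Real.rpow_natCast] at h4
  rw [← sub_eq_add_neg] at h3
  linarith

omit [Dim] in
lemma cube_le {r R t : ℝ} (hr : 0 ≤ r) (h1 : r ≤ R) (h2 : |t| ≤ R) :
    (t ^ 2 + r ^ 2) ^ (3 / 2 : ℝ) ≤ r ^ 3 + 3 * R * t ^ 2 := by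
  obtain ⟨s, hs0, hs⟩ : ∃ s : ℝ, 0 ≤ s ∧ s ^ 2 = t ^ 2 + r ^ 2 :=
    ⟨√(t ^ 2 + r ^ 2), Real.sqrt_nonneg _, Real.sq_sqrt (by positivity)⟩
  have e : (t ^ 2 + r ^ 2) ^ (3 / 2 : ℝ) = s ^ 3 := by
    rw [← hs, ← Real.rpow_natCast, ← Real.rpow_mul hs0, ← Real.rpow_natCast]; norm_num
  have h3 : r ≤ s := (abs_le_of_sq_le_sq' (by nlinarith [sq_nonneg t]) hs0).2
  have h4 : s ≤ 2 * R :=
    (abs_le_of_sq_le_sq' (by nlinarith [sq_abs t, abs_nonneg t]) (by linarith)).2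
  have h5 : t ^ 2 = (s - r) * (s + r) := by linarith
  have h6 : s ^ 2 + s * r + r ^ 2 ≤ 3 * R * (s + r) := by nlinarith
  rw [e, h5]
  nlinarith [mul_le_mul_of_nonneg_left h6 (sub_nonneg.2 h3)]

lemma ind_nonneg {r : ℝ} (hr : 0 < r) (t : ℝ) :
    0 ≤ (Ioo (-r) r).indicator (fun t => dens (t / r)) t := by
  refine indicator_nonneg (fun s hs => dens_nonneg ?_) t
  rw [div_pow, div_le_one (by positivity)]
  nlinarith [hs.1, hs.2]

lemma kern_le {r R t : ℝ} (hr : 0 < r) (h1 : r ≤ R) (h2 : |t| ≤ R) :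
    (t ^ 2 + r ^ 2) ^ (3 / 2 : ℝ)
      ≤ (Ioo (-r) r).indicator (fun t => dens (t / r)) t * r ^ 3 + (dd + 7) * (R * t ^ 2) := by
  have h3 := cube_le hr.le h1 h2
  have h4 : r * t ^ 2 ≤ R * t ^ 2 := mul_le_mul_of_nonneg_right h1 (sq_nonneg t)
  have h5 : 0 ≤ r * t ^ 2 := by positivity
  have hd : (0 : ℝ) ≤ dd := Nat.cast_nonneg _
  rcases lt_or_ge |t| (r / 2) with h | h
  · have h6 := abs_lt.1 h
    rw [indicator_of_mem (show t ∈ Ioo (-r) r from ⟨by linarith [h6.1], by linarith [h6.2]⟩)]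
    have h7 : (t / r) ^ 2 ≤ 1 / 2 := by
      rw [div_pow, div_le_iff₀ (by positivity)]
      nlinarith [h6.1, h6.2]
    have h8 := mul_le_mul_of_nonneg_right (le_dens_near h7) (pow_pos hr 3).le
    have h9 : (dens (t / r) + dd * (t / r) ^ 2) * r ^ 3
        = dens (t / r) * r ^ 3 + dd * (r * t ^ 2) := by field_simp
    have h10 := mul_le_mul_of_nonneg_left h4 hd
    nlinarith
  · have h6 := mul_nonneg (ind_nonneg hr t) (pow_pos hr 3).le
    have h7 : r ^ 2 ≤ 4 * t ^ 2 := by nlinarith [sq_abs t]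
    have h8 := mul_le_mul_of_nonneg_left h7 hr.le
    have h10 := mul_nonneg hd (h5.trans h4)
    nlinarith

omit [Dim] in
lemma sq_mul_le {R t : ℝ} (h : |t| ≤ R) :
    t ^ 2 * |t| ^ (-(101 / 100) : ℝ) ≤ R ^ (99 / 100 : ℝ) := by
  have h1 : t ^ 2 * |t| ^ (-(101 / 100) : ℝ) = |t| ^ (99 / 100 : ℝ) := by
    rw [← sq_abs, ← Real.rpow_natCast, ← Real.rpow_add' (abs_nonneg t) (by norm_num)]; norm_num
  rw [h1]
  exact Real.rpow_le_rpow (abs_nonneg t) h (by norm_num)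

/-- the truncated kernel as a function of the distance and the jump length -/
def ph (ε r t : ℝ) : ℝ := if ε ≤ |t| then 2 * r ^ 3 * |t| ^ (-(101 / 100) : ℝ) else 0

omit [Dim] in
lemma measurable_ph (ε r : ℝ) : Measurable (ph ε r) :=
  Measurable.ite (measurableSet_le measurable_const (by fun_prop))
    (Measurable.mul measurable_const (Measurable.pow_const (by fun_prop) _)) measurable_const

lemma ke_eq (ε : ℝ) (p : E × E × S2) : ke ε p = ph ε ‖p.1 - p.2.1‖ (rho p) := by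
  rcases le_or_gt ε |rho p| with h | h
  · rw [ke_pos h, ph, if_pos h, ker3_eq']
  · rw [ke_neg h, ph, if_neg (not_le.2 h)]

lemma point_le (ε : ℝ) {r R c : ℝ} (hr : 0 < r) (hR : r ≤ R) (hc : 0 ≤ c) (t : ℝ) :
    ENNReal.ofReal (2 * (t ^ 2 + r ^ 2) ^ (3 / 2 : ℝ) * |t| ^ (-(101 / 100) : ℝ)
        * if ε ≤ |t| ∧ |t| < R then c else 0)
      ≤ (Ioo (-r) r).indicator
          (fun t => ENNReal.ofReal (dens (t / r)) * ENNReal.ofReal (ph ε r t * c)) t
        + (Ioo (-R) R).indicator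
          (fun _ => ENNReal.ofReal (2 * (dd + 7) * R * R ^ (99 / 100 : ℝ) * c)) t := by
  by_cases h : ε ≤ |t| ∧ |t| < R
  swap
  · rw [if_neg h, mul_zero, ENNReal.ofReal_zero]; exact zero_le
  have h0 : 0 ≤ R := hr.le.trans hR
  have h1 : (Ioo (-r) r).indicator
      (fun t => ENNReal.ofReal (dens (t / r)) * ENNReal.ofReal (ph ε r t * c)) t
      = ENNReal.ofReal ((Ioo (-r) r).indicator (fun t => dens (t / r)) t * (ph ε r t * c)) := by
    rw [ENNReal.ofReal_mul (ind_nonneg hr t)]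
    by_cases ht : t ∈ Ioo (-r) r
    · rw [indicator_of_mem ht, indicator_of_mem ht]
    · rw [indicator_of_notMem ht, indicator_of_notMem ht, ENNReal.ofReal_zero, zero_mul]
  have h2 : 0 ≤ |t| ^ (-(101 / 100) : ℝ) := by positivity
  have h3 := ind_nonneg hr t
  rw [if_pos h, h1, indicator_of_mem (show t ∈ Ioo (-R) R from abs_lt.1 h.2), ph, if_pos h.1,
    ← ENNReal.ofReal_add (by positivity) (by positivity)]
  refine ENNReal.ofReal_le_ofReal ?_
  have h4 := mul_le_mul_of_nonneg_right (kern_le hr hR h.2.le) (mul_nonneg h2 hc)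
  have h5 := mul_le_mul_of_nonneg_left (sq_mul_le h.2.le)
    (show 0 ≤ 2 * ((dd : ℝ) + 7) * R * c by positivity)
  linarith

lemma inner_le (ε : ℝ) (u : E) {R c : ℝ} (hR : ‖u‖ ≤ R) (hc : 0 ≤ c) :
    ENNReal.ofReal (cS / ‖u‖) * ∫⁻ t : ℝ, ENNReal.ofReal
        (2 * (t ^ 2 + ‖u‖ ^ 2) ^ (3 / 2 : ℝ) * |t| ^ (-(101 / 100) : ℝ)
          * if ε ≤ |t| ∧ |t| < R then c else 0)
      ≤ ∫⁻ o, ENNReal.ofReal (ph ε ‖u‖ ⟪u, (o : E)⟫ * c) ∂sph
        + ENNReal.ofReal (cS / ‖u‖ * (2 * (dd + 7) * R * R ^ (99 / 100 : ℝ) * c * (2 * R))) := by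
  by_cases hu : u = 0
  · subst hu; simp
  have hr : 0 < ‖u‖ := norm_pos_iff.2 hu
  have h0 : 0 ≤ R := hr.le.trans hR
  have hS := cS_pos
  rw [archimedes_vec u hu (fun t => ENNReal.ofReal (ph ε ‖u‖ t * c))
      ((measurable_ph ε _).mul_const c).ennreal_ofReal,
    ENNReal.ofReal_mul (by positivity), ← mul_add]
  refine mul_le_mul_right ((lintegral_mono (point_le ε hr hR hc)).trans (le_of_eq ?_)) _
  rw [lintegral_add_right _ (measurable_const.indicator measurableSet_Ioo),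
    lintegral_indicator measurableSet_Ioo, lintegral_indicator measurableSet_Ioo,
    setLIntegral_const, Real.volume_Ioo, ← ENNReal.ofReal_mul (by positivity), sub_neg_eq_add,
    two_mul R]

lemma err_le {K c : ℝ} (hK : 0 ≤ K) (hc : 0 ≤ c) (x w : E) {b : ℝ} (hb0 : 0 ≤ b)
    (hb : b ≤ K * iw w) :
    cS / ‖x - w‖ * (2 * (dd + 7) * (jb x * (1 + ‖w‖)) * (jb x * (1 + ‖w‖)) ^ (99 / 100 : ℝ)
        * (b * c) * (2 * (jb x * (1 + ‖w‖))))
      ≤ 4 * (dd + 7) * cS * K * (jb x ^ gm * c) * jb x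
        * (((1 + ‖w‖) ^ (dd + 2))⁻¹ / ‖x - w‖) := by
  have hS := cS_pos
  have hA := jb_pos x
  have hi := iw_pos w
  have hW : (1 : ℝ) ≤ 1 + ‖w‖ := by linarith [norm_nonneg w]
  have h1 : jb x ^ gm = jb x ^ (99 / 100 : ℝ) * jb x := by
    rw [← Real.rpow_add_one hA.ne', gm]; norm_num
  have h2 : (1 + ‖w‖) ^ (99 / 100 : ℝ) ≤ 1 + ‖w‖ :=
    Real.rpow_le_self_of_one_le hW (by norm_num)
  have h3 := pow_mul_iw_le (n := 3) (m := dd + 2) (by unfold pK; omega) w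
  rw [Real.mul_rpow hA.le (by positivity), h1]
  calc _ ≤ cS / ‖x - w‖ * (2 * (dd + 7) * (jb x * (1 + ‖w‖))
        * (jb x ^ (99 / 100 : ℝ) * (1 + ‖w‖)) * (K * iw w * c) * (2 * (jb x * (1 + ‖w‖)))) := by
        gcongr
    _ = 4 * (dd + 7) * cS * K * (jb x ^ (99 / 100 : ℝ) * jb x * c) * jb x
        * ((1 + ‖w‖) ^ 3 * iw w / ‖x - w‖) := by ring
    _ ≤ _ := by gcongr

/-- the part of the integrand with jumps shorter than the product of the weights -/
def Ph (ε : ℝ) (a f : E → ℝ) (t : ℝ) (w x : E) : ℝ :=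
  if ε ≤ |t| ∧ |t| < jb x * (1 + ‖w‖) then a w * f x ^ 2 else 0

lemma measurable_Ph (ε : ℝ) {a f : E → ℝ} (ha : Measurable a) (hf : Measurable f) :
    Measurable fun z : ℝ × E × E => Ph ε a f z.1 z.2.1 z.2.2 :=
  Measurable.ite ((measurableSet_le (f := fun _ => ε) (g := fun z : ℝ × E × E => |z.1|)
    measurable_const (by fun_prop)).inter (measurableSet_lt (f := fun z : ℝ × E × E => |z.1|)
      (g := fun z => jb z.2.2 * (1 + ‖z.2.1‖)) (by fun_prop) (by fun_prop)))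
    (by fun_prop) measurable_const

lemma main (hP : PostStmt) {C : ℝ} (hC0 : 0 < C) (hC : ∀ x : E,
      ∫⁻ w : E, ENNReal.ofReal (((1 + ‖w‖) ^ (dd + 2))⁻¹ / ‖x - w‖) ≤ ENNReal.ofReal (C / jb x))
    (ε : ℝ) {K : ℝ} (hK : 0 ≤ K) {a f : E → ℝ} (ha : Measurable a) (hf : Measurable f)
    (h0 : ∀ w, 0 ≤ a w) (h1 : ∀ w, a w ≤ K * iw w) :
    I3 (fun p => ker3 p * Ph ε a f (rho p) p.2.1 (v1 p))
      ≤ I3 (fun p => ke ε p * a p.2.1 * f p.1 ^ 2)
        + ENNReal.ofReal (4 * (dd + 7) * cS * C * K) * Wn gm f := by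
  have hS := cS_pos
  have hm : Measurable fun p : E × E × S2 => ENNReal.ofReal (ke ε p * a p.2.1 * f p.1 ^ 2) := by
    fun_prop
  have hm2 : Measurable fun v : E => ENNReal.ofReal (jb v ^ gm * f v ^ 2) :=
    (Measurable.mul (measurable_jb.pow_const _) (by fun_prop)).ennreal_ofReal
  rw [hP _ (measurable_Ph ε ha hf), I3, lintegral_mu3 _ hm, Wn, ← lintegral_const_mul _ hm2,
    ← lintegral_add_right _ (hm2.const_mul _)]
  refine lintegral_mono fun x => ?_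
  have hA := jb_pos x
  have hm3 : Measurable fun w : E => ENNReal.ofReal (((1 + ‖w‖) ^ (dd + 2))⁻¹ / ‖x - w‖) := by
    fun_prop
  calc _ ≤ ∫⁻ w : E, (∫⁻ o, ENNReal.ofReal (ke ε (x, w, o) * a w * f x ^ 2) ∂sph
        + ENNReal.ofReal (4 * (dd + 7) * cS * K * (jb x ^ gm * f x ^ 2) * jb x)
          * ENNReal.ofReal (((1 + ‖w‖) ^ (dd + 2))⁻¹ / ‖x - w‖)) := by
        refine lintegral_mono fun w => ?_
        refine (inner_le ε (x - w) (norm_sub_le_jb x w)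
          (mul_nonneg (h0 w) (sq_nonneg (f x)))).trans (add_le_add (le_of_eq ?_) ?_)
        · simp only [ke_eq, rho, mul_assoc]
        · rw [← ENNReal.ofReal_mul (by positivity)]
          exact ENNReal.ofReal_le_ofReal (err_le hK (sq_nonneg _) x w (h0 w) (h1 w))
    _ ≤ _ := by
        rw [lintegral_add_right _ (hm3.const_mul _), lintegral_const_mul _ hm3]
        refine add_le_add le_rfl ((mul_le_mul_right (hC x) _).trans (le_of_eq ?_))
        rw [← ENNReal.ofReal_mul (by positivity), ← ENNReal.ofReal_mul (by positivity)]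
        congr 1
        field_simp

lemma split {q : ℕ} (hq : 4 ≤ q) (ε : ℝ) {K : ℝ} (hK : 0 ≤ K) {a : E → ℝ} (f : E → ℝ)
    (h0 : ∀ w, 0 ≤ a w) (h1 : ∀ w, a w ≤ K * iw w) (p : E × E × S2) :
    ke ε p * a p.2.1 * rh q p * f (v1 p) ^ 2 ≤ ker3 p * Ph ε a f (rho p) p.2.1 (v1 p)
      + K * (kS (fun p => jb (v1 p) ≤ 25 * (1 + ‖p.2.1‖) ^ 3 * |rho p|) p * iw p.2.1
        * min (xr p) 1 ^ 4 * f (v1 p) ^ 2) := by
  have hk := ker3_nonneg p
  have ha := h0 p.2.1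
  have hi := iw_pos p.2.1
  have hr := rh_pos q p
  by_cases h : jb (v1 p) ≤ 25 * (1 + ‖p.2.1‖) ^ 3 * |rho p|
  · rw [kS_pos (S := fun p => jb (v1 p) ≤ 25 * (1 + ‖p.2.1‖) ^ 3 * |rho p|) h]
    have h2 : 0 ≤ Ph ε a f (rho p) p.2.1 (v1 p) := by
      unfold Ph; split_ifs
      · positivity
      · exact le_rfl
    have h3 : ke ε p * a p.2.1 * rh q p * f (v1 p) ^ 2
        ≤ ker3 p * (K * iw p.2.1) * min (xr p) 1 ^ 4 * f (v1 p) ^ 2 := by
      have h4 : ke ε p ≤ ker3 p := kS_le _ p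
      have h5 := h1 p.2.1
      have h6 := rh_le_four hq p
      gcongr
    linarith [mul_nonneg hk h2]
  · rw [kS_neg (S := fun p => jb (v1 p) ≤ 25 * (1 + ‖p.2.1‖) ^ 3 * |rho p|) h, zero_mul, zero_mul,
      zero_mul, mul_zero, add_zero]
    have hW : (1 : ℝ) ≤ 1 + ‖p.2.1‖ := by linarith [norm_nonneg p.2.1]
    have h2 : |rho p| < jb (v1 p) * (1 + ‖p.2.1‖) := by
      have h3 := mul_le_mul_of_nonneg_right (one_le_pow₀ hW (n := 3)) (abs_nonneg (rho p))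
      have h4 := mul_le_mul_of_nonneg_left hW (jb_pos (v1 p)).le
      linarith [not_le.1 h, abs_nonneg (rho p)]
    rcases le_or_gt ε |rho p| with h3 | h3
    · rw [ke_pos h3, Ph, if_pos ⟨h3, h2⟩]
      have h4 := mul_le_mul_of_nonneg_left (rh_le_one q p)
        (show 0 ≤ ker3 p * (a p.2.1 * f (v1 p) ^ 2) by positivity)
      linarith
    · rw [ke_neg h3, Ph, if_neg fun h4 => absurd h4.1 (not_le.2 h3)]
      simp

end M2U

/-- row M2U -/
theorem m2U (hP : PostStmt) (hC : ConvStmt) (hF : FarStmt) : M2UStmt := by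
  obtain ⟨C, hC0, hC⟩ := hC
  obtain ⟨D, hD0, hD⟩ := hF
  have hS := cS_pos
  refine ⟨4 * (dd + 7) * cS * C + D, by positivity, fun q ε K a f hq _ ha hf h0 h1 => ?_⟩
  have hK : 0 ≤ K := nonneg_of_mul_nonneg_left ((h0 0).trans (h1 0)) (iw_pos 0)
  have hm : Measurable (kS fun p => jb (v1 p) ≤ 25 * (1 + ‖p.2.1‖) ^ 3 * |rho p|) :=
    measurable_kS (measurableSet_le (by fun_prop) (by fun_prop))
  refine (I3_mono (M2U.split hq ε hK f h0 h1)).trans ((I3_add_le (by fun_prop)).trans ?_)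
  rw [I3_const_mul hK, add_mul, ENNReal.ofReal_add (by positivity) (by positivity), add_mul,
    ← add_assoc, mul_comm D, ENNReal.ofReal_mul hK, mul_assoc (ENNReal.ofReal K)]
  exact add_le_add (M2U.main hP hC0 hC ε hK ha hf h0 h1) (mul_le_mul_right (hD f hf) _)

end Pool.Agent.BoltzM.HC
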