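import Pool.Agent.BoltzM.HC.Basic

/-! Row T1: the estimate off the diagonal. -/

set_option autoImplicit false

open MeasureTheory Set Filter Topology
open scoped ENNReal RealInnerProductSpace

noncomputable section

namespace Pool.Agent.BoltzM.HC

open Coll

variable [Dim]

namespace T1

lemma fin_iw : ∫⁻ w : E, ENNReal.ofReal ((1 + ‖w‖) ^ 2 * iw w) ≠ ⊤ := by
  have h := finite_integral_one_add_norm (E := E) (μ := volume) (r := (dd + 1 : ℕ)) (by simp)
  refine ne_top_of_le_ne_top h.ne (lintegral_mono fun w => ENNReal.ofReal_le_ofReal ?_)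
  refine (pow_mul_iw_le (m := dd + 1) (by unfold pK; omega) w).trans (le_of_eq ?_)
  rw [Real.rpow_neg (by positivity), Real.rpow_natCast]

lemma mass (hA : AngStmt) : ∃ C : ℝ, 0 < C ∧ ∀ f : E → ℝ, Measurable f →
    I3 (fun p => kx p * iw p.2.1 * f p.1 ^ 2) ≤ ENNReal.ofReal C * Wn 2 f := by
  obtain ⟨A, hA0, hA⟩ := hA
  have hB := fin_iw
  generalize hBe : ∫⁻ w : E, ENNReal.ofReal ((1 + ‖w‖) ^ 2 * iw w) = B at hB
  refine ⟨A * (B.toReal + 1), by positivity, fun f hf => ?_⟩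
  refine I3_fst (k := fun p => kx p * iw p.2.1) (by fun_prop)
    (fun p => mul_nonneg (kx_nonneg p) (iw_pos _).le) (by positivity) (fun v => ?_) hf
  rw [lintegral_mu2 _ (by fun_prop)]
  calc _ ≤ ∫⁻ w : E, ENNReal.ofReal (A * jb v ^ 2) * ENNReal.ofReal ((1 + ‖w‖) ^ 2 * iw w) := by
        refine lintegral_mono fun w => ?_
        simp only [ENNReal.ofReal_mul (kx_nonneg _)]
        rw [lintegral_mul_const _ (by fun_prop), ← ENNReal.ofReal_mul (by positivity)]
        refine (mul_le_mul_left (hA v w) _).trans ?_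
        rw [← ENNReal.ofReal_mul (by positivity)]
        refine ENNReal.ofReal_le_ofReal ?_
        have := iw_pos w
        calc A * ‖v - w‖ ^ 2 * iw w ≤ A * (jb v * (1 + ‖w‖)) ^ 2 * iw w := by
              gcongr; exact norm_sub_le_jb v w
          _ = _ := by ring
    _ = ENNReal.ofReal (A * jb v ^ 2) * ENNReal.ofReal B.toReal := by
        rw [lintegral_const_mul' _ _ ENNReal.ofReal_ne_top, hBe, ENNReal.ofReal_toReal hB]
    _ ≤ _ := by
        rw [← ENNReal.ofReal_mul (by positivity), Real.rpow_two]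
        refine ENNReal.ofReal_le_ofReal ?_
        nlinarith [mul_nonneg hA0.le (sq_nonneg (jb v))]

lemma cs_le {k a b : E × E × S2 → ℝ} (hk : Measurable k) (ha : Measurable a) (hb : Measurable b)
    (h0 : ∀ p, 0 ≤ k p) {c : ℝ} {X Y : ℝ≥0∞}
    (h1 : I3 (fun p => k p * a p ^ 2) ≤ ENNReal.ofReal c * X)
    (h2 : I3 (fun p => k p * b p ^ 2) ≤ ENNReal.ofReal c * Y) :
    I3 (fun p => k p * (|a p| * |b p|))
      ≤ ENNReal.ofReal c * (X ^ (1 / 2 : ℝ) * Y ^ (1 / 2 : ℝ)) := by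
  refine (I3_cs hk ha hb h0).trans ?_
  calc _ ≤ (ENNReal.ofReal c * X) ^ (1 / 2 : ℝ) * (ENNReal.ofReal c * Y) ^ (1 / 2 : ℝ) := by gcongr
    _ = _ := by
      rw [ENNReal.mul_rpow_of_nonneg _ _ (by norm_num),
        ENNReal.mul_rpow_of_nonneg _ _ (by norm_num), mul_mul_mul_comm,
        ← ENNReal.rpow_add_of_nonneg _ _ (by norm_num) (by norm_num)]
      norm_num

omit [Dim] in
lemma up {a X X' : ℝ≥0∞} {c c' : ℝ} (h : a ≤ ENNReal.ofReal c * X) (hc : c ≤ c') (hX : X ≤ X') :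
    a ≤ ENNReal.ofReal c' * X' :=
  h.trans (mul_le_mul' (ENNReal.ofReal_le_ofReal hc) hX)

omit [Dim] in
lemma ab {G B c : ℝ} (hG : |G| ≤ B) (hc : 0 ≤ c) (u w : ℝ) :
    |c * (G * (u * w))| ≤ c * B * (|u| * |w|) := by
  rw [abs_mul, abs_mul, abs_mul, abs_of_nonneg hc, mul_assoc]
  gcongr

/-- the part of the integrand that needs the symmetrisation -/
def nr (q : ℕ) (G f g : E → ℝ) (p : E × E × S2) : ℝ :=
  kn p * (G p.2.1 * rh q p * (f p.1 * (g (v1 p) - g p.1)))

lemma kS_add (p : E × E × S2) : kS (fun p => ¬Out p) p + kS Out p = ker3 p := by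
  by_cases h : Out p
  · rw [kS_pos h, kS_neg (S := fun p => ¬Out p) (not_not.2 h), zero_add]
  · rw [kS_neg h, kS_pos (S := fun p => ¬Out p) h, add_zero]

lemma rest_le (q : ℕ) {K : ℝ} {G : E → ℝ} (hG : ∀ w, |G w| ≤ K * iw w) (f g : E → ℝ)
    (p : E × E × S2) : |wI q G f g p - nr q G f g p|
      ≤ K * (kf p * iw p.2.1 * rh q p * (|f p.1| * |g (v1 p) - g p.1|))
        + K * (ker3 p * iw p.2.1 * (1 - rh q p) * (|f p.1| * |g p.1|))
        + K * (kS (fun p => ¬Out p) p * iw p.2.1 * r2 q p * (|f p.1| * |g (v1 p)|))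
        + kS Out p * |G p.2.1| * xr p ^ q * (|f p.1| * |g (v1 p)|) := by
  have h1 := kn_add_kf p
  have h2 := kS_add p
  have h3 := rh_add_r2 q p
  have e : wI q G f g p - nr q G f g p
      = kf p * rh q p * (G p.2.1 * (f p.1 * (g (v1 p) - g p.1)))
        - ker3 p * (1 - rh q p) * (G p.2.1 * (f p.1 * g p.1))
        + kS (fun p => ¬Out p) p * r2 q p * (G p.2.1 * (f p.1 * g (v1 p)))
        + kS Out p * r2 q p * (G p.2.1 * (f p.1 * g (v1 p))) := by
    rw [wI, wJ, nr, ← h3]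
    linear_combination (-(rh q p * G p.2.1 * f p.1 * (g (v1 p) - g p.1))) * h1
      - r2 q p * G p.2.1 * f p.1 * g (v1 p) * h2
  have a1 := ab (hG p.2.1) (mul_nonneg (kf_nonneg p) (rh_pos q p).le) (f p.1) (g (v1 p) - g p.1)
  have a2 := ab (hG p.2.1) (mul_nonneg (ker3_nonneg p) (sub_nonneg.2 (rh_le_one q p))) (f p.1)
    (g p.1)
  have a3 := ab (hG p.2.1) (mul_nonneg (kS_nonneg (fun p => ¬Out p) p) (r2_nonneg q p)) (f p.1)
    (g (v1 p))
  have a4 := ab (le_refl |G p.2.1|) (mul_nonneg (kS_nonneg Out p) (r2_nonneg q p)) (f p.1)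
    (g (v1 p))
  have a5 : kS Out p * r2 q p * |G p.2.1| * (|f p.1| * |g (v1 p)|)
      ≤ kS Out p * xr p ^ q * |G p.2.1| * (|f p.1| * |g (v1 p)|) := by
    have := kS_nonneg Out p
    gcongr
    exact r2_le q p
  rw [e]
  refine ((abs_add_le _ _).trans (add_le_add ((abs_add_le _ _).trans
    (add_le_add (abs_sub _ _) le_rfl)) le_rfl)).trans ?_
  linarith

lemma one_sub_rh (q : ℕ) (p : E × E × S2) : 1 - rh q p ≤ q * |rho p| := by
  have hx := xr_pos p
  rcases le_total 1 (xr p) with h1 | h1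
  · rw [rh, min_eq_right (one_le_pow₀ h1), sub_self]; positivity
  · rw [rh, min_eq_left (pow_le_one₀ hx.le h1)]
    have h2 := one_add_mul_le_pow (a := xr p - 1) (by linarith) q
    rw [add_sub_cancel] at h2
    have h3 : 1 - xr p ≤ |rho p| := by
      have h4 := (abs_xr_sub_one p).trans (div_le_self (abs_nonneg _) (one_le_jb _))
      linarith [neg_le_of_abs_le h4]
    have h7 := mul_le_mul_of_nonneg_left h3 (Nat.cast_nonneg (α := ℝ) q)
    linarith

lemma coef_le (q : ℕ) {K : ℝ} {G : E → ℝ} (hG : Nice pK K G) {p : E × E × S2}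
    (h : |rho p| ≤ 1) : |G p.2.1 * rh q p - G (w1 p) * rh q (coll p)|
      ≤ K * (1 + 2 ^ pK * q) * iw p.2.1 * |rho p| := by
  have hK := hG.nonneg
  have hi := iw_pos p.2.1
  have hw : ‖w1 p - p.2.1‖ ≤ 1 := (norm_w1_sub p).le.trans h
  have b1 : |G p.2.1 - G (w1 p)| ≤ K * iw p.2.1 * |rho p| := by
    have := hG.lip' p.2.1 (w1 p) hw
    rw [norm_w1_sub] at this
    rw [abs_sub_comm, iw, mul_right_comm, ← div_eq_mul_inv, le_div_iff₀ (by positivity), mul_comm]
    exact this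
  have b2 : |G (w1 p)| ≤ K * (2 ^ pK * iw p.2.1) :=
    (abs_le_iw hG _).trans (mul_le_mul_of_nonneg_left (iw_le_near hw) hK)
  have b3 : |rh q p - rh q (coll p)| ≤ q * |rho p| := by
    have c1 := one_sub_rh q p
    have c2 := one_sub_rh q (coll p)
    rw [rho_coll, abs_neg] at c2
    exact abs_le.2 ⟨by linarith [rh_le_one q (coll p)], by linarith [rh_le_one q p]⟩
  have b4 : |rh q p| ≤ 1 := by rw [abs_of_pos (rh_pos q p)]; exact rh_le_one q p
  calc _ = |(G p.2.1 - G (w1 p)) * rh q p + G (w1 p) * (rh q p - rh q (coll p))| := by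
        congr 1; ring
    _ ≤ |G p.2.1 - G (w1 p)| * |rh q p| + |G (w1 p)| * |rh q p - rh q (coll p)| := by
        rw [← abs_mul, ← abs_mul]; exact abs_add_le _ _
    _ ≤ K * iw p.2.1 * |rho p| * 1 + K * (2 ^ pK * iw p.2.1) * (q * |rho p|) := by gcongr
    _ = _ := by ring

lemma near_le (q : ℕ) {K : ℝ} {G : E → ℝ} (hG : Nice pK K G) (f g : E → ℝ) (p : E × E × S2) :
    |nr q G f g p + nr q G f g (coll p)|
      ≤ K * (kn p * iw p.2.1 * rh q p * (|f (v1 p) - f p.1| * |g (v1 p) - g p.1|))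
        + K * (1 + 2 ^ pK * q) * (kn p * iw p.2.1 * (|rho p * f (v1 p)| * |g (v1 p) - g p.1|)) := by
  rcases le_or_gt |rho p| 1 with h | h
  · have e : nr q G f g p + nr q G f g (coll p)
        = kn p * ((G p.2.1 * rh q p - G (w1 p) * rh q (coll p)) * (f (v1 p) * (g (v1 p) - g p.1)))
          - kn p * rh q p * (G p.2.1 * ((f (v1 p) - f p.1) * (g (v1 p) - g p.1))) := by
      rw [nr, nr, kn_coll, v1_coll, coll_fst, coll_snd]; ring
    have a1 := ab (coef_le q hG h) (kn_nonneg p) (f (v1 p)) (g (v1 p) - g p.1)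
    have a2 := ab (abs_le_iw hG p.2.1) (mul_nonneg (kn_nonneg p) (rh_pos q p).le)
      (f (v1 p) - f p.1) (g (v1 p) - g p.1)
    rw [e, abs_mul (rho p)]
    refine (abs_sub _ _).trans ?_
    linarith
  · rw [nr, nr, kn_coll, kn_neg h]; simp

lemma jump_le {q : ℕ} (hq : 4 ≤ q) {k : E × E × S2 → ℝ} (hk : ∀ p, k p ≤ ker3 p) (f : E → ℝ) :
    I3 (fun p => k p * iw p.2.1 * rh q p * (f (v1 p) - f p.1) ^ 2) ≤ Jp f := by
  refine I3_mono fun p => ?_
  have := iw_pos p.2.1
  have := rh_pos q p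
  have := ker3_nonneg p
  gcongr
  · exact hk p
  · exact rh_le_four hq p

lemma jump_near (f : E → ℝ) :
    I3 (fun p => kn p * iw p.2.1 * (f (v1 p) - f p.1) ^ 2) ≤ ENNReal.ofReal 16 * Jp f := by
  rw [Jp, ← I3_const_mul (by norm_num)]
  refine I3_mono fun p => ?_
  have h1 := iw_pos p.2.1
  have h2 := ker3_nonneg p
  rcases le_or_gt |rho p| 1 with h | h
  · have h3 : (1 / 2 : ℝ) ^ 4 ≤ min (xr p) 1 ^ 4 :=
      pow_le_pow_left₀ (by norm_num) (le_min (le_xr_of_near h).1 (by norm_num)) 4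
    rw [kn_pos h]
    have h4 : 0 ≤ ker3 p * iw p.2.1 * (f (v1 p) - f p.1) ^ 2 := by positivity
    nlinarith [mul_le_mul_of_nonneg_left h3 h4]
  · rw [kn_neg h, zero_mul, zero_mul]
    have := (lt_min (xr_pos p) one_pos).le
    positivity

lemma post_near {f : E → ℝ} (hf : Measurable f) :
    I3 (fun p => kn p * iw p.2.1 * (rho p * f (v1 p)) ^ 2)
      ≤ ENNReal.ofReal (2 ^ pK) * I3 (fun p => kx p * iw p.2.1 * f p.1 ^ 2) := by
  rw [← I3_const_mul (by positivity),
    ← I3_coll (F := fun p => kn p * iw p.2.1 * (rho p * f (v1 p)) ^ 2) (by fun_prop)]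
  refine I3_mono fun p => ?_
  rw [kn_coll, coll_snd, rho_coll, v1_coll]
  have h1 := iw_pos p.2.1
  have h2 := kx_nonneg p
  rcases le_or_gt |rho p| 1 with h | h
  · have h3 := iw_le_near ((norm_w1_sub p).le.trans h)
    have h4 : kn p * rho p ^ 2 ≤ kx p := by
      refine le_trans (mul_le_mul_of_nonneg_left ?_ (kn_nonneg p)) (kn_mul_abs_le p)
      rw [← sq_abs]
      nlinarith [abs_nonneg (rho p)]
    have h5 := iw_pos (w1 p)
    calc _ = kn p * rho p ^ 2 * iw (w1 p) * f p.1 ^ 2 := by ring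
      _ ≤ kx p * (2 ^ pK * iw p.2.1) * f p.1 ^ 2 := by gcongr
      _ = _ := by ring
  · rw [kn_neg h, zero_mul, zero_mul]
    positivity

end T1

open T1 in
theorem t1 (hA : AngStmt) (hFin : FinStmt) (hU : M1UStmt) (hB : B1Stmt) (hK : K2Stmt) :
    T1Stmt := by
  intro q hq
  obtain ⟨C1, hC1, m1⟩ := mass hA
  obtain ⟨C2, hC2, m2⟩ := hU
  obtain ⟨C3, hC3, m3⟩ := hB q
  obtain ⟨C4, hC4, m4⟩ := hK
  obtain ⟨c, c1, c2, c3, c4⟩ : ∃ c : ℝ, 2 ^ pK * C1 ≤ c ∧ C2 * q ≤ c ∧ C3 ≤ c ∧ 16 * C4 ≤ c := by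
    have : 0 ≤ 2 ^ pK * C1 := by positivity
    have : 0 ≤ C2 * q := by positivity
    exact ⟨2 ^ pK * C1 + C2 * q + C3 + 16 * C4, by linarith, by linarith, by linarith, by linarith⟩
  have c0 : 0 < c := hC3.trans_le c3
  have c5 : C1 ≤ c := le_trans (le_mul_of_one_le_left hC1.le (one_le_pow₀ one_le_two)) c1
  have c6 : C4 ≤ c := by linarith
  refine ⟨(5 + 2 ^ pK * q) * c, by positivity, fun K G f g rG rf rg hG => ?_⟩
  have hK := hG.nonneg
  have mG := rG.measurable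
  have mf := rf.measurable
  have mg := rg.measurable
  obtain ⟨hI, hO⟩ := hFin.2.2 q G f g rG rf rg
  obtain ⟨S, hS⟩ : ∃ S, S = (NN f + Wn 2 f) ^ (1 / 2 : ℝ) * NN g ^ (1 / 2 : ℝ) := ⟨_, rfl⟩
  have hS0 : S ≠ ⊤ := hS ▸ ENNReal.mul_ne_top
    (ENNReal.rpow_ne_top_of_nonneg (by norm_num)
      (ENNReal.add_ne_top.2 ⟨hFin.1 f rf, hFin.2.1 2 f rf⟩))
    (ENNReal.rpow_ne_top_of_nonneg (by norm_num) (hFin.1 g rg))
  have hS1 : S.toReal = √(nn f + wn 2 f) * √(nn g) := by
    rw [hS, ENNReal.toReal_mul, toReal_rpow_half, toReal_rpow_half,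
      ENNReal.toReal_add (hFin.1 f rf) (hFin.2.1 2 f rf)]
    rfl
  have wg : Wn gm g ≤ NN g := le_add_self
  have wf : Wn gm f ≤ NN f + Wn 2 f := le_add_right le_add_self
  have hi := fun p : E × E × S2 => (iw_pos p.2.1).le
  have hr := fun p : E × E × S2 => (rh_pos q p).le
  have t1 : I3 (fun p => kf p * iw p.2.1 * rh q p * (|f p.1| * |g (v1 p) - g p.1|))
      ≤ ENNReal.ofReal c * S := by
    rw [hS]
    refine cs_le (k := fun p => kf p * iw p.2.1 * rh q p) (a := fun p => f p.1)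
      (b := fun p => g (v1 p) - g p.1) (by fun_prop) (by fun_prop) (by fun_prop)
      (fun p => mul_nonneg (mul_nonneg (kf_nonneg p) (hi p)) (hr p))
      (up ((I3_mono fun p => ?_).trans (m1 f mf)) c5 le_add_self)
      (up ((jump_le hq (fun p => kS_le _ p) g).trans (m4 g mg)) c6 le_rfl)
    have := hi p
    have := kx_nonneg p
    calc _ ≤ kx p * iw p.2.1 * 1 * f p.1 ^ 2 := by
          gcongr
          exacts [hr p, kf_le_kx p, rh_le_one q p]
      _ = _ := by ring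
  have t2 : I3 (fun p => ker3 p * iw p.2.1 * (1 - rh q p) * (|f p.1| * |g p.1|))
      ≤ ENNReal.ofReal c * S := by
    rw [hS]
    exact cs_le (k := fun p => ker3 p * iw p.2.1 * (1 - rh q p)) (a := fun p => f p.1)
      (b := fun p => g p.1) (by fun_prop) (by fun_prop) (by fun_prop)
      (fun p => mul_nonneg (mul_nonneg (ker3_nonneg p) (hi p)) (sub_nonneg.2 (rh_le_one q p)))
      (up (m2 q f mf) c2 wf) (up (m2 q g mg) c2 wg)
  have t3 : I3 (fun p => kS (fun p => ¬Out p) p * iw p.2.1 * r2 q p * (|f p.1| * |g (v1 p)|))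
      ≤ ENNReal.ofReal c * S := by
    refine up (m3 f g mf mg) c3 ?_
    rw [hS]
    have h1 : (1 : ℝ) ≤ gm := by norm_num [gm]
    gcongr
    exacts [(Wn_mono h1 f).trans wf, (Wn_mono h1 g).trans wg]
  have t4 : I3 (fun p => kn p * iw p.2.1 * rh q p * (|f (v1 p) - f p.1| * |g (v1 p) - g p.1|))
      ≤ ENNReal.ofReal c * S := by
    rw [hS]
    exact cs_le (k := fun p => kn p * iw p.2.1 * rh q p) (a := fun p => f (v1 p) - f p.1)
      (b := fun p => g (v1 p) - g p.1) (by fun_prop) (by fun_prop) (by fun_prop)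
      (fun p => mul_nonneg (mul_nonneg (kn_nonneg p) (hi p)) (hr p))
      (up ((jump_le hq (fun p => kS_le _ p) f).trans (m4 f mf)) c6 le_self_add)
      (up ((jump_le hq (fun p => kS_le _ p) g).trans (m4 g mg)) c6 le_rfl)
  have t5 : I3 (fun p => kn p * iw p.2.1 * (|rho p * f (v1 p)| * |g (v1 p) - g p.1|))
      ≤ ENNReal.ofReal c * S := by
    rw [hS]
    refine cs_le (k := fun p => kn p * iw p.2.1) (a := fun p => rho p * f (v1 p))
      (b := fun p => g (v1 p) - g p.1) (by fun_prop) (by fun_prop) (by fun_prop)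
      (fun p => mul_nonneg (kn_nonneg p) (hi p))
      (up ((post_near mf).trans ((mul_le_mul_right (m1 f mf) _).trans_eq ?_)) c1 le_add_self)
      (up ((jump_near g).trans ((mul_le_mul_right (m4 g mg) _).trans_eq ?_)) c4 le_rfl)
    · rw [← mul_assoc, ← ENNReal.ofReal_mul (by positivity)]
    · rw [← mul_assoc, ← ENNReal.ofReal_mul (by norm_num)]
  have sc : ∀ {F : E × E × S2 → ℝ} {L : ℝ}, 0 ≤ L → I3 F ≤ ENNReal.ofReal c * S →
      I3 (fun p => L * F p) ≤ ENNReal.ofReal L * (ENNReal.ofReal c * S) := fun hL h => by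
    rw [I3_const_mul hL]; exact mul_le_mul_right h _
  have mO := measurable_kS measurableSet_Out
  have mO' := measurable_kS (S := fun p => ¬Out p) measurableSet_Out.compl
  have fin : ∀ L : ℝ, ENNReal.ofReal L * (ENNReal.ofReal c * S) ≠ ⊤ := fun L =>
    ENNReal.mul_ne_top ENNReal.ofReal_ne_top (ENNReal.mul_ne_top ENNReal.ofReal_ne_top hS0)
  have re : ∀ {L : ℝ}, 0 ≤ L →
      (ENNReal.ofReal L * (ENNReal.ofReal c * S)).toReal = L * (c * S.toReal) := fun hL => by
    rw [ENNReal.toReal_mul, ENNReal.toReal_mul, ENNReal.toReal_ofReal hL,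
      ENNReal.toReal_ofReal c0.le]
  have r1 : I3 (fun p => |wI q G f g p - nr q G f g p|)
      ≤ ENNReal.ofReal K * (ENNReal.ofReal c * S) + ENNReal.ofReal K * (ENNReal.ofReal c * S)
        + ENNReal.ofReal K * (ENNReal.ofReal c * S) + Ot q G f g :=
    (I3_mono (rest_le q (abs_le_iw hG) f g)).trans ((I3_add_le (by fun_prop)).trans
      (add_le_add ((I3_add_le (by fun_prop)).trans (add_le_add ((I3_add_le (by fun_prop)).trans
        (add_le_add (sc hK t1) (sc hK t2))) (sc hK t3))) le_rfl))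
  have hL : 0 ≤ K * (1 + 2 ^ pK * q) := by positivity
  have r2 : I3 (fun p => |nr q G f g p + nr q G f g (coll p)|)
      ≤ ENNReal.ofReal K * (ENNReal.ofReal c * S)
        + ENNReal.ofReal (K * (1 + 2 ^ pK * q)) * (ENNReal.ofReal c * S) :=
    (I3_mono (near_le q hG f g)).trans ((I3_add_le (by fun_prop)).trans
      (add_le_add (sc hK t4) (sc hL t5)))
  have f2 := ENNReal.add_ne_top.2 ⟨fin K, fin K⟩
  have f3 := ENNReal.add_ne_top.2 ⟨f2, fin K⟩
  have f4 := ENNReal.add_ne_top.2 ⟨f3, hO⟩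
  have iR : Integrable (fun p => wI q G f g p - nr q G f g p) mu3 :=
    integrable_of_I3 (by unfold wI wJ nr; fun_prop) (ne_top_of_le_ne_top f4 r1)
  have iN : Integrable (nr q G f g) mu3 := by
    refine (hI.sub iR).congr (Eventually.of_forall fun p => ?_)
    simp
  have s1 := abs_integral_le_I3 _ f4 r1
  have s2 := abs_integral_le_I3 _ (ENNReal.add_ne_top.2 ⟨fin _, fin _⟩) r2
  rw [ENNReal.toReal_add f3 hO, ENNReal.toReal_add f2 (fin K), ENNReal.toReal_add (fin K) (fin K),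
    re hK, integral_sub hI iN] at s1
  rw [ENNReal.toReal_add (fin _) (fin _), re hK, re hL, integral_add iN (Integrable.coll iN),
    integral_coll (nr q G f g)] at s2
  rw [← hS1, wk]
  have p1 : 0 ≤ K * (c * S.toReal) := by positivity
  have p2 : 0 ≤ 2 ^ pK * q * (K * (c * S.toReal)) := by positivity
  rw [abs_le] at s1 s2 ⊢
  constructor <;> linarith [s1.1, s1.2, s2.1, s2.2]

end Pool.Agent.BoltzM.HC
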