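import Pool.Agent.BoltzM.HC.Basic

/-! Long jumps when the first slot is rough and the second slot decays. -/

set_option autoImplicit false

open MeasureTheory Set Filter Topology
open scoped ENNReal RealInnerProductSpace

noncomputable section

namespace Pool.Agent.BoltzM.HC

open Coll

variable [Dim]

namespace T2F

/-- an integrable weight -/
def ps (v : E) : ℝ := ((1 + ‖v‖) ^ (dd + 1))⁻¹

lemma ps_pos (v : E) : 0 < ps v := by unfold ps; positivity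

lemma ps_le_one (v : E) : ps v ≤ 1 :=
  inv_le_one_of_one_le₀ (one_le_pow₀ (by linarith [norm_nonneg v]))

@[fun_prop] lemma measurable_ps : Measurable ps := by unfold ps; fun_prop

lemma ps_fin : ∫⁻ w : E, ENNReal.ofReal (ps w) ≠ ⊤ := by
  have h := finite_integral_one_add_norm (E := E) (μ := volume) (r := ((dd + 1 : ℕ) : ℝ))
    (by rw [finrank_Ix]; push_cast; linarith)
  refine ne_of_lt (lt_of_le_of_lt (le_of_eq (lintegral_congr fun w => ?_)) h)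
  rw [Real.rpow_neg (by positivity), Real.rpow_natCast, ps]

lemma marg : ∃ C : ℝ, 0 < C ∧ ∀ f : E → ℝ, Measurable f →
    I3 (fun p => ps p.1 * ps p.2.1 * f p.1 ^ 2) ≤ ENNReal.ofReal C * Wn 0 f := by
  have hfin : (∫⁻ w : E, ENNReal.ofReal (ps w)) * sph univ ≠ ⊤ :=
    ENNReal.mul_ne_top ps_fin (measure_ne_top _ _)
  refine ⟨((∫⁻ w : E, ENNReal.ofReal (ps w)) * sph univ).toReal + 1, by positivity,
    fun f hf => I3_fst (k := fun p => ps p.1 * ps p.2.1) (by fun_prop)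
      (fun p => (mul_pos (ps_pos _) (ps_pos _)).le) (by positivity) (fun v => ?_) hf⟩
  rw [Real.rpow_zero, mul_one]
  calc ∫⁻ z, ENNReal.ofReal (ps v * ps z.1) ∂mu2
      ≤ ∫⁻ z : E × S2, ENNReal.ofReal (ps z.1) ∂mu2 :=
        lintegral_mono fun z => ENNReal.ofReal_le_ofReal
          (mul_le_of_le_one_left (ps_pos _).le (ps_le_one v))
    _ = (∫⁻ w : E, ENNReal.ofReal (ps w)) * sph univ := by
        rw [lintegral_mu2 _ (by fun_prop), ← lintegral_mul_const _ (by fun_prop)]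
        simp only [lintegral_const]
    _ ≤ _ := by
        conv_lhs => rw [← ENNReal.ofReal_toReal hfin]
        exact ENNReal.ofReal_le_ofReal (by linarith)

lemma pair : ∃ C : ℝ, 0 < C ∧ ∀ f g : E → ℝ, Measurable f → Measurable g →
    I3 (fun p => ps p.1 * ps p.2.1 * (|f p.2.1| * |g p.1|))
      ≤ ENNReal.ofReal C * (Wn 0 f ^ (1 / 2 : ℝ) * Wn 0 g ^ (1 / 2 : ℝ)) := by
  obtain ⟨C, hC, h⟩ := marg
  refine ⟨C, hC, fun f g hf hg => ?_⟩
  have h1 := I3_cs (k := fun p => ps p.1 * ps p.2.1) (a := fun p => f p.2.1) (b := fun p => g p.1)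
    (by fun_prop) (by fun_prop) (by fun_prop) fun p => (mul_pos (ps_pos _) (ps_pos _)).le
  have h2 : I3 (fun p => ps p.1 * ps p.2.1 * f p.2.1 ^ 2) ≤ ENNReal.ofReal C * Wn 0 f := by
    refine le_trans (le_of_eq ?_) (h f hf)
    rw [← I3_swp (F := fun p => ps p.1 * ps p.2.1 * f p.1 ^ 2) (by fun_prop)]
    congr 1
    funext p
    simp only [swp]
    ring
  refine h1.trans ((mul_le_mul' (ENNReal.rpow_le_rpow h2 (by norm_num))
    (ENNReal.rpow_le_rpow (h g hg) (by norm_num))).trans (le_of_eq ?_))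
  rw [ENNReal.mul_rpow_of_nonneg _ _ (by norm_num), ENNReal.mul_rpow_of_nonneg _ _ (by norm_num),
    mul_mul_mul_comm, ← ENNReal.rpow_add_of_nonneg _ _ (by norm_num) (by norm_num)]
  norm_num

lemma Wn_div (f : E → ℝ) : Wn gm (fun v => f v / jb v) ≤ Wn 0 f := by
  refine lintegral_mono fun v => ENNReal.ofReal_le_ofReal ?_
  have h0 := jb_pos v
  have h1 : jb v ^ gm ≤ jb v ^ 2 := by
    rw [← Real.rpow_two]
    exact Real.rpow_le_rpow_of_exponent_le (one_le_jb v) (by unfold gm; norm_num)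
  rw [Real.rpow_zero, one_mul, div_pow, ← mul_div_assoc, div_le_iff₀ (by positivity), mul_comm]
  exact mul_le_mul_of_nonneg_left h1 (sq_nonneg _)

omit [Dim] in
lemma pow_le_aux {z b e : ℝ} (h1 : 1 ≤ z) (h2 : z ≤ b) (h3 : z ^ 2 ≤ 1 + e) (q : ℕ) :
    z ^ q ≤ 1 + q * b ^ q * e := by
  have he : z - 1 ≤ e := by nlinarith
  have he0 : 0 ≤ e := by linarith
  have hb : 1 ≤ b := h1.trans h2
  induction q with
  | zero => simp
  | succ n ih =>
    have a1 : z ^ n ≤ b ^ (n + 1) :=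
      (pow_le_pow_left₀ (by linarith) h2 n).trans (pow_le_pow_right₀ hb n.le_succ)
    have a2 : b ^ n ≤ b ^ (n + 1) := pow_le_pow_right₀ hb n.le_succ
    have a3 : z ^ n * (z - 1) ≤ b ^ (n + 1) * e :=
      mul_le_mul a1 he (by linarith) (by positivity)
    have a4 : (n : ℝ) * b ^ n * e ≤ n * b ^ (n + 1) * e := by gcongr
    push_cast
    rw [pow_succ z]
    nlinarith

lemma zr_pow {q : ℕ} (hq : 2 * dd + 4 ≤ q) (p : E × E × S2) : zr p ^ q
    ≤ min (zr p) 1 ^ (2 * dd + 4) * (1 + q * jb p.2.1 ^ q * (‖p.2.1‖ ^ 2 / jb p.1 ^ 2)) := by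
  have hz := zr_pos p
  have h0 : 0 ≤ q * jb p.2.1 ^ q * (‖p.2.1‖ ^ 2 / jb p.1 ^ 2) := by
    have := jb_pos p.2.1
    positivity
  rcases le_total (zr p) 1 with h | h
  · rw [min_eq_left h]
    exact (pow_le_pow_of_le_one hz.le h hq).trans
      (le_mul_of_one_le_right (by positivity) (by linarith))
  · rw [min_eq_right h, one_pow, one_mul]
    exact pow_le_aux h (zr_le p) (zr_sq_le p) q

lemma kf_le (p : E × E × S2) : kf p ≤ 2 * ((1 + ‖p.1‖) ^ 3 * (1 + ‖p.2.1‖) ^ 3) := by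
  rcases le_or_gt |rho p| 1 with h | h
  · rw [kf_neg h]; positivity
  · have h1 : |rho p| ^ (-(101 / 100) : ℝ) ≤ 1 :=
      Real.rpow_le_one_of_one_le_of_nonpos h.le (by norm_num)
    have h2 : ‖p.1 - p.2.1‖ ≤ (1 + ‖p.1‖) * (1 + ‖p.2.1‖) :=
      (norm_sub_le_jb _ _).trans (by gcongr; exact jb_le _)
    rw [kf_pos h, ker3_eq', ← mul_pow]
    refine (mul_le_of_le_one_right (by positivity) h1).trans ?_
    gcongr

lemma dec {n m a : ℕ} {K y : ℝ} (v : E) (hy : 0 ≤ y) (h : (1 + ‖v‖) ^ n * y ≤ K)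
    (hn : a + m ≤ n) : (1 + ‖v‖) ^ a * y ≤ K * ((1 + ‖v‖) ^ m)⁻¹ := by
  have h1 : (1 : ℝ) ≤ 1 + ‖v‖ := by linarith [norm_nonneg v]
  rw [← div_eq_mul_inv, le_div_iff₀ (by positivity), mul_right_comm, ← pow_add]
  exact le_trans (mul_le_mul_of_nonneg_right (pow_le_pow_right₀ h1 hn) hy) h

/-- the gain term after the exchange of the two particles -/
lemma gain {q : ℕ} (hq : 2 * dd + 4 ≤ q) {K0 K : ℝ} {G : E → ℝ} (f g : E → ℝ)
    (h0 : ∀ v, |G v| ≤ K0 * iw v) (h1 : ∀ v, (1 + ‖v‖) ^ (q + 2 * pK) * |G v| ≤ K)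
    (p : E × E × S2) : kf p * |G p.2.1| * zr p ^ q * (|f p.1| * |g (w1 p)|)
      ≤ K0 * (kf p * iw p.2.1 * min (zr p) 1 ^ (2 * dd + 4) * (|f p.1| * |g (w1 p)|))
        + q * K * (kf p * iw p.2.1 * min (zr p) 1 ^ (2 * dd + 4)
          * (|f p.1 / jb p.1| * |g (w1 p) / jb (w1 p)|)) := by
  have hk := kf_nonneg p
  have hv := jb_pos p.1
  have hw := jb_pos p.2.1
  have hw' := jb_pos (w1 p)
  have hm : 0 ≤ min (zr p) 1 ^ (2 * dd + 4) := pow_nonneg (lt_min (zr_pos p) one_pos).le _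
  have a1 : (1 + ‖p.2.1‖) ^ (q + 3) * |G p.2.1| ≤ K * iw p.2.1 :=
    dec _ (abs_nonneg _) (h1 _) (by unfold pK; omega)
  have a2 : jb p.2.1 ^ q * jb p.2.1 * ‖p.2.1‖ ^ 2 ≤ (1 + ‖p.2.1‖) ^ (q + 3) := by
    rw [show q + 3 = q + 1 + 2 by ring, pow_add _ (q + 1), pow_succ (1 + ‖p.2.1‖) q]
    have := jb_le p.2.1
    gcongr
    linarith
  have a3 : (jb p.1)⁻¹ ≤ jb p.2.1 * (jb (w1 p))⁻¹ := by
    have := zr_le p
    rw [zr, div_le_iff₀ hv] at this
    rw [← div_eq_mul_inv, le_div_iff₀ hw', inv_mul_le_iff₀ hv, mul_comm]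
    exact this
  have a4 : |G p.2.1| * (jb p.2.1 ^ q * (‖p.2.1‖ ^ 2 / jb p.1 ^ 2))
      ≤ K * iw p.2.1 * ((jb p.1)⁻¹ * (jb (w1 p))⁻¹) := by
    calc _ = |G p.2.1| * (jb p.2.1 ^ q * ‖p.2.1‖ ^ 2) * ((jb p.1)⁻¹ * (jb p.1)⁻¹) := by
          field_simp
      _ ≤ |G p.2.1| * (jb p.2.1 ^ q * ‖p.2.1‖ ^ 2)
          * ((jb p.1)⁻¹ * (jb p.2.1 * (jb (w1 p))⁻¹)) := by gcongr
      _ = jb p.2.1 ^ q * jb p.2.1 * ‖p.2.1‖ ^ 2 * |G p.2.1| * ((jb p.1)⁻¹ * (jb (w1 p))⁻¹) := by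
          ring
      _ ≤ _ := by
          refine mul_le_mul_of_nonneg_right (le_trans ?_ a1) (by positivity)
          gcongr
  have a5 : |G p.2.1| * zr p ^ q ≤ min (zr p) 1 ^ (2 * dd + 4)
      * (K0 * iw p.2.1 + q * (K * iw p.2.1 * ((jb p.1)⁻¹ * (jb (w1 p))⁻¹))) := by
    refine (mul_le_mul_of_nonneg_left (zr_pow hq p) (abs_nonneg _)).trans ?_
    rw [mul_left_comm]
    refine mul_le_mul_of_nonneg_left ?_ hm
    have := mul_le_mul_of_nonneg_left a4 (Nat.cast_nonneg (α := ℝ) q)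
    nlinarith [h0 p.2.1]
  rw [abs_div, abs_div, abs_of_pos hv, abs_of_pos hw', mul_assoc (kf p)]
  refine (mul_le_mul_of_nonneg_right (mul_le_mul_of_nonneg_left a5 hk) (by positivity)).trans
    (le_of_eq ?_)
  field_simp

/-- the loss term -/
lemma loss {q : ℕ} (hq : 2 * dd + 4 ≤ q) {K : ℝ} {G : E → ℝ} (f g : E → ℝ)
    (h1 : ∀ v, (1 + ‖v‖) ^ (q + 2 * pK) * |G v| ≤ K) (p : E × E × S2) :
    kf p * (|f p.2.1| / jb p.2.1 ^ q * (jb p.1 ^ q * |G p.1| * |g p.1|))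
      ≤ 2 * 2 ^ q * K * (ps p.1 * ps p.2.1 * (|f p.2.1| * |g p.1|)) := by
  have hv := jb_pos p.1
  have hw := jb_pos p.2.1
  have hK : 0 ≤ K := le_trans (by positivity) (h1 0)
  have a1 : (1 + ‖p.1‖) ^ (q + 3) * |G p.1| ≤ K * ps p.1 :=
    dec _ (abs_nonneg _) (h1 _) (by unfold pK; omega)
  have a2 : (1 + ‖p.2.1‖) ^ 3 * (jb p.2.1 ^ q)⁻¹ ≤ 2 ^ q * ps p.2.1 := by
    refine dec (n := q) _ (by positivity) ?_ (by omega)
    rw [← div_eq_mul_inv, div_le_iff₀ (by positivity), ← mul_pow]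
    exact pow_le_pow_left₀ (by positivity) (le_two_jb _) q
  have a3 : jb p.1 ^ q ≤ (1 + ‖p.1‖) ^ q := pow_le_pow_left₀ hv.le (jb_le _) q
  have hp := ps_pos p.1
  calc _ ≤ 2 * ((1 + ‖p.1‖) ^ 3 * (1 + ‖p.2.1‖) ^ 3)
        * (|f p.2.1| / jb p.2.1 ^ q * ((1 + ‖p.1‖) ^ q * |G p.1| * |g p.1|)) := by
        have := kf_le p
        gcongr
    _ = 2 * ((1 + ‖p.1‖) ^ (q + 3) * |G p.1|) * ((1 + ‖p.2.1‖) ^ 3 * (jb p.2.1 ^ q)⁻¹)
        * (|f p.2.1| * |g p.1|) := by rw [div_eq_mul_inv]; ring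
    _ ≤ 2 * (K * ps p.1) * (2 ^ q * ps p.2.1) * (|f p.2.1| * |g p.1|) := by gcongr
    _ = _ := by ring

lemma split (q : ℕ) (G f g : E → ℝ) (p : E × E × S2) :
    |kf p * wJ q (fun w => f w / jb w ^ q) (fun v => jb v ^ q * G v) g p|
      ≤ kf (swp p) * |G (swp p).2.1| * zr (swp p) ^ q * (|f (swp p).1| * |g (w1 (swp p))|)
        + kf p * (|f p.2.1| / jb p.2.1 ^ q * (jb p.1 ^ q * |G p.1| * |g p.1|)) := by
  have hk := kf_nonneg p
  have hv := jb_pos p.1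
  have hw := jb_pos p.2.1
  have hx := xr_pos p
  have a1 : |xr p ^ q * g (v1 p) - g p.1| ≤ xr p ^ q * |g (v1 p)| + |g p.1| := by
    refine (abs_sub _ _).trans (le_of_eq ?_)
    rw [abs_mul, abs_of_pos (pow_pos hx q)]
  rw [wJ, abs_mul, abs_mul, abs_mul, abs_mul, abs_div, abs_of_nonneg hk,
    abs_of_pos (pow_pos hw q), abs_of_pos (pow_pos hv q), kf_swp, zr, w1_swp]
  refine le_trans (b := kf p * (|f p.2.1| / jb p.2.1 ^ q * (jb p.1 ^ q * |G p.1|
    * (xr p ^ q * |g (v1 p)| + |g p.1|)))) (by gcongr) (le_of_eq ?_)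
  simp only [swp, xr, div_pow]
  field_simp

end T2F

open T2F in
theorem t2F (h : AStmt) : T2FStmt := by
  obtain ⟨A, hA, h⟩ := h
  obtain ⟨B, hB, hp⟩ := pair
  refine ⟨A, hA, fun q hq => ⟨q * A + 2 * 2 ^ q * B, by positivity,
    fun K0 K G f g _ hf hg h0 h1 => ?_⟩⟩
  have hK : 0 ≤ K := le_trans (by positivity) (h1 0)
  have hK0 : 0 ≤ K0 := nonneg_of_mul_nonneg_left ((abs_nonneg _).trans (h0 0)) (iw_pos 0)
  have hf' : Measurable fun v => f v / jb v := by fun_prop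
  have hg' : Measurable fun v => g v / jb v := by fun_prop
  have m1 : Measurable fun p : E × E × S2 =>
      K0 * (kf p * iw p.2.1 * min (zr p) 1 ^ (2 * dd + 4) * (|f p.1| * |g (w1 p)|))
        + q * K * (kf p * iw p.2.1 * min (zr p) 1 ^ (2 * dd + 4)
          * (|f p.1 / jb p.1| * |g (w1 p) / jb (w1 p)|)) := by fun_prop
  have e1 := (h _ _ hf' hg').trans (mul_le_mul' le_rfl (mul_le_mul'
    (ENNReal.rpow_le_rpow (Wn_div f) (by norm_num)) (ENNReal.rpow_le_rpow (Wn_div g) (by norm_num))))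
  refine (I3_mono fun p => (split q G f g p).trans
    (add_le_add (gain hq f g h0 h1 (swp p)) (loss hq f g h1 p))).trans ?_
  refine (I3_add_le (by fun_prop)).trans ?_
  rw [I3_swp m1, I3_const_mul (by positivity)]
  refine (add_le_add (I3_add_le (by fun_prop)) le_rfl).trans ?_
  rw [I3_const_mul hK0, I3_const_mul (by positivity)]
  refine (add_le_add (add_le_add (mul_le_mul' le_rfl (h f g hf hg)) (mul_le_mul' le_rfl e1))
    (mul_le_mul' le_rfl (hp f g hf hg))).trans (le_of_eq ?_)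
  rw [← mul_assoc, ← mul_assoc (ENNReal.ofReal (q * K)), ← mul_assoc (ENNReal.ofReal (2 * _ * K)),
    add_assoc, ← add_mul, ← ENNReal.ofReal_mul hK0, ← ENNReal.ofReal_mul (by positivity),
    ← ENNReal.ofReal_mul (by positivity), ← ENNReal.ofReal_add (by positivity) (by positivity),
    mul_comm K0]
  congr 3
  ring

end Pool.Agent.BoltzM.HC
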