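import Pool.Agent.BoltzM.HC.Basic

/-! Row T4: functions of the Gaussian class in the polynomially weighted norm. -/

set_option autoImplicit false

open MeasureTheory Set Filter Topology
open scoped ENNReal RealInnerProductSpace

noncomputable section

namespace Pool.Agent.BoltzM.HC

open Coll

variable [Dim]

namespace T4

lemma nice_jb_mul {P : ℕ} {K : ℝ} {h : E → ℝ} (H : Nice (P + 1) K h) :
    Nice P (3 * K) (fun v => jb v * h v) := by
  have hK := H.nonneg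
  refine ⟨fun v => ?_, fun v z hz => ?_⟩
  · have h1 := H.1 v
    have h2 := jb_le v
    have h3 := jb_pos v
    have h4 := wt_pos v P
    rw [abs_mul, abs_of_pos h3]
    calc (1 + ‖v‖) ^ P * (jb v * |h v|) ≤ (1 + ‖v‖) ^ P * ((1 + ‖v‖) * |h v|) := by gcongr
      _ = (1 + ‖v‖) ^ (P + 1) * |h v| := by ring
      _ ≤ 3 * K := by linarith
  · have h1 := H.2 v z hz
    have h2 := (H.mono (Nat.le_succ P)).1 v
    have h3 : jb (v + z) ≤ 2 * (1 + ‖v‖) := by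
      linarith [jb_add_le v z, jb_le v, norm_nonneg v]
    have h4 : |jb (v + z) - jb v| ≤ ‖z‖ := by simpa using abs_jb_sub_le v (v + z)
    have h5 := wt_pos v P
    have h6 := jb_pos (v + z)
    have h7 : |jb (v + z) * h (v + z) - jb v * h v|
        ≤ 2 * (1 + ‖v‖) * |h (v + z) - h v| + ‖z‖ * |h v| := by
      rw [show jb (v + z) * h (v + z) - jb v * h v
        = jb (v + z) * (h (v + z) - h v) + (jb (v + z) - jb v) * h v by ring]
      refine (abs_add_le _ _).trans ?_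
      rw [abs_mul, abs_mul, abs_of_pos h6]
      gcongr
    calc (1 + ‖v‖) ^ P * |jb (v + z) * h (v + z) - jb v * h v|
        ≤ (1 + ‖v‖) ^ P * (2 * (1 + ‖v‖) * |h (v + z) - h v| + ‖z‖ * |h v|) := by gcongr
      _ = 2 * ((1 + ‖v‖) ^ (P + 1) * |h (v + z) - h v|) + ‖z‖ * ((1 + ‖v‖) ^ P * |h v|) := by ring
      _ ≤ 2 * (K * ‖z‖) + ‖z‖ * K := by gcongr
      _ = 3 * K * ‖z‖ := by ring

lemma nice_chi (q : ℕ) : ∀ P : ℕ, ∃ K, Nice P K (fun v => jb v ^ q * sM v) := by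
  induction q with
  | zero => intro P; exact ⟨_, by simpa using nice_sM P⟩
  | succ q ih =>
    intro P
    obtain ⟨K, H⟩ := ih (P + 1)
    refine ⟨3 * K, ?_⟩
    have h := nice_jb_mul H
    have e : (fun v => jb v ^ (q + 1) * sM v) = fun v => jb v * (jb v ^ q * sM v) := by
      funext v; ring
    rw [e]; exact h

lemma Wn_two_le (g : E → ℝ) : Wn 2 g ≤ NL g := by
  refine le_trans (lintegral_mono fun v => ENNReal.ofReal_le_ofReal ?_) le_add_self
  exact mul_le_mul_of_nonneg_right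
    (Real.rpow_le_rpow (jb_pos v).le (jb_le v) (by norm_num)) (sq_nonneg _)

lemma Wn_mul_le {K : ℝ} {c : E → ℝ} (hc : ∀ v, |c v| ≤ K) (r : ℝ) (g : E → ℝ) :
    Wn r (fun v => c v * g v) ≤ ENNReal.ofReal (K ^ 2) * Wn r g := by
  rw [Wn, Wn, ← lintegral_const_mul' _ _ ENNReal.ofReal_ne_top]
  refine lintegral_mono fun v => ?_
  rw [← ENNReal.ofReal_mul (sq_nonneg _)]
  refine ENNReal.ofReal_le_ofReal ?_
  have h1 : c v ^ 2 ≤ K ^ 2 := sq_le_sq' (neg_le_of_abs_le (hc v)) (le_of_abs_le (hc v))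
  have h2 : 0 ≤ jb v ^ r * g v ^ 2 := mul_nonneg (Real.rpow_nonneg (jb_pos v).le _) (sq_nonneg _)
  calc jb v ^ r * (c v * g v) ^ 2 = c v ^ 2 * (jb v ^ r * g v ^ 2) := by ring
    _ ≤ _ := by gcongr

/-- the mass of the truncated kernel against the polynomial partner -/
lemma mass (hA : AngStmt) : ∃ C : ℝ, 0 < C ∧ ∀ g : E → ℝ, Measurable g →
    I3 (fun p => kx p * iw p.2.1 * g p.1 ^ 2) ≤ ENNReal.ofReal C * Wn 2 g := by
  obtain ⟨A, hA0, hA⟩ := hA
  have hfin : ∫⁻ w : E, ENNReal.ofReal ((1 + ‖w‖) ^ (-((dd + 1 : ℕ) : ℝ))) < ∞ :=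
    finite_integral_one_add_norm (by rw [finrank_Ix]; push_cast; linarith)
  set B := (∫⁻ w : E, ENNReal.ofReal ((1 + ‖w‖) ^ (-((dd + 1 : ℕ) : ℝ)))).toReal with hB
  have hB0 : 0 ≤ B := ENNReal.toReal_nonneg
  refine ⟨A * (B + 1), by positivity, fun g hg => ?_⟩
  refine I3_fst (k := fun p => kx p * iw p.2.1) (by fun_prop)
    (fun p => mul_nonneg (kx_nonneg p) (iw_pos _).le) (by positivity) (fun v => ?_) hg
  rw [lintegral_mu2 _ (by fun_prop)]
  have hv := jb_pos v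
  have h1 : ∀ w : E, ∫⁻ o, ENNReal.ofReal (kx (v, w, o) * iw w) ∂sph
      ≤ ENNReal.ofReal (A * jb v ^ 2) * ENNReal.ofReal ((1 + ‖w‖) ^ (-((dd + 1 : ℕ) : ℝ))) := by
    intro w
    have hw := iw_pos w
    simp only [ENNReal.ofReal_mul (kx_nonneg _)]
    rw [lintegral_mul_const _ (by fun_prop)]
    refine (mul_le_mul_left (hA v w) _).trans ?_
    rw [← ENNReal.ofReal_mul (by positivity), ← ENNReal.ofReal_mul (by positivity),
      Real.rpow_neg (by positivity), Real.rpow_natCast]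
    refine ENNReal.ofReal_le_ofReal ?_
    have h2 := norm_sub_le_jb v w
    have h3 := pow_mul_iw_le (n := 2) (m := dd + 1) (by unfold pK; omega) w
    calc A * ‖v - w‖ ^ 2 * iw w ≤ A * (jb v * (1 + ‖w‖)) ^ 2 * iw w := by gcongr
      _ = A * jb v ^ 2 * ((1 + ‖w‖) ^ 2 * iw w) := by ring
      _ ≤ _ := by gcongr
  refine (lintegral_mono h1).trans ?_
  rw [lintegral_const_mul' _ _ ENNReal.ofReal_ne_top, ← ENNReal.ofReal_toReal hfin.ne, ← hB,
    ← ENNReal.ofReal_mul (by positivity), Real.rpow_two]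
  refine ENNReal.ofReal_le_ofReal ?_
  nlinarith [mul_pos hA0 (pow_pos hv 2)]

open Classical in
/-- the test function for long jumps in the window -/
def Ph (f : E → ℝ) (t : ℝ) (w x : E) : ℝ :=
  if 1 < |t| ∧ |t| ≤ 5 * jb x then MM w * f x ^ 2 else 0

lemma measurable_Ph {f : E → ℝ} (hf : Measurable f) :
    Measurable fun z : ℝ × E × E => Ph f z.1 z.2.1 z.2.2 := by
  unfold Ph
  refine Measurable.ite ?_ (by fun_prop) measurable_const
  exact (measurableSet_lt (f := fun _ => (1 : ℝ)) (g := fun z : ℝ × E × E => |z.1|)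
    measurable_const (by fun_prop)).inter (measurableSet_le (f := fun z : ℝ × E × E => |z.1|)
      (g := fun z => 5 * jb z.2.2) (by fun_prop) (by fun_prop))

lemma Ph_nonneg (f : E → ℝ) (t : ℝ) (w x : E) : 0 ≤ Ph f t w x := by
  unfold Ph
  split_ifs
  · exact mul_nonneg (MM_pos w).le (sq_nonneg _)
  · exact le_rfl

lemma line (f : E → ℝ) (w x : E) :
    ∫⁻ t : ℝ, ENNReal.ofReal
        (2 * (t ^ 2 + ‖x - w‖ ^ 2) ^ (3 / 2 : ℝ) * |t| ^ (-(101 / 100) : ℝ) * Ph f t w x)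
      ≤ ENNReal.ofReal (4320 * (jb x ^ 4 * f x ^ 2) * ((1 + ‖w‖) ^ 3 * MM w)) := by
  have hx := jb_pos x
  have hw := MM_pos w
  have h1 : ∀ t : ℝ, ENNReal.ofReal
        (2 * (t ^ 2 + ‖x - w‖ ^ 2) ^ (3 / 2 : ℝ) * |t| ^ (-(101 / 100) : ℝ) * Ph f t w x)
      ≤ (Icc (-(5 * jb x)) (5 * jb x)).indicator (fun _ => ENNReal.ofReal
        (432 * (jb x ^ 3 * f x ^ 2) * ((1 + ‖w‖) ^ 3 * MM w))) t := by
    intro t
    unfold Ph
    split_ifs with ht
    · rw [indicator_of_mem (show t ∈ Icc (-(5 * jb x)) (5 * jb x) from abs_le.1 ht.2)]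
      refine ENNReal.ofReal_le_ofReal ?_
      have h2 : |t| ^ (-(101 / 100) : ℝ) ≤ 1 :=
        Real.rpow_le_one_of_one_le_of_nonpos ht.1.le (by norm_num)
      have h3 : t ^ 2 + ‖x - w‖ ^ 2 ≤ (6 * (jb x * (1 + ‖w‖))) ^ 2 := by
        have a1 : t ^ 2 ≤ (5 * jb x) ^ 2 := sq_le_sq' (neg_le_of_abs_le ht.2) (le_of_abs_le ht.2)
        have a2 : ‖x - w‖ ^ 2 ≤ (jb x * (1 + ‖w‖)) ^ 2 := by gcongr; exact norm_sub_le_jb x w
        have a3 : jb x ≤ jb x * (1 + ‖w‖) :=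
          le_mul_of_one_le_right hx.le (by linarith [norm_nonneg w])
        have a4 : jb x ^ 2 ≤ (jb x * (1 + ‖w‖)) ^ 2 := by gcongr
        nlinarith
      have h4 : (t ^ 2 + ‖x - w‖ ^ 2) ^ (3 / 2 : ℝ) ≤ (6 * (jb x * (1 + ‖w‖))) ^ 3 := by
        refine (Real.rpow_le_rpow (by positivity) h3 (by norm_num)).trans (le_of_eq ?_)
        rw [← Real.rpow_natCast, ← Real.rpow_mul (by positivity), ← Real.rpow_natCast]
        norm_num
      calc 2 * (t ^ 2 + ‖x - w‖ ^ 2) ^ (3 / 2 : ℝ) * |t| ^ (-(101 / 100) : ℝ) * (MM w * f x ^ 2)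
          ≤ 2 * (6 * (jb x * (1 + ‖w‖))) ^ 3 * 1 * (MM w * f x ^ 2) := by gcongr
        _ = _ := by ring
    · rw [mul_zero, ENNReal.ofReal_zero]; exact zero_le
  refine (lintegral_mono h1).trans (le_of_eq ?_)
  rw [lintegral_indicator_const measurableSet_Icc, Real.volume_Icc,
    ← ENNReal.ofReal_mul (by positivity)]
  congr 1
  ring

/-- long jumps in the window, marginal after the collision -/
lemma far (hP : PostStmt) (hC : ConvStmt) : ∃ C : ℝ, 0 < C ∧ ∀ f : E → ℝ, Measurable f →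
    I3 (fun p => ker3 p * Ph f (rho p) p.2.1 (v1 p))
      ≤ ENNReal.ofReal C * Wn 0 (fun x => jb x ^ 2 * f x) := by
  obtain ⟨C, hC0, hC⟩ := hC
  have hS := cS_pos
  set e := Real.exp ((dd + 5 + pK : ℕ) ^ 2) with he
  have he0 : 0 < e := Real.exp_pos _
  refine ⟨cS * 4320 * e * C, by positivity, fun f hf => ?_⟩
  rw [hP _ (measurable_Ph hf), Wn, ← lintegral_const_mul' _ _ ENNReal.ofReal_ne_top]
  refine lintegral_mono fun x => ?_
  have hx := jb_pos x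
  have h1 : ∀ w : E, ENNReal.ofReal (cS / ‖x - w‖) * ∫⁻ t : ℝ, ENNReal.ofReal
        (2 * (t ^ 2 + ‖x - w‖ ^ 2) ^ (3 / 2 : ℝ) * |t| ^ (-(101 / 100) : ℝ) * Ph f t w x)
      ≤ ENNReal.ofReal (cS * 4320 * e * (jb x ^ 4 * f x ^ 2))
        * ENNReal.ofReal (((1 + ‖w‖) ^ (dd + 2))⁻¹ / ‖x - w‖) := by
    intro w
    refine (mul_le_mul_right (line f w x) _).trans ?_
    rw [← ENNReal.ofReal_mul (by positivity), ← ENNReal.ofReal_mul (by positivity)]
    refine ENNReal.ofReal_le_ofReal ?_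
    have h2 : (1 + ‖w‖) ^ 3 * MM w ≤ e * ((1 + ‖w‖) ^ (dd + 2))⁻¹ := by
      have a1 := pow_mul_MM_le (dd + 5) w
      have a2 : iw w ≤ 1 := by simpa using pow_mul_iw_le (n := 0) (m := 0) (Nat.zero_le _) w
      rw [← div_eq_mul_inv, le_div_iff₀ (by positivity)]
      calc _ = (1 + ‖w‖) ^ (dd + 5) * MM w := by ring
        _ ≤ e * iw w := a1
        _ ≤ e := mul_le_of_le_one_right he0.le a2
    calc cS / ‖x - w‖ * (4320 * (jb x ^ 4 * f x ^ 2) * ((1 + ‖w‖) ^ 3 * MM w))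
        ≤ cS / ‖x - w‖ * (4320 * (jb x ^ 4 * f x ^ 2) * (e * ((1 + ‖w‖) ^ (dd + 2))⁻¹)) := by
          gcongr
      _ = _ := by ring
  refine (lintegral_mono h1).trans ?_
  rw [lintegral_const_mul' _ _ ENNReal.ofReal_ne_top]
  refine (mul_le_mul_right (hC x) _).trans ?_
  rw [← ENNReal.ofReal_mul (by positivity), ← ENNReal.ofReal_mul (by positivity), Real.rpow_zero]
  refine ENNReal.ofReal_le_ofReal ?_
  have h3 : C / jb x ≤ C := div_le_self hC0.le (one_le_jb x)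
  calc cS * 4320 * e * (jb x ^ 4 * f x ^ 2) * (C / jb x)
      ≤ cS * 4320 * e * (jb x ^ 4 * f x ^ 2) * C := by gcongr
    _ = _ := by ring

lemma near {K K1 : ℝ} {c : E → ℝ} (hc : Nice 0 K c) (h1 : Nice pK K1 sM) (g : E → ℝ)
    {p : E × E × S2} (ht : |rho p| ≤ 1) :
    MM p.2.1 * (c (v1 p) * g (v1 p) - c p.1 * g p.1) ^ 2
      ≤ 4 * K ^ 2 * Inc (fun v w => g v * sM w) p ^ 2
        + K ^ 2 * (4 * K1 + 2 * (Real.exp ((pK : ℕ) ^ 2) * 2 ^ pK))
          * (|rho p| * iw (w1 p) * g (v1 p) ^ 2) := by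
  have hK := hc.nonneg
  have hK1 := h1.nonneg
  have hM := MM_pos p.2.1
  have hi := iw_pos (w1 p)
  have ht0 := abs_nonneg (rho p)
  have ew : ‖p.2.1 - w1 p‖ = |rho p| := by rw [norm_sub_rev, norm_w1_sub]
  have a1 : c p.1 ^ 2 ≤ K ^ 2 :=
    sq_le_sq' (neg_le_of_abs_le (hc.abs_le _)) (le_of_abs_le (hc.abs_le _))
  have a2 : (c (v1 p) - c p.1) ^ 2 ≤ K ^ 2 * |rho p| := by
    have b1 := hc.lip' p.1 (v1 p) ((norm_v1_sub p).le.trans ht)
    rw [pow_zero, one_mul, norm_v1_sub] at b1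
    have b2 : (c (v1 p) - c p.1) ^ 2 ≤ (K * |rho p|) ^ 2 :=
      sq_le_sq' (neg_le_of_abs_le b1) (le_of_abs_le b1)
    have b3 : |rho p| ^ 2 ≤ |rho p| := by nlinarith
    calc _ ≤ (K * |rho p|) ^ 2 := b2
      _ = K ^ 2 * |rho p| ^ 2 := by ring
      _ ≤ _ := by gcongr
  have a3 : (sM p.2.1 - sM (w1 p)) ^ 2 ≤ K1 * |rho p| * iw (w1 p) := by
    have b1 := h1.lip' (w1 p) p.2.1 (ew.le.trans ht)
    rw [ew] at b1
    have b2 : |sM p.2.1 - sM (w1 p)| ≤ K1 * |rho p| * iw (w1 p) := by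
      rw [iw, ← div_eq_mul_inv, le_div_iff₀ (by positivity), mul_comm]
      exact b1
    have b3 : |sM p.2.1 - sM (w1 p)| ≤ 1 := abs_le.2
      ⟨by linarith [sM_pos p.2.1, sM_le_one (w1 p)], by linarith [sM_pos (w1 p), sM_le_one p.2.1]⟩
    rw [← sq_abs, sq]
    exact (mul_le_of_le_one_right (abs_nonneg _) b3).trans b2
  have a4 : MM p.2.1 ≤ Real.exp ((pK : ℕ) ^ 2) * 2 ^ pK * iw (w1 p) := by
    refine (MM_le_iw _).trans ?_
    rw [mul_assoc]
    exact mul_le_mul_of_nonneg_left (iw_le_near (ew.le.trans ht)) (Real.exp_pos _).le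
  set e := Real.exp ((pK : ℕ) ^ 2) * 2 ^ pK with he
  have eI : Inc (fun v w => g v * sM w) p = g (v1 p) * sM (w1 p) - g p.1 * sM p.2.1 := rfl
  set I := Inc (fun v w => g v * sM w) p with hI
  have a5 : MM p.2.1 * (g (v1 p) - g p.1) ^ 2
      ≤ 2 * I ^ 2 + 2 * (K1 * |rho p| * iw (w1 p) * g (v1 p) ^ 2) := by
    have b1 : MM p.2.1 * (g (v1 p) - g p.1) ^ 2
        = (I + (sM p.2.1 - sM (w1 p)) * g (v1 p)) ^ 2 := by rw [eI, MM]; ring
    have b2 := mul_le_mul_of_nonneg_right a3 (sq_nonneg (g (v1 p)))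
    rw [b1]
    nlinarith [sq_nonneg (I - (sM p.2.1 - sM (w1 p)) * g (v1 p))]
  have a6 : (c (v1 p) * g (v1 p) - c p.1 * g p.1) ^ 2
      ≤ 2 * (K ^ 2 * (g (v1 p) - g p.1) ^ 2) + 2 * (K ^ 2 * |rho p| * g (v1 p) ^ 2) := by
    have b1 := mul_le_mul_of_nonneg_right a1 (sq_nonneg (g (v1 p) - g p.1))
    have b2 := mul_le_mul_of_nonneg_right a2 (sq_nonneg (g (v1 p)))
    nlinarith [sq_nonneg (c p.1 * (g (v1 p) - g p.1) - (c (v1 p) - c p.1) * g (v1 p))]
  calc _ ≤ MM p.2.1 * (2 * (K ^ 2 * (g (v1 p) - g p.1) ^ 2)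
        + 2 * (K ^ 2 * |rho p| * g (v1 p) ^ 2)) := by gcongr
    _ = 2 * K ^ 2 * (MM p.2.1 * (g (v1 p) - g p.1) ^ 2)
        + 2 * (K ^ 2 * |rho p| * g (v1 p) ^ 2) * MM p.2.1 := by ring
    _ ≤ 2 * K ^ 2 * (2 * I ^ 2 + 2 * (K1 * |rho p| * iw (w1 p) * g (v1 p) ^ 2))
        + 2 * (K ^ 2 * |rho p| * g (v1 p) ^ 2) * (e * iw (w1 p)) := by gcongr
    _ = _ := by ring

lemma abs_rho_le_of_Win {p : E × E × S2} (h : Win p) : |rho p| ≤ 5 * jb (v1 p) := by
  have h1 := le_rh_of_Win 1 h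
  rw [pow_one, rh, pow_one, le_min_iff, xr, le_div_iff₀ (jb_pos _)] at h1
  rw [← norm_v1_sub]
  linarith [norm_sub_le (v1 p) p.1, norm_le_jb (v1 p), norm_le_jb p.1, h1.1]

lemma point {K K1 : ℝ} {c : E → ℝ} (hc : Nice 0 K c) (h1 : Nice pK K1 sM) (g : E → ℝ)
    (p : E × E × S2) :
    kS Win p * MM p.2.1 * (c (v1 p) * g (v1 p) - c p.1 * g p.1) ^ 2
      ≤ 4 * K ^ 2 * (ker3 p * Inc (fun v w => g v * sM w) p ^ 2)
        + K ^ 2 * (4 * K1 + 2 * (Real.exp ((pK : ℕ) ^ 2) * 2 ^ pK))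
          * (kx (coll p) * iw (coll p).2.1 * g (coll p).1 ^ 2)
        + 2 * Real.exp ((pK : ℕ) ^ 2) * K ^ 2 * (kx p * iw p.2.1 * g p.1 ^ 2)
        + 2 * (ker3 p * Ph (fun v => c v * g v) (rho p) p.2.1 (v1 p)) := by
  rw [kx_coll, coll_fst, coll_snd]
  have hK1 := h1.nonneg
  have hk := ker3_nonneg p
  have hx := kx_nonneg p
  have hM := MM_pos p.2.1
  have hi := iw_pos p.2.1
  have hi' := iw_pos (w1 p)
  have hP := Ph_nonneg (fun v => c v * g v) (rho p) p.2.1 (v1 p)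
  by_cases hW : Win p
  swap
  · rw [kS_neg hW, zero_mul, zero_mul]; positivity
  rw [kS_pos hW, mul_assoc]
  rcases le_or_gt |rho p| 1 with ht | ht
  · have a1 := mul_le_mul_of_nonneg_left (near hc h1 g ht) hk
    have a2 : kx p = ker3 p * |rho p| := by rw [kx, min_eq_right ht]
    have a3 : 0 ≤ 2 * Real.exp ((pK : ℕ) ^ 2) * K ^ 2 * (kx p * iw p.2.1 * g p.1 ^ 2) := by
      positivity
    have a4 : 0 ≤ 2 * (ker3 p * Ph (fun v => c v * g v) (rho p) p.2.1 (v1 p)) := by positivity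
    refine le_trans (a1.trans (le_of_eq ?_)) ((le_add_of_nonneg_right a3).trans
      (le_add_of_nonneg_right a4))
    rw [a2]; ring
  · have a2 : kx p = ker3 p := by rw [kx, min_eq_left ht.le, mul_one]
    have a3 : Ph (fun v => c v * g v) (rho p) p.2.1 (v1 p)
        = MM p.2.1 * (c (v1 p) * g (v1 p)) ^ 2 := if_pos ⟨ht, abs_rho_le_of_Win hW⟩
    have a1 : c p.1 ^ 2 ≤ K ^ 2 :=
      sq_le_sq' (neg_le_of_abs_le (hc.abs_le _)) (le_of_abs_le (hc.abs_le _))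
    have a4 := MM_le_iw p.2.1
    have a5 : 0 ≤ 4 * K ^ 2 * (ker3 p * Inc (fun v w => g v * sM w) p ^ 2)
        + K ^ 2 * (4 * K1 + 2 * (Real.exp ((pK : ℕ) ^ 2) * 2 ^ pK))
          * (kx p * iw (w1 p) * g (v1 p) ^ 2) := by positivity
    have a6 : (c (v1 p) * g (v1 p) - c p.1 * g p.1) ^ 2
        ≤ 2 * (c p.1 ^ 2 * g p.1 ^ 2) + 2 * (c (v1 p) * g (v1 p)) ^ 2 := by
      nlinarith [sq_nonneg (c (v1 p) * g (v1 p) + c p.1 * g p.1)]
    rw [add_assoc, a3]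
    refine le_trans ?_ (le_add_of_nonneg_left a5)
    rw [a2]
    calc _ ≤ ker3 p * (MM p.2.1
          * (2 * (c p.1 ^ 2 * g p.1 ^ 2) + 2 * (c (v1 p) * g (v1 p)) ^ 2)) := by gcongr
      _ = 2 * ker3 p * g p.1 ^ 2 * (MM p.2.1 * c p.1 ^ 2)
          + 2 * (ker3 p * (MM p.2.1 * (c (v1 p) * g (v1 p)) ^ 2)) := by ring
      _ ≤ 2 * ker3 p * g p.1 ^ 2 * (Real.exp ((pK : ℕ) ^ 2) * iw p.2.1 * K ^ 2)
          + 2 * (ker3 p * (MM p.2.1 * (c (v1 p) * g (v1 p)) ^ 2)) := by gcongr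
      _ = _ := by ring

omit [Dim] in
lemma add_le {a b : ℝ} (ha : 0 ≤ a) (hb : 0 ≤ b) {x y N : ℝ≥0∞} (hx : x ≤ ENNReal.ofReal a * N)
    (hy : y ≤ ENNReal.ofReal b * N) : x + y ≤ ENNReal.ofReal (a + b) * N := by
  rw [ENNReal.ofReal_add ha hb, add_mul]
  exact add_le_add hx hy

omit [Dim] in
lemma mul_le {a b : ℝ} (ha : 0 ≤ a) {x N : ℝ≥0∞} (hx : x ≤ ENNReal.ofReal b * N) :
    ENNReal.ofReal a * x ≤ ENNReal.ofReal (a * b) * N := by
  rw [ENNReal.ofReal_mul ha, mul_assoc]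
  exact mul_le_mul_right hx _

end T4

open T4 in
theorem t4 (hA : AngStmt) (hP : PostStmt) (hC : ConvStmt) (h2 : C2Stmt) : T4Stmt := by
  intro q
  obtain ⟨K, hK⟩ := nice_chi q 0
  obtain ⟨K2, hK2⟩ := nice_chi (q + 2) 0
  obtain ⟨K1, hK1⟩ : ∃ K1, Nice pK K1 sM := ⟨_, nice_sM pK⟩
  obtain ⟨K3, hK3⟩ : ∃ K3, Nice pN K3 sM := ⟨_, nice_sM pN⟩
  obtain ⟨Cm, hm0, hm⟩ := mass hA
  obtain ⟨Cf, hf0, hf⟩ := far hP hC
  obtain ⟨C2, hC20, h2⟩ := h2
  have hK10 := hK1.nonneg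
  set e := Real.exp ((pK : ℕ) ^ 2) with he
  have he0 : 0 < e := Real.exp_pos _
  refine ⟨4 * K ^ 2 * (C2 * K3 ^ 2) + K ^ 2 * (4 * K1 + 2 * (e * 2 ^ pK)) * Cm
    + 2 * e * K ^ 2 * Cm + 2 * (Cf * K2 ^ 2) + K ^ 2 + K ^ 2 + 1, by positivity, fun g hg => ?_⟩
  have ef : (fun v => jb v ^ q * (sM v * g v)) = fun v => jb v ^ q * sM v * g v := by
    funext v; ring
  have hs : Measurable sM := hK1.measurable
  have hN := Wn_two_le g
  have w2 : Wn 2 (fun v => jb v ^ q * sM v * g v) ≤ ENNReal.ofReal (K ^ 2) * NL g :=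
    (Wn_mul_le hK.abs_le 2 g).trans (mul_le_mul_right hN _)
  have w1' : Wn gm (fun v => jb v ^ q * sM v * g v) ≤ ENNReal.ofReal (K ^ 2) * NL g :=
    (Wn_mono (by unfold gm; norm_num) _).trans w2
  have m1 : I3 (fun p => kx p * iw p.2.1 * g p.1 ^ 2) ≤ ENNReal.ofReal Cm * NL g :=
    (hm g hg).trans (mul_le_mul_right hN _)
  have mF : Measurable fun p : E × E × S2 => kx p * iw p.2.1 * g p.1 ^ 2 := by fun_prop
  have m2 : I3 (fun p => kx (coll p) * iw (coll p).2.1 * g (coll p).1 ^ 2)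
      ≤ ENNReal.ofReal Cm * NL g := (I3_coll mF).le.trans m1
  have mf : Measurable fun v => jb v ^ q * sM v * g v := by fun_prop
  have m3 : I3 (fun p => ker3 p * Ph (fun v => jb v ^ q * sM v * g v) (rho p) p.2.1 (v1 p))
      ≤ ENNReal.ofReal (Cf * K2 ^ 2) * NL g := by
    refine (hf _ mf).trans (mul_le hf0.le ?_)
    have e2 : (fun x => jb x ^ 2 * (jb x ^ q * sM x * g x))
        = fun x => jb x ^ (q + 2) * sM x * g x := by funext x; ring
    rw [e2]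
    exact (Wn_mul_le hK2.abs_le 0 g).trans
      (mul_le_mul_right ((Wn_mono (by norm_num) g).trans hN) _)
  have m4 : I3 (fun p => ker3 p * Inc (fun v w => g v * sM w) p ^ 2)
      ≤ ENNReal.ofReal (C2 * K3 ^ 2) * NL g := h2 g sM K3 hg hK3
  have mP : Measurable fun p : E × E × S2 =>
      Ph (fun v => jb v ^ q * sM v * g v) (rho p) p.2.1 (v1 p) :=
    (measurable_Ph mf).comp (f := fun p : E × E × S2 => (rho p, p.2.1, v1 p)) (by fun_prop)
  have hJ : J0 (fun v => jb v ^ q * sM v * g v) ≤ ENNReal.ofReal (4 * K ^ 2 * (C2 * K3 ^ 2)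
      + K ^ 2 * (4 * K1 + 2 * (e * 2 ^ pK)) * Cm + 2 * e * K ^ 2 * Cm + 2 * (Cf * K2 ^ 2))
        * NL g := by
    refine (I3_mono (point hK hK1 g)).trans ?_
    refine (I3_add_le ((measurable_ker3.mul mP).const_mul 2)).trans
      (add_le (by positivity) (by positivity) ?_ ?_)
    · refine (I3_add_le (mF.const_mul _)).trans (add_le (by positivity) (by positivity) ?_ ?_)
      · refine (I3_add_le ((mF.comp measurable_coll).const_mul _)).trans
          (add_le (by positivity) (by positivity) ?_ ?_)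
        · rw [I3_const_mul (by positivity)]; exact mul_le (by positivity) m4
        · rw [I3_const_mul (by positivity)]; exact mul_le (by positivity) m2
      · rw [I3_const_mul (by positivity)]; exact mul_le (by positivity) m1
    · rw [I3_const_mul (by positivity)]; exact mul_le (by positivity) m3
  rw [ef, NN]
  refine (add_le (by positivity) (by positivity) (add_le (by positivity) (by positivity) hJ w1')
    w2).trans ?_
  exact mul_le_mul_left (ENNReal.ofReal_le_ofReal (by linarith)) _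

end Pool.Agent.BoltzM.HC
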