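import Pool.Agent.BoltzM.HC.Basic

/-! The weak form of the collision operator in the Gaussian class. -/

set_option autoImplicit false

open MeasureTheory Set Filter Topology
open scoped ENNReal RealInnerProductSpace

noncomputable section

namespace Pool.Agent.BoltzM.HC

open Coll

variable [Dim]

namespace WF

lemma wt_lt_top : ∫⁻ w : E, ENNReal.ofReal ((1 + ‖w‖) ^ 2 * sM w) < ∞ := by
  have h := finite_integral_one_add_norm (μ := (volume : Measure E)) (r := (dd + 1 : ℕ))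
    (by simp)
  refine lt_of_le_of_lt (lintegral_mono fun w => ?_)
    (lt_of_eq_of_lt (lintegral_const_mul' (ENNReal.ofReal (Real.exp ((2 + (dd + 1) : ℕ) ^ 2))) _
      ENNReal.ofReal_ne_top) (ENNReal.mul_lt_top ENNReal.ofReal_lt_top h))
  rw [← ENNReal.ofReal_mul (Real.exp_pos _).le]
  refine ENNReal.ofReal_le_ofReal ?_
  rw [Real.rpow_neg (by positivity), Real.rpow_natCast, ← div_eq_mul_inv,
    le_div_iff₀ (by positivity)]
  refine le_trans (le_of_eq ?_) (pow_mul_sM_le (2 + (dd + 1)) w)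
  ring

lemma master (hA : AngStmt) : I3 (fun p => kx p * (sM p.1 * sM p.2.1)) ≠ ⊤ := by
  obtain ⟨A, hA0, hA⟩ := hA
  rw [I3, lintegral_mu3 _ (by fun_prop)]
  have h1 : ∀ v w : E, ∫⁻ o, ENNReal.ofReal (kx (v, w, o) * (sM v * sM w)) ∂sph ≤
      ENNReal.ofReal A * ENNReal.ofReal ((1 + ‖v‖) ^ 2 * sM v) *
        ENNReal.ofReal ((1 + ‖w‖) ^ 2 * sM w) := by
    intro v w
    have hv := sM_pos v
    have hw := sM_pos w
    simp only [ENNReal.ofReal_mul (kx_nonneg _)]
    rw [lintegral_mul_const _ (by fun_prop), ← ENNReal.ofReal_mul hA0.le,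
      ← ENNReal.ofReal_mul (by positivity)]
    refine (mul_le_mul_left (hA v w) _).trans ?_
    rw [← ENNReal.ofReal_mul (by positivity)]
    refine ENNReal.ofReal_le_ofReal ?_
    have h2 : ‖v - w‖ ^ 2 ≤ ((1 + ‖v‖) * (1 + ‖w‖)) ^ 2 := by
      gcongr; linarith [wt_le_mul v w]
    calc A * ‖v - w‖ ^ 2 * (sM v * sM w)
        ≤ A * ((1 + ‖v‖) * (1 + ‖w‖)) ^ 2 * (sM v * sM w) := by gcongr
      _ = _ := by ring
  refine ne_of_lt (lt_of_le_of_lt (lintegral_mono fun v => lintegral_mono fun w => h1 v w) ?_)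
  simp only [lintegral_const_mul' _ _ (ENNReal.mul_ne_top ENNReal.ofReal_ne_top
    ENNReal.ofReal_ne_top)]
  rw [lintegral_mul_const' _ _ wt_lt_top.ne, lintegral_const_mul' _ _ ENNReal.ofReal_ne_top]
  exact ENNReal.mul_lt_top (ENNReal.mul_lt_top ENNReal.ofReal_lt_top wt_lt_top) wt_lt_top

lemma integrable_of_le (hA : AngStmt) {a : E × E × S2 → ℝ} (ha : Measurable a) {C : ℝ}
    (hC : 0 ≤ C) (h : ∀ p, |a p| ≤ C * min 1 |rho p|) :
    Integrable (fun p => ker3 p * (sM p.1 * sM p.2.1) * a p) mu3 := by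
  refine integrable_of_I3 (by fun_prop) (ne_top_of_le_ne_top ?_
    (I3_mono (G := fun p => C * (kx p * (sM p.1 * sM p.2.1))) fun p => ?_))
  · rw [I3_const_mul hC]
    exact ENNReal.mul_ne_top ENNReal.ofReal_ne_top (master hA)
  · have h1 := ker3_nonneg p
    have h2 := sM_pos p.1
    have h3 := sM_pos p.2.1
    rw [abs_mul, abs_of_nonneg (by positivity)]
    calc ker3 p * (sM p.1 * sM p.2.1) * |a p|
        ≤ ker3 p * (sM p.1 * sM p.2.1) * (C * min 1 |rho p|) := by gcongr; exact h p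
      _ = _ := by rw [kx]; ring

lemma jump_le {K : ℝ} {ψ : E → ℝ} (h : Nice 0 K ψ) (p : E × E × S2) :
    |ψ (v1 p) - ψ p.1| ≤ 2 * K * min 1 |rho p| := by
  have hK := h.nonneg
  rcases le_total |rho p| 1 with h1 | h1
  · have h2 := h.lip' p.1 (v1 p) ((norm_v1_sub p).le.trans h1)
    rw [pow_zero, one_mul, norm_v1_sub] at h2
    rw [min_eq_right h1]
    nlinarith [mul_nonneg hK (abs_nonneg (rho p))]
  · rw [min_eq_left h1]
    linarith [abs_sub (ψ (v1 p)) (ψ p.1), h.abs_le (v1 p), h.abs_le p.1]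

/-- the unweighted weak form -/
lemma weak (hA : AngStmt) {Kr KH Kψ : ℝ} {r H ψ : E → ℝ} (hr : Nice 0 Kr r) (hH : Nice 0 KH H)
    (hψ : Nice 0 Kψ ψ) : ∫ v, sM v * ψ v * Gam r H v =
      ∫ p, ker3 p * (sM p.1 * sM p.2.1) * (r p.2.1 * H p.1 * (ψ (v1 p) - ψ p.1)) ∂mu3 := by
  have mr := hr.measurable
  have mH := hH.measurable
  have mψ := hψ.measurable
  have k1 := hr.nonneg
  have k2 := hH.nonneg
  have k3 := hψ.nonneg
  have i1 := integrable_of_le hA
    (a := fun p => ψ p.1 * (r (w1 p) * H (v1 p) - r p.2.1 * H p.1)) (by fun_prop)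
    (C := Kψ * (2 * Kr * KH)) (by positivity) fun p => by
      have h1 := inc_bound hr hH p.1 p.2.1 p.2.2
      rw [pow_zero, one_mul, zero_add, pow_one] at h1
      rw [abs_mul, mul_assoc]
      exact mul_le_mul (hψ.abs_le _) h1 (abs_nonneg _) k3
  have i2 := integrable_of_le hA
    (a := fun p => r p.2.1 * H p.1 * (ψ (v1 p) - ψ p.1)) (by fun_prop)
    (C := Kr * KH * (2 * Kψ)) (by positivity) fun p => by
      rw [abs_mul, abs_mul, mul_assoc (Kr * KH)]
      exact mul_le_mul (mul_le_mul (hr.abs_le _) (hH.abs_le _) (abs_nonneg _) k1)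
        (jump_le hψ p) (abs_nonneg _) (by positivity)
  have e1 : ∫ v, sM v * ψ v * Gam r H v = ∫ p, ker3 p * (sM p.1 * sM p.2.1) *
      (ψ p.1 * (r (w1 p) * H (v1 p) - r p.2.1 * H p.1)) ∂mu3 := by
    rw [mu3, integral_prod _ i1]
    refine integral_congr_ae (ae_of_all _ fun v => ?_)
    simp only [Gam, Tri]
    rw [← integral_const_mul]
    refine integral_congr_ae (ae_of_all _ fun z => ?_)
    simp only [triI, ker3, v1, w1]
    ring
  set D : E × E × S2 → ℝ := fun p => ker3 p * (sM p.1 * sM p.2.1) *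
    (ψ p.1 * (r (w1 p) * H (v1 p)) - r p.2.1 * H p.1 * ψ (v1 p)) with hD
  have e2 : ∫ p, D p ∂mu3 = -∫ p, D p ∂mu3 := by
    rw [← integral_neg, ← integral_coll]
    refine integral_congr_ae (ae_of_all _ fun p => ?_)
    have h1 : sM (v1 p) * sM (w1 p) = sM p.1 * sM p.2.1 := sM_pv_mul _ _ _
    simp only [hD, ker3_coll, v1_coll, w1_coll, coll_fst, coll_snd, h1]
    ring
  have e3 : ∫ p, D p ∂mu3 = 0 := by linarith
  rw [e1, ← sub_eq_zero, ← integral_sub i1 i2, ← e3]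
  refine integral_congr_ae (ae_of_all _ fun p => ?_)
  simp only [hD]
  ring

end WF

theorem wf (hA : AngStmt) (hR : RapStmt) : WFStmt := by
  intro q r H K hr hH hK
  obtain ⟨h1, -, h2, h3, -⟩ := hR
  obtain ⟨_, n1⟩ := hr 0
  obtain ⟨_, n2⟩ := hH 0
  obtain ⟨_, n3⟩ := h3 q _ (h3 q _ (h2 _ _ h1 hK)) 0
  have h := WF.weak hA n1 n2 n3
  rw [wk]
  refine Eq.trans (integral_congr_ae (ae_of_all _ fun v => ?_))
    (h.trans (integral_congr_ae (ae_of_all _ fun p => ?_)))
  · simp only [MM, ← jb_pow_two_mul]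
    ring
  · simp only [wI, wJ, ← xr_mul p]
    ring

end Pool.Agent.BoltzM.HC
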