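import Pool.Agent.BoltzM.HC.A
import Pool.Agent.BoltzM.HC.B1
import Pool.Agent.BoltzM.HC.B2
import Pool.Agent.BoltzM.HC.Far
import Pool.Agent.BoltzM.HC.Fin
import Pool.Agent.BoltzM.HC.K1
import Pool.Agent.BoltzM.HC.K2L
import Pool.Agent.BoltzM.HC.K2S
import Pool.Agent.BoltzM.HC.M1L
import Pool.Agent.BoltzM.HC.M1U
import Pool.Agent.BoltzM.HC.M2L
import Pool.Agent.BoltzM.HC.M2R
import Pool.Agent.BoltzM.HC.M2U
import Pool.Agent.BoltzM.HC.T1
import Pool.Agent.BoltzM.HC.T2F
import Pool.Agent.BoltzM.HC.T2N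
import Pool.Agent.BoltzM.HC.T4
import Pool.Agent.BoltzM.HC.WF
import Pool.Agent.BoltzM.Coll.C2

/-! The weighted estimates without hypotheses. -/

set_option autoImplicit false

namespace Pool.Agent.BoltzM.HC

open Coll

variable [Dim]

theorem far' : FarStmt := far post conv

theorem fin' : FinStmt := fin ang

theorem k2' : K2Stmt := k2 k2S k2L far'

theorem m2R' : M2RStmt := m2R ang fin' (m2U post conv far') (m2L post)

theorem b1' : B1Stmt := b1 ang post conv

theorem bA' : BaStmt := bA aS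

theorem bB' : BbStmt := bB post conv

theorem wf' : WFStmt := wf ang rap

theorem k1' : K1Stmt := k1 rap fin' m1L (m1U ang) m2R' b1' bB' k2'

theorem t1d' : T1DStmt := t1d fin' (m1U ang) m2R' b1' k2'

theorem t1' : T1Stmt := t1 ang fin' (m1U ang) b1' k2'

theorem t2' : T2Stmt := t2 rap fin' (t2F aS) (t2N ang conv rap)

theorem t3' : T3Stmt := t3 ang

theorem t4' : T4Stmt := t4 ang post conv c2

end Pool.Agent.BoltzM.HC
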