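import Pool.Agent.BoltzM.HC.Spec

/-! Elementary facts for the weighted estimates. -/

set_option autoImplicit false

open MeasureTheory Set Filter Topology
open scoped ENNReal RealInnerProductSpace

noncomputable section

namespace Pool.Agent.BoltzM.HC

open Coll

variable [Dim]

@[fun_prop] lemma measurable_rho : Measurable rho := by unfold rho; fun_prop

lemma rho_coll (p : E × E × S2) : rho (coll p) = -rho p := inner_pv_sub_pw _ _ _

lemma rho_swp (p : E × E × S2) : rho (swp p) = -rho p := by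
  rw [rho, rho, ← inner_neg_left, neg_sub]; rfl

lemma ker3_eq (p : E × E × S2) :
    ker3 p = 2 * ‖p.1 - p.2.1‖ ^ (3 : ℝ) * |rho p| ^ (-(101 / 100) : ℝ) := rfl

lemma ker3_eq' (p : E × E × S2) :
    ker3 p = 2 * ‖p.1 - p.2.1‖ ^ 3 * |rho p| ^ (-(101 / 100) : ℝ) := by
  rw [ker3_eq, show (3 : ℝ) = (3 : ℕ) by norm_num, Real.rpow_natCast]

lemma jb_sq (v : E) : jb v ^ 2 = 1 + ‖v‖ ^ 2 := Real.sq_sqrt (by positivity)

lemma one_le_jb (v : E) : 1 ≤ jb v := Real.one_le_sqrt.2 (by nlinarith [sq_nonneg ‖v‖])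

lemma jb_pos (v : E) : 0 < jb v := lt_of_lt_of_le one_pos (one_le_jb v)

lemma norm_le_jb (v : E) : ‖v‖ ≤ jb v :=
  Real.le_sqrt_of_sq_le (by linarith)

lemma jb_le (v : E) : jb v ≤ 1 + ‖v‖ :=
  Real.sqrt_le_iff.2 ⟨by positivity, by nlinarith [norm_nonneg v]⟩

lemma le_two_jb (v : E) : 1 + ‖v‖ ≤ 2 * jb v := by linarith [one_le_jb v, norm_le_jb v]

lemma jb_pow_two_mul (v : E) (q : ℕ) : jb v ^ q * jb v ^ q = (1 + ‖v‖ ^ 2) ^ q := by
  rw [← mul_pow, ← sq, jb_sq]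

lemma jb_add_le (v z : E) : jb (v + z) ≤ jb v + ‖z‖ := by
  refine Real.sqrt_le_iff.2 ⟨by linarith [jb_pos v, norm_nonneg z], ?_⟩
  have h1 := norm_add_le v z
  have h2 : ‖v + z‖ ^ 2 ≤ (‖v‖ + ‖z‖) ^ 2 := by gcongr
  nlinarith [jb_sq v, norm_le_jb v, norm_nonneg z]

lemma abs_jb_sub_le (v v' : E) : |jb v' - jb v| ≤ ‖v' - v‖ := by
  have h1 := jb_add_le v (v' - v)
  have h2 := jb_add_le v' (v - v')
  rw [add_sub_cancel] at h1 h2
  rw [norm_sub_rev] at h2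
  exact abs_le.2 ⟨by linarith, by linarith⟩

lemma jb_add_le_mul (v z : E) : jb (v + z) ≤ jb v * (1 + ‖z‖) := by
  nlinarith [jb_add_le v z, one_le_jb v, norm_nonneg z]

lemma norm_sub_le_jb (v w : E) : ‖v - w‖ ≤ jb v * (1 + ‖w‖) := by
  have := jb_add_le_mul v (-w)
  rw [norm_neg, ← sub_eq_add_neg] at this
  exact (norm_le_jb _).trans this

@[fun_prop] lemma continuous_jb : Continuous jb := by unfold jb; fun_prop

@[fun_prop] lemma measurable_jb : Measurable jb := continuous_jb.measurable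

lemma MM_pos (w : E) : 0 < MM w := pow_pos (sM_pos w) 2

@[fun_prop] lemma measurable_MM : Measurable MM := by unfold MM; fun_prop

lemma iw_pos (w : E) : 0 < iw w := by unfold iw; positivity

@[fun_prop] lemma measurable_iw : Measurable iw := by unfold iw; fun_prop

lemma pow_mul_iw_le {n m : ℕ} (h : n + m ≤ pK) (w : E) :
    (1 + ‖w‖) ^ n * iw w ≤ ((1 + ‖w‖) ^ m)⁻¹ := by
  have h1 : (1 : ℝ) ≤ 1 + ‖w‖ := by linarith [norm_nonneg w]
  rw [iw, ← div_eq_mul_inv, inv_eq_one_div, div_le_div_iff₀ (by positivity) (by positivity),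
    one_mul, ← pow_add]
  exact pow_le_pow_right₀ h1 h

lemma pow_mul_MM_le (n : ℕ) (w : E) :
    (1 + ‖w‖) ^ n * MM w ≤ Real.exp ((n + pK : ℕ) ^ 2) * iw w := by
  have h1 := pow_mul_sM_le (n + pK) w
  have h2 : MM w ≤ sM w := by
    rw [MM, sq]; exact mul_le_of_le_one_right (sM_pos w).le (sM_le_one w)
  rw [iw, ← div_eq_mul_inv, le_div_iff₀ (by positivity)]
  calc _ = (1 + ‖w‖) ^ (n + pK) * MM w := by ring
    _ ≤ (1 + ‖w‖) ^ (n + pK) * sM w := by gcongr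
    _ ≤ _ := h1

@[fun_prop] lemma measurable_v1 : Measurable v1 := by unfold v1; fun_prop

@[fun_prop] lemma measurable_w1 : Measurable w1 := by unfold w1; fun_prop

@[fun_prop] lemma measurable_xr : Measurable xr := by unfold xr; fun_prop

@[fun_prop] lemma measurable_zr : Measurable zr := by unfold zr; fun_prop

@[fun_prop] lemma measurable_rh (q : ℕ) : Measurable (rh q) := by unfold rh; fun_prop

@[fun_prop] lemma measurable_r2 (q : ℕ) : Measurable (r2 q) := by unfold r2; fun_prop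

lemma measurable_perp3 : Measurable fun p : E × E × S2 => Geo.perp (p.2.2 : E) p.1 := by
  unfold Geo.perp; fun_prop

lemma measurableSet_Win : MeasurableSet {p | Win p} :=
  measurableSet_le (by fun_prop) ((measurable_jb.comp measurable_perp3).const_mul 3)

lemma measurableSet_Out : MeasurableSet {p | Out p} :=
  (measurableSet_lt (f := fun _ => (1 : ℝ)) (g := fun p => |rho p|) measurable_const
    (by fun_prop)).inter (measurableSet_lt (f := fun p : E × E × S2 => ‖p.1‖)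
      (g := fun p => ‖p.2.1‖) (by fun_prop) (by fun_prop))

lemma measurableSet_RS : MeasurableSet {p | RS p} :=
  measurableSet_lt (by fun_prop) measurable_const

lemma measurableSet_RL : MeasurableSet {p | RL p} :=
  measurableSet_RS.compl.inter
    ((measurableSet_le (by fun_prop) (measurable_jb.comp measurable_perp3)).inter
      (measurableSet_le (by fun_prop) (measurable_jb.comp measurable_perp3)))

lemma measurable_kS {S : E × E × S2 → Prop} (h : MeasurableSet {p | S p}) : Measurable (kS S) := by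
  unfold kS; exact Measurable.ite h measurable_ker3 measurable_const

lemma kS_nonneg (S : E × E × S2 → Prop) (p : E × E × S2) : 0 ≤ kS S p := by
  unfold kS; split_ifs
  · exact ker3_nonneg p
  · exact le_rfl

lemma kS_le (S : E × E × S2 → Prop) (p : E × E × S2) : kS S p ≤ ker3 p := by
  unfold kS; split_ifs
  · exact le_rfl
  · exact ker3_nonneg p

lemma kS_pos {S : E × E × S2 → Prop} {p : E × E × S2} (h : S p) : kS S p = ker3 p := if_pos h

lemma kS_neg {S : E × E × S2 → Prop} {p : E × E × S2} (h : ¬S p) : kS S p = 0 := if_neg h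

@[fun_prop] lemma measurable_ke (ε : ℝ) : Measurable (ke ε) :=
  measurable_kS (measurableSet_le measurable_const (by fun_prop))

@[fun_prop] lemma measurable_kf : Measurable kf :=
  measurable_kS (measurableSet_lt measurable_const (by fun_prop))

@[fun_prop] lemma measurable_kn : Measurable kn :=
  measurable_kS (measurableSet_le (by fun_prop) measurable_const)

@[fun_prop] lemma measurable_kx : Measurable kx := by unfold kx; fun_prop

lemma kx_nonneg (p : E × E × S2) : 0 ≤ kx p :=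
  mul_nonneg (ker3_nonneg p) (le_min zero_le_one (abs_nonneg _))

lemma kS_coll {S : E × E × S2 → Prop} {p : E × E × S2} (h : S (coll p) ↔ S p) :
    kS S (coll p) = kS S p := by
  by_cases hp : S p
  · rw [kS_pos hp, kS_pos (h.2 hp), ker3_coll]
  · rw [kS_neg hp, kS_neg fun h' => hp (h.1 h')]

lemma kS_swp {S : E × E × S2 → Prop} {p : E × E × S2} (h : S (swp p) ↔ S p) :
    kS S (swp p) = kS S p := by
  by_cases hp : S p
  · rw [kS_pos hp, kS_pos (h.2 hp), ker3_swp]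
  · rw [kS_neg hp, kS_neg fun h' => hp (h.1 h')]

lemma ke_coll (ε : ℝ) (p : E × E × S2) : ke ε (coll p) = ke ε p :=
  kS_coll (by rw [rho_coll, abs_neg])

lemma kf_coll (p : E × E × S2) : kf (coll p) = kf p := kS_coll (by rw [rho_coll, abs_neg])

lemma kn_coll (p : E × E × S2) : kn (coll p) = kn p := kS_coll (by rw [rho_coll, abs_neg])

lemma ke_swp (ε : ℝ) (p : E × E × S2) : ke ε (swp p) = ke ε p :=
  kS_swp (by rw [rho_swp, abs_neg])

lemma kf_swp (p : E × E × S2) : kf (swp p) = kf p := kS_swp (by rw [rho_swp, abs_neg])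

lemma kn_swp (p : E × E × S2) : kn (swp p) = kn p := kS_swp (by rw [rho_swp, abs_neg])

lemma kx_coll (p : E × E × S2) : kx (coll p) = kx p := by
  rw [kx, kx, ker3_coll, rho_coll, abs_neg]

lemma kx_swp (p : E × E × S2) : kx (swp p) = kx p := by
  rw [kx, kx, ker3_swp, rho_swp, abs_neg]

lemma kf_pos {p : E × E × S2} (h : 1 < |rho p|) : kf p = ker3 p := if_pos h

lemma kf_neg {p : E × E × S2} (h : |rho p| ≤ 1) : kf p = 0 := if_neg (not_lt.2 h)

lemma kn_pos {p : E × E × S2} (h : |rho p| ≤ 1) : kn p = ker3 p := if_pos h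

lemma kn_neg {p : E × E × S2} (h : 1 < |rho p|) : kn p = 0 := if_neg (not_le.2 h)

lemma ke_pos {ε : ℝ} {p : E × E × S2} (h : ε ≤ |rho p|) : ke ε p = ker3 p := if_pos h

lemma ke_neg {ε : ℝ} {p : E × E × S2} (h : |rho p| < ε) : ke ε p = 0 := if_neg (not_le.2 h)

lemma kf_nonneg (p : E × E × S2) : 0 ≤ kf p := kS_nonneg _ p

lemma kn_nonneg (p : E × E × S2) : 0 ≤ kn p := kS_nonneg _ p

lemma ke_nonneg (ε : ℝ) (p : E × E × S2) : 0 ≤ ke ε p := kS_nonneg _ p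

lemma kn_add_kf (p : E × E × S2) : kn p + kf p = ker3 p := by
  rcases le_or_gt |rho p| 1 with h | h
  · rw [kn_pos h, kf_neg h, add_zero]
  · rw [kn_neg h, kf_pos h, zero_add]

lemma kf_le_kx (p : E × E × S2) : kf p ≤ kx p := by
  by_cases h : 1 < |rho p|
  · rw [kf, kS_pos h, kx, min_eq_left h.le, mul_one]
  · rw [kf, kS_neg h]; exact kx_nonneg p

lemma kn_mul_abs_le (p : E × E × S2) : kn p * |rho p| ≤ kx p := by
  by_cases h : |rho p| ≤ 1
  · rw [kn, kS_pos h, kx, min_eq_right h]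
  · rw [kn, kS_neg h, zero_mul]; exact kx_nonneg p

lemma ke_le_kx {ε : ℝ} (hε : 0 < ε) (hε1 : ε ≤ 1) (p : E × E × S2) : ke ε p ≤ ε⁻¹ * kx p := by
  by_cases h : ε ≤ |rho p|
  · rw [ke, kS_pos h, kx, mul_left_comm]
    refine le_mul_of_one_le_right (ker3_nonneg p) ?_
    rw [← div_eq_inv_mul, le_div_iff₀ hε, one_mul]
    exact le_min hε1 h
  · rw [ke, kS_neg h]; exact mul_nonneg (inv_pos.2 hε).le (kx_nonneg p)

lemma v1_coll (p : E × E × S2) : v1 (coll p) = p.1 := pv_pv _ _ _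

lemma w1_coll (p : E × E × S2) : w1 (coll p) = p.2.1 := pw_pw _ _ _

lemma v1_swp (p : E × E × S2) : v1 (swp p) = w1 p := pv_swap _ _ _

lemma w1_swp (p : E × E × S2) : w1 (swp p) = v1 p := pw_swap _ _ _

lemma coll_fst (p : E × E × S2) : (coll p).1 = v1 p := rfl

lemma coll_snd (p : E × E × S2) : (coll p).2.1 = w1 p := rfl

lemma v1_eq (p : E × E × S2) : v1 p = p.1 - rho p • (p.2.2 : E) := rfl

lemma w1_eq (p : E × E × S2) : w1 p = p.2.1 + rho p • (p.2.2 : E) := rfl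

lemma norm_v1_sub (p : E × E × S2) : ‖v1 p - p.1‖ = |rho p| := norm_pv_sub _ _ _

lemma norm_w1_sub (p : E × E × S2) : ‖w1 p - p.2.1‖ = |rho p| := norm_pw_sub _ _ _

lemma abs_rho_le (p : E × E × S2) : |rho p| ≤ ‖p.1 - p.2.1‖ := abs_inner_le _ _

/-- `tau = t + a` -/
lemma inner_fst (p : E × E × S2) : ⟪p.1, (p.2.2 : E)⟫ = rho p + ⟪p.2.1, (p.2.2 : E)⟫ := by
  rw [rho, inner_sub_left]; ring

lemma inner_v1 (p : E × E × S2) : ⟪v1 p, (p.2.2 : E)⟫ = ⟪p.2.1, (p.2.2 : E)⟫ := by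
  rw [v1_eq, inner_sub_left, inner_smul_left, inner_coe_self, inner_fst]; simp

lemma inner_w1 (p : E × E × S2) : ⟪w1 p, (p.2.2 : E)⟫ = ⟪p.1, (p.2.2 : E)⟫ := by
  rw [w1_eq, inner_add_left, inner_smul_left, inner_coe_self, inner_fst]; simp [add_comm]

lemma perp_v1 (p : E × E × S2) : Geo.perp p.2.2 (v1 p) = Geo.perp p.2.2 p.1 := by
  rw [Geo.perp, Geo.perp, inner_v1, inner_fst, v1_eq, add_smul]; abel

lemma perp_w1 (p : E × E × S2) : Geo.perp p.2.2 (w1 p) = Geo.perp p.2.2 p.2.1 := by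
  rw [Geo.perp, Geo.perp, inner_w1, inner_fst, w1_eq, add_smul]; abel

lemma jb_sq_perp (o : S2) (v : E) : jb v ^ 2 = jb (Geo.perp o v) ^ 2 + ⟪v, (o : E)⟫ ^ 2 := by
  rw [jb_sq, jb_sq, Geo.norm_sq_eq_perp (norm_coe o) v]; ring

/-- F1 -/
lemma jb_sq_sub (p : E × E × S2) :
    jb p.1 ^ 2 - jb (v1 p) ^ 2 = rho p ^ 2 + 2 * rho p * ⟪p.2.1, (p.2.2 : E)⟫ := by
  rw [jb_sq_perp p.2.2 p.1, jb_sq_perp p.2.2 (v1 p), perp_v1, inner_v1, inner_fst]; ring

lemma jb_energy (p : E × E × S2) :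
    jb (v1 p) ^ 2 + jb (w1 p) ^ 2 = jb p.1 ^ 2 + jb p.2.1 ^ 2 := by
  have := energy p.1 p.2.1 p.2.2
  simp only [jb_sq, v1, w1]; linarith

lemma xr_pos (p : E × E × S2) : 0 < xr p := div_pos (jb_pos _) (jb_pos _)

lemma zr_pos (p : E × E × S2) : 0 < zr p := div_pos (jb_pos _) (jb_pos _)

lemma xr_mul (p : E × E × S2) : xr p * jb p.1 = jb (v1 p) := div_mul_cancel₀ _ (jb_pos _).ne'

lemma zr_mul (p : E × E × S2) : zr p * jb p.1 = jb (w1 p) := div_mul_cancel₀ _ (jb_pos _).ne'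

lemma xr_coll (p : E × E × S2) : xr (coll p) = (xr p)⁻¹ := by
  rw [xr, xr, v1_coll, coll_fst, inv_div]

lemma rh_pos (q : ℕ) (p : E × E × S2) : 0 < rh q p := lt_min (pow_pos (xr_pos p) q) one_pos

lemma rh_le_one (q : ℕ) (p : E × E × S2) : rh q p ≤ 1 := min_le_right _ _

lemma r2_nonneg (q : ℕ) (p : E × E × S2) : 0 ≤ r2 q p := le_max_right _ _

lemma r2_le (q : ℕ) (p : E × E × S2) : r2 q p ≤ xr p ^ q :=
  max_le (by linarith) (pow_pos (xr_pos p) q).le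

lemma rh_add_r2 (q : ℕ) (p : E × E × S2) : rh q p + r2 q p = xr p ^ q := by
  unfold rh r2
  rcases le_total (xr p ^ q) 1 with h | h
  · rw [min_eq_left h, max_eq_right (by linarith)]; ring
  · rw [min_eq_right h, max_eq_left (by linarith)]; ring

lemma rh_eq (q : ℕ) (p : E × E × S2) : rh q p = min (xr p) 1 ^ q := by
  unfold rh
  rcases le_total (xr p) 1 with h | h
  · rw [min_eq_left h, min_eq_left (pow_le_one₀ (xr_pos p).le h)]
  · rw [min_eq_right h, min_eq_right (one_le_pow₀ h), one_pow]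

lemma rh_le_four {q : ℕ} (hq : 4 ≤ q) (p : E × E × S2) : rh q p ≤ min (xr p) 1 ^ 4 := by
  rw [rh_eq]
  exact pow_le_pow_of_le_one (lt_min (xr_pos p) one_pos).le (min_le_right _ _) hq

/-- `x ≤ <w>` -/
lemma xr_le (p : E × E × S2) : xr p ≤ jb p.2.1 := by
  rw [xr, div_le_iff₀ (jb_pos _)]
  refine abs_le_of_sq_le_sq' ?_ (by have := jb_pos p.1; have := jb_pos p.2.1; positivity) |>.2
  have h1 := jb_energy p
  have h2 : 1 ≤ jb (w1 p) ^ 2 := one_le_pow₀ (one_le_jb _)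
  have h3 : 1 ≤ jb p.1 ^ 2 := one_le_pow₀ (one_le_jb _)
  have h4 : 1 ≤ jb p.2.1 ^ 2 := one_le_pow₀ (one_le_jb _)
  rw [mul_pow]
  nlinarith [mul_nonneg (sub_nonneg.2 h3) (sub_nonneg.2 h4)]

/-- `z ≤ <w>` -/
lemma zr_le (p : E × E × S2) : zr p ≤ jb p.2.1 := by
  rw [zr, div_le_iff₀ (jb_pos _)]
  refine abs_le_of_sq_le_sq' ?_ (by have := jb_pos p.1; have := jb_pos p.2.1; positivity) |>.2
  have h1 := jb_energy p
  have h2 : 1 ≤ jb (v1 p) ^ 2 := one_le_pow₀ (one_le_jb _)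
  have h3 : 1 ≤ jb p.1 ^ 2 := one_le_pow₀ (one_le_jb _)
  have h4 : 1 ≤ jb p.2.1 ^ 2 := one_le_pow₀ (one_le_jb _)
  rw [mul_pow]
  nlinarith [mul_nonneg (sub_nonneg.2 h3) (sub_nonneg.2 h4)]

lemma abs_le_iw {K : ℝ} {G : E → ℝ} (h : Nice pK K G) (w : E) : |G w| ≤ K * iw w := by
  rw [iw, ← div_eq_mul_inv, le_div_iff₀ (by positivity), mul_comm]
  exact h.1 w

lemma MM_le_iw (w : E) : MM w ≤ Real.exp ((pK : ℕ) ^ 2) * iw w := by
  simpa using pow_mul_MM_le 0 w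

lemma iw_le_near {w w' : E} (h : ‖w' - w‖ ≤ 1) : iw w' ≤ 2 ^ pK * iw w := by
  have h1 := wt_le_two_mul h
  rw [iw, iw, ← div_eq_mul_inv, le_div_iff₀ (by positivity), inv_mul_le_iff₀ (by positivity),
    ← mul_pow]
  gcongr
  linarith

/-- `|x - 1| ≤ |t| / <v>` -/
lemma abs_xr_sub_one (p : E × E × S2) : |xr p - 1| ≤ |rho p| / jb p.1 := by
  have h := jb_pos p.1
  rw [xr, div_sub_one h.ne', abs_div, abs_of_pos h, ← norm_v1_sub]
  exact div_le_div_of_nonneg_right (abs_jb_sub_le _ _) h.le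

/-- F1: the loss of weight -/
lemma one_sub_rh_le (q : ℕ) (p : E × E × S2) :
    1 - rh q p ≤ q * ((rho p ^ 2 + 2 * |rho p| * ‖p.2.1‖) / jb p.1 ^ 2) := by
  have h := jb_pos p.1
  have hx := xr_pos p
  rcases le_total 1 (xr p) with h1 | h1
  · rw [rh, min_eq_right (one_le_pow₀ h1), sub_self]; positivity
  · rw [rh, min_eq_left (pow_le_one₀ hx.le h1)]
    have h2 := one_add_mul_le_pow (a := xr p - 1) (by linarith) q
    rw [add_sub_cancel] at h2
    have h3 : 1 - xr p ≤ (rho p ^ 2 + 2 * |rho p| * ‖p.2.1‖) / jb p.1 ^ 2 := by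
      rw [le_div_iff₀ (by positivity)]
      have h4 := jb_sq_sub p
      rw [← xr_mul, mul_pow] at h4
      have h5 : rho p * ⟪p.2.1, (p.2.2 : E)⟫ ≤ |rho p| * ‖p.2.1‖ :=
        (le_abs_self _).trans (by rw [abs_mul]; gcongr; exact abs_inner_le _ _)
      have h6 : 0 ≤ xr p * (1 - xr p) * jb p.1 ^ 2 := by
        have := sub_nonneg.2 h1
        positivity
      nlinarith
    have h7 := mul_le_mul_of_nonneg_left h3 (Nat.cast_nonneg (α := ℝ) q)
    linarith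

/-- F1: a gain of weight needs a short jump -/
lemma abs_rho_lt_of_one_lt {p : E × E × S2} (h : 1 < xr p) : |rho p| < 2 * ‖p.2.1‖ := by
  have h0 := jb_pos p.1
  have h4 := jb_sq_sub p
  rw [← xr_mul, mul_pow] at h4
  have h5 : -(rho p * ⟪p.2.1, (p.2.2 : E)⟫) ≤ |rho p| * ‖p.2.1‖ :=
    (neg_le_abs _).trans (by rw [abs_mul]; gcongr; exact abs_inner_le _ _)
  have h6 : 0 < (xr p ^ 2 - 1) * jb p.1 ^ 2 := mul_pos (by nlinarith) (by positivity)
  by_contra hc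
  have h7 : |rho p| * (2 * ‖p.2.1‖) ≤ |rho p| * |rho p| :=
    mul_le_mul_of_nonneg_left (not_lt.1 hc) (abs_nonneg _)
  rw [abs_mul_abs_self] at h7
  nlinarith

/-- F1: `x^2 - 1 ≤ |w|^2 / <v>^2` -/
lemma xr_sq_le (p : E × E × S2) : xr p ^ 2 ≤ 1 + ‖p.2.1‖ ^ 2 / jb p.1 ^ 2 := by
  have h0 := jb_pos p.1
  have h1 := jb_energy p
  have h2 : 1 ≤ jb (w1 p) ^ 2 := one_le_pow₀ (one_le_jb _)
  rw [xr, div_pow, one_add_div (by positivity)]
  gcongr
  linarith [jb_sq p.2.1]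

/-- F3: `z^2 - 1 ≤ |w|^2 / <v>^2` -/
lemma zr_sq_le (p : E × E × S2) : zr p ^ 2 ≤ 1 + ‖p.2.1‖ ^ 2 / jb p.1 ^ 2 := by
  have h0 := jb_pos p.1
  have h1 := jb_energy p
  have h2 : 1 ≤ jb (v1 p) ^ 2 := one_le_pow₀ (one_le_jb _)
  rw [zr, div_pow, one_add_div (by positivity)]
  gcongr
  linarith [jb_sq p.2.1]

/-- F2 -/
lemma xr_sq_le' (p : E × E × S2) :
    xr p ^ 2 ≤ 2 * jb p.2.1 ^ 2 * (jb (v1 p) ^ 2 / (jb (v1 p) ^ 2 + rho p ^ 2 / 2)) := by
  have h0 := jb_pos p.1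
  have h1 := jb_pos (v1 p)
  have h2 := jb_sq_sub p
  have h3 : ⟪p.2.1, (p.2.2 : E)⟫ ^ 2 ≤ ‖p.2.1‖ ^ 2 :=
    sq_le_sq' (neg_le_of_abs_le (abs_inner_le _ _)) (le_of_abs_le (abs_inner_le _ _))
  have h4 : 1 ≤ jb p.1 ^ 2 := one_le_pow₀ (one_le_jb _)
  have h5 : jb (v1 p) ^ 2 + rho p ^ 2 / 2 ≤ 2 * jb p.2.1 ^ 2 * jb p.1 ^ 2 := by
    rw [jb_sq p.2.1]
    nlinarith [sq_nonneg (rho p + 2 * ⟪p.2.1, (p.2.2 : E)⟫),
      mul_nonneg (sq_nonneg ‖p.2.1‖) (sub_nonneg.2 h4)]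
  rw [xr, div_pow, ← mul_div_assoc, div_le_div_iff₀ (by positivity) (by positivity)]
  nlinarith [mul_le_mul_of_nonneg_left h5 (sq_nonneg (jb (v1 p)))]

/-- F4 -/
lemma le_rh_of_Win (q : ℕ) {p : E × E × S2} (h : Win p) : (1 / 4) ^ q ≤ rh q p := by
  rw [rh_eq]
  refine pow_le_pow_left₀ (by norm_num) (le_min ?_ (by norm_num)) q
  have h0 := jb_pos p.1
  have h1 := jb_sq_perp p.2.2 p.1
  have h2 := jb_sq_perp p.2.2 (v1 p)
  rw [perp_v1] at h2
  have h3 : ⟪p.1, (p.2.2 : E)⟫ ^ 2 ≤ (3 * jb (Geo.perp p.2.2 p.1)) ^ 2 :=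
    sq_le_sq' (neg_le_of_abs_le h) (le_of_abs_le h)
  rw [xr, le_div_iff₀ h0]
  refine abs_le_of_sq_le_sq' ?_ (jb_pos _).le |>.2
  nlinarith [sq_nonneg ⟪v1 p, (p.2.2 : E)⟫, sq_nonneg (jb (Geo.perp p.2.2 p.1))]

lemma le_xr_of_near {p : E × E × S2} (h : |rho p| ≤ 1) : 1 / 2 ≤ xr p ∧ xr p ≤ 2 := by
  have h0 := jb_pos p.1
  have h1 := abs_le.1 ((abs_jb_sub_le p.1 (v1 p)).trans ((norm_v1_sub p).le.trans h))
  rw [xr, le_div_iff₀ h0, div_le_iff₀ h0]
  constructor <;> linarith [one_le_jb p.1, one_le_jb (v1 p)]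

lemma I3_mono {F G : E × E × S2 → ℝ} (h : ∀ p, F p ≤ G p) : I3 F ≤ I3 G :=
  lintegral_mono fun p => ENNReal.ofReal_le_ofReal (h p)

lemma I3_add_le {F G : E × E × S2 → ℝ} (hG : Measurable G) :
    I3 (fun p => F p + G p) ≤ I3 F + I3 G := by
  unfold I3
  rw [← lintegral_add_right _ hG.ennreal_ofReal]
  exact lintegral_mono fun p => ENNReal.ofReal_add_le

lemma I3_add {F G : E × E × S2 → ℝ} (hG : Measurable G) (h1 : ∀ p, 0 ≤ F p) (h2 : ∀ p, 0 ≤ G p) :
    I3 (fun p => F p + G p) = I3 F + I3 G := by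
  unfold I3
  rw [← lintegral_add_right _ hG.ennreal_ofReal]
  exact lintegral_congr fun p => ENNReal.ofReal_add (h1 p) (h2 p)

lemma I3_const_mul {c : ℝ} (hc : 0 ≤ c) (F : E × E × S2 → ℝ) :
    I3 (fun p => c * F p) = ENNReal.ofReal c * I3 F := by
  unfold I3
  rw [← lintegral_const_mul' _ _ ENNReal.ofReal_ne_top]
  exact lintegral_congr fun p => ENNReal.ofReal_mul hc

lemma I3_coll {F : E × E × S2 → ℝ} (hF : Measurable F) : I3 (fun p => F (coll p)) = I3 F :=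
  lintegral_coll (fun p => ENNReal.ofReal (F p)) hF.ennreal_ofReal

lemma I3_swp {F : E × E × S2 → ℝ} (hF : Measurable F) : I3 (fun p => F (swp p)) = I3 F :=
  lintegral_swp (fun p => ENNReal.ofReal (F p)) hF.ennreal_ofReal

/-- Cauchy-Schwarz -/
lemma I3_cs {k a b : E × E × S2 → ℝ} (hk : Measurable k) (ha : Measurable a) (hb : Measurable b)
    (h0 : ∀ p, 0 ≤ k p) : I3 (fun p => k p * (|a p| * |b p|))
      ≤ I3 (fun p => k p * a p ^ 2) ^ (1 / 2 : ℝ) * I3 (fun p => k p * b p ^ 2) ^ (1 / 2 : ℝ) := by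
  have key : ∀ c : E × E × S2 → ℝ, ∀ p,
      ENNReal.ofReal (√(k p) * |c p|) ^ (2 : ℝ) = ENNReal.ofReal (k p * c p ^ 2) := by
    intro c p
    rw [ENNReal.ofReal_rpow_of_nonneg (by positivity) (by norm_num), Real.rpow_two, mul_pow,
      Real.sq_sqrt (h0 p), sq_abs]
  have h := ENNReal.lintegral_mul_le_Lp_mul_Lq mu3 Real.HolderConjugate.two_two
    (f := fun p => ENNReal.ofReal (√(k p) * |a p|)) (g := fun p => ENNReal.ofReal (√(k p) * |b p|))
    (by fun_prop) (by fun_prop)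
  simp only [key, Pi.mul_apply] at h
  refine le_trans (le_of_eq (lintegral_congr fun p => ?_)) h
  rw [← ENNReal.ofReal_mul (by positivity), mul_mul_mul_comm, Real.mul_self_sqrt (h0 p)]

/-- marginal before the collision -/
lemma I3_fst {k : E × E × S2 → ℝ} (hk : Measurable k) (h0 : ∀ p, 0 ≤ k p) {C r : ℝ} (hC : 0 ≤ C)
    (h : ∀ v, ∫⁻ z, ENNReal.ofReal (k (v, z)) ∂mu2 ≤ ENNReal.ofReal (C * jb v ^ r))
    {f : E → ℝ} (hf : Measurable f) :
    I3 (fun p => k p * f p.1 ^ 2) ≤ ENNReal.ofReal C * Wn r f := by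
  have hm : Measurable fun p : E × E × S2 => ENNReal.ofReal (k p * f p.1 ^ 2) := by fun_prop
  rw [I3, mu3, lintegral_prod _ hm.aemeasurable, Wn,
    ← lintegral_const_mul' _ _ ENNReal.ofReal_ne_top]
  refine lintegral_mono fun v => ?_
  simp only [ENNReal.ofReal_mul (h0 _)]
  have := jb_pos v
  rw [lintegral_mul_const _ (by fun_prop), ← ENNReal.ofReal_mul hC, ← mul_assoc,
    ENNReal.ofReal_mul (by positivity)]
  exact mul_le_mul_left (h v) _

lemma Wn_mono {r r' : ℝ} (h : r ≤ r') (f : E → ℝ) : Wn r f ≤ Wn r' f :=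
  lintegral_mono fun v => ENNReal.ofReal_le_ofReal (mul_le_mul_of_nonneg_right
    (Real.rpow_le_rpow_of_exponent_le (one_le_jb v) h) (sq_nonneg _))

lemma abs_integral_le_I3 (F : E × E × S2 → ℝ) {B : ℝ≥0∞} (hB : B ≠ ⊤)
    (h : I3 (fun p => |F p|) ≤ B) : |∫ p, F p ∂mu3| ≤ B.toReal := by
  refine le_trans ?_ (ENNReal.toReal_mono hB h)
  have := norm_integral_le_lintegral_norm (μ := mu3) F
  simpa only [Real.norm_eq_abs, I3] using this

lemma integrable_of_I3 {F : E × E × S2 → ℝ} (hF : Measurable F) (h : I3 (fun p => |F p|) ≠ ⊤) :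
    Integrable F mu3 := by
  refine ⟨hF.aestronglyMeasurable, ?_⟩
  rw [hasFiniteIntegral_iff_norm]
  exact lt_top_iff_ne_top.2 h

omit [Dim] in
lemma toReal_rpow_half (a : ℝ≥0∞) : (a ^ (1 / 2 : ℝ)).toReal = √a.toReal := by
  rw [← ENNReal.toReal_rpow, Real.sqrt_eq_rpow]

lemma Rap.measurable {f : E → ℝ} (h : Rap f) : Measurable f :=
  (h 0).choose_spec.measurable

end Pool.Agent.BoltzM.HC
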