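import Pool.Agent.BoltzM.HC.Basic

/-! The marginals of the collision measure. -/

set_option autoImplicit false

open MeasureTheory Set Filter Topology
open scoped ENNReal RealInnerProductSpace

noncomputable section

namespace Pool.Agent.BoltzM.HC

open Coll

namespace Marg

lemma comp_abs (F : ℝ → ℝ≥0∞) :
    ∫⁻ t : ℝ, F |t| = 2 * ∫⁻ t in Ioi (0 : ℝ), F t := by
  rw [← lintegral_add_compl _ (measurableSet_Ioi (a := (0 : ℝ))), compl_Ioi, two_mul]
  congr 1
  · exact setLIntegral_congr_fun measurableSet_Ioi fun t ht => by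
      simp [abs_of_pos (show (0 : ℝ) < t from ht)]
  · rw [← restrict_Iio_eq_restrict_Iic, ← lintegral_indicator measurableSet_Iio,
      ← lintegral_indicator measurableSet_Ioi, ← lintegral_neg_eq_self]
    refine lintegral_congr fun r => ?_
    by_cases hr : 0 < r
    · rw [indicator_of_mem (by simpa using hr), indicator_of_mem (by simpa using hr)]
      simp [abs_of_pos hr]
    · rw [indicator_of_notMem (by simpa using hr), indicator_of_notMem (by simpa using hr)]

lemma profile_lt_top :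
    ∫⁻ t : ℝ, ENNReal.ofReal (|t| ^ (-(101 / 100) : ℝ) * min 1 |t|) < ∞ := by
  rw [comp_abs (fun t => ENNReal.ofReal (t ^ (-(101 / 100) : ℝ) * min 1 t))]
  refine ENNReal.mul_lt_top (by simp) ?_
  rw [← Ioc_union_Ioi_eq_Ioi zero_le_one]
  refine (lintegral_union_le _ _ _).trans_lt (ENNReal.add_lt_top.2 ⟨?_, ?_⟩)
  · have h := (intervalIntegral.intervalIntegrable_rpow' (a := 0) (b := 1) (r := -(1 / 100))
      (by norm_num)).1
    refine lt_of_le_of_lt (le_of_eq ?_) h.lintegral_lt_top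
    refine setLIntegral_congr_fun measurableSet_Ioc fun t ht => ?_
    rw [min_eq_right ht.2, ← Real.rpow_add_one ht.1.ne']
    norm_num
  · have h := integrableOn_Ioi_rpow_of_lt (a := -(101 / 100)) (by norm_num) one_pos
    refine lt_of_le_of_lt (le_of_eq ?_) h.lintegral_lt_top
    refine setLIntegral_congr_fun measurableSet_Ioi fun t ht => ?_
    rw [min_eq_left (le_of_lt ht), mul_one]

lemma profile_le {t : ℝ} (h : t ≠ 0) : |t| ^ (-(101 / 100) : ℝ) * min 1 |t| ≤ |t|⁻¹ := by
  have h0 : 0 < |t| := abs_pos.2 h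
  have h1 : min 1 |t| ≤ |t| ^ (1 / 100 : ℝ) := by
    rcases le_total |t| 1 with h1 | h1
    · refine (min_le_right _ _).trans ?_
      conv_lhs => rw [← Real.rpow_one |t|]
      exact Real.rpow_le_rpow_of_exponent_ge h0 h1 (by norm_num)
    · exact (min_le_left _ _).trans (Real.one_le_rpow h1 (by norm_num))
  calc _ ≤ |t| ^ (-(101 / 100) : ℝ) * |t| ^ (1 / 100 : ℝ) := by gcongr
    _ = _ := by rw [← Real.rpow_add h0, ← Real.rpow_neg_one]; norm_num

variable [Dim]

/-- the Newton kernel near the origin -/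
def newt (u : E) : ℝ≥0∞ := (Metric.ball (0 : E) 1).indicator (fun u => ENNReal.ofReal ‖u‖⁻¹) u

lemma measurable_newt : Measurable newt :=
  Measurable.indicator (by fun_prop) measurableSet_ball

lemma lint_newt : ∫⁻ u, newt u ≠ ⊤ := by
  rw [lintegral_polar _ measurable_newt]
  have h : ∀ o : S2,
      ∫⁻ r in Ioi (0 : ℝ), ENNReal.ofReal (r ^ (dd - 1)) * newt (r • (o : E)) ≤ 1 := by
    intro o
    calc ∫⁻ r in Ioi (0 : ℝ), ENNReal.ofReal (r ^ (dd - 1)) * newt (r • (o : E))
        ≤ ∫⁻ r in Ioi (0 : ℝ), (Ioo (0 : ℝ) 1).indicator 1 r := by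
          refine setLIntegral_mono' measurableSet_Ioi fun r hr => ?_
          have hr' : 0 < r := hr
          by_cases h1 : r < 1
          · have : r • (o : E) ∈ Metric.ball (0 : E) 1 := by
              simp [norm_smul, abs_of_pos hr', h1]
            rw [newt, indicator_of_mem this,
              indicator_of_mem (show r ∈ Ioo (0 : ℝ) 1 from ⟨hr', h1⟩),
              ← ENNReal.ofReal_mul (by positivity), Pi.one_apply, ENNReal.ofReal_le_one]
            rw [norm_smul, norm_coe, mul_one, Real.norm_eq_abs, abs_of_pos hr',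
              mul_inv_le_iff₀ hr', one_mul]
            exact pow_le_of_le_one hr'.le h1.le (by have := two_le_dd; omega)
          · have : r • (o : E) ∉ Metric.ball (0 : E) 1 := by
              simp [norm_smul, abs_of_pos hr', not_lt.1 h1]
            rw [newt, indicator_of_notMem this, mul_zero]
            exact zero_le
      _ ≤ ∫⁻ r, (Ioo (0 : ℝ) 1).indicator 1 r := setLIntegral_le_lintegral _ _
      _ = 1 := by rw [lintegral_indicator measurableSet_Ioo]; simp
  refine ne_top_of_le_ne_top ?_ (lintegral_mono h)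
  rw [lintegral_const, one_mul]
  exact measure_ne_top _ _

lemma lint_jap : ∫⁻ w : E, ENNReal.ofReal (((1 + ‖w‖) ^ (dd + 1))⁻¹) ≠ ⊤ := by
  have := finite_integral_one_add_norm (μ := (volume : Measure E)) (r := (dd + 1 : ℕ))
    (by simp)
  refine (lt_of_le_of_lt (le_of_eq (lintegral_congr fun w => ?_)) this).ne
  rw [Real.rpow_neg (by positivity), Real.rpow_natCast]

end Marg

open Marg

variable [Dim]

theorem ang : AngStmt := by
  set B := ∫⁻ t : ℝ, ENNReal.ofReal (|t| ^ (-(101 / 100) : ℝ) * min 1 |t|) with hB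
  have hB' : B = ENNReal.ofReal B.toReal := (ENNReal.ofReal_toReal profile_lt_top.ne).symm
  have hS := cS_pos
  have hT := cT_pos
  refine ⟨4 * cS * B.toReal + 4 * cT, by positivity, fun v w => ?_⟩
  have h1 : ∀ o : S2, ENNReal.ofReal (kx (v, w, o)) = ENNReal.ofReal (2 * ‖v - w‖ ^ 3) *
      ENNReal.ofReal (|⟪v - w, (o : E)⟫| ^ (-(101 / 100) : ℝ) * min 1 |⟪v - w, (o : E)⟫|) := by
    intro o
    rw [← ENNReal.ofReal_mul (by positivity), kx, ker3_eq', mul_assoc]; rfl
  simp only [h1]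
  generalize v - w = u
  rcases eq_or_ne u 0 with rfl | hu
  · simp
  have hn : 0 < ‖u‖ := norm_pos_iff.2 hu
  rw [lintegral_const_mul _ (by fun_prop)]
  refine (mul_le_mul_right (arch_le u hu
    (fun t => ENNReal.ofReal (|t| ^ (-(101 / 100) : ℝ) * min 1 |t|)) (by fun_prop)
    (M := ENNReal.ofReal (2 / ‖u‖)) fun t ht => ENNReal.ofReal_le_ofReal ?_) _).trans
    (le_of_eq ?_)
  · have h0 : 0 < |t| := lt_trans (by positivity) ht
    refine (profile_le (abs_pos.1 h0)).trans ?_
    rw [inv_eq_one_div, div_le_div_iff₀ h0 hn]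
    linarith
  · rw [← hB, hB', ← ENNReal.ofReal_mul (by positivity), ← ENNReal.ofReal_mul (by positivity),
      ← ENNReal.ofReal_add (by positivity) (by positivity), ← ENNReal.ofReal_mul (by positivity),
      ENNReal.toReal_ofReal ENNReal.toReal_nonneg]
    congr 1
    field_simp; ring

theorem conv : ConvStmt := by
  set J := ∫⁻ w : E, ENNReal.ofReal (((1 + ‖w‖) ^ (dd + 1))⁻¹) with hJ
  set N := ∫⁻ u, newt u with hN
  have hfin : 2 * J + N ≠ ⊤ :=
    ENNReal.add_ne_top.2 ⟨ENNReal.mul_ne_top (by simp) lint_jap, lint_newt⟩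
  refine ⟨(2 * J + N).toReal + 1, by positivity, fun x => ?_⟩
  have hx := jb_pos x
  have h1 : ∀ w : E, ENNReal.ofReal (((1 + ‖w‖) ^ (dd + 2))⁻¹ / ‖x - w‖)
      ≤ ENNReal.ofReal (jb x)⁻¹
        * (2 * ENNReal.ofReal (((1 + ‖w‖) ^ (dd + 1))⁻¹) + newt (x - w)) := by
    intro w
    rcases eq_or_ne (x - w) 0 with h0 | h0
    · simp [h0]
    have hu : 0 < ‖x - w‖ := norm_pos_iff.2 h0
    have hw : (0 : ℝ) < 1 + ‖w‖ := by positivity
    have hj1 : ((1 + ‖w‖) ^ (dd + 1))⁻¹ ≤ 1 :=
      inv_le_one_of_one_le₀ (one_le_pow₀ (by linarith [norm_nonneg w]))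
    have hj0 : 0 < ((1 + ‖w‖) ^ (dd + 1))⁻¹ := by positivity
    have h2 : jb x ≤ (1 + ‖x - w‖) * (1 + ‖w‖) := by
      have h3 := norm_add_le (x - w) w
      rw [sub_add_cancel] at h3
      nlinarith [jb_le x, mul_nonneg hu.le (norm_nonneg w)]
    have h4 : ((1 + ‖w‖) ^ (dd + 2))⁻¹ / ‖x - w‖
        ≤ (jb x)⁻¹ * (((1 + ‖w‖) ^ (dd + 1))⁻¹ * (1 + ‖x - w‖⁻¹)) := by
      rw [pow_succ, mul_inv]
      generalize ((1 + ‖w‖) ^ (dd + 1))⁻¹ = Z at *
      have h5 : (1 + ‖w‖)⁻¹ ≤ (jb x)⁻¹ * (1 + ‖x - w‖) := by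
        rw [← div_eq_inv_mul, inv_eq_one_div, div_le_div_iff₀ hw hx]
        linarith
      calc Z * (1 + ‖w‖)⁻¹ / ‖x - w‖ ≤ Z * ((jb x)⁻¹ * (1 + ‖x - w‖)) / ‖x - w‖ := by gcongr
        _ = _ := by field_simp; ring
    refine (ENNReal.ofReal_le_ofReal h4).trans ?_
    rw [ENNReal.ofReal_mul (by positivity)]
    refine mul_le_mul_right ?_ _
    rw [mul_add, mul_one, ENNReal.ofReal_add hj0.le (by positivity), two_mul, add_assoc]
    refine add_le_add le_rfl ?_
    by_cases hb : x - w ∈ Metric.ball (0 : E) 1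
    · rw [newt, indicator_of_mem hb]
      exact le_add_left (ENNReal.ofReal_le_ofReal (mul_le_of_le_one_left (by positivity) hj1))
    · have : 1 ≤ ‖x - w‖ := by simpa using hb
      exact le_add_right (ENNReal.ofReal_le_ofReal
        (mul_le_of_le_one_right hj0.le (inv_le_one_of_one_le₀ this)))
  calc _ ≤ ∫⁻ w : E, ENNReal.ofReal (jb x)⁻¹
        * (2 * ENNReal.ofReal (((1 + ‖w‖) ^ (dd + 1))⁻¹) + newt (x - w)) := lintegral_mono h1
    _ = ENNReal.ofReal (jb x)⁻¹ * (2 * J + N) := by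
        rw [lintegral_const_mul' _ _ ENNReal.ofReal_ne_top, lintegral_add_left (by fun_prop),
          lintegral_sub_left_eq_self newt x, lintegral_const_mul' _ _ (by simp)]
    _ ≤ _ := by
        rw [← ENNReal.ofReal_toReal hfin, ← ENNReal.ofReal_mul (by positivity),
          ENNReal.toReal_ofReal ENNReal.toReal_nonneg, ← div_eq_inv_mul]
        exact ENNReal.ofReal_le_ofReal (by gcongr; linarith)

theorem post : PostStmt := by
  intro Φ hΦ
  have h1 : Measurable fun p : E × E × S2 =>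
      ENNReal.ofReal (ker3 p * Φ (rho p) p.2.1 (v1 p)) :=
    (measurable_ker3.mul (hΦ.comp (f := fun p : E × E × S2 => (rho p, p.2.1, v1 p))
      (by fun_prop))).ennreal_ofReal
  have hk : Measurable fun q : ℝ × E × E => ENNReal.ofReal
      (2 * (q.1 ^ 2 + ‖q.2.2 - q.2.1‖ ^ 2) ^ (3 / 2 : ℝ) * |q.1| ^ (-(101 / 100) : ℝ)
        * Φ q.1 q.2.1 q.2.2) :=
    ((((Measurable.pow_const (by fun_prop) _).const_mul 2).mul
      (Measurable.pow_const (by fun_prop) _)).mul hΦ).ennreal_ofReal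
  have hm : Measurable fun z : E × E => ENNReal.ofReal (cS / ‖z.1 - z.2‖) * ∫⁻ t : ℝ,
      ENNReal.ofReal (2 * (t ^ 2 + ‖z.1 - z.2‖ ^ 2) ^ (3 / 2 : ℝ) * |t| ^ (-(101 / 100) : ℝ)
        * Φ t z.2 z.1) :=
    Measurable.mul (by fun_prop) (Measurable.lintegral_prod_right'
      (hk.comp (f := fun z : (E × E) × ℝ => (z.2, z.1.2, z.1.1)) (by fun_prop)))
  rw [lintegral_lintegral_swap (f := fun x w : E => ENNReal.ofReal (cS / ‖x - w‖) * ∫⁻ t : ℝ,
      ENNReal.ofReal (2 * (t ^ 2 + ‖x - w‖ ^ 2) ^ (3 / 2 : ℝ) * |t| ^ (-(101 / 100) : ℝ)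
        * Φ t w x)) hm.aemeasurable, I3, lintegral_mu3 _ h1,
    lintegral_lintegral_swap (f := fun v w : E => ∫⁻ o : S2,
      ENNReal.ofReal (ker3 (v, w, o) * Φ (rho (v, w, o)) w (v1 (v, w, o))) ∂sph)
      (Measurable.lintegral_prod_right'
        (h1.comp (f := fun z : (E × E) × S2 => (z.1.1, z.1.2, z.2)) (by fun_prop))).aemeasurable]
  refine lintegral_congr fun w => ?_
  rw [lintegral_lintegral_swap (f := fun (v : E) (o : S2) =>
      ENNReal.ofReal (ker3 (v, w, o) * Φ (rho (v, w, o)) w (v1 (v, w, o))))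
      (h1.comp (f := fun z : E × S2 => (z.1, w, z.2)) (by fun_prop)).aemeasurable]
  have h4 := Geo.bp (fun t y => ENNReal.ofReal (2 * (t ^ 2 + ‖y‖ ^ 2) ^ (3 / 2 : ℝ)
      * |t| ^ (-(101 / 100) : ℝ) * Φ t w (y + w))) (by
    have := hk.comp (f := fun z : ℝ × E => (z.1, w, z.2 + w)) (by fun_prop)
    simp only [Function.comp_def, add_sub_cancel_right] at this
    exact this)
  refine Eq.trans ?_ (h4.trans ?_)
  · refine lintegral_congr fun o => ?_
    rw [← lintegral_add_right_eq_self _ w]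
    refine lintegral_congr fun u => ?_
    have e1 : v1 (u + w, w, o) = Geo.perp o u + w := by
      simp only [v1, pv, Geo.perp, add_sub_cancel_right]; abel
    have e2 : rho (u + w, w, o) = ⟪u, (o : E)⟫ := by simp only [rho, add_sub_cancel_right]
    have e3 : (‖u‖ ^ 2) ^ (3 / 2 : ℝ) = ‖u‖ ^ (3 : ℝ) := by
      rw [← Real.rpow_natCast, ← Real.rpow_mul (norm_nonneg u)]; norm_num
    rw [ker3_eq, e1, e2, ← Geo.norm_sq_eq_perp (norm_coe o), e3]
    simp only [add_sub_cancel_right]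
  · symm
    rw [← lintegral_add_right_eq_self _ w]
    simp only [add_sub_cancel_right]

end Pool.Agent.BoltzM.HC
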