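import Pool.Agent.BoltzM.HC.All
import Pool.Agent.BoltzM.Spec.Hot
import Pool.Agent.BoltzM.Coll.Deriv
import Pool.Agent.BoltzM.Coll.C1
import Pool.Agent.BoltzM.C3.Main

/-! The weighted theory of the collision operator on Schwartz space. -/

set_option autoImplicit false

open MeasureTheory Set Filter Topology
open scoped ENNReal RealInnerProductSpace

noncomputable section

namespace Pool.Agent.BoltzM.HC

open Coll

variable [Dim]

namespace Op

/-- the density -/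
def hs (f : SV) : E → ℝ := fun v => sM v * f v

/-- the weighted density -/
def ph (q : ℕ) (f : SV) : E → ℝ := fun v => jb v ^ q * (sM v * f v)

/-- the dissipation norm -/
def DD (q : ℕ) (f : SV) : ℝ := nn (ph q f)

/-- the order of the low norms -/
def pp : ℕ := 2 * pK + dd + 1

lemma rap_SV (f : SV) : Rap f := fun P => ⟨_, nice_SV P f⟩

lemma rap_hs (f : SV) : Rap (hs f) := rap.2.2.1 _ _ rap.1 (rap_SV f)

lemma rap_ph (q : ℕ) (f : SV) : Rap (ph q f) := rap.2.2.2.1 q _ (rap_hs f)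

lemma NN_fin (q : ℕ) (f : SV) : NN (ph q f) ≠ ⊤ := fin'.1 _ (rap_ph q f)

lemma Wn_fin (r : ℝ) (q : ℕ) (f : SV) : Wn r (ph q f) ≠ ⊤ := fin'.2.1 r _ (rap_ph q f)

lemma DD_nonneg (q : ℕ) (f : SV) : 0 ≤ DD q f := ENNReal.toReal_nonneg

lemma jb_rpow (v : E) (r : ℝ) (q : ℕ) :
    jb v ^ r * (jb v ^ q) ^ 2 = (1 + ‖v‖ ^ 2) ^ ((q : ℝ) + r / 2) := by
  have h := jb_pos v
  rw [← jb_sq, ← Real.rpow_natCast (jb v) 2, ← Real.rpow_mul h.le, ← pow_mul,
    ← Real.rpow_natCast, ← Real.rpow_add h]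
  congr 1; push_cast; ring

lemma wn_ph (r : ℝ) (q : ℕ) (f : SV) : wn r (ph q f) = ipW (q + r / 2) f f := by
  rw [ipW_eq, integral_eq_lintegral_of_nonneg_ae (Eventually.of_forall fun v =>
    mul_nonneg (by positivity) (mul_self_nonneg _)) (integrable_ipW _ f f).aestronglyMeasurable,
    wn, Wn]
  congr 1
  refine lintegral_congr fun v => ?_
  rw [← jb_rpow, ph]
  congr 1
  change _ = _ * (sM v * f v * (sM v * f v))
  ring

lemma wn_gm (q : ℕ) (f : SV) : wn gm (ph q f) = ipW (q + 199 / 200) f f := by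
  rw [wn_ph, gm]; norm_num

lemma wn_zero (q : ℕ) (f : SV) : wn 0 (ph q f) = ipW q f f := by rw [wn_ph]; simp

lemma low (q : ℕ) (f : SV) : ipW (q + 199 / 200) f f ≤ DD q f := by
  rw [← wn_gm, DD, K1.nn_eq (NN_fin q f)]
  exact le_add_of_nonneg_left ENNReal.toReal_nonneg

lemma low0 (q : ℕ) (f : SV) : ipW q f f ≤ DD q f := (ipW_mono (by linarith) f).trans (low q f)

lemma ipW_G1 {Q : CollOp} (hQ : Q.Real) (q : ℕ) (a f g : SV) :
    ipW q (Q.G1 a f) g = wk q (hs a) (ph q f) (ph q g) := by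
  refine Eq.trans ?_ (wf' q a f g (rap_SV a) (rap_SV f) (rap_SV g))
  rw [ipW_eq]
  congr 1; funext v
  rw [hQ.1, Real.rpow_natCast, MM]
  change _ * (sM v * _ * (sM v * _)) = _
  ring

lemma NN_add {t : ℝ} (ht : 0 < t) {f g : E → ℝ} (hg : Measurable g) :
    NN (fun v => f v + g v)
      ≤ ENNReal.ofReal (1 + t) * NN f + ENNReal.ofReal (1 + t⁻¹) * NN g := by
  have key : ∀ x y : ℝ, (x + y) ^ 2 ≤ (1 + t) * x ^ 2 + (1 + t⁻¹) * y ^ 2 := by
    intro x y
    have h1 : 0 ≤ t⁻¹ * (t * x - y) ^ 2 := by positivity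
    have h2 : t⁻¹ * (t * x - y) ^ 2 = t * x ^ 2 - 2 * (x * y) + t⁻¹ * y ^ 2 := by
      field_simp; ring
    nlinarith
  have m2 := measurable_kS measurableSet_Win
  rw [NN, NN, NN, mul_add, mul_add, add_add_add_comm]
  refine add_le_add ?_ ?_
  · rw [J0, J0, J0, ← I3_const_mul (by positivity), ← I3_const_mul (by positivity)]
    refine le_trans (I3_mono fun p => ?_) (I3_add_le (by fun_prop))
    have h0 : 0 ≤ kS Win p * MM p.2.1 := mul_nonneg (kS_nonneg _ _) (MM_pos _).le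
    have h1 := mul_le_mul_of_nonneg_left (key (f (v1 p) - f p.1) (g (v1 p) - g p.1)) h0
    calc _ = kS Win p * MM p.2.1 * (f (v1 p) - f p.1 + (g (v1 p) - g p.1)) ^ 2 := by ring
      _ ≤ _ := h1
      _ = _ := by ring
  · rw [Wn, Wn, Wn, ← lintegral_const_mul' _ _ ENNReal.ofReal_ne_top,
      ← lintegral_const_mul' _ _ ENNReal.ofReal_ne_top, ← lintegral_add_right _ (by fun_prop)]
    refine lintegral_mono fun v => ?_
    have h0 : 0 ≤ jb v ^ gm := Real.rpow_nonneg (jb_pos v).le _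
    simp only
    rw [← ENNReal.ofReal_mul (by positivity), ← ENNReal.ofReal_mul (by positivity),
      ← ENNReal.ofReal_add (by positivity) (by positivity)]
    refine ENNReal.ofReal_le_ofReal ?_
    have h1 := mul_le_mul_of_nonneg_left (key (f v) (g v)) h0
    linarith

lemma DD_add {t : ℝ} (ht : 0 < t) (q : ℕ) (f g : SV) :
    DD q (f + g) ≤ (1 + t) * DD q f + (1 + t⁻¹) * DD q g := by
  have e : ph q (f + g) = fun v => ph q f v + ph q g v := by
    funext v; simp only [ph, add_apply]; ring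
  have f1 := ENNReal.mul_ne_top (ENNReal.ofReal_ne_top (r := 1 + t)) (NN_fin q f)
  have f2 := ENNReal.mul_ne_top (ENNReal.ofReal_ne_top (r := 1 + t⁻¹)) (NN_fin q g)
  have h := ENNReal.toReal_mono (ENNReal.add_ne_top.2 ⟨f1, f2⟩)
    (NN_add ht (f := ph q f) (rap_ph q g).measurable)
  rwa [ENNReal.toReal_add f1 f2, ENNReal.toReal_mul, ENNReal.toReal_mul,
    ENNReal.toReal_ofReal (by positivity), ENNReal.toReal_ofReal (by positivity), ← e] at h

lemma DD_smul (q : ℕ) (c : ℝ) (f : SV) : DD q (c • f) = c ^ 2 * DD q f := by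
  have e : NN (ph q (c • f)) = ENNReal.ofReal (c ^ 2) * NN (ph q f) := by
    rw [NN, NN, mul_add, J0, J0, ← I3_const_mul (sq_nonneg c), Wn, Wn,
      ← lintegral_const_mul' _ _ ENNReal.ofReal_ne_top]
    congr 1
    · congr 1; funext p
      simp only [ph, smul_apply, smul_eq_mul]; ring
    · refine lintegral_congr fun v => ?_
      rw [← ENNReal.ofReal_mul (sq_nonneg c)]
      congr 1
      simp only [ph, smul_apply, smul_eq_mul]; ring
  rw [DD, nn, e, ENNReal.toReal_mul, ENNReal.toReal_ofReal (sq_nonneg c)]; rfl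

lemma ph_div (q : ℕ) (f : SV) : ph q f = fun v => ph (q + 1) f v / jb v := by
  funext v
  have := jb_pos v
  simp only [ph]; field_simp; ring

lemma DD_mono : ∃ C : ℝ, 1 ≤ C ∧ ∀ q f, DD q f ≤ C * DD (q + 1) f := by
  obtain ⟨C, hC, h⟩ := t3'
  refine ⟨C + 1, by linarith, fun q f => ?_⟩
  have h1 := ENNReal.toReal_mono (ENNReal.mul_ne_top ENNReal.ofReal_ne_top (NN_fin (q + 1) f))
    (h _ (rap_ph (q + 1) f).measurable)
  rw [ENNReal.toReal_mul, ENNReal.toReal_ofReal hC.le, ← ph_div] at h1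
  have h2 := DD_nonneg (q + 1) f
  change DD q f ≤ C * DD (q + 1) f at h1
  linarith

lemma DD_le_dq {Q : CollOp} (hQ : Q.Real) (q : ℕ) :
    ∃ C : ℝ, 0 < C ∧ ∀ f, DD q f ≤ C * Q.dq f := by
  obtain ⟨C, hC, h⟩ := t4' q
  obtain ⟨C', hC', h'⟩ := C3.c3
  refine ⟨4 * (C * C'), by positivity, fun f => ?_⟩
  have hn := nice_SV pN f
  have f1 := (DL_lt_top hn).ne
  have e : L2L f = ENNReal.ofReal (ip f f) := by
    rw [L2L, ip_self_eq, ofReal_integral_eq_lintegral_ofReal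
      (by simpa only [sq] using integrable_mul f f) (Eventually.of_forall fun v => sq_nonneg _)]
  have h1 : NN (ph q f) ≤ ENNReal.ofReal C * (ENNReal.ofReal C' * (DL f + L2L f)) :=
    le_self_add.trans ((h f hn.measurable).trans (mul_le_mul_right (h' f _ hn) _))
  have h2 := ENNReal.toReal_mono (by rw [e]; finiteness) h1
  have h3 := ip_self_nonneg f
  rw [ENNReal.toReal_mul, ENNReal.toReal_mul, ENNReal.toReal_ofReal hC.le,
    ENNReal.toReal_ofReal hC'.le, e, ENNReal.toReal_add f1 ENNReal.ofReal_ne_top,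
    ENNReal.toReal_ofReal h3] at h2
  rw [CollOp.dq, hQ.2, Dis]
  refine h2.trans ?_
  have h4 := mul_pos hC hC'
  nlinarith [mul_nonneg h4.le h3]

lemma DD_cont {Q : CollOp} (hQ : Q.Real) (q : ℕ) : Continuous (DD q) := by
  obtain ⟨C, hC, h⟩ := DD_le_dq hQ q
  have hq : Continuous Q.dq := by
    unfold CollOp.dq
    exact (continuous_ip.comp (Q.L.continuous.prodMk continuous_id)).add
      (continuous_ip.comp (continuous_id.prodMk continuous_id))
  refine continuous_iff_continuousAt.2 fun f0 => ?_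
  have hD := DD_nonneg q f0
  have t0 : Tendsto (fun f => DD q (f - f0)) (𝓝 f0) (𝓝 0) := by
    refine squeeze_zero (fun f => DD_nonneg q _) (fun f => h (f - f0)) ?_
    have := ((hq.comp (continuous_id.sub (continuous_const (y := f0)))).const_mul C).tendsto f0
    simpa [CollOp.dq] using this
  rw [ContinuousAt, Metric.tendsto_nhds]
  intro ε hε
  set t := ε / (2 * (DD q f0 + 1)) with ht
  have ht0 : 0 < t := by positivity
  have h1 : t * (DD q f0 + 1) = ε / 2 := by rw [ht]; field_simp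
  have h2 := (t0.const_mul (1 + t⁻¹)).eventually (gt_mem_nhds (a := ε / 2) (by simpa using hε))
  filter_upwards [h2] with f hf
  have a1 := DD_add ht0 q f0 (f - f0)
  have a2 := DD_add ht0 q f ((-1 : ℝ) • (f - f0))
  rw [add_sub_cancel] at a1
  rw [DD_smul, show f + (-1 : ℝ) • (f - f0) = f0 by module] at a2
  rw [Real.dist_eq, abs_lt]
  refine ⟨?_, by nlinarith⟩
  by_contra hc
  have a3 : DD q f ≤ DD q f0 := by linarith
  nlinarith [mul_le_mul_of_nonneg_left a3 ht0.le]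

lemma absorb {T : ℝ} (hT : 0 < T) (q : ℕ) (f : SV) :
    T * ipW q f f ≤ ipW (q + 199 / 200) f f + T * Real.exp (T ^ 2 / 4) * ipW q (Sq f) f := by
  rw [ipW_eq, ipW_eq, ipW_eq, ← integral_const_mul, ← integral_const_mul,
    ← integral_add (integrable_ipW _ f f) ((integrable_ipW _ _ f).const_mul _)]
  refine integral_mono ((integrable_ipW _ f f).const_mul _)
    ((integrable_ipW _ f f).add ((integrable_ipW _ _ f).const_mul _)) fun v => ?_
  have h0 : (0 : ℝ) < 1 + ‖v‖ ^ 2 := by positivity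
  have h1 : T ≤ (1 + ‖v‖ ^ 2) ^ (199 / 200 : ℝ) + T * Real.exp (T ^ 2 / 4) * sqM v := by
    have hs := sqM_pos v
    rcases le_total T ‖v‖ with h | h
    · have h2 : jb v ≤ (1 + ‖v‖ ^ 2) ^ (199 / 200 : ℝ) := by
        rw [jb, Real.sqrt_eq_rpow]
        exact Real.rpow_le_rpow_of_exponent_le (by nlinarith [sq_nonneg ‖v‖]) (by norm_num)
      exact le_add_of_le_of_nonneg (h.trans ((norm_le_jb v).trans h2)) (by positivity)
    · refine le_add_of_nonneg_of_le (by positivity) ?_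
      rw [mul_assoc, sqM, ← Real.exp_add]
      refine le_mul_of_one_le_right hT.le (Real.one_le_exp ?_)
      nlinarith [norm_nonneg v]
  have h3 : 0 ≤ (1 + ‖v‖ ^ 2) ^ (q : ℝ) * (sqM v * f v * (sqM v * f v)) :=
    mul_nonneg (by positivity) (mul_self_nonneg _)
  have h4 := mul_le_mul_of_nonneg_right h1 h3
  simp only [Sq_apply]
  rw [Real.rpow_add h0]
  linarith

lemma hs_eq (q : ℕ) (a : SV) : hs a = fun w => ph q a w / jb w ^ q := by
  funext v
  have := jb_pos v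
  simp only [ph, hs]; field_simp

lemma coer {Q : CollOp} (hQ : Q.Real) : ∃ q0 : ℕ, ∀ q, q0 ≤ q → ∃ c N : ℝ, 0 < c ∧ 0 ≤ N ∧
    ∀ f, c * DD q f ≤ ipW q (Q.L f + N • Sq f) f := by
  obtain ⟨C0, hC0, h2⟩ := t2'
  obtain ⟨q0, h1⟩ := k1' (C0 * Real.exp ((pK : ℕ) ^ 2) + 1)
  refine ⟨max q0 (2 * dd + 4), fun q hq => ?_⟩
  obtain ⟨c, C, hc, hC, h1⟩ := h1 q (le_of_max_le_left hq)
  obtain ⟨C', hC', h2⟩ := h2 q (le_of_max_le_right hq)
  obtain ⟨K, hK⟩ := rap.2.1 (q + 2 * pK)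
  have hK0 := hK.nonneg
  have hT : 0 < C + C' * K := by positivity
  refine ⟨c, (C + C' * K) * Real.exp ((C + C' * K) ^ 2 / 4), hc, by positivity, fun f => ?_⟩
  have eM : hs sqMS = MM := by
    funext v; simp only [hs, MM, sqMS_apply, sq]; rfl
  have eP : ph q sqMS = fun v => jb v ^ q * MM v := by
    funext v; simp only [ph, MM, sqMS_apply, sq]; rfl
  have a1 := h1 _ (rap_ph q f)
  have a2 := h2 _ K MM _ _ rap.2.1 (rap_ph q f) (rap_ph q f)
    (fun v => by rw [abs_of_pos (MM_pos v)]; exact MM_le_iw v) hK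
  have a3 := absorb hT q f
  have a4 : ∀ N : ℝ, ipW q (Q.L f + N • Sq f) f
      = -ipW q (Q.G1 sqMS f) f - ipW q (Q.G1 f sqMS) f + N * ipW q (Sq f) f := by
    intro N
    simp only [ipW, Q.L_eq, Q.G_eq, map_add, map_neg, map_smul, LinearMap.add_apply,
      LinearMap.neg_apply, LinearMap.smul_apply, smul_eq_mul]
    ring
  rw [Real.mul_self_sqrt (K1.wn_nonneg _ _), Real.mul_self_sqrt (K1.wn_nonneg _ _), ← hs_eq,
    ← eP] at a2
  rw [a4, ipW_G1 hQ, ipW_G1 hQ, eM]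
  rw [wn_gm, wn_zero] at a1 a2
  have a5 := le_abs_self (wk q (hs f) (ph q sqMS) (ph q f))
  unfold DD
  linarith

lemma sup (hV : VHStmt) (P : ℕ) : ∃ C : ℝ, 0 < C ∧ ∀ (r : ℝ) (f : SV), (P : ℝ) + dd + 1 ≤ r →
    Nice P (C * √(bW r pp f)) (hs f) := by
  obtain ⟨C, hC, h⟩ := hV.sup P
  refine ⟨C, hC, fun r f hr => (h f).2.mono_const ?_⟩
  gcongr
  exact bW_mono hr (by unfold pp; omega) f

lemma Ot_le (hV : VHStmt) {q : ℕ} (hq : 2 * dd + 4 ≤ q) : ∃ C : ℝ, 0 < C ∧ ∀ a f g : SV,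
    (Ot q (hs a) (ph q f) (ph q g)).toReal ≤ C * trf pp q a f * √(DD q g) := by
  obtain ⟨Ca, hCa, ha⟩ := bA' q hq
  obtain ⟨Cb, hCb, hb⟩ := bB'
  obtain ⟨C1, hC1, h1⟩ := sup hV pK
  obtain ⟨C2, hC2, h2⟩ := sup hV (q + pK)
  have hp : (pK : ℝ) + dd + 1 ≤ pp := by unfold pp; push_cast; linarith [Nat.cast_nonneg (α := ℝ) pK]
  refine ⟨Ca * C1 + Cb * C2, by positivity, fun a f g => ?_⟩
  have hfin : ∀ (x r : ℝ) (u w : SV),
      ENNReal.ofReal x * (Wn r (ph q u) ^ (1 / 2 : ℝ) * Wn r (ph q w) ^ (1 / 2 : ℝ)) ≠ ⊤ :=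
    fun x r u w => ENNReal.mul_ne_top ENNReal.ofReal_ne_top (ENNReal.mul_ne_top
      (ENNReal.rpow_ne_top_of_nonneg (by norm_num) (Wn_fin r q u))
      (ENNReal.rpow_ne_top_of_nonneg (by norm_num) (Wn_fin r q w)))
  have b1 := ENNReal.toReal_mono (hfin _ _ a g) (ha (C1 * √(bW pp pp f)) (hs a) (ph q f) (ph q g)
    (rap_hs a).measurable (rap_ph q f).measurable (rap_ph q g).measurable fun v => by
      have := jb_pos v
      rw [ph, abs_mul, abs_of_pos (by positivity), mul_comm]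
      exact mul_le_mul_of_nonneg_right (abs_le_iw (h1 _ f hp) v) (by positivity))
  have b2 := ENNReal.toReal_mono (hfin _ _ f g) (hb q (C2 * √(bW (q + pp) pp a)) (hs a) (ph q f)
    (ph q g) (rap_hs a).measurable (rap_ph q f).measurable (rap_ph q g).measurable fun v => by
      have h3 := (h2 (q + pp) a (by push_cast; linarith)).1 v
      have := jb_pos v
      rw [iw, ← div_eq_mul_inv, le_div_iff₀ (by positivity)]
      refine le_trans ?_ h3
      rw [pow_add, mul_right_comm]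
      gcongr
      exact jb_le v)
  rw [ENNReal.toReal_mul, ENNReal.toReal_mul, ENNReal.toReal_ofReal (by positivity),
    toReal_rpow_half, toReal_rpow_half] at b1 b2
  change _ ≤ _ * (√(wn gm (ph q a)) * √(wn gm (ph q g))) at b1
  change _ ≤ _ * (√(wn 0 (ph q f)) * √(wn 0 (ph q g))) at b2
  rw [wn_gm, wn_gm] at b1
  rw [wn_zero, wn_zero] at b2
  have c1 := Real.sqrt_le_sqrt (low q g)
  have c2 := Real.sqrt_le_sqrt (low0 q g)
  unfold trf
  rcases le_total (√(ipW (q + 199 / 200) a a) * √(bW pp pp f))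
    (√(bW (q + pp) pp a) * √(ipW q f f)) with h | h
  · rw [min_eq_left h]
    calc _ ≤ _ := b1
      _ = Ca * C1 * (√(ipW (q + 199 / 200) a a) * √(bW pp pp f))
          * √(ipW (q + 199 / 200) g g) := by ring
      _ ≤ _ := by gcongr; exact le_add_of_nonneg_right (by positivity)
  · rw [min_eq_right h]
    calc _ ≤ _ := b2
      _ = Cb * C2 * (√(bW (q + pp) pp a) * √(ipW q f f)) * √(ipW q g g) := by ring
      _ ≤ _ := by gcongr; exact le_add_of_nonneg_left (by positivity)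

lemma trf_nonneg (p : ℕ) (q : ℝ) (a f : SV) : 0 ≤ trf p q a f := by unfold trf; positivity

lemma pK_le : (pK : ℝ) + dd + 1 ≤ pp := by
  unfold pp; push_cast; linarith [Nat.cast_nonneg (α := ℝ) pK]

lemma est1d (hV : VHStmt) {Q : CollOp} (hQ : Q.Real) {q : ℕ} (hq : 2 * dd + 4 ≤ q) :
    ∃ C : ℝ, 0 < C ∧ ∀ a f, |ipW q (Q.G1 a f) f|
      ≤ C * (√(bW pp pp a) * √(DD q f) + trf pp q a f) * √(DD q f) := by
  obtain ⟨C, hC, h⟩ := t1d' q (by omega)
  obtain ⟨C1, hC1, h1⟩ := sup hV pK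
  obtain ⟨C2, hC2, h2⟩ := Ot_le hV hq
  refine ⟨C * C1 + C2, by positivity, fun a f => ?_⟩
  have b1 := h _ (hs a) (ph q f) (rap_hs a) (rap_ph q f) (abs_le_iw (h1 _ a pK_le))
  have b2 := h2 a f f
  have b3 := trf_nonneg pp q a f
  have b4 := Real.mul_self_sqrt (DD_nonneg q f)
  rw [ipW_G1 hQ]
  change _ ≤ _ * DD q f + _ at b1
  calc _ ≤ C * C1 * (√(bW pp pp a) * √(DD q f)) * √(DD q f) + C2 * trf pp q a f * √(DD q f) := by
        refine b1.trans (add_le_add (le_of_eq ?_) b2)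
        linear_combination (-(C * C1 * √(bW pp pp a))) * b4
    _ ≤ (C * C1 + C2) * (√(bW pp pp a) * √(DD q f)) * √(DD q f)
        + (C * C1 + C2) * trf pp q a f * √(DD q f) := by
        gcongr
        · linarith
        · exact le_add_of_nonneg_left (by positivity)
    _ = _ := by ring

lemma est1 (hV : VHStmt) {Q : CollOp} (hQ : Q.Real) {q : ℕ} (hq : 2 * dd + 4 ≤ q) :
    ∃ C : ℝ, 0 < C ∧ ∀ a f g, |ipW q (Q.G1 a f) g|
      ≤ C * (√(bW pp pp a) * √(DD (q + 1) f) + trf pp q a f) * √(DD q g) := by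
  obtain ⟨C, hC, h⟩ := t1' q (by omega)
  obtain ⟨C1, hC1, h1⟩ := sup hV pK
  obtain ⟨C2, hC2, h2⟩ := Ot_le hV hq
  obtain ⟨C3, hC3, h3⟩ := DD_mono
  refine ⟨C * C1 * √(C3 + 1) + C2, by positivity, fun a f g => ?_⟩
  have b1 := h _ (hs a) (ph q f) (ph q g) (rap_hs a) (rap_ph q f) (rap_ph q g) (h1 _ a pK_le)
  have b2 := h2 a f g
  have b3 := trf_nonneg pp q a f
  have b4 : √(nn (ph q f) + wn 2 (ph q f)) ≤ √(C3 + 1) * √(DD (q + 1) f) := by
    rw [← Real.sqrt_mul (by linarith)]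
    refine Real.sqrt_le_sqrt ?_
    have b5 := low0 (q + 1) f
    have b6 := h3 q f
    rw [wn_ph]
    norm_num at b5 ⊢
    change DD q f + _ ≤ _
    linarith
  rw [ipW_G1 hQ]
  change _ ≤ _ * (_ * √(DD q g)) + _ at b1
  calc _ ≤ C * (C1 * √(bW pp pp a)) * (√(C3 + 1) * √(DD (q + 1) f) * √(DD q g))
        + C2 * trf pp q a f * √(DD q g) := by
        refine b1.trans (add_le_add ?_ b2)
        gcongr
    _ = C * C1 * √(C3 + 1) * (√(bW pp pp a) * √(DD (q + 1) f)) * √(DD q g)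
        + C2 * trf pp q a f * √(DD q g) := by ring
    _ ≤ (C * C1 * √(C3 + 1) + C2) * (√(bW pp pp a) * √(DD (q + 1) f)) * √(DD q g)
        + (C * C1 * √(C3 + 1) + C2) * trf pp q a f * √(DD q g) := by
        gcongr
        · linarith
        · exact le_add_of_nonneg_left (by positivity)
    _ = _ := by ring

lemma est2 (hV : VHStmt) {Q : CollOp} (hQ : Q.Real) {q : ℕ} (hq : 2 * dd + 4 ≤ q) :
    ∃ C : ℝ, 0 < C ∧ ∀ a f g, |ipW q (Q.G1 a f) g|
      ≤ C * (√(ipW (q + 199 / 200) a a) * √(bW (q + pp) pp f)) * √(DD q g) := by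
  obtain ⟨C0, hC0, h⟩ := t2'
  obtain ⟨C, hC, h⟩ := h q hq
  obtain ⟨C1, hC1, h1⟩ := sup hV (q + 2 * pK)
  refine ⟨(C0 + C) * C1, by positivity, fun a f g => ?_⟩
  have hn := h1 (q + pp) f (by unfold pp; push_cast; linarith)
  have b1 := h _ _ (hs f) (ph q a) (ph q g) (rap_hs f) (rap_ph q a) (rap_ph q g)
    (abs_le_iw (hn.mono (by omega))) hn
  rw [← hs_eq, wn_gm, wn_gm, wn_zero, wn_zero] at b1
  have c1 := Real.sqrt_le_sqrt (low q g)
  have c2 := Real.sqrt_le_sqrt (low0 q g)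
  have c3 := Real.sqrt_le_sqrt (ipW_mono (show (q : ℝ) ≤ q + 199 / 200 by linarith) a)
  rw [ipW_G1 hQ]
  calc _ ≤ _ := b1
    _ ≤ C0 * (C1 * √(bW (q + pp) pp f)) * (√(ipW (q + 199 / 200) a a) * √(DD q g))
        + C * (C1 * √(bW (q + pp) pp f)) * (√(ipW (q + 199 / 200) a a) * √(DD q g)) := by gcongr
    _ = _ := by ring

end Op

end Pool.Agent.BoltzM.HC

namespace Pool.Agent.BoltzM

open HC.Op

variable [Dim]

theorem hStmt (hV : VHStmt) : HStmt := by
  intro Q hQ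
  obtain ⟨q0, h0⟩ := coer hQ
  have hq : ∀ q, max (max q0 pp) (2 * dd + 4) ≤ q → 2 * dd + 4 ≤ q := fun q h => le_of_max_le_right h
  exact ⟨{
    D := DD
    p := pp
    q0 := max (max q0 pp) (2 * dd + 4)
    p_le := (le_max_right _ _).trans (le_max_left _ _)
    cont := DD_cont hQ
    add := fun q f g => by
      have := DD_add one_pos q f g
      norm_num at this ⊢
      linarith
    smul := DD_smul
    low := low
    mono := DD_mono
    le_dq := DD_le_dq hQ
    coer := fun q h => h0 q ((le_max_left _ _).trans (le_of_max_le_left h))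
    t1d := fun q h => est1d hV hQ (hq q h)
    t1 := fun q h => est1 hV hQ (hq q h)
    t2 := fun q h => est2 hV hQ (hq q h) }⟩

end Pool.Agent.BoltzM
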