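import Pool.Agent.BoltzM.Coll.Nice
import Pool.Agent.BoltzM.Coll.Arch
import Pool.Agent.BoltzM.Geo.BP

/-! The collision operator in polynomially weighted `L^2`: definitions and interfaces. -/

set_option autoImplicit false

open MeasureTheory Set Filter Topology
open scoped ENNReal RealInnerProductSpace

noncomputable section

namespace Pool.Agent.BoltzM.HC

open Coll

variable [Dim]

/-- the signed jump length -/
def rho (p : E × E × S2) : ℝ := ⟪p.1 - p.2.1, (p.2.2 : E)⟫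

/-- the bracket -/
def jb (v : E) : ℝ := √(1 + ‖v‖ ^ 2)

/-- the exponent gamma -/
def gm : ℝ := 199 / 100

/-- the Maxwellian -/
def MM (w : E) : ℝ := sM w ^ 2

/-- the decay order of the partner -/
def pK : ℕ := 4 * dd + 40

/-- the polynomial partner -/
def iw (w : E) : ℝ := ((1 + ‖w‖) ^ pK)⁻¹

/-- `v'` -/
def v1 (p : E × E × S2) : E := pv p.1 p.2.1 p.2.2

/-- `v_*'` -/
def w1 (p : E × E × S2) : E := pw p.1 p.2.1 p.2.2

/-- `<v'> / <v>` -/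
def xr (p : E × E × S2) : ℝ := jb (v1 p) / jb p.1

/-- `<v_*'> / <v>` -/
def zr (p : E × E × S2) : ℝ := jb (w1 p) / jb p.1

/-- the weight ratio cut at one -/
def rh (q : ℕ) (p : E × E × S2) : ℝ := min (xr p ^ q) 1

/-- the excess of the weight ratio -/
def r2 (q : ℕ) (p : E × E × S2) : ℝ := max (xr p ^ q - 1) 0

/-- the window -/
def Win (p : E × E × S2) : Prop := |⟪p.1, (p.2.2 : E)⟫| ≤ 3 * jb (Geo.perp p.2.2 p.1)

/-- the region in which the weight passes to the partner -/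
def Out (p : E × E × S2) : Prop := 1 < |rho p| ∧ ‖p.1‖ < ‖p.2.1‖

/-- short jumps -/
def RS (p : E × E × S2) : Prop := |rho p| * (1 + |⟪p.2.1, (p.2.2 : E)⟫|) < 1 / 16

/-- jumps that are chained on the line -/
def RL (p : E × E × S2) : Prop := ¬RS p ∧ |⟪p.1, (p.2.2 : E)⟫| ≤ jb (Geo.perp p.2.2 p.1) ∧
  |⟪p.2.1, (p.2.2 : E)⟫| ≤ jb (Geo.perp p.2.2 p.1)

open Classical in
/-- the kernel restricted to a region -/
def kS (S : E × E × S2 → Prop) (p : E × E × S2) : ℝ := if S p then ker3 p else 0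

/-- jumps of length at least `ε` -/
def ke (ε : ℝ) : E × E × S2 → ℝ := kS fun p => ε ≤ |rho p|

/-- long jumps -/
def kf : E × E × S2 → ℝ := kS fun p => 1 < |rho p|

/-- short jumps -/
def kn : E × E × S2 → ℝ := kS fun p => |rho p| ≤ 1

/-- the kernel times the truncated jump length -/
def kx (p : E × E × S2) : ℝ := ker3 p * min 1 |rho p|

/-- lower integral over collisions -/
def I3 (F : E × E × S2 → ℝ) : ℝ≥0∞ := ∫⁻ p, ENNReal.ofReal (F p) ∂mu3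

/-- squared norm with weight `<v>^r` on the square -/
def Wn (r : ℝ) (f : E → ℝ) : ℝ≥0∞ := ∫⁻ v, ENNReal.ofReal (jb v ^ r * f v ^ 2)

/-- the jump part of the norm -/
def J0 (f : E → ℝ) : ℝ≥0∞ := I3 fun p => kS Win p * MM p.2.1 * (f (v1 p) - f p.1) ^ 2

/-- the squared norm -/
def NN (f : E → ℝ) : ℝ≥0∞ := J0 f + Wn gm f

/-- the jump form with the polynomial partner -/
def Jp (f : E → ℝ) : ℝ≥0∞ :=
  I3 fun p => ker3 p * iw p.2.1 * min (xr p) 1 ^ 4 * (f (v1 p) - f p.1) ^ 2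

/-- the transfer term -/
def Ot (q : ℕ) (G f g : E → ℝ) : ℝ≥0∞ :=
  I3 fun p => kS Out p * |G p.2.1| * xr p ^ q * (|f p.1| * |g (v1 p)|)

/-- integrand of the weak form without the kernel, unknowns `f = <v>^q h₁`, `g = <v>^q h₂` -/
def wJ (q : ℕ) (G f g : E → ℝ) (p : E × E × S2) : ℝ :=
  G p.2.1 * (f p.1 * (xr p ^ q * g (v1 p) - g p.1))

/-- integrand of the weak form -/
def wI (q : ℕ) (G f g : E → ℝ) (p : E × E × S2) : ℝ := ker3 p * wJ q G f g p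

/-- the weak form of `<Q(G, h₁), <v>^(2q) h₂>` -/
def wk (q : ℕ) (G f g : E → ℝ) : ℝ := ∫ p, wI q G f g p ∂mu3

/-- decay and local Lipschitz bounds of every order -/
def Rap (f : E → ℝ) : Prop := ∀ P : ℕ, ∃ K, Nice P K f

/-- real squared norms -/
def nn (f : E → ℝ) : ℝ := (NN f).toReal

/-- real squared weighted norms -/
def wn (r : ℝ) (f : E → ℝ) : ℝ := (Wn r f).toReal

/-- row MARG: the mass of the truncated kernel -/
def AngStmt : Prop :=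
  ∃ A : ℝ, 0 < A ∧ ∀ v w : E,
    ∫⁻ o, ENNReal.ofReal (kx (v, w, o)) ∂sph ≤ ENNReal.ofReal (A * ‖v - w‖ ^ 2)

/-- row MARG: the marginal after the collision -/
def PostStmt : Prop :=
  ∀ Φ : ℝ → E → E → ℝ, Measurable (fun z : ℝ × E × E => Φ z.1 z.2.1 z.2.2) →
    I3 (fun p => ker3 p * Φ (rho p) p.2.1 (v1 p))
      = ∫⁻ x : E, ∫⁻ w : E, ENNReal.ofReal (cS / ‖x - w‖) * ∫⁻ t : ℝ, ENNReal.ofReal
          (2 * (t ^ 2 + ‖x - w‖ ^ 2) ^ (3 / 2 : ℝ) * |t| ^ (-(101 / 100) : ℝ) * Φ t w x)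

/-- row MARG: a convolution bound -/
def ConvStmt : Prop :=
  ∃ C : ℝ, 0 < C ∧ ∀ x : E,
    ∫⁻ w : E, ENNReal.ofReal (((1 + ‖w‖) ^ (dd + 2))⁻¹ / ‖x - w‖) ≤ ENNReal.ofReal (C / jb x)

/-- row M1L -/
def M1LStmt : Prop :=
  ∀ L : ℝ, ∃ (q0 : ℕ) (R : ℝ), ∀ q, q0 ≤ q → ∀ v : E, R ≤ ‖v‖ → ENNReal.ofReal (L * jb v ^ gm)
    ≤ ∫⁻ z, ENNReal.ofReal (ker3 (v, z) * MM z.1 * (1 - rh q (v, z))) ∂mu2

/-- row M1U -/
def M1UStmt : Prop :=
  ∃ C : ℝ, 0 < C ∧ ∀ (q : ℕ) (f : E → ℝ), Measurable f →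
    I3 (fun p => ker3 p * iw p.2.1 * (1 - rh q p) * f p.1 ^ 2)
      ≤ ENNReal.ofReal (C * q) * Wn gm f

/-- row FAR: long jumps, marginal after the collision -/
def FarStmt : Prop :=
  ∃ C : ℝ, 0 < C ∧ ∀ f : E → ℝ, Measurable f →
    I3 (fun p => kS (fun p => jb (v1 p) ≤ 25 * (1 + ‖p.2.1‖) ^ 3 * |rho p|) p * iw p.2.1
      * min (xr p) 1 ^ 4 * f (v1 p) ^ 2) ≤ ENNReal.ofReal C * Wn gm f

/-- row M2U: cancellation, upper side, constant free of `q` -/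
def M2UStmt : Prop :=
  ∃ C : ℝ, 0 < C ∧ ∀ (q : ℕ) (ε K : ℝ) (a f : E → ℝ), 4 ≤ q → 0 < ε → Measurable a → Measurable f →
    (∀ w, 0 ≤ a w) → (∀ w, a w ≤ K * iw w) →
    I3 (fun p => ke ε p * a p.2.1 * rh q p * f (v1 p) ^ 2)
      ≤ I3 (fun p => ke ε p * a p.2.1 * f p.1 ^ 2) + ENNReal.ofReal (C * K) * Wn gm f

/-- row M2L: cancellation, lower side -/
def M2LStmt : Prop :=
  ∀ q : ℕ, ∃ C : ℝ, 0 < C ∧ ∀ (ε K : ℝ) (a f : E → ℝ), 0 < ε → Measurable a → Measurable f →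
    (∀ w, 0 ≤ a w) → (∀ w, a w ≤ K * iw w) →
    I3 (fun p => ke ε p * a p.2.1 * f p.1 ^ 2)
      ≤ I3 (fun p => ke ε p * a p.2.1 * rh q p * f (v1 p) ^ 2) + ENNReal.ofReal (C * K) * Wn gm f

/-- row A: the gain term in which the partner carries the function -/
def AStmt : Prop :=
  ∃ C : ℝ, 0 < C ∧ ∀ f g : E → ℝ, Measurable f → Measurable g →
    I3 (fun p => kf p * iw p.2.1 * min (zr p) 1 ^ (2 * dd + 4) * (|f p.1| * |g (w1 p)|))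
      ≤ ENNReal.ofReal C * (Wn gm f ^ (1 / 2 : ℝ) * Wn gm g ^ (1 / 2 : ℝ))

/-- row B1: the excess outside the transfer region -/
def B1Stmt : Prop :=
  ∀ q : ℕ, ∃ C : ℝ, 0 < C ∧ ∀ f g : E → ℝ, Measurable f → Measurable g →
    I3 (fun p => kS (fun p => ¬Out p) p * iw p.2.1 * r2 q p * (|f p.1| * |g (v1 p)|))
      ≤ ENNReal.ofReal C * (Wn 1 f ^ (1 / 2 : ℝ) * Wn 1 g ^ (1 / 2 : ℝ))

/-- row B2 (alpha): second slot bounded -/
def BaStmt : Prop :=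
  ∀ q : ℕ, 2 * dd + 4 ≤ q → ∃ C : ℝ, 0 < C ∧ ∀ (K : ℝ) (G f g : E → ℝ), Measurable G → Measurable f →
    Measurable g → (∀ v, |f v| ≤ K * iw v * jb v ^ q) →
    Ot q G f g ≤ ENNReal.ofReal (C * K)
      * (Wn gm (fun w => jb w ^ q * G w) ^ (1 / 2 : ℝ) * Wn gm g ^ (1 / 2 : ℝ))

/-- row B2 (beta): first slot bounded with the full weight -/
def BbStmt : Prop :=
  ∃ C : ℝ, 0 < C ∧ ∀ (q : ℕ) (K : ℝ) (G f g : E → ℝ), Measurable G → Measurable f →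
    Measurable g → (∀ w, jb w ^ q * |G w| ≤ K * iw w) →
    Ot q G f g ≤ ENNReal.ofReal (C * K) * (Wn 0 f ^ (1 / 2 : ℝ) * Wn 0 g ^ (1 / 2 : ℝ))

/-- row K2S -/
def K2SStmt : Prop :=
  ∃ C : ℝ, 0 < C ∧ ∀ f : E → ℝ, Measurable f →
    I3 (fun p => kS RS p * iw p.2.1 * (f (v1 p) - f p.1) ^ 2) ≤ ENNReal.ofReal C * J0 f

/-- row K2L -/
def K2LStmt : Prop :=
  ∃ C : ℝ, 0 < C ∧ ∀ f : E → ℝ, Measurable f →
    I3 (fun p => kS RL p * iw p.2.1 * (f (v1 p) - f p.1) ^ 2) ≤ ENNReal.ofReal C * J0 f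

/-- row K2 (from K2S, K2L, FAR) -/
def K2Stmt : Prop :=
  ∃ C : ℝ, 0 < C ∧ ∀ f : E → ℝ, Measurable f → Jp f ≤ ENNReal.ofReal C * NN f

/-- row FIN: finiteness and integrability -/
def FinStmt : Prop :=
  (∀ f, Rap f → NN f ≠ ⊤) ∧ (∀ r f, Rap f → Wn r f ≠ ⊤) ∧
    ∀ q G f g, Rap G → Rap f → Rap g → Integrable (wI q G f g) mu3 ∧ Ot q G f g ≠ ⊤

/-- integrand of the cancellation term -/
def cI (q : ℕ) (a f : E → ℝ) (p : E × E × S2) : ℝ :=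
  ker3 p * a p.2.1 * (rh q p * f (v1 p) ^ 2 - f p.1 ^ 2)

/-- row M2R: cancellation without truncation -/
def M2RStmt : Prop :=
  ∃ C0 : ℝ, 0 < C0 ∧ ∀ q : ℕ, 4 ≤ q → ∃ C : ℝ, 0 < C ∧ ∀ (K : ℝ) (a f : E → ℝ), Measurable a →
    Rap f → (∀ w, 0 ≤ a w) → (∀ w, a w ≤ K * iw w) → Integrable (cI q a f) mu3 ∧
      ∫ p, cI q a f p ∂mu3 ≤ C0 * K * wn gm f ∧ -(C * K * wn gm f) ≤ ∫ p, cI q a f p ∂mu3

/-- row WF: the weak form for functions in the Gaussian class -/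
def WFStmt : Prop :=
  ∀ (q : ℕ) (r H K : E → ℝ), Rap r → Rap H → Rap K →
    ∫ v, (1 + ‖v‖ ^ 2) ^ q * MM v * (Gam r H v * K v)
      = wk q (fun w => sM w * r w) (fun v => jb v ^ q * (sM v * H v))
          (fun v => jb v ^ q * (sM v * K v))

/-- row K1: coercivity -/
def K1Stmt : Prop :=
  ∀ L : ℝ, ∃ q0 : ℕ, ∀ q, q0 ≤ q → ∃ c C : ℝ, 0 < c ∧ 0 < C ∧ ∀ f, Rap f →
    wk q MM f f + c * nn f + L * wn gm f ≤ C * wn 0 f

/-- row T1D: the diagonal estimate -/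
def T1DStmt : Prop :=
  ∀ q : ℕ, 4 ≤ q → ∃ C : ℝ, 0 < C ∧ ∀ (K : ℝ) (G f : E → ℝ), Rap G → Rap f →
    (∀ w, |G w| ≤ K * iw w) → |wk q G f f| ≤ C * K * nn f + (Ot q G f f).toReal

/-- row T1: the estimate off the diagonal, with an excess weight on the second slot -/
def T1Stmt : Prop :=
  ∀ q : ℕ, 4 ≤ q → ∃ C : ℝ, 0 < C ∧ ∀ (K : ℝ) (G f g : E → ℝ), Rap G → Rap f → Rap g →
    Nice pK K G → |wk q G f g| ≤ C * K * (√(nn f + wn 2 f) * √(nn g)) + (Ot q G f g).toReal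

/-- row T2F: the long jumps in T2 -/
def T2FStmt : Prop :=
  ∃ C0 : ℝ, 0 < C0 ∧ ∀ q : ℕ, 2 * dd + 4 ≤ q → ∃ C : ℝ, 0 < C ∧ ∀ (K0 K : ℝ) (G f g : E → ℝ),
    Measurable G → Measurable f → Measurable g → (∀ v, |G v| ≤ K0 * iw v) →
    (∀ v, (1 + ‖v‖) ^ (q + 2 * pK) * |G v| ≤ K) →
    I3 (fun p => |kf p * wJ q (fun w => f w / jb w ^ q) (fun v => jb v ^ q * G v) g p|)
      ≤ ENNReal.ofReal (C0 * K0) * (Wn gm f ^ (1 / 2 : ℝ) * Wn gm g ^ (1 / 2 : ℝ))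
        + ENNReal.ofReal (C * K) * (Wn 0 f ^ (1 / 2 : ℝ) * Wn 0 g ^ (1 / 2 : ℝ))

/-- row T2N: the short jumps in T2 -/
def T2NStmt : Prop :=
  ∀ q : ℕ, 2 * dd + 4 ≤ q → ∃ C : ℝ, 0 < C ∧ ∀ (K : ℝ) (G f g : E → ℝ),
    Rap G → Rap f → Rap g → Nice (q + 2 * pK) K G →
    |∫ p, kn p * wJ q (fun w => f w / jb w ^ q) (fun v => jb v ^ q * G v) g p ∂mu3|
      ≤ C * K * (√(wn 0 f) * √(wn 0 g))

/-- row RAP: closure properties -/
def RapStmt : Prop :=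
  Rap sM ∧ Rap MM ∧ (∀ f g, Rap f → Rap g → Rap fun v => f v * g v) ∧
    (∀ (q : ℕ) f, Rap f → Rap fun v => jb v ^ q * f v) ∧
    ∀ (q : ℕ) f, Rap f → Rap fun v => f v / jb v ^ q

/-- row T2: rough first slot `f / <w>^q`, nice second slot `<v>^q G` -/
def T2Stmt : Prop :=
  ∃ C0 : ℝ, 0 < C0 ∧ ∀ q : ℕ, 2 * dd + 4 ≤ q → ∃ C : ℝ, 0 < C ∧ ∀ (K0 K : ℝ) (G f g : E → ℝ),
    Rap G → Rap f → Rap g → (∀ v, |G v| ≤ K0 * iw v) → Nice (q + 2 * pK) K G →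
    |wk q (fun w => f w / jb w ^ q) (fun v => jb v ^ q * G v) g|
      ≤ C0 * K0 * (√(wn gm f) * √(wn gm g)) + C * K * (√(wn 0 f) * √(wn 0 g))

/-- row T3: lowering the weight -/
def T3Stmt : Prop :=
  ∃ C : ℝ, 0 < C ∧ ∀ f : E → ℝ, Measurable f → NN (fun v => f v / jb v) ≤ ENNReal.ofReal C * NN f

/-- row T4: functions of the Gaussian class -/
def T4Stmt : Prop :=
  ∀ q : ℕ, ∃ C : ℝ, 0 < C ∧ ∀ g : E → ℝ, Measurable g →
    NN (fun v => jb v ^ q * (sM v * g v)) + Wn 2 (fun v => jb v ^ q * (sM v * g v))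
      ≤ ENNReal.ofReal C * NL g

end Pool.Agent.BoltzM.HC
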