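import Pool.Agent.BoltzM.HC.Basic
import Pool.Agent.BoltzM.C3.Cancel

/-! The short jumps of the term with a rough first slot, and the assembly of that term. -/

set_option autoImplicit false

open MeasureTheory Set Filter Topology
open scoped ENNReal RealInnerProductSpace

noncomputable section

namespace Pool.Agent.BoltzM.HC

open Coll

variable [Dim]

namespace T2N

/-- inverse powers of the weight -/
def om (n : ℕ) (v : E) : ℝ := ((1 + ‖v‖) ^ n)⁻¹

lemma om_pos (n : ℕ) (v : E) : 0 < om n v := by unfold om; positivity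

lemma om_le_one (n : ℕ) (v : E) : om n v ≤ 1 := inv_le_one_of_one_le₀ (one_le_wt v n)

@[fun_prop] lemma measurable_om (n : ℕ) : Measurable (om n) := by unfold om; fun_prop

lemma pow_mul_om (m n : ℕ) (v : E) : (1 + ‖v‖) ^ m * om (n + m) v = om n v := by
  have : (0 : ℝ) < 1 + ‖v‖ := by positivity
  unfold om
  rw [pow_add]
  field_simp

lemma om_anti {m n : ℕ} (h : m ≤ n) (v : E) : om n v ≤ om m v :=
  inv_anti₀ (wt_pos v m) (pow_le_pow_right₀ (by linarith [norm_nonneg v]) h)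

lemma le_om {n : ℕ} {v : E} {a K : ℝ} (h : (1 + ‖v‖) ^ n * a ≤ K) : a ≤ K * om n v := by
  rw [om, ← div_eq_mul_inv, le_div_iff₀ (wt_pos v n), mul_comm]
  exact h

lemma om_near (n : ℕ) {w w' : E} (h : ‖w' - w‖ ≤ 1) : om n w' ≤ 2 ^ n * om n w := by
  refine le_om ?_
  rw [om, ← div_eq_mul_inv, div_le_iff₀ (wt_pos _ _), ← mul_pow]
  gcongr
  exact wt_le_two_mul h

lemma lint_om : ∫⁻ w : E, ENNReal.ofReal (om (dd + 1) w) ≠ ⊤ := by
  have := finite_integral_one_add_norm (μ := (volume : Measure E)) (r := (dd + 1 : ℕ))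
    (by simp)
  refine (lt_of_le_of_lt (le_of_eq (lintegral_congr fun w => ?_)) this).ne
  rw [Real.rpow_neg (by positivity), Real.rpow_natCast, om]

lemma Wn_zero (f : E → ℝ) : Wn 0 f = ∫⁻ v, ENNReal.ofReal (f v ^ 2) := by
  simp only [Wn, Real.rpow_zero, one_mul]

lemma Wn_ne_top {f : E → ℝ} (hf : Rap f) : Wn 0 f ≠ ⊤ := by
  obtain ⟨K, hK⟩ := hf (dd + 1)
  have h0 := hK.nonneg
  refine ne_top_of_le_ne_top (ENNReal.mul_ne_top (a := ENNReal.ofReal (K * K))
    ENNReal.ofReal_ne_top lint_om) ?_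
  rw [Wn_zero, ← lintegral_const_mul' _ _ ENNReal.ofReal_ne_top]
  refine lintegral_mono fun v => ?_
  simp only
  rw [← ENNReal.ofReal_mul (by positivity), ← sq_abs, sq, mul_assoc]
  exact ENNReal.ofReal_le_ofReal
    (mul_le_mul (hK.abs_le v) (le_om (hK.1 v)) (abs_nonneg _) h0)

/-- the short jump kernel with decay in both velocities -/
def kk (p : E × E × S2) : ℝ := kn p * |rho p| * (om (dd + 4) p.1 * om (dd + 4) p.2.1)

lemma kk_nonneg (p : E × E × S2) : 0 ≤ kk p :=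
  mul_nonneg (mul_nonneg (kn_nonneg p) (abs_nonneg _)) (mul_pos (om_pos _ _) (om_pos _ _)).le

@[fun_prop] lemma measurable_kk : Measurable kk := by unfold kk; fun_prop

lemma kk_swp (p : E × E × S2) : kk (swp p) = kk p := by
  rw [kk, kk, kn_swp, rho_swp, abs_neg, mul_comm (om _ p.1)]
  rfl

lemma kk_coll (p : E × E × S2) : kk (coll p) ≤ 4 ^ (dd + 4) * kk p := by
  rw [kk, kk, kn_coll, rho_coll, abs_neg]
  rcases le_or_gt |rho p| 1 with h | h
  · have h1 := om_near (dd + 4) ((norm_v1_sub p).le.trans h)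
    have h2 := om_near (dd + 4) ((norm_w1_sub p).le.trans h)
    have h3 := kn_nonneg p
    have h4 := om_pos (dd + 4) (w1 p)
    have h5 := om_pos (dd + 4) p.1
    calc _ ≤ kn p * |rho p| * (2 ^ (dd + 4) * om (dd + 4) p.1 * (2 ^ (dd + 4) * om (dd + 4) p.2.1)) :=
          mul_le_mul_of_nonneg_left (mul_le_mul h1 h2 h4.le (by positivity)) (by positivity)
      _ = _ := by rw [show (4 : ℝ) = 2 * 2 by norm_num, mul_pow]; ring
  · simp [kn_neg h]

lemma kk_fst (hA : AngStmt) : ∃ C : ℝ, 0 < C ∧ ∀ v : E,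
    ∫⁻ z, ENNReal.ofReal (kk (v, z)) ∂mu2 ≤ ENNReal.ofReal C * ENNReal.ofReal (om (dd + 1) v) := by
  obtain ⟨A, hA, h⟩ := hA
  set B := ∫⁻ w : E, ENNReal.ofReal (om (dd + 1) w) with hB
  have hB' : B = ENNReal.ofReal B.toReal := (ENNReal.ofReal_toReal lint_om).symm
  refine ⟨A * B.toReal + 1, by positivity, fun v => ?_⟩
  have h0 := om_pos (dd + 1) v
  rw [lintegral_mu2 _ (by fun_prop)]
  calc _ ≤ ∫⁻ w : E, ENNReal.ofReal (A * om (dd + 1) v) * ENNReal.ofReal (om (dd + 1) w) := by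
        refine lintegral_mono fun w => ?_
        have a1 := om_pos (dd + 4) v
        have a2 := om_pos (dd + 4) w
        calc _ ≤ ∫⁻ o, ENNReal.ofReal (kx (v, w, o))
              * ENNReal.ofReal (om (dd + 4) v * om (dd + 4) w) ∂sph := by
              refine lintegral_mono fun o => ?_
              simp only
              rw [← ENNReal.ofReal_mul (kx_nonneg _)]
              exact ENNReal.ofReal_le_ofReal
                (mul_le_mul_of_nonneg_right (kn_mul_abs_le (v, w, o)) (by positivity))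
          _ ≤ ENNReal.ofReal (A * ‖v - w‖ ^ 2)
              * ENNReal.ofReal (om (dd + 4) v * om (dd + 4) w) := by
              rw [lintegral_mul_const _ (by fun_prop)]
              exact mul_le_mul_left (h v w) _
          _ ≤ _ := by
              rw [← ENNReal.ofReal_mul (by positivity), ← ENNReal.ofReal_mul (by positivity)]
              refine ENNReal.ofReal_le_ofReal ?_
              have a3 : ‖v - w‖ ≤ (1 + ‖v‖) * (1 + ‖w‖) := by linarith [wt_le_mul v w]
              have a4 := om_anti (Nat.le_succ (dd + 1)) v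
              have a5 := om_anti (Nat.le_succ (dd + 1)) w
              have a6 := om_pos (dd + 2) w
              calc _ ≤ A * ((1 + ‖v‖) * (1 + ‖w‖)) ^ 2 * (om (dd + 4) v * om (dd + 4) w) := by
                    gcongr
                _ = A * (om (dd + 2) v * om (dd + 2) w) := by
                    rw [← pow_mul_om 2 (dd + 2) v, ← pow_mul_om 2 (dd + 2) w]; ring
                _ ≤ A * (om (dd + 1) v * om (dd + 1) w) := by gcongr
                _ = _ := by ring
    _ = ENNReal.ofReal (A * B.toReal) * ENNReal.ofReal (om (dd + 1) v) := by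
        rw [lintegral_const_mul _ (by fun_prop), ← hB, ENNReal.ofReal_mul hA.le,
          ENNReal.ofReal_mul hA.le, ← hB']
        ring
    _ ≤ _ := by gcongr; linarith

lemma integ (hA : AngStmt) {Φ : E × E × S2 → ℝ} (hΦ : Measurable Φ) {c : ℝ} (hc : 0 ≤ c)
    (h : ∀ p, |Φ p| ≤ c * kk p) : Integrable Φ mu3 := by
  obtain ⟨C, -, hC⟩ := kk_fst hA
  refine integrable_of_I3 hΦ (ne_top_of_le_ne_top ?_ (I3_mono h))
  rw [I3_const_mul hc]
  refine ENNReal.mul_ne_top ENNReal.ofReal_ne_top (ne_top_of_le_ne_top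
    (ENNReal.mul_ne_top (a := ENNReal.ofReal C) ENNReal.ofReal_ne_top lint_om) ?_)
  rw [I3, mu3, lintegral_prod _ (by fun_prop), ← lintegral_const_mul _ (by fun_prop)]
  exact lintegral_mono hC

omit [Dim] in
lemma half_mul (C a b : ℝ≥0∞) :
    (C * a) ^ (1 / 2 : ℝ) * (C * b) ^ (1 / 2 : ℝ) = C * (b ^ (1 / 2 : ℝ) * a ^ (1 / 2 : ℝ)) := by
  rw [ENNReal.mul_rpow_of_nonneg _ _ (by norm_num), ENNReal.mul_rpow_of_nonneg _ _ (by norm_num),
    mul_mul_mul_comm, ← ENNReal.rpow_add_of_nonneg _ _ (by norm_num) (by norm_num), mul_comm (a ^ _)]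
  norm_num

lemma kk_cs (hA : AngStmt) : ∃ C : ℝ, 0 < C ∧ ∀ f g : E → ℝ, Measurable f → Measurable g →
    I3 (fun p => kk p * (|g p.1| * |f (w1 p)|))
      ≤ ENNReal.ofReal C * (Wn 0 f ^ (1 / 2 : ℝ) * Wn 0 g ^ (1 / 2 : ℝ)) := by
  obtain ⟨C, hC, h⟩ := kk_fst hA
  have h1 : ∀ f : E → ℝ, Measurable f →
      I3 (fun p => kk p * f p.1 ^ 2) ≤ ENNReal.ofReal C * Wn 0 f := fun f hf =>
    I3_fst measurable_kk kk_nonneg hC.le (fun v => (h v).trans (by
      rw [← ENNReal.ofReal_mul hC.le, Real.rpow_zero]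
      exact ENNReal.ofReal_le_ofReal (mul_le_mul_of_nonneg_left (om_le_one _ _) hC.le))) hf
  have h4 : (1 : ℝ) ≤ 4 ^ (dd + 4) := one_le_pow₀ (by norm_num)
  refine ⟨4 ^ (dd + 4) * C, by positivity, fun f g hf hg => ?_⟩
  refine (I3_cs (a := fun p => g p.1) (b := fun p => f (w1 p)) measurable_kk (by fun_prop)
    (by fun_prop) kk_nonneg).trans ?_
  rw [← half_mul]
  gcongr
  · refine (h1 g hg).trans ?_
    gcongr
    exact le_mul_of_one_le_left hC.le h4
  · rw [← I3_coll (by fun_prop), ENNReal.ofReal_mul (by positivity), mul_assoc]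
    refine (I3_mono (G := fun p => 4 ^ (dd + 4) * (kk (swp p) * f (swp p).1 ^ 2)) fun p => ?_).trans ?_
    · rw [w1_coll, kk_swp, ← mul_assoc]
      exact mul_le_mul_of_nonneg_right (kk_coll p) (sq_nonneg _)
    · rw [I3_const_mul (by positivity), I3_swp (F := fun p => kk p * f p.1 ^ 2) (by fun_prop)]
      exact mul_le_mul_right (h1 f hf) _

/-- the kernel of the error term -/
def ka (z : E × E) : ℝ := om (dd + 2) z.1 * om (dd + 2) z.2 / ‖z.1 - z.2‖

lemma ka_nonneg (z : E × E) : 0 ≤ ka z :=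
  div_nonneg (mul_pos (om_pos _ _) (om_pos _ _)).le (norm_nonneg _)

@[fun_prop] lemma measurable_ka : Measurable ka := by unfold ka; fun_prop

lemma ka_cs (hC : ConvStmt) : ∃ C : ℝ, 0 < C ∧ ∀ f g : E → ℝ, Measurable f → Measurable g →
    ∫⁻ v, ∫⁻ z, ENNReal.ofReal (ka (v, z) * (|g v| * |f z|))
      ≤ ENNReal.ofReal C * (Wn 0 f ^ (1 / 2 : ℝ) * Wn 0 g ^ (1 / 2 : ℝ)) := by
  obtain ⟨C, hC, h⟩ := hC
  have key : ∀ (c : ℝ) (z : E × E),
      ENNReal.ofReal (√(ka z) * |c|) ^ (2 : ℝ) = ENNReal.ofReal (ka z * c ^ 2) := by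
    intro c z
    rw [ENNReal.ofReal_rpow_of_nonneg (by positivity) (by norm_num), Real.rpow_two, mul_pow,
      Real.sq_sqrt (ka_nonneg z), sq_abs]
  have h1 : ∀ f : E → ℝ, Measurable f → ∫⁻ z : E × E, ENNReal.ofReal (ka z * f z.1 ^ 2)
      ∂(volume : Measure E).prod volume ≤ ENNReal.ofReal C * Wn 0 f := by
    intro f hf
    rw [lintegral_prod _ (by fun_prop), Wn_zero, ← lintegral_const_mul _ (by fun_prop)]
    refine lintegral_mono fun v => ?_
    calc _ ≤ ∫⁻ w, ENNReal.ofReal (((1 + ‖w‖) ^ (dd + 2))⁻¹ / ‖v - w‖)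
          * ENNReal.ofReal (f v ^ 2) := by
          refine lintegral_mono fun w => ?_
          simp only
          rw [ENNReal.ofReal_mul (ka_nonneg _)]
          refine mul_le_mul_left (ENNReal.ofReal_le_ofReal ?_) _
          exact div_le_div_of_nonneg_right
            (mul_le_of_le_one_left (om_pos _ _).le (om_le_one _ _)) (norm_nonneg _)
      _ ≤ _ := by
          rw [lintegral_mul_const _ (by fun_prop)]
          exact mul_le_mul_left ((h v).trans (ENNReal.ofReal_le_ofReal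
            (div_le_self hC.le (one_le_jb v)))) _
  refine ⟨C, hC, fun f g hf hg => ?_⟩
  have h2 := ENNReal.lintegral_mul_le_Lp_mul_Lq ((volume : Measure E).prod (volume : Measure E))
    Real.HolderConjugate.two_two (f := fun z => ENNReal.ofReal (√(ka z) * |g z.1|))
    (g := fun z => ENNReal.ofReal (√(ka z) * |f z.2|)) (by fun_prop) (by fun_prop)
  simp only [key, Pi.mul_apply] at h2
  rw [← lintegral_prod (fun z : E × E => ENNReal.ofReal (ka z * (|g z.1| * |f z.2|))) (by fun_prop),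
    ← half_mul]
  refine le_trans (le_of_eq (lintegral_congr fun z => ?_)) (h2.trans ?_)
  · rw [← ENNReal.ofReal_mul (by positivity), mul_mul_mul_comm, Real.mul_self_sqrt (ka_nonneg z)]
  · gcongr
    · exact h1 g hg
    · rw [← lintegral_prod_swap]
      refine le_trans (le_of_eq (lintegral_congr fun z => ?_)) (h1 f hf)
      simp only [ka, Prod.fst_swap, Prod.snd_swap, norm_sub_rev z.2, mul_comm (om _ z.2)]

lemma cbar_le (v z : E) : C3.cbar ‖v - z‖
    ≤ ENNReal.ofReal (C3.cb * ((1 + ‖v‖) ^ 2 * (1 + ‖z‖) ^ 2) / ‖v - z‖) := by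
  have h0 := C3.cb_pos
  have h1 := wt_le_mul v z
  have h2 := norm_nonneg (v - z)
  refine ENNReal.ofReal_le_ofReal (div_le_div_of_nonneg_right
    (mul_le_mul_of_nonneg_left ?_ h0.le) h2)
  rw [← mul_pow]
  nlinarith

lemma err_le (hC : ConvStmt) : ∃ C : ℝ, 0 < C ∧ ∀ (K : ℝ) (H : E × E → ℝ) (f g : E → ℝ), 0 ≤ K →
    Measurable f → Measurable g →
    (∀ v z, |H (v, z)| ≤ K * (om (dd + 4) v * om (dd + 4) z) * (|g v| * |f z|)) →
    C3.err H ≤ ENNReal.ofReal (C * K) * (Wn 0 f ^ (1 / 2 : ℝ) * Wn 0 g ^ (1 / 2 : ℝ)) := by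
  obtain ⟨C, hC, h⟩ := ka_cs hC
  have h0 := C3.cb_pos
  refine ⟨C3.cb * C, by positivity, fun K H f g hK hf hg hH => ?_⟩
  calc _ ≤ ∫⁻ v, ∫⁻ z, ENNReal.ofReal (C3.cb * K)
        * ENNReal.ofReal (ka (v, z) * (|g v| * |f z|)) := by
        refine lintegral_mono fun v => ?_
        simp only
        rw [← lintegral_sub_left_eq_self _ v]
        refine lintegral_mono fun z => ?_
        simp only [sub_sub_cancel]
        refine (mul_le_mul' (cbar_le v z) (ENNReal.ofReal_le_ofReal (hH v z))).trans (le_of_eq ?_)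
        rw [← ENNReal.ofReal_mul (by positivity), ← ENNReal.ofReal_mul (by positivity), ka,
          ← pow_mul_om 2 (dd + 2) v, ← pow_mul_om 2 (dd + 2) z]
        congr 1
        ring
    _ ≤ _ := by
        simp only [lintegral_const_mul' _ _ ENNReal.ofReal_ne_top]
        rw [mul_right_comm, ENNReal.ofReal_mul (p := C3.cb * K) (by positivity), mul_assoc]
        exact mul_le_mul_right (h f g hf hg) _

lemma kc_eq (ε : ℝ) (p : E × E × S2) : C3.kc ε p = if ε ≤ |rho p| then kn p else 0 := by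
  unfold C3.kc C3.phi C3.win
  by_cases h : ε ≤ |rho p| ∧ |rho p| ≤ 1
  · rw [indicator_of_mem (show C3.rho p ∈ {t | ε ≤ |t| ∧ |t| ≤ 1} from h), if_pos h.1, kn_pos h.2]
    rfl
  · rw [indicator_of_notMem (show C3.rho p ∉ {t | ε ≤ |t| ∧ |t| ≤ 1} from h), mul_zero]
    split_ifs with h1
    · exact (kn_neg (not_le.1 fun h2 => h ⟨h1, h2⟩)).symm
    · rfl

lemma kc_le_kn (ε : ℝ) (p : E × E × S2) : C3.kc ε p ≤ kn p := by
  rw [kc_eq]
  split_ifs
  · exact le_rfl
  · exact kn_nonneg p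

lemma kc_le {ε : ℝ} (hε : 0 < ε) (p : E × E × S2) : C3.kc ε p ≤ ε⁻¹ * (kn p * |rho p|) := by
  have := kn_nonneg p
  rw [kc_eq, le_inv_mul_iff₀ hε]
  split_ifs with h
  · rw [mul_comm]; exact mul_le_mul_of_nonneg_left h this
  · rw [mul_zero]; positivity

lemma kc_tendsto (p : E × E × S2) : Tendsto (fun ε => C3.kc ε p) (𝓝[>] 0) (𝓝 (kn p)) := by
  refine tendsto_const_nhds.congr' ?_
  rcases (abs_nonneg (rho p)).eq_or_lt with h | h
  · have h1 : kn p = 0 := by
      rw [kn_pos (by linarith), ker3_eq, ← h, Real.zero_rpow (by norm_num), mul_zero]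
    exact Eventually.of_forall fun ε => by simp only [kc_eq, h1, ite_self]
  · filter_upwards [Ioc_mem_nhdsGT h] with ε hε
    rw [kc_eq, if_pos hε.2]

lemma int_mm (ε : ℝ) (F : E × E × S2 → ℝ) :
    ∫ p, F p ∂C3.mm ε = ∫ p, C3.kc ε p * F p ∂mu3 := by
  rw [C3.mm, integral_withDensity_eq_integral_toReal_smul (by fun_prop)
    (ae_of_all _ fun p => ENNReal.ofReal_lt_top)]
  simp only [ENNReal.toReal_ofReal (C3.kc_nonneg ε _), smul_eq_mul]

lemma integrable_mm (ε : ℝ) {F : E × E × S2 → ℝ}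
    (h : Integrable (fun p => C3.kc ε p * F p) mu3) : Integrable F (C3.mm ε) := by
  rw [C3.mm, integrable_withDensity_iff_integrable_smul' (by fun_prop)
    (ae_of_all _ fun p => ENNReal.ofReal_lt_top)]
  simpa only [ENNReal.toReal_ofReal (C3.kc_nonneg ε _), smul_eq_mul] using h

/-- two-sided cancellation -/
lemma abs_cancel (ε : ℝ) {H : E × E → ℝ} (hH : Measurable H)
    (h0 : Integrable (fun p : E × E × S2 => C3.kc ε p * H (p.1, p.2.1)) mu3)
    (h1 : Integrable (fun p : E × E × S2 => C3.kc ε p * H (p.1, w1 p)) mu3) (hE : C3.err H ≠ ⊤) :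
    |∫ p, C3.kc ε p * H (p.1, w1 p) ∂mu3 - ∫ p, C3.kc ε p * H (p.1, p.2.1) ∂mu3|
      ≤ 2 * (C3.err H).toReal := by
  have e : C3.err (fun z => -H z) = C3.err H := by simp only [C3.err, abs_neg]
  have i0 := integrable_mm ε h0
  have i1 := integrable_mm ε h1
  have a := C3.cancel ε hH i0 i1 hE
  have b := C3.cancel ε (H := fun z => -H z) hH.neg i0.neg i1.neg (e ▸ hE)
  rw [integral_neg, integral_neg, e] at b
  rw [int_mm, int_mm] at a b
  exact abs_le.2 ⟨by unfold w1; linarith, a⟩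

lemma inv_jb_le {q : ℕ} (hq : dd + 4 ≤ q) (a : ℝ) (z : E) :
    |a / jb z ^ q| ≤ 2 ^ (dd + 4) * om (dd + 4) z * |a| := by
  have h0 := jb_pos z
  rw [abs_div, abs_of_pos (pow_pos h0 q), div_eq_inv_mul]
  refine mul_le_mul_of_nonneg_right (le_om ?_) (abs_nonneg _)
  rw [← div_eq_mul_inv, div_le_iff₀ (pow_pos h0 q)]
  calc _ ≤ (2 * jb z) ^ (dd + 4) := by gcongr; exact le_two_jb z
    _ ≤ _ := by rw [mul_pow]; gcongr; exact one_le_jb z

lemma jb_mul_le {q : ℕ} {v : E} {a K : ℝ} (h : (1 + ‖v‖) ^ (q + 2 * pK) * |a| ≤ K) (b : ℝ) :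
    |jb v ^ q * b * a| ≤ K * om (dd + 4) v * |b| := by
  have h0 := jb_pos v
  rw [mul_right_comm, abs_mul, abs_mul, abs_of_pos (pow_pos h0 q)]
  refine mul_le_mul_of_nonneg_right (le_om (le_trans ?_ h)) (abs_nonneg _)
  rw [← mul_assoc, pow_add _ q, mul_comm _ (jb v ^ q)]
  gcongr
  · exact jb_le v
  · linarith [norm_nonneg v]
  · unfold pK; omega

end T2N

open T2N in
theorem t2N (hA : AngStmt) (hC : ConvStmt) (hR : RapStmt) : T2NStmt := by
  obtain ⟨C1, hC1, h1⟩ := kk_cs hA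
  obtain ⟨C2, hC2, h2⟩ := err_le hC
  intro q hq
  have hq' : dd + 4 ≤ q := by omega
  refine ⟨4 ^ (dd + 4) * C1 + 2 * (C2 * 2 ^ (dd + 4)), by positivity,
    fun K G f g rG rf rg hG => ?_⟩
  have hK := hG.nonneg
  have mG := rG.measurable
  have mf := rf.measurable
  have mg := rg.measurable
  obtain ⟨Kh, nh⟩ := hR.2.2.2.2 q f rf (dd + 4)
  obtain ⟨Kp, np⟩ := hR.2.2.2.1 q g rg 0
  obtain ⟨KG, nG⟩ := rG (dd + 4)
  set h : E → ℝ := fun w => f w / jb w ^ q with hh
  set ψ : E → ℝ := fun v => jb v ^ q * g v with hψ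
  have mh : Measurable h := nh.measurable
  have mψ : Measurable ψ := np.measurable
  have k1 := nh.nonneg
  have k2 := np.nonneg
  have k3 := nG.nonneg
  set X := Wn 0 f ^ (1 / 2 : ℝ) * Wn 0 g ^ (1 / 2 : ℝ) with hX
  have hXt : X ≠ ⊤ := ENNReal.mul_ne_top
    (ENNReal.rpow_ne_top_of_nonneg (by norm_num) (Wn_ne_top rf))
    (ENNReal.rpow_ne_top_of_nonneg (by norm_num) (Wn_ne_top rg))
  have hXr : X.toReal = √(wn 0 f) * √(wn 0 g) := by
    rw [hX, ENNReal.toReal_mul, toReal_rpow_half, toReal_rpow_half, wn, wn]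
  have hJ : ∀ p, wJ q h (fun v => jb v ^ q * G v) g p
      = h p.2.1 * G p.1 * (ψ (v1 p) - ψ p.1) := fun p => by
    simp only [wJ, hψ, ← xr_mul p, mul_pow]
    ring
  have pre : ∀ p : E × E × S2, |h p.2.1 * G p.1|
      ≤ Kh * KG * (om (dd + 4) p.1 * om (dd + 4) p.2.1) := fun p => by
    have := om_pos (dd + 4) p.2.1
    rw [abs_mul]
    calc _ ≤ Kh * om (dd + 4) p.2.1 * (KG * om (dd + 4) p.1) :=
          mul_le_mul (le_om (nh.1 _)) (le_om (nG.1 _)) (abs_nonneg _) (by positivity)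
      _ = _ := by ring
  have iN : Integrable (fun p => kn p * (h p.2.1 * G p.1 * (ψ (v1 p) - ψ p.1))) mu3 := by
    refine integ hA (by fun_prop) (c := Kh * KG * Kp) (by positivity) fun p => ?_
    rcases le_or_gt |rho p| 1 with hp | hp
    · have a1 := np.lip' p.1 (v1 p) ((norm_v1_sub p).le.trans hp)
      rw [pow_zero, one_mul, norm_v1_sub] at a1
      have a2 := kn_nonneg p
      rw [abs_mul, abs_mul, abs_of_nonneg a2]
      calc _ ≤ kn p * (Kh * KG * (om (dd + 4) p.1 * om (dd + 4) p.2.1) * (Kp * |rho p|)) :=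
            mul_le_mul_of_nonneg_left (mul_le_mul (pre p) a1 (abs_nonneg _)
              ((abs_nonneg _).trans (pre p))) a2
        _ = _ := by rw [kk]; ring
    · simp [kk, kn_neg hp]
  have hH : ∀ v z, |ψ v * G v * h z|
      ≤ 2 ^ (dd + 4) * K * (om (dd + 4) v * om (dd + 4) z) * (|g v| * |f z|) := fun v z => by
    have a1 := jb_mul_le (hG.1 v) (g v)
    rw [abs_mul]
    calc _ ≤ K * om (dd + 4) v * |g v| * (2 ^ (dd + 4) * om (dd + 4) z * |f z|) :=
          mul_le_mul a1 (inv_jb_le hq' _ z) (abs_nonneg _) ((abs_nonneg _).trans a1)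
      _ = _ := by ring
  have e1 := h2 (2 ^ (dd + 4) * K) (fun z => ψ z.1 * G z.1 * h z.2) f g (by positivity) mf mg hH
  have e2 : ENNReal.ofReal (C2 * (2 ^ (dd + 4) * K)) * X ≠ ⊤ :=
    ENNReal.mul_ne_top ENNReal.ofReal_ne_top hXt
  have e3 := ENNReal.toReal_mono e2 e1
  rw [ENNReal.toReal_mul, ENNReal.toReal_ofReal (by positivity), hXr] at e3
  simp only [hJ]
  refine le_of_tendsto (tendsto_integral_filter_of_dominated_convergence (l := 𝓝[>] (0 : ℝ))
    (F := fun ε p => C3.kc ε p * (h p.2.1 * G p.1 * (ψ (v1 p) - ψ p.1))) _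
    (Eventually.of_forall fun ε => (by fun_prop : Measurable _).aestronglyMeasurable)
    (Eventually.of_forall fun ε => ae_of_all _ fun p => ?_) iN.abs
    (ae_of_all _ fun p => (kc_tendsto p).mul_const _)).abs ?_
  · rw [Real.norm_eq_abs, abs_mul, abs_mul (kn p), abs_of_nonneg (C3.kc_nonneg ε p),
      abs_of_nonneg (kn_nonneg p)]
    exact mul_le_mul_of_nonneg_right (kc_le_kn ε p) (abs_nonneg _)
  filter_upwards [self_mem_nhdsWithin] with ε hε
  have hε' : 0 < ε := hε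
  have gen : ∀ y : E × E × S2 → E, Measurable y →
      Integrable (fun p => C3.kc ε p * (h p.2.1 * G p.1 * ψ (y p))) mu3 := by
    intro y hy
    refine integ hA (by fun_prop) (c := ε⁻¹ * (Kh * KG * Kp)) (by positivity) fun p => ?_
    have a2 := kn_nonneg p
    rw [abs_mul, abs_mul, abs_of_nonneg (C3.kc_nonneg ε p)]
    calc _ ≤ ε⁻¹ * (kn p * |rho p|) * (Kh * KG * (om (dd + 4) p.1 * om (dd + 4) p.2.1) * Kp) :=
          mul_le_mul (kc_le hε' p) (mul_le_mul (pre p) (np.abs_le _) (abs_nonneg _)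
            ((abs_nonneg _).trans (pre p))) (by positivity) (by positivity)
      _ = _ := by rw [kk]; ring
  have iA := gen v1 measurable_v1
  have iB := gen Prod.fst measurable_fst
  have l1 : I3 (fun p => |C3.kc ε p * (ψ p.1 * (G (v1 p) - G p.1) * h (w1 p))|)
      ≤ ENNReal.ofReal (4 ^ (dd + 4) * K) * (ENNReal.ofReal C1 * X) := by
    refine le_trans ?_ (mul_le_mul_right (h1 f g mf mg) _)
    rw [← I3_const_mul (by positivity)]
    refine I3_mono fun p => ?_
    rcases le_or_gt |rho p| 1 with hp | hp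
    · have a1 := hG.lip' p.1 (v1 p) ((norm_v1_sub p).le.trans hp)
      rw [norm_v1_sub] at a1
      have a2 := jb_mul_le a1 (g p.1)
      have a3 := (inv_jb_le hq' (f (w1 p)) (w1 p)).trans (mul_le_mul_of_nonneg_right
        (mul_le_mul_of_nonneg_left (om_near (dd + 4) ((norm_w1_sub p).le.trans hp))
          (by positivity)) (abs_nonneg _))
      rw [abs_mul, abs_mul, abs_of_nonneg (C3.kc_nonneg ε p)]
      calc _ ≤ kn p * (K * |rho p| * om (dd + 4) p.1 * |g p.1|
            * (2 ^ (dd + 4) * (2 ^ (dd + 4) * om (dd + 4) p.2.1) * |f (w1 p)|)) :=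
            mul_le_mul (kc_le_kn ε p) (mul_le_mul a2 a3 (abs_nonneg _) ((abs_nonneg _).trans a2))
              (by positivity) (kn_nonneg p)
        _ = _ := by rw [kk, show (4 : ℝ) = 2 * 2 by norm_num, mul_pow]; ring
    · have a1 : C3.kc ε p = 0 :=
        le_antisymm ((kc_le_kn ε p).trans (kn_neg hp).le) (C3.kc_nonneg ε p)
      simp [kk, kn_neg hp, a1]
  have l2 : ENNReal.ofReal (4 ^ (dd + 4) * K) * (ENNReal.ofReal C1 * X) ≠ ⊤ :=
    ENNReal.mul_ne_top ENNReal.ofReal_ne_top (ENNReal.mul_ne_top ENNReal.ofReal_ne_top hXt)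
  have i1 := integrable_of_I3 (by fun_prop) (ne_top_of_le_ne_top l2 l1)
  have b1 := abs_integral_le_I3 _ l2 l1
  rw [ENNReal.toReal_mul, ENNReal.toReal_mul, ENNReal.toReal_ofReal (by positivity),
    ENNReal.toReal_ofReal hC1.le, hXr] at b1
  have ec : ∀ p : E × E × S2, C3.kc ε (coll p) * (h (coll p).2.1 * G (coll p).1 * ψ (v1 (coll p)))
      = C3.kc ε p * (ψ p.1 * (G (v1 p) - G p.1) * h (w1 p))
        + C3.kc ε p * (ψ p.1 * G p.1 * h (w1 p)) := fun p => by
    rw [C3.kc_coll, v1_coll, coll_fst, coll_snd]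
    ring
  have j0 : Integrable (fun p : E × E × S2 => C3.kc ε p * (ψ p.1 * G p.1 * h p.2.1)) mu3 :=
    iB.congr (ae_of_all _ fun p => by ring)
  have j1 : Integrable (fun p : E × E × S2 => C3.kc ε p * (ψ p.1 * G p.1 * h (w1 p))) mu3 :=
    ((Integrable.coll iA).sub i1).congr (ae_of_all _ fun p => by
      simp only [Pi.sub_apply, ec, add_sub_cancel_left])
  have c1 := abs_cancel ε (H := fun z => ψ z.1 * G z.1 * h z.2) (by fun_prop) j0 j1
    (ne_top_of_le_ne_top e2 e1)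
  have s : ∫ p, C3.kc ε p * (h p.2.1 * G p.1 * (ψ (v1 p) - ψ p.1)) ∂mu3
      = ∫ p, C3.kc ε p * (ψ p.1 * (G (v1 p) - G p.1) * h (w1 p)) ∂mu3
        + (∫ p, C3.kc ε p * (ψ p.1 * G p.1 * h (w1 p)) ∂mu3
          - ∫ p, C3.kc ε p * (ψ p.1 * G p.1 * h p.2.1) ∂mu3) := by
    rw [← add_sub_assoc, ← integral_add i1 j1, ← funext ec,
      integral_coll fun p => C3.kc ε p * (h p.2.1 * G p.1 * ψ (v1 p)), ← integral_sub iA j0]
    exact integral_congr_ae (ae_of_all _ fun p => by ring)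
  rw [s]
  refine (abs_add_le _ _).trans ?_
  simp only at c1
  linarith

theorem t2 (hR : RapStmt) (hFin : FinStmt) (hF : T2FStmt) (hN : T2NStmt) : T2Stmt := by
  obtain ⟨C0, hC0, hF⟩ := hF
  refine ⟨C0, hC0, fun q hq => ?_⟩
  obtain ⟨C1, hC1, hF⟩ := hF q hq
  obtain ⟨C2, hC2, hN⟩ := hN q hq
  refine ⟨C1 + C2, by positivity, fun K0 K G f g rG rf rg h0 hG => ?_⟩
  have hK := hG.nonneg
  have hK0 : 0 ≤ K0 := nonneg_of_mul_nonneg_left ((abs_nonneg _).trans (h0 0)) (iw_pos 0)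
  have mG := rG.measurable
  have mf := rf.measurable
  have mg := rg.measurable
  have i0 := (hFin.2.2 q _ _ g (hR.2.2.2.2 q f rf) (hR.2.2.2.1 q G rG) rg).1
  have fin : ∀ (c r : ℝ), ENNReal.ofReal c * (Wn r f ^ (1 / 2 : ℝ) * Wn r g ^ (1 / 2 : ℝ)) ≠ ⊤ :=
    fun c r => ENNReal.mul_ne_top ENNReal.ofReal_ne_top (ENNReal.mul_ne_top
      (ENNReal.rpow_ne_top_of_nonneg (by norm_num) (hFin.2.1 r f rf))
      (ENNReal.rpow_ne_top_of_nonneg (by norm_num) (hFin.2.1 r g rg)))
  have l1 := hF K0 K G f g mG mf mg h0 hG.1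
  have l2 := ENNReal.add_ne_top.2 ⟨fin (C0 * K0) gm, fin (C1 * K) 0⟩
  have b1 := abs_integral_le_I3 _ l2 l1
  have i1 := integrable_of_I3 (by unfold wJ; fun_prop) (ne_top_of_le_ne_top l2 l1)
  have b2 := hN K G f g rG rf rg hG
  simp only [ENNReal.toReal_add (fin _ _) (fin _ _), ENNReal.toReal_mul, toReal_rpow_half,
    ENNReal.toReal_ofReal (mul_nonneg hC0.le hK0), ENNReal.toReal_ofReal (mul_nonneg hC1.le hK)]
    at b1
  have e : ∀ p, kn p * wJ q (fun w => f w / jb w ^ q) (fun v => jb v ^ q * G v) g p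
      = wI q (fun w => f w / jb w ^ q) (fun v => jb v ^ q * G v) g p
        - kf p * wJ q (fun w => f w / jb w ^ q) (fun v => jb v ^ q * G v) g p := fun p => by
    rw [wI, ← kn_add_kf]
    ring
  simp only [e] at b2
  rw [integral_sub i0 i1] at b2
  have b3 := abs_add_le (wk q (fun w => f w / jb w ^ q) (fun v => jb v ^ q * G v) g
    - ∫ p, kf p * wJ q (fun w => f w / jb w ^ q) (fun v => jb v ^ q * G v) g p ∂mu3)
    (∫ p, kf p * wJ q (fun w => f w / jb w ^ q) (fun v => jb v ^ q * G v) g p ∂mu3)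
  rw [sub_add_cancel] at b3
  unfold wn wk at *
  linarith

end Pool.Agent.BoltzM.HC
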